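import Pool.Agent.LYN.Basic

set_option autoImplicit false

/-!
# LYN, part 3 (Host's criterion with finite windows): sums over translations
-/

open MeasureTheory Filter Topology
open scoped ENNReal

namespace Pool.Agent.LYN

noncomputable section

lemma H_ee_pow (θ : ℝ) (c : ℕ) : ee (c * θ) = ee θ ^ c := by
  induction c with
  | zero => simp [ee_zero]
  | succ c ih =>
    rw [pow_succ, ← ih, ← ee_add]
    congr 1
    push_cast
    ring

lemma H_ee_eq_one {θ : ℝ} (h : ee θ = 1) : ∃ n : ℤ, θ = n := by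
  unfold ee at h
  obtain ⟨n, hn⟩ := Complex.exp_eq_one_iff.1 h
  refine ⟨n, ?_⟩
  have h1 : (2 * (Real.pi : ℂ) * Complex.I) * ((θ : ℂ) - n) = 0 := by
    rw [mul_sub, hn]
    ring
  have h2 : (2 * (Real.pi : ℂ) * Complex.I) ≠ 0 := by
    simp [Real.pi_ne_zero]
  have h3 : (θ : ℂ) - n = 0 := (mul_eq_zero.1 h1).resolve_left h2
  have h4 : (θ : ℂ) = ((n : ℝ) : ℂ) := by
    rw [sub_eq_zero] at h3
    rw [h3]
    simp
  exact_mod_cast h4

/-- sums of roots of unity -/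
lemma H_root (P : ℕ) (hP : 0 < P) (b : ℤ) :
    ‖∑ c ∈ Finset.range P, ee ((c : ℝ) * ((b : ℝ) / P))‖ ≤ if (P : ℤ) ∣ b then (P : ℝ) else 0 := by
  have hP' : (P : ℝ) ≠ 0 := by exact_mod_cast hP.ne'
  split_ifs with h
  · refine (norm_sum_le _ _).trans ?_
    simp [norm_ee]
  · have hz : ee ((b : ℝ) / P) ≠ 1 := by
      intro h1
      obtain ⟨n, hn⟩ := H_ee_eq_one h1
      apply h
      refine ⟨n, ?_⟩
      rw [div_eq_iff hP'] at hn
      have : (b : ℝ) = ((P : ℤ) * n : ℤ) := by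
        rw [hn]
        push_cast
        ring
      exact_mod_cast this
    have h2 : ∑ c ∈ Finset.range P, ee ((c : ℝ) * ((b : ℝ) / P)) =
        ∑ c ∈ Finset.range P, ee ((b : ℝ) / P) ^ c :=
      Finset.sum_congr rfl fun c _ => H_ee_pow _ c
    rw [h2, geom_sum_eq hz]
    have h3 : ee ((b : ℝ) / P) ^ P = 1 := by
      rw [← H_ee_pow, mul_div_cancel₀ _ hP']
      exact ee_int b
    rw [h3]
    simp

/-- the square of the averages -/
lemma H_sq (q : ℕ) (a : ℤ) (N : ℕ) (z : UnitAddCircle) : ((‖wav q a z N‖ ^ 2 : ℝ) : ℂ) =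
    (1 / (N : ℂ)) ^ 2 * ∑ i ∈ Finset.range N, ∑ j ∈ Finset.range N,
      (fourier (a * (q : ℤ) ^ i - a * (q : ℤ) ^ j) : C(UnitAddCircle, ℂ)) z := by
  have h1 : ((‖wav q a z N‖ ^ 2 : ℝ) : ℂ) = wav q a z N * (starRingEnd ℂ) (wav q a z N) := by
    rw [Complex.mul_conj, Complex.normSq_eq_norm_sq]
  rw [h1, wav_eq, map_mul, map_sum]
  have h2 : (starRingEnd ℂ) (1 / (N : ℂ)) = 1 / (N : ℂ) := by
    rw [map_div₀, map_one, Complex.conj_natCast]
  rw [h2]
  have h3 : (∑ i ∈ Finset.range N, (fourier (a * (q : ℤ) ^ i) : C(UnitAddCircle, ℂ)) z) *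
      ∑ j ∈ Finset.range N, (starRingEnd ℂ)
        ((fourier (a * (q : ℤ) ^ j) : C(UnitAddCircle, ℂ)) z) =
      ∑ i ∈ Finset.range N, ∑ j ∈ Finset.range N,
        (fourier (a * (q : ℤ) ^ i - a * (q : ℤ) ^ j) : C(UnitAddCircle, ℂ)) z := by
    rw [Finset.sum_mul_sum]
    refine Finset.sum_congr rfl fun i _ => Finset.sum_congr rfl fun j _ => ?_
    exact fourier_mul_conj _ _ _
  rw [← h3]
  ring

/-- the sum over the translates by the multiples of `1 / p ^ n` is bounded -/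
theorem H_cos (hMUL : T_MUL) (p q : ℕ) (a : ℤ) (hp : 2 ≤ p) (hq : 2 ≤ q)
    (hpq : Nat.Coprime q p) (ha : a ≠ 0) : ∃ C : ℝ, 0 < C ∧
    ∀ (t : UnitAddCircle) (n N : ℕ), p ^ n ≤ N →
      ∑ c ∈ Finset.range (p ^ n),
        ‖wav q a (t - (((c : ℝ) / (p : ℝ) ^ n : ℝ) : UnitAddCircle)) N‖ ^ 2 ≤ C := by
  obtain ⟨C, hC0, hC⟩ := hMUL q p a hq hp hpq ha
  refine ⟨C, by exact_mod_cast hC0, fun t n N hN => ?_⟩
  set P : ℕ := p ^ n with hP
  have hP0 : 0 < P := by positivity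
  have hN0 : 0 < N := lt_of_lt_of_le hP0 hN
  have hNr : (0 : ℝ) < N := by exact_mod_cast hN0
  have hPr : (p : ℝ) ^ n = (P : ℝ) := by
    rw [hP]
    push_cast
    rfl
  have hterm : ∀ (b : ℤ) (c : ℕ), (fourier b : C(UnitAddCircle, ℂ))
      (t - (((c : ℝ) / (p : ℝ) ^ n : ℝ) : UnitAddCircle)) =
      (fourier b : C(UnitAddCircle, ℂ)) t * ee ((c : ℝ) * (((-b : ℤ) : ℝ) / P)) := by
    intro b c
    have h1 : t - (((c : ℝ) / (p : ℝ) ^ n : ℝ) : UnitAddCircle) =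
        t + (((-((c : ℝ) / (P : ℝ)) : ℝ)) : UnitAddCircle) := by
      rw [hPr, sub_eq_add_neg, AddCircle.coe_neg]
    rw [h1, fourier_add_pt, fourier_coe]
    congr 2
    push_cast
    ring
  have hsum : ((∑ c ∈ Finset.range P,
      ‖wav q a (t - (((c : ℝ) / (p : ℝ) ^ n : ℝ) : UnitAddCircle)) N‖ ^ 2 : ℝ) : ℂ) =
      (1 / (N : ℂ)) ^ 2 * ∑ i ∈ Finset.range N, ∑ j ∈ Finset.range N,
        (fourier (a * (q : ℤ) ^ i - a * (q : ℤ) ^ j) : C(UnitAddCircle, ℂ)) t *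
        ∑ c ∈ Finset.range P,
          ee ((c : ℝ) * (((-(a * (q : ℤ) ^ i - a * (q : ℤ) ^ j) : ℤ) : ℝ) / P)) := by
    rw [Complex.ofReal_sum]
    simp only [H_sq]
    rw [← Finset.mul_sum, Finset.sum_comm]
    congr 1
    refine Finset.sum_congr rfl fun i _ => ?_
    rw [Finset.sum_comm]
    refine Finset.sum_congr rfl fun j _ => ?_
    rw [Finset.mul_sum]
    exact Finset.sum_congr rfl fun c _ => hterm _ c
  have hnn : 0 ≤ ∑ c ∈ Finset.range P,
      ‖wav q a (t - (((c : ℝ) / (p : ℝ) ^ n : ℝ) : UnitAddCircle)) N‖ ^ 2 :=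
    Finset.sum_nonneg fun c _ => by positivity
  have hnorm : ∑ c ∈ Finset.range P,
      ‖wav q a (t - (((c : ℝ) / (p : ℝ) ^ n : ℝ) : UnitAddCircle)) N‖ ^ 2 =
      ‖((∑ c ∈ Finset.range P,
      ‖wav q a (t - (((c : ℝ) / (p : ℝ) ^ n : ℝ) : UnitAddCircle)) N‖ ^ 2 : ℝ) : ℂ)‖ := by
    rw [Complex.norm_real, Real.norm_eq_abs, abs_of_nonneg hnn]
  rw [hnorm, hsum, norm_mul, norm_pow, norm_div, norm_one, Complex.norm_natCast]
  -- bound of the double sum
  have hrow : ∀ j ∈ Finset.range N, ∑ i ∈ Finset.range N,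
      (if (P : ℤ) ∣ a * (q : ℤ) ^ i - a * (q : ℤ) ^ j then (P : ℝ) else 0) ≤ C * N := by
    intro j _
    rw [← Finset.sum_filter, Finset.sum_const, nsmul_eq_mul]
    have h1 := hC n N (a * (q : ℤ) ^ j) (by rw [← hP]; exact hN)
    rw [← hP] at h1
    have h2 : ((p : ℤ)) ^ n = (P : ℤ) := by
      rw [hP]
      push_cast
      rfl
    rw [h2] at h1
    exact_mod_cast h1
  have hdbl : ‖∑ i ∈ Finset.range N, ∑ j ∈ Finset.range N,
        (fourier (a * (q : ℤ) ^ i - a * (q : ℤ) ^ j) : C(UnitAddCircle, ℂ)) t *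
        ∑ c ∈ Finset.range P,
          ee ((c : ℝ) * (((-(a * (q : ℤ) ^ i - a * (q : ℤ) ^ j) : ℤ) : ℝ) / P))‖ ≤
      N * (C * N) := by
    calc _ ≤ ∑ i ∈ Finset.range N, ∑ j ∈ Finset.range N,
          (if (P : ℤ) ∣ a * (q : ℤ) ^ i - a * (q : ℤ) ^ j then (P : ℝ) else 0) := by
          refine (norm_sum_le _ _).trans (Finset.sum_le_sum fun i _ => ?_)
          refine (norm_sum_le _ _).trans (Finset.sum_le_sum fun j _ => ?_)
          rw [norm_mul, fourier_norm, one_mul]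
          refine (H_root P hP0 _).trans (le_of_eq ?_)
          simp only [Int.dvd_neg]
      _ = ∑ j ∈ Finset.range N, ∑ i ∈ Finset.range N,
          (if (P : ℤ) ∣ a * (q : ℤ) ^ i - a * (q : ℤ) ^ j then (P : ℝ) else 0) :=
          Finset.sum_comm
      _ ≤ ∑ _j ∈ Finset.range N, (C * N : ℝ) := Finset.sum_le_sum hrow
      _ = N * (C * N) := by simp
  calc (1 / (N : ℝ)) ^ 2 * _ ≤ (1 / (N : ℝ)) ^ 2 * (N * (C * N)) :=
        mul_le_mul_of_nonneg_left hdbl (by positivity)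
    _ = C := by field_simp

/-- the averages do not change much on small intervals -/
theorem H_lip (q : ℕ) (a : ℤ) (hq : 1 ≤ q) (x : UnitAddCircle) (s : ℝ) (N : ℕ) :
    ‖wav q a (x + (s : UnitAddCircle)) N‖ ^ 2 ≤
      ‖wav q a x N‖ ^ 2 + 4 * Real.pi * |(a : ℝ)| * (q : ℝ) ^ N * |s| := by
  have hq' : (1 : ℝ) ≤ q := by exact_mod_cast hq
  have hd : ‖wav q a (x + (s : UnitAddCircle)) N - wav q a x N‖ ≤
      2 * Real.pi * |(a : ℝ)| * (q : ℝ) ^ N * |s| := by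
    rw [wav_eq, wav_eq, ← mul_sub, ← Finset.sum_sub_distrib, norm_mul, norm_div, norm_one,
      Complex.norm_natCast]
    rcases Nat.eq_zero_or_pos N with rfl | hN
    · simp
      positivity
    have hNr : (0 : ℝ) < N := by exact_mod_cast hN
    have hS : ‖∑ j ∈ Finset.range N, ((fourier (a * (q : ℤ) ^ j) : C(UnitAddCircle, ℂ))
        (x + (s : UnitAddCircle)) - (fourier (a * (q : ℤ) ^ j) : C(UnitAddCircle, ℂ)) x)‖ ≤
        ∑ _j ∈ Finset.range N, 2 * Real.pi * |(a : ℝ)| * (q : ℝ) ^ N * |s| := by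
      refine (norm_sum_le _ _).trans (Finset.sum_le_sum fun j hj => ?_)
      rw [Finset.mem_range] at hj
      rw [fourier_add_pt]
      have h1 : (fourier (a * (q : ℤ) ^ j) : C(UnitAddCircle, ℂ)) x *
          (fourier (a * (q : ℤ) ^ j) : C(UnitAddCircle, ℂ)) (s : UnitAddCircle) -
          (fourier (a * (q : ℤ) ^ j) : C(UnitAddCircle, ℂ)) x =
          (fourier (a * (q : ℤ) ^ j) : C(UnitAddCircle, ℂ)) x *
          (ee (((a * (q : ℤ) ^ j : ℤ) : ℝ) * s) - ee 0) := by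
        rw [fourier_coe, ee_zero]
        ring
      rw [h1, norm_mul, fourier_norm, one_mul]
      refine (ee_lip _ _).trans ?_
      rw [sub_zero, abs_mul]
      push_cast
      rw [abs_mul, abs_of_nonneg (by positivity : (0 : ℝ) ≤ (q : ℝ) ^ j)]
      have h2 : (q : ℝ) ^ j ≤ (q : ℝ) ^ N := pow_le_pow_right₀ hq' hj.le
      calc 2 * Real.pi * (|(a : ℝ)| * (q : ℝ) ^ j * |s|) ≤
          2 * Real.pi * (|(a : ℝ)| * (q : ℝ) ^ N * |s|) := by gcongr
        _ = _ := by ring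
    rw [Finset.sum_const, Finset.card_range, nsmul_eq_mul] at hS
    calc 1 / (N : ℝ) * _ ≤ 1 / (N : ℝ) * (N * (2 * Real.pi * |(a : ℝ)| * (q : ℝ) ^ N * |s|)) :=
          mul_le_mul_of_nonneg_left hS (by positivity)
      _ = _ := by field_simp
  have h1 := norm_wav_le q a (x + (s : UnitAddCircle)) N
  have h2 := norm_wav_le q a x N
  have h3 : ‖wav q a (x + (s : UnitAddCircle)) N‖ - ‖wav q a x N‖ ≤
      2 * Real.pi * |(a : ℝ)| * (q : ℝ) ^ N * |s| := (norm_sub_norm_le _ _).trans hd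
  have h4 : (0 : ℝ) ≤ 2 * Real.pi * |(a : ℝ)| * (q : ℝ) ^ N * |s| := by positivity
  have h5 := norm_nonneg (wav q a (x + (s : UnitAddCircle)) N)
  have h6 := norm_nonneg (wav q a x N)
  nlinarith [mul_nonneg h5 h4, mul_nonneg h6 h4]

end

end Pool.Agent.LYN
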