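import Pool.Agent.LYN.Basic

set_option autoImplicit false

/-!
# LYN, part 4: expansions in base `p`
-/

open MeasureTheory Filter Topology
open scoped ENNReal

namespace Pool.Agent.LYN

noncomputable section

/-- the number with digits `c` -/
def Dg (p : ℕ) (c : ℕ → ℕ) : ℝ := ∑' t, (c t : ℝ) / (p : ℝ) ^ (t + 1)

lemma Dg_geo (p : ℕ) (hp : 2 ≤ p) : HasSum (fun t : ℕ => ((p : ℝ) - 1) / (p : ℝ) ^ (t + 1)) 1 := by
  have hp0 : (0 : ℝ) < p := by exact_mod_cast (by omega : 0 < p)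
  have hp1 : (1 : ℝ) < p := by exact_mod_cast (by omega : 1 < p)
  have h1 : HasSum (fun t : ℕ => ((p : ℝ)⁻¹) ^ t) (1 - (p : ℝ)⁻¹)⁻¹ :=
    hasSum_geometric_of_lt_one (by positivity) (inv_lt_one_of_one_lt₀ hp1)
  have h2 := h1.mul_left (((p : ℝ) - 1) / p)
  have h3 : ((p : ℝ) - 1) / p * (1 - (p : ℝ)⁻¹)⁻¹ = 1 := by
    have : (p : ℝ) - 1 ≠ 0 := by linarith
    have h4 : 1 - (p : ℝ)⁻¹ = ((p : ℝ) - 1) / p := by field_simp
    rw [h4]
    field_simp
  rw [h3] at h2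
  refine h2.congr_fun fun t => ?_
  rw [inv_pow, pow_succ]
  field_simp

lemma Dg_summable (p : ℕ) (hp : 2 ≤ p) (c : ℕ → ℕ) (hc : ∀ t, c t < p) :
    Summable fun t : ℕ => (c t : ℝ) / (p : ℝ) ^ (t + 1) := by
  refine Summable.of_nonneg_of_le (fun t => by positivity) (fun t => ?_) (Dg_geo p hp).summable
  have h1 : (c t : ℝ) ≤ (p : ℝ) - 1 := by
    have : c t + 1 ≤ p := hc t
    have h2 : ((c t + 1 : ℕ) : ℝ) ≤ p := by exact_mod_cast this
    push_cast at h2
    linarith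
  gcongr

lemma Dg_nonneg (p : ℕ) (c : ℕ → ℕ) : 0 ≤ Dg p c := tsum_nonneg fun t => by positivity

lemma Dg_le (p : ℕ) (hp : 2 ≤ p) (c : ℕ → ℕ) (hc : ∀ t, c t < p) : Dg p c ≤ 1 := by
  rw [← (Dg_geo p hp).tsum_eq]
  refine (Dg_summable p hp c hc).tsum_le_tsum (fun t => ?_) (Dg_geo p hp).summable
  have h1 : (c t : ℝ) ≤ (p : ℝ) - 1 := by
    have : c t + 1 ≤ p := hc t
    have h2 : ((c t + 1 : ℕ) : ℝ) ≤ p := by exact_mod_cast this
    push_cast at h2
    linarith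
  gcongr

/-- the shift -/
lemma Dg_shift (p : ℕ) (hp : 2 ≤ p) (c : ℕ → ℕ) (hc : ∀ t, c t < p) (M : ℕ) :
    Dg p c = ∑ t ∈ Finset.range M, (c t : ℝ) / (p : ℝ) ^ (t + 1) +
      Dg p (fun t => c (t + M)) / (p : ℝ) ^ M := by
  have hp0 : (0 : ℝ) < p := by exact_mod_cast (by omega : 0 < p)
  unfold Dg
  rw [← (Dg_summable p hp c hc).sum_add_tsum_nat_add M, ← tsum_div_const]
  congr 1
  refine tsum_congr fun t => ?_
  rw [div_div, ← pow_add]
  congr 2
  ring

lemma Dg_tail (p : ℕ) (hp : 2 ≤ p) (c : ℕ → ℕ) (hc : ∀ t, c t < p) (M : ℕ) :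
    |Dg p c - ∑ t ∈ Finset.range M, (c t : ℝ) / (p : ℝ) ^ (t + 1)| ≤ 1 / (p : ℝ) ^ M := by
  have hp0 : (0 : ℝ) < p := by exact_mod_cast (by omega : 0 < p)
  rw [Dg_shift p hp c hc M, add_sub_cancel_left, abs_of_nonneg]
  · have := Dg_le p hp (fun t => c (t + M)) fun t => hc _
    gcongr
  · have := Dg_nonneg p fun t => c (t + M)
    positivity

lemma Dg_mul (p : ℕ) (hp : 2 ≤ p) (c : ℕ → ℕ) (hc : ∀ t, c t < p) :
    (p : ℝ) * Dg p c = c 0 + Dg p (fun t => c (t + 1)) := by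
  have hp0 : (0 : ℝ) < p := by exact_mod_cast (by omega : 0 < p)
  have h1 := Dg_shift p hp c hc 1
  rw [Finset.sum_range_one] at h1
  rw [h1]
  simp only [zero_add, pow_one]
  field_simp

lemma coe_nat (l : ℕ) : ((l : ℝ) : UnitAddCircle) = 0 := by
  rw [AddCircle.coe_eq_zero_iff]
  exact ⟨l, by simp⟩

lemma Dg_nsmul (p : ℕ) (hp : 2 ≤ p) (c : ℕ → ℕ) (hc : ∀ t, c t < p) :
    p • ((Dg p c : ℝ) : UnitAddCircle) =
      ((Dg p (fun t => c (t + 1)) : ℝ) : UnitAddCircle) := by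
  rw [← AddCircle.coe_nsmul, nsmul_eq_mul, Dg_mul p hp c hc, AddCircle.coe_add, coe_nat, zero_add]

lemma Dg_nsmul_pow (p : ℕ) (hp : 2 ≤ p) (c : ℕ → ℕ) (hc : ∀ t, c t < p) (n : ℕ) :
    (p ^ n) • ((Dg p c : ℝ) : UnitAddCircle) =
      ((Dg p (fun t => c (t + n)) : ℝ) : UnitAddCircle) := by
  induction n with
  | zero => simp
  | succ n ih =>
    rw [pow_succ, mul_comm, mul_smul, ih, Dg_nsmul p hp _ fun t => hc _]
    congr 3
    funext t
    congr 1
    ring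

/-- uniqueness of expansions -/
lemma Dg_inj (p : ℕ) (hp : 2 ≤ p) (c c' : ℕ → ℕ) (hc : ∀ t, c t < p) (hc' : ∀ t, c' t < p)
    (h0 : ∀ n, (p ^ n) • ((Dg p c : ℝ) : UnitAddCircle) ≠ 0)
    (he : ((Dg p c : ℝ) : UnitAddCircle) = ((Dg p c' : ℝ) : UnitAddCircle)) : c = c' := by
  -- real numbers with integer difference
  have hint : ∀ n, 0 < Dg p (fun t => c (t + n)) ∧ Dg p (fun t => c (t + n)) < 1 := by
    intro n
    have h1 := h0 n
    rw [Dg_nsmul_pow p hp c hc] at h1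
    have h2 := Dg_nonneg p fun t => c (t + n)
    have h3 := Dg_le p hp (fun t => c (t + n)) fun t => hc _
    refine ⟨lt_of_le_of_ne h2 fun h => h1 ?_, lt_of_le_of_ne h3 fun h => h1 ?_⟩
    · rw [← h]
      exact AddCircle.coe_zero _
    · rw [h]
      exact AddCircle.coe_period 1
  have h0' : ∀ n, (p ^ n) • ((Dg p c' : ℝ) : UnitAddCircle) ≠ 0 := by
    intro n
    rw [← he]
    exact h0 n
  have hint' : ∀ n, 0 < Dg p (fun t => c' (t + n)) ∧ Dg p (fun t => c' (t + n)) < 1 := by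
    intro n
    have h1 := h0' n
    rw [Dg_nsmul_pow p hp c' hc'] at h1
    have h2 := Dg_nonneg p fun t => c' (t + n)
    have h3 := Dg_le p hp (fun t => c' (t + n)) fun t => hc' _
    refine ⟨lt_of_le_of_ne h2 fun h => h1 ?_, lt_of_le_of_ne h3 fun h => h1 ?_⟩
    · rw [← h]
      exact AddCircle.coe_zero _
    · rw [h]
      exact AddCircle.coe_period 1
  have hreal : ∀ n, Dg p (fun t => c (t + n)) = Dg p (fun t => c' (t + n)) := by
    intro n
    have h1 : ((Dg p (fun t => c (t + n)) : ℝ) : UnitAddCircle) =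
        ((Dg p (fun t => c' (t + n)) : ℝ) : UnitAddCircle) := by
      rw [← Dg_nsmul_pow p hp c hc, ← Dg_nsmul_pow p hp c' hc', he]
    have h2 : ((Dg p (fun t => c (t + n)) - Dg p (fun t => c' (t + n)) : ℝ) : UnitAddCircle) =
        0 := by
      rw [AddCircle.coe_sub, h1, sub_self]
    rw [AddCircle.coe_eq_zero_iff] at h2
    obtain ⟨l, hl⟩ := h2
    obtain ⟨h3, h4⟩ := hint n
    obtain ⟨h5, h6⟩ := hint' n
    have h7 : (l : ℝ) = Dg p (fun t => c (t + n)) - Dg p (fun t => c' (t + n)) := by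
      rw [← hl]
      simp
    have h8 : (-1 : ℝ) < l := by linarith
    have h9 : (l : ℝ) < 1 := by linarith
    have h10 : (-1 : ℤ) < l := by exact_mod_cast h8
    have h11 : l < 1 := by exact_mod_cast h9
    have h12 : l = 0 := by omega
    rw [h12] at h7
    simp only [Int.cast_zero] at h7
    linarith
  funext n
  have h1 := Dg_mul p hp (fun t => c (t + n)) fun t => hc _
  have h2 := Dg_mul p hp (fun t => c' (t + n)) fun t => hc' _
  have h3 : (fun t => c (t + 1 + n)) = fun t => c (t + (n + 1)) := by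
    funext t
    congr 1
    ring
  have h4 : (fun t => c' (t + 1 + n)) = fun t => c' (t + (n + 1)) := by
    funext t
    congr 1
    ring
  rw [h3] at h1
  rw [h4] at h2
  rw [hreal n, h2, hreal (n + 1)] at h1
  simp only [zero_add] at h1
  have h5 : (c n : ℝ) = c' n := by linarith
  exact_mod_cast h5

end

end Pool.Agent.LYN
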