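import Pool.Agent.LYN.P_SEC

set_option autoImplicit false

/-!
# LYN, part 4: second moment of the averages for a general random point
-/

open MeasureTheory Filter Topology
open scoped ENNReal

namespace Pool.Agent.LYN

noncomputable section

/-- the Fourier coefficients of the random point `X` are bounded by those of random digits -/
def FB {Ω : Type} [MeasurableSpace Ω] (P : Measure Ω) (X : Ω → UnitAddCircle) (ε : ℝ)
    (p M : ℕ) : Prop := ∀ (b : ℤ) (L m : ℕ), m + L ≤ M →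
  ‖∫ ω, (fourier b : C(UnitAddCircle, ℂ)) (X ω) ∂P‖ ≤
    Ps ε p L m b + 2 * Real.pi * |(b : ℝ)| / (p : ℝ) ^ M

/-- second moment of the averages, for a random point -/
theorem secA (hP : T_PAIR) (p v w Q R K : ℕ) (a : ℤ) (hstd : Std p w Q R K) (ha : a ≠ 0) :
    ∃ C κ : ℝ, 0 < C ∧ 0 < κ ∧ κ ≤ 1 ∧
    ∀ (Ω : Type) [MeasurableSpace Ω] (P : Measure Ω) [IsProbabilityMeasure P]
    (f : Ω → UnitAddCircle) (ε : ℝ) (M L N : ℕ), 2 ≤ p → Measurable f → 0 ≤ ε → ε ≤ 1 / 2 →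
    FB P f ε p M → 1 ≤ L → p ^ L ≤ N → v * N + L ≤ M →
    ∫ ω, ‖wav (p ^ v * w) a (f ω) N‖ ^ 2 ∂P ≤
      C * (L / N + (1 - κ * ε) ^ L) +
        2 * Real.pi * |(a : ℝ)| * (p ^ v * w : ℝ) ^ N / (p : ℝ) ^ M := by
  obtain ⟨C, κ, hC, hκ, hκ1, hpair⟩ := hP p v w Q R K a hstd ha
  refine ⟨2 * C + 1, κ, by positivity, hκ, hκ1, ?_⟩
  intro Ω _ P _ f ε M L N hp hfm hε0 hε hFB hL hLN hM
  have hN : 0 < N := lt_of_lt_of_le (pow_pos (by omega) L) hLN
  have hNr : (0 : ℝ) < N := by exact_mod_cast hN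
  set q : ℕ := p ^ v * w with hq
  have hw2 := hstd.w2
  have hq1 : 1 ≤ q := Nat.mul_pos (pow_pos (by omega) v) (by omega)
  have hq1r : (1 : ℝ) ≤ q := by exact_mod_cast hq1
  have hfom : ∀ b : ℤ, Measurable fun D => (fourier b : C(UnitAddCircle, ℂ)) (f D) := fun b =>
    ((fourier b : C(UnitAddCircle, ℂ)).continuous.measurable).comp hfm
  have hint : ∀ b : ℤ, Integrable (fun D => (fourier b : C(UnitAddCircle, ℂ)) (f D)) P :=
    fun b => Integrable.of_bound (hfom b).aestronglyMeasurable 1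
      (Eventually.of_forall fun D => (fourier_norm b _).le)
  set F : ℤ → ℂ := fun b => ∫ D, (fourier b : C(UnitAddCircle, ℂ)) (f D) ∂P with hFdef
  have hF1 : ∀ b, ‖F b‖ ≤ 1 := by
    intro b
    refine (norm_integral_le_integral_norm _).trans ?_
    simp only [fourier_norm]
    simp
  have hFneg : ∀ b, ‖F (-b)‖ = ‖F b‖ := by
    intro b
    have h1 : F (-b) = (starRingEnd ℂ) (F b) := by
      simp only [hFdef]
      rw [← integral_conj]
      refine integral_congr_ae (Eventually.of_forall fun D => ?_)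
      exact fourier_neg
    rw [h1, RCLike.norm_conj]
  -- the square
  have hsq : ∀ z : UnitAddCircle, ((‖wav q a z N‖ ^ 2 : ℝ) : ℂ) =
      (1 / (N : ℂ)) ^ 2 * ∑ i ∈ Finset.range N, ∑ j ∈ Finset.range N,
        (fourier (a * (q : ℤ) ^ i - a * (q : ℤ) ^ j) : C(UnitAddCircle, ℂ)) z := by
    intro z
    have h1 : ((‖wav q a z N‖ ^ 2 : ℝ) : ℂ) = wav q a z N * (starRingEnd ℂ) (wav q a z N) := by
      rw [Complex.mul_conj, Complex.normSq_eq_norm_sq]
    rw [h1, wav_eq, map_mul, map_sum]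
    have h2 : (starRingEnd ℂ) (1 / (N : ℂ)) = 1 / (N : ℂ) := by
      rw [map_div₀, map_one, Complex.conj_natCast]
    rw [h2]
    have h3 : (∑ i ∈ Finset.range N, (fourier (a * (q : ℤ) ^ i) : C(UnitAddCircle, ℂ)) z) *
        ∑ j ∈ Finset.range N, (starRingEnd ℂ)
          ((fourier (a * (q : ℤ) ^ j) : C(UnitAddCircle, ℂ)) z) =
        ∑ i ∈ Finset.range N, ∑ j ∈ Finset.range N,
          (fourier (a * (q : ℤ) ^ i - a * (q : ℤ) ^ j) : C(UnitAddCircle, ℂ)) z := by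
      rw [Finset.sum_mul_sum]
      refine Finset.sum_congr rfl fun i _ => Finset.sum_congr rfl fun j _ => ?_
      exact fourier_mul_conj _ _ _
    rw [← h3]
    ring
  have hI : ((∫ D, ‖wav q a (f D) N‖ ^ 2 ∂P : ℝ) : ℂ) =
      (1 / (N : ℂ)) ^ 2 * ∑ i ∈ Finset.range N, ∑ j ∈ Finset.range N,
        F (a * (q : ℤ) ^ i - a * (q : ℤ) ^ j) := by
    rw [← integral_complex_ofReal]
    simp only [hsq]
    rw [integral_const_mul, integral_finsetSum _ fun i _ =>
      integrable_finsetSum _ fun j _ => hint _]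
    congr 1
    refine Finset.sum_congr rfl fun i _ => ?_
    rw [integral_finsetSum _ fun j _ => hint _]
  have hI0 : 0 ≤ ∫ D, ‖wav q a (f D) N‖ ^ 2 ∂P := integral_nonneg fun D => by positivity
  set g : ℕ → ℕ → ℝ := fun i j => ‖F (a * (q : ℤ) ^ i - a * (q : ℤ) ^ j)‖ with hg
  have hgs : ∀ i j, g i j = g j i := by
    intro i j
    simp only [hg]
    rw [← hFneg]
    congr 2
    ring
  have hgd : ∀ i, g i i ≤ 1 := fun i => hF1 _
  have hI1 : ∫ D, ‖wav q a (f D) N‖ ^ 2 ∂P ≤ (1 / (N : ℝ)) ^ 2 *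
      ∑ i ∈ Finset.range N, ∑ j ∈ Finset.range N, g i j := by
    have h1 : ∫ D, ‖wav q a (f D) N‖ ^ 2 ∂P =
        ‖((∫ D, ‖wav q a (f D) N‖ ^ 2 ∂P : ℝ) : ℂ)‖ := by
      rw [Complex.norm_real, Real.norm_eq_abs, abs_of_nonneg hI0]
    rw [h1, hI, norm_mul, norm_pow, norm_div, norm_one, Complex.norm_natCast]
    refine mul_le_mul_of_nonneg_left ?_ (by positivity)
    refine (norm_sum_le _ _).trans (Finset.sum_le_sum fun i _ => ?_)
    exact norm_sum_le _ _
  have hI2 := SEC_double g hgs hgd N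
  set B : ℝ := 2 * Real.pi * (|(a : ℝ)| * (q : ℝ) ^ N) / (p : ℝ) ^ M with hB
  have hB0 : 0 ≤ B := by positivity
  have hgij : ∀ i ∈ Finset.range N, ∀ j ∈ Finset.range i, g i j ≤
      Ps ε p L (v * j) (a * ((q : ℤ) ^ i - (q : ℤ) ^ j)) + B := by
    intro i hi j hj
    rw [Finset.mem_range] at hi hj
    have h1 : v * j + L ≤ M := by
      have : v * j ≤ v * N := Nat.mul_le_mul_left v (by omega)
      omega
    have h2 := hFB (a * ((q : ℤ) ^ i - (q : ℤ) ^ j)) L (v * j) h1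
    have h3 : g i j = ‖∫ D, (fourier (a * ((q : ℤ) ^ i - (q : ℤ) ^ j)) : C(UnitAddCircle, ℂ))
        (f D) ∂P‖ := by
      simp only [hg, hFdef, mul_sub]
    rw [h3]
    refine h2.trans (add_le_add le_rfl ?_)
    rw [hB]
    refine div_le_div_of_nonneg_right ?_ (by positivity)
    refine mul_le_mul_of_nonneg_left ?_ (by positivity)
    push_cast
    rw [abs_mul]
    refine mul_le_mul_of_nonneg_left ?_ (abs_nonneg _)
    have h4 : (q : ℝ) ^ j ≤ (q : ℝ) ^ i := pow_le_pow_right₀ hq1r hj.le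
    have h5 : (q : ℝ) ^ i ≤ (q : ℝ) ^ N := pow_le_pow_right₀ hq1r hi.le
    have h6 : 0 ≤ (q : ℝ) ^ j := by positivity
    rw [abs_of_nonneg (by linarith)]
    linarith
  have hI3 : ∑ i ∈ Finset.range N, ∑ j ∈ Finset.range i, g i j ≤
      C * (L * N + (N : ℝ) ^ 2 * (1 - κ * ε) ^ L) + (N : ℝ) ^ 2 / 2 * B := by
    calc ∑ i ∈ Finset.range N, ∑ j ∈ Finset.range i, g i j
        ≤ ∑ i ∈ Finset.range N, ∑ j ∈ Finset.range i,
          (Ps ε p L (v * j) (a * ((q : ℤ) ^ i - (q : ℤ) ^ j)) + B) :=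
          Finset.sum_le_sum fun i hi => Finset.sum_le_sum fun j hj => hgij i hi j hj
      _ = ∑ i ∈ Finset.range N, ∑ j ∈ Finset.range i,
            Ps ε p L (v * j) (a * ((q : ℤ) ^ i - (q : ℤ) ^ j)) +
          ∑ i ∈ Finset.range N, ∑ _j ∈ Finset.range i, B := by
          simp only [Finset.sum_add_distrib]
      _ ≤ _ := add_le_add (hpair ε hε0 hε L N hL hLN) (SEC_pairs N B hB0)
  have hr0 : 0 ≤ (1 - κ * ε : ℝ) := by nlinarith
  have hr1 : 0 ≤ (1 - κ * ε : ℝ) ^ L := pow_nonneg hr0 L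
  have hL1 : (1 : ℝ) ≤ L := by exact_mod_cast hL
  have hfinal : ∫ D, ‖wav q a (f D) N‖ ^ 2 ∂P ≤
      (2 * C + 1) * (L / N + (1 - κ * ε) ^ L) + B := by
    calc ∫ D, ‖wav q a (f D) N‖ ^ 2 ∂P
        ≤ (1 / (N : ℝ)) ^ 2 * (N + 2 * (C * (L * N + (N : ℝ) ^ 2 * (1 - κ * ε) ^ L) +
          (N : ℝ) ^ 2 / 2 * B)) := by
          refine hI1.trans (mul_le_mul_of_nonneg_left ?_ (by positivity))
          linarith
      _ = 1 / N + 2 * C * (L / N + (1 - κ * ε) ^ L) + B := by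
          field_simp
          ring
      _ ≤ L / N + 2 * C * (L / N + (1 - κ * ε) ^ L) + B := by
          have : 1 / (N : ℝ) ≤ L / N := div_le_div_of_nonneg_right hL1 hNr.le
          linarith
      _ ≤ (2 * C + 1) * (L / N + (1 - κ * ε) ^ L) + B := by
          linarith
  refine hfinal.trans (le_of_eq ?_)
  rw [hB, hq]
  push_cast
  ring

end

end Pool.Agent.LYN
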