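import Pool.Agent.LYN.Basic

set_option autoImplicit false

/-!
# LYN: measurability
-/

open MeasureTheory Filter Topology
open scoped ENNReal

namespace Pool.Agent.LYN

noncomputable section

lemma NM_set {Y : Type} [MeasurableSpace Y] (S : Y → Y) (τ : ℕ → Y → ℕ) (hS : Measurable S)
    (hτ : ∀ k, Measurable (τ k)) (j : ℕ × ℕ) :
    MeasurableSet {z : Om × Y | z.1 (j.1, τ j.1 (S^[j.2] z.2)) = true} := by
  have h1 : {z : Om × Y | z.1 (j.1, τ j.1 (S^[j.2] z.2)) = true} =
      ⋃ m : ℕ, {z : Om × Y | z.1 (j.1, m) = true} ∩ {z : Om × Y | τ j.1 (S^[j.2] z.2) = m} := by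
    ext z
    simp only [Set.mem_iUnion, Set.mem_inter_iff]
    constructor
    · intro h
      exact ⟨_, h, rfl⟩
    · rintro ⟨m, h2, h3⟩
      have h4 : τ j.1 (S^[j.2] z.2) = m := h3
      show z.1 (j.1, τ j.1 (S^[j.2] z.2)) = true
      rw [h4]
      exact h2
  rw [h1]
  refine MeasurableSet.iUnion fun m => ?_
  have h5 : Measurable fun z : Om × Y => z.1 (j.1, m) :=
    (measurable_pi_apply (j.1, m)).comp measurable_fst
  have h6 : Measurable fun z : Om × Y => τ j.1 (S^[j.2] z.2) :=
    (hτ j.1).comp ((hS.iterate j.2).comp measurable_snd)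
  exact (h5 (measurableSet_singleton true)).inter (h6 (measurableSet_singleton m))

theorem p_NM : T_NM := by
  intro Y _ p S τ hS hτ
  unfold GI
  refine Measurable.ennreal_tsum fun j => ?_
  unfold tm
  exact Measurable.ite (NM_set S τ hS hτ j) measurable_const measurable_const

end

end Pool.Agent.LYN
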