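import Pool.Agent.LYN.A_XOR
import Pool.Agent.LYN.A_DIG
import Pool.Agent.LYN.A_SEC
import Pool.Agent.LYN.P_NM

set_option autoImplicit false

/-!
# LYN, part 4: random digits which can be read off separately
-/

open MeasureTheory Filter Topology
open scoped ENNReal

namespace Pool.Agent.LYN

noncomputable section

variable {Y : Type}

/-- only finitely many digits are read at `y` -/
def fin (τ : ℕ → Y → ℕ) (D : Om) (y : Y) : Prop := ∃ N, ∀ k, N ≤ k → D (k, τ k y) = false

/-- the number of digits `1` up to the scale `N` -/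
def cnt (τ : ℕ → Y → ℕ) (D : Om) (y : Y) (N : ℕ) : ℕ :=
  ((Finset.range N).filter fun k => D (k, τ k y) = true).card

/-- the number of digits `1` read at `y` is odd -/
def par (τ : ℕ → Y → ℕ) (D : Om) (y : Y) : Prop :=
  ∃ N, (∀ k, N ≤ k → D (k, τ k y) = false) ∧ Odd (cnt τ D y N)

open Classical in
/-- the parity digit -/
def bb (τ : ℕ → Y → ℕ) (D : Om) (y : Y) : Bool := decide (par τ D y)

lemma cnt_mono (τ : ℕ → Y → ℕ) (D : Om) (y : Y) (N N' : ℕ)
    (h : ∀ k, N ≤ k → D (k, τ k y) = false) (hN : N ≤ N') : cnt τ D y N' = cnt τ D y N := by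
  unfold cnt
  congr 1
  ext k
  simp only [Finset.mem_filter, Finset.mem_range]
  constructor
  · rintro ⟨h1, h2⟩
    refine ⟨?_, h2⟩
    by_contra h3
    rw [h k (not_lt.1 h3)] at h2
    exact absurd h2 (by simp)
  · rintro ⟨h1, h2⟩
    exact ⟨by omega, h2⟩

lemma par_iff (τ : ℕ → Y → ℕ) (D : Om) (y : Y) (N : ℕ)
    (h : ∀ k, N ≤ k → D (k, τ k y) = false) : par τ D y ↔ Odd (cnt τ D y N) := by
  constructor
  · rintro ⟨N', h1, h2⟩
    rw [← cnt_mono τ D y N (max N N') h (le_max_left _ _),
      cnt_mono τ D y N' (max N N') h1 (le_max_right _ _)]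
    exact h2
  · intro h1
    exact ⟨N, h, h1⟩

lemma bb_other (τ : ℕ → Y → ℕ) (D : Om) (y : Y) (c : ℕ × ℕ) (b : Bool)
    (h : ∀ k, (k, τ k y) ≠ c) : bb τ (Function.update D c b) y = bb τ D y := by
  have h1 : ∀ k, Function.update D c b (k, τ k y) = D (k, τ k y) := fun k =>
    Function.update_of_ne (h k) _ _
  have h2 : par τ (Function.update D c b) y ↔ par τ D y := by
    unfold par cnt
    simp only [h1]
  unfold bb
  exact decide_eq_decide.2 h2

lemma bb_flip (τ : ℕ → Y → ℕ) (D : Om) (y : Y) (k₀ : ℕ) (b : Bool) (hf : fin τ D y) :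
    bb τ (Function.update D (k₀, τ k₀ y) b) y =
      xor b (bb τ (Function.update D (k₀, τ k₀ y) false) y) := by
  cases b with
  | false => simp
  | true =>
    obtain ⟨N, hN⟩ := hf
    have h1 : ∀ (b : Bool) k, max N (k₀ + 1) ≤ k →
        Function.update D (k₀, τ k₀ y) b (k, τ k y) = false := by
      intro b k hk
      rw [Function.update_of_ne]
      · exact hN k ((le_max_left _ _).trans hk)
      · intro he
        have h2 : k = k₀ := (Prod.ext_iff.1 he).1
        have h3 : k₀ + 1 ≤ k := (le_max_right _ _).trans hk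
        omega
    have h2 := par_iff τ _ y _ (h1 true)
    have h3 := par_iff τ _ y _ (h1 false)
    have h4 : cnt τ (Function.update D (k₀, τ k₀ y) true) y (max N (k₀ + 1)) =
        cnt τ (Function.update D (k₀, τ k₀ y) false) y (max N (k₀ + 1)) + 1 := by
      unfold cnt
      rw [← Finset.card_insert_of_notMem (a := k₀)]
      · congr 1
        ext k
        simp only [Finset.mem_filter, Finset.mem_range, Finset.mem_insert]
        by_cases hk : k = k₀
        · subst hk
          simp
        · have h5 : ∀ b : Bool, Function.update D (k₀, τ k₀ y) b (k, τ k y) = D (k, τ k y) :=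
            fun b => Function.update_of_ne (fun he => hk (Prod.ext_iff.1 he).1) _ _
          rw [h5, h5]
          simp [hk]
      · simp
    have h5 : par τ (Function.update D (k₀, τ k₀ y) true) y ↔
        ¬ par τ (Function.update D (k₀, τ k₀ y) false) y := by
      rw [h2, h3, h4, Nat.odd_add_one]
    unfold bb
    by_cases h6 : par τ (Function.update D (k₀, τ k₀ y) false) y
    · simp [h5, h6]
    · simp [h5, h6]

lemma bb_meas [MeasurableSpace Y] (τ : ℕ → Y → ℕ) (hτ : ∀ k, Measurable (τ k)) :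
    Measurable fun z : Om × Y => bb τ z.1 z.2 := by
  have hk : ∀ k, MeasurableSet {z : Om × Y | z.1 (k, τ k z.2) = true} := fun k =>
    NM_set id τ measurable_id hτ (k, 0)
  have hk' : ∀ k, MeasurableSet {z : Om × Y | z.1 (k, τ k z.2) = false} := by
    intro k
    have : {z : Om × Y | z.1 (k, τ k z.2) = false} =
        {z : Om × Y | z.1 (k, τ k z.2) = true}ᶜ := by
      ext z
      simp
    rw [this]
    exact (hk k).compl
  have hcnt : ∀ N, Measurable fun z : Om × Y => cnt τ z.1 z.2 N := by
    intro N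
    unfold cnt
    simp only [Finset.card_filter]
    exact Finset.measurable_sum _ fun k _ => Measurable.ite (hk k) measurable_const
      measurable_const
  have hpar : MeasurableSet {z : Om × Y | par τ z.1 z.2} := by
    have : {z : Om × Y | par τ z.1 z.2} = ⋃ N, (⋂ k, ⋂ (_ : N ≤ k),
        {z : Om × Y | z.1 (k, τ k z.2) = false}) ∩
        {z : Om × Y | Odd (cnt τ z.1 z.2 N)} := by
      ext z
      simp only [par, Set.mem_iUnion, Set.mem_inter_iff, Set.mem_iInter, Set.mem_ofPred_eq]
    rw [this]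
    refine MeasurableSet.iUnion fun N => ?_
    refine (MeasurableSet.iInter fun k => MeasurableSet.iInter fun _ => hk' k).inter ?_
    exact hcnt N (MeasurableSet.of_discrete (s := {n : ℕ | Odd n}))
  refine measurable_to_bool ?_
  have : (fun z : Om × Y => bb τ z.1 z.2) ⁻¹' {true} = {z : Om × Y | par τ z.1 z.2} := by
    ext z
    simp [bb]
  rw [this]
  exact hpar

lemma bb_meas_left (τ : ℕ → Y → ℕ) (y : Y) : Measurable fun D : Om => bb τ D y := by
  let _ : MeasurableSpace Y := ⊤
  have h1 := bb_meas τ fun k => (measurable_from_top : Measurable (τ k))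
  exact h1.comp measurable_prodMk_right

lemma fin_ae (τ : ℕ → Y → ℕ) (ε : ℕ → unitInterval) (hε : Summable fun k => (ε k : ℝ)) (y : Y) :
    ∀ᵐ D ∂PP ε, fin τ D y := by
  have h1 : ∑' k, PP ε {D : Om | D (k, τ k y) = true} ≠ ⊤ := by
    simp only [PP_digit]
    exact hε.tsum_ofReal_ne_top
  filter_upwards [ae_eventually_notMem h1] with D hD
  obtain ⟨N, hN⟩ := eventually_atTop.1 hD
  refine ⟨N, fun k hk => ?_⟩
  have h2 := hN k hk
  simpa using h2

/-- the digit number `t` -/
def dg (α : Y → ℕ) (S : Y → Y) (τ : ℕ → Y → ℕ) (D : Om) (y : Y) (t : ℕ) : ℕ :=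
  2 * α (S^[t] y) + (bb τ D (S^[t] y)).toNat

lemma dg_lt (α : Y → ℕ) (S : Y → Y) (τ : ℕ → Y → ℕ) (D : Om) (y : Y) (t r : ℕ)
    (hα : ∀ y, α y < r) : dg α S τ D y t < 2 * r := by
  have h1 := hα (S^[t] y)
  have h2 : (bb τ D (S^[t] y)).toNat ≤ 1 := Bool.toNat_le _
  unfold dg
  omega

/-- the number with these digits -/
def XR' (p : ℕ) (α : Y → ℕ) (S : Y → Y) (τ : ℕ → Y → ℕ) (D : Om) (y : Y) : ℝ :=
  Dg p (dg α S τ D y)

/-- the point with these digits -/
def XC (p : ℕ) (α : Y → ℕ) (S : Y → Y) (τ : ℕ → Y → ℕ) (D : Om) (y : Y) : UnitAddCircle :=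
  ((XR' p α S τ D y : ℝ) : UnitAddCircle)

lemma XC_meas [MeasurableSpace Y] (p : ℕ) (α : Y → ℕ) (S : Y → Y) (τ : ℕ → Y → ℕ)
    (hα : Measurable α) (hS : Measurable S) (hτ : ∀ k, Measurable (τ k)) :
    Measurable fun z : Om × Y => XC p α S τ z.1 z.2 := by
  refine meas_coe.comp ?_
  unfold XR' Dg
  refine Measurable.tsum fun t => ?_
  refine Measurable.div_const ?_ _
  have h1 : Measurable fun z : Om × Y => dg α S τ z.1 z.2 t := by
    unfold dg
    have h2 : Measurable fun z : Om × Y => α (S^[t] z.2) :=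
      hα.comp ((hS.iterate t).comp measurable_snd)
    have h3 : Measurable fun z : Om × Y => bb τ z.1 (S^[t] z.2) :=
      (bb_meas τ hτ).comp (measurable_fst.prodMk ((hS.iterate t).comp measurable_snd))
    exact (h2.const_mul 2).add ((measurable_of_countable Bool.toNat).comp h3)
  exact (measurable_of_countable fun n : ℕ => (n : ℝ)).comp h1

lemma XC_meas_left (p : ℕ) (α : Y → ℕ) (S : Y → Y) (τ : ℕ → Y → ℕ) (y : Y) :
    Measurable fun D : Om => XC p α S τ D y := by
  let _ : MeasurableSpace Y := ⊤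
  have h1 := XC_meas p α S τ measurable_from_top measurable_from_top
    fun k => (measurable_from_top : Measurable (τ k))
  exact h1.comp measurable_prodMk_right

lemma FOX_conj (ε θ : ℝ) : ‖ph ε (-θ)‖ = ‖ph ε θ‖ := by
  have h1 : ph ε (-θ) = (starRingEnd ℂ) (ph ε θ) := by
    unfold ph ee
    rw [map_add, map_mul, ← Complex.exp_conj]
    simp only [map_mul, Complex.conj_ofReal, Complex.conj_I, map_ofNat]
    congr 3
    push_cast
    ring
  rw [h1, RCLike.norm_conj]

/-- the Fourier coefficients -/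
theorem fox (hRES : T_RES) (hPH : T_PH) (p r : ℕ) (hp : 2 ≤ p) (hr : 2 * r ≤ p) (α : Y → ℕ)
    (hα : ∀ y, α y < r) (S : Y → Y) (τ : ℕ → Y → ℕ) (ε : ℕ → unitInterval)
    (hε : Summable fun k => (ε k : ℝ)) (y : Y) (k M : ℕ) (hclk : Clk S τ k M y) :
    FB (PP ε) (fun D => XC p α S τ D y) (ε k) p M := by
  intro b L m hL
  have hp0 : (0 : ℝ) < p := by exact_mod_cast (by omega : 0 < p)
  have hdg : ∀ D t, dg α S τ D y t < p := fun D t =>
    (dg_lt α S τ D y t r hα).trans_le hr
  set c : ℕ → ℕ × ℕ := fun s => (k, τ k (S^[m + s] y)) with hc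
  set u : ℕ → Bool → ℂ := fun s β =>
    ee (b * (((2 * α (S^[m + s] y) + β.toNat : ℕ) : ℝ) / (p : ℝ) ^ (m + s + 1))) with hu
  set z : ℕ → Om → Bool := fun s D => bb τ (Function.update D (c s) false) (S^[m + s] y) with hz
  set H : Om → ℂ := fun D => ∏ t ∈ Finset.range M \ Finset.Ico m (m + L),
    ee (b * ((dg α S τ D y t : ℝ) / (p : ℝ) ^ (t + 1))) with hH
  have hne : ∀ s < L, ∀ t < M, t ≠ m + s → ∀ k', (k', τ k' (S^[t] y)) ≠ c s := by
    intro s hs t ht hts k' he
    have h1 : k' = k := (Prod.ext_iff.1 he).1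
    have h2 : τ k' (S^[t] y) = τ k (S^[m + s] y) := (Prod.ext_iff.1 he).2
    rw [h1] at h2
    have h3 := hclk t ht
    have h4 := hclk (m + s) (by omega)
    omega
  have hcc : ∀ s < L, ∀ s' < L, s ≠ s' → c s ≠ c s' := fun s hs s' hs' hss =>
    hne s' hs' (m + s) (by omega) (by omega) k
  have hupd : ∀ i : ℕ × ℕ, Measurable fun D : Om => Function.update D i false := by
    intro i
    refine measurable_pi_lambda _ fun j => ?_
    by_cases hj : j = i
    · subst hj
      simp only [Function.update_self]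
      exact measurable_const
    · simp only [Function.update_of_ne hj]
      exact measurable_pi_apply j
  have hzm : ∀ s, Measurable (z s) := fun s => (bb_meas_left τ _).comp (hupd _)
  have hzi : ∀ s < L, ∀ s' < L, ∀ (D : Om) (b : Bool),
      z s (Function.update D (c s') b) = z s D := by
    intro s hs s' hs' D b
    simp only [hz]
    by_cases hss : s = s'
    · subst hss
      rw [Function.update_idem]
    · rw [Function.update_comm (hcc s' hs' s hs (Ne.symm hss))]
      exact bb_other τ _ _ _ _ (hne s' hs' (m + s) (by omega) (by omega))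
  have hHm : Measurable H := by
    refine Finset.measurable_prod _ fun t _ => ?_
    refine continuous_ee.measurable.comp (measurable_const.mul (Measurable.div_const ?_ _))
    refine (measurable_of_countable fun n : ℕ => (n : ℝ)).comp ?_
    unfold dg
    exact ((measurable_of_countable Bool.toNat).comp (bb_meas_left τ _)).const_add _
  have hHn : ∀ D, ‖H D‖ ≤ 1 := by
    intro D
    simp only [hH]
    rw [norm_prod]
    simp [norm_ee]
  have hHi : ∀ s < L, ∀ (D : Om) (b : Bool), H (Function.update D (c s) b) = H D := by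
    intro s hs D b
    simp only [hH]
    refine Finset.prod_congr rfl fun t ht => ?_
    rw [Finset.mem_sdiff, Finset.mem_range, Finset.mem_Ico] at ht
    unfold dg
    rw [bb_other τ D _ (c s) b (hne s hs t ht.1 (by
      rintro rfl
      exact ht.2 ⟨by omega, by omega⟩))]
  have hρ : ∀ s β, ‖((1 - (ε k : ℝ) : ℝ) : ℂ) * u s β + ((ε k : ℝ) : ℂ) * u s (!β)‖ ≤
      ‖ph (ε k) ((b : ℝ) / (p : ℝ) ^ (m + s + 1))‖ := by
    intro s β
    cases β with
    | false =>
      refine le_of_eq ?_
      have h1 : ((1 - (ε k : ℝ) : ℝ) : ℂ) * u s false + ((ε k : ℝ) : ℂ) * u s (!false) =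
          u s false * ph (ε k) ((b : ℝ) / (p : ℝ) ^ (m + s + 1)) := by
        have h2 : u s (!false) = u s false * ee ((b : ℝ) / (p : ℝ) ^ (m + s + 1)) := by
          simp only [hu]
          rw [← ee_add]
          congr 1
          simp
          ring
        rw [h2]
        unfold ph
        ring
      rw [h1, norm_mul]
      simp only [hu]
      rw [norm_ee, one_mul]
    | true =>
      refine le_of_eq ?_
      rw [← FOX_conj]
      have h1 : ((1 - (ε k : ℝ) : ℝ) : ℂ) * u s true + ((ε k : ℝ) : ℂ) * u s (!true) =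
          u s true * ph (ε k) (-((b : ℝ) / (p : ℝ) ^ (m + s + 1))) := by
        have h2 : u s (!true) = u s true * ee (-((b : ℝ) / (p : ℝ) ^ (m + s + 1))) := by
          simp only [hu]
          rw [← ee_add]
          congr 1
          simp
          ring
        rw [h2]
        unfold ph
        ring
      rw [h1, norm_mul]
      simp only [hu]
      rw [norm_ee, one_mul]
  have key := XR hRES ε k c (fun _ => rfl) u z
    (fun s => ‖ph (ε k) ((b : ℝ) / (p : ℝ) ^ (m + s + 1))‖) (fun s β => by
      simp only [hu]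
      rw [norm_ee]) hzm (fun _ => norm_nonneg _)
    (fun s => hPH.1 _ _ (ε k).2.1 (ε k).2.2) hρ L hcc hzi H 1 hHm hHn zero_le_one le_rfl hHi
  rw [one_mul] at key
  -- the truncated series
  have htr : ∀ᵐ D ∂PP ε, ee (b * ∑ t ∈ Finset.range M,
      (dg α S τ D y t : ℝ) / (p : ℝ) ^ (t + 1)) =
      (∏ s ∈ Finset.range L, u s (xor (D (c s)) (z s D))) * H D := by
    have h1 : ∀ᵐ D ∂PP ε, ∀ t, fin τ D (S^[t] y) :=
      ae_all_iff.2 fun t => fin_ae τ ε hε _
    filter_upwards [h1] with D hD
    have hsub : Finset.Ico m (m + L) ⊆ Finset.range M := by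
      intro t ht
      rw [Finset.mem_Ico] at ht
      rw [Finset.mem_range]
      omega
    rw [Finset.mul_sum, ee_sum, ← Finset.prod_sdiff hsub, mul_comm]
    congr 1
    rw [Finset.prod_Ico_eq_prod_range, Nat.add_sub_cancel_left]
    refine Finset.prod_congr rfl fun s _ => ?_
    simp only [hu]
    congr 3
    unfold dg
    congr 3
    have h2 := bb_flip τ D (S^[m + s] y) k (D (c s)) (hD _)
    have h3 : Function.update D (k, τ k (S^[m + s] y)) (D (c s)) = D :=
      Function.update_eq_self _ _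
    rw [h3] at h2
    exact h2
  have hdiff : ∀ D : Om, ‖(fourier b : C(UnitAddCircle, ℂ)) (XC p α S τ D y) -
      ee (b * ∑ t ∈ Finset.range M, (dg α S τ D y t : ℝ) / (p : ℝ) ^ (t + 1))‖ ≤
      2 * Real.pi * |(b : ℝ)| / (p : ℝ) ^ M := by
    intro D
    unfold XC
    rw [fourier_coe]
    refine (ee_lip _ _).trans ?_
    rw [← mul_sub, abs_mul]
    have h1 := Dg_tail p hp (dg α S τ D y) (hdg D) M
    have h2 : |XR' p α S τ D y - ∑ t ∈ Finset.range M,
        (dg α S τ D y t : ℝ) / (p : ℝ) ^ (t + 1)| ≤ 1 / (p : ℝ) ^ M := h1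
    calc 2 * Real.pi * (|(b : ℝ)| * _) ≤ 2 * Real.pi * (|(b : ℝ)| * (1 / (p : ℝ) ^ M)) := by
          have := Real.pi_pos
          gcongr
      _ = _ := by ring
  have hm1 : Measurable fun D : Om => (fourier b : C(UnitAddCircle, ℂ)) (XC p α S τ D y) :=
    (map_continuous (fourier b : C(UnitAddCircle, ℂ))).measurable.comp (XC_meas_left p α S τ y)
  have hi1 : Integrable (fun D : Om => (fourier b : C(UnitAddCircle, ℂ)) (XC p α S τ D y))
      (PP ε) := Integrable.of_bound hm1.aestronglyMeasurable 1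
        (ae_of_all _ fun D => (fourier_norm b _).le)
  have hm2 : Measurable fun D : Om => ee (b * ∑ t ∈ Finset.range M,
      (dg α S τ D y t : ℝ) / (p : ℝ) ^ (t + 1)) := by
    refine continuous_ee.measurable.comp (measurable_const.mul ?_)
    refine Finset.measurable_sum _ fun t _ => Measurable.div_const ?_ _
    refine (measurable_of_countable fun n : ℕ => (n : ℝ)).comp ?_
    unfold dg
    exact ((measurable_of_countable Bool.toNat).comp (bb_meas_left τ _)).const_add _
  have hi2 : Integrable (fun D : Om => ee (b * ∑ t ∈ Finset.range M,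
      (dg α S τ D y t : ℝ) / (p : ℝ) ^ (t + 1))) (PP ε) :=
    Integrable.of_bound hm2.aestronglyMeasurable 1 (ae_of_all _ fun D => (norm_ee _).le)
  have hsub : ∫ D, (fourier b : C(UnitAddCircle, ℂ)) (XC p α S τ D y) ∂PP ε =
      ∫ D, ee (b * ∑ t ∈ Finset.range M, (dg α S τ D y t : ℝ) / (p : ℝ) ^ (t + 1)) ∂PP ε +
      ∫ D, ((fourier b : C(UnitAddCircle, ℂ)) (XC p α S τ D y) -
        ee (b * ∑ t ∈ Finset.range M, (dg α S τ D y t : ℝ) / (p : ℝ) ^ (t + 1))) ∂PP ε := by
    rw [integral_sub hi1 hi2]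
    ring
  rw [hsub]
  refine (norm_add_le _ _).trans (add_le_add ?_ ?_)
  · rw [integral_congr_ae htr]
    exact key
  · refine (norm_integral_le_of_norm_le_const (ae_of_all _ hdiff)).trans ?_
    simp

end

end Pool.Agent.LYN
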