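import Mathlib

set_option autoImplicit false

/-!
# LYN: aperiodic systems have small sets which meet almost every orbit
-/

open MeasureTheory Filter Topology
open scoped ENNReal

namespace Pool.Agent.LYN

noncomputable section

/-- The orbit minimum lemma: small marker sets for aperiodic systems. -/
theorem p_APR (Y : Type) [MeasurableSpace Y] [MeasurableSpace.CountablySeparated Y]
    (ν : Measure Y) [IsProbabilityMeasure ν] (S : Y → Y) (hS : MeasurePreserving S ν ν)
    (hper : ∀ᵐ y ∂ν, ∀ n : ℕ, 0 < n → S^[n] y ≠ y) (δ : ℝ≥0∞) (hδ : 0 < δ) :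
    ∃ A, MeasurableSet A ∧ ν A < δ ∧ ∀ᵐ y ∂ν, ∃ n, S^[n] y ∈ A := by
  obtain ⟨f, hf, hfi⟩ := MeasurableSpace.measurable_injection_nat_bool_of_countablySeparated Y
  obtain ⟨g, hg⟩ := exists_measurableEmbedding_real (ℕ → Bool)
  let θ : Y → ℝ := fun y => Real.arctan (g (f y))
  have hθm : Measurable θ := Real.measurable_arctan.comp (hg.measurable.comp hf)
  have hθi : Function.Injective θ := fun a b h => hfi (hg.injective (Real.arctan_injective h))
  have hθb : ∀ y, -(Real.pi / 2) ≤ θ y := fun y => (Real.neg_pi_div_two_lt_arctan _).le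
  have hSn : ∀ n, Measurable (S^[n]) := fun n => hS.measurable.iterate n
  let A : ℕ → Set Y := fun j => {y | ∀ n, θ y ≤ θ (S^[n] y) + 1 / ((j : ℝ) + 1)}
  have hAm : ∀ j, MeasurableSet (A j) := fun j => by
    have : A j = ⋂ n, {y | θ y ≤ θ (S^[n] y) + 1 / ((j : ℝ) + 1)} := by
      ext y
      simp [A]
    rw [this]
    exact MeasurableSet.iInter fun n =>
      measurableSet_le hθm ((hθm.comp (hSn n)).add measurable_const)
  have hAa : Antitone A := by
    intro i j hij y hy n
    have h1 : 1 / ((j : ℝ) + 1) ≤ 1 / ((i : ℝ) + 1) := by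
      have : (i : ℝ) ≤ j := Nat.cast_le.2 hij
      gcongr
    have h2 := hy n
    linarith
  have hhit : ∀ j y, ∃ n, S^[n] y ∈ A j := by
    intro j y
    have hbdd : BddBelow (Set.range fun n => θ (S^[n] y)) := by
      refine ⟨-(Real.pi / 2), ?_⟩
      rintro _ ⟨n, rfl⟩
      exact hθb _
    have hpos : (0 : ℝ) < 1 / ((j : ℝ) + 1) := by positivity
    obtain ⟨n, hn⟩ := exists_lt_of_ciInf_lt
      (show (⨅ n, θ (S^[n] y)) < (⨅ n, θ (S^[n] y)) + 1 / ((j : ℝ) + 1) by linarith)
    refine ⟨n, fun m => ?_⟩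
    have h1 : (⨅ n, θ (S^[n] y)) ≤ θ (S^[m + n] y) := ciInf_le hbdd _
    rw [← Function.iterate_add_apply]
    linarith
  have hinter : ν (⋂ j, A j) = 0 := by
    have hB : MeasurableSet (⋂ j, A j) := MeasurableSet.iInter hAm
    have hcons := hS.conservative
    have h1 := hcons.ae_mem_imp_frequently_image_mem hB.nullMeasurableSet
    have h2 : ∀ᵐ y ∂ν, ∀ r : ℚ, θ y < r → ∃ᶠ n in atTop, θ (S^[n] y) < r := by
      rw [ae_all_iff]
      intro r
      exact hcons.ae_mem_imp_frequently_image_mem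
        (s := {y | θ y < r}) (measurableSet_lt hθm measurable_const).nullMeasurableSet
    rw [← compl_compl (⋂ j, A j), ← mem_ae_iff]
    filter_upwards [h1, h2, hper] with y hy1 hy2 hy3 hmem
    have hmin : ∀ z ∈ ⋂ j, A j, ∀ n, θ z ≤ θ (S^[n] z) := by
      intro z hz n
      refine le_of_forall_pos_le_add fun e he => ?_
      obtain ⟨j, hj⟩ := exists_nat_one_div_lt he
      have := (Set.mem_iInter.1 hz j) n
      linarith
    obtain ⟨n, hn, hn1⟩ := (frequently_atTop.1 (hy1 hmem)) 1
    have h3 : θ y ≤ θ (S^[n] y) := hmin y hmem n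
    have h4 : θ (S^[n] y) ≤ θ y := by
      refine le_of_forall_lt_rat_imp_le fun r hr => ?_
      obtain ⟨m, hm, hm1⟩ := (frequently_atTop.1 (hy2 r hr)) n
      have h5 := hmin _ hn1 (m - n)
      rw [← Function.iterate_add_apply, Nat.sub_add_cancel hm] at h5
      exact h5.trans hm1.le
    exact hy3 n (by omega) (hθi (le_antisymm h4 h3))
  have hlim := tendsto_measure_iInter_atTop (μ := ν) (fun j => (hAm j).nullMeasurableSet) hAa
    ⟨0, measure_ne_top _ _⟩
  rw [hinter] at hlim
  obtain ⟨j, hj⟩ := (hlim.eventually (gt_mem_nhds hδ)).exists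
  exact ⟨A j, hAm j, hj, ae_of_all _ (hhit j)⟩

end

end Pool.Agent.LYN
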