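import Pool.Agent.LYN.Basic

set_option autoImplicit false

open MeasureTheory Filter Topology
open scoped ENNReal

namespace Pool.Agent.LYN

noncomputable section

lemma ATM_le (p : ℕ) (μ : Measure UnitAddCircle)
    (h : μ.map (fun x : UnitAddCircle => p • x) = μ) (x : UnitAddCircle) (n : ℕ) :
    μ {x} ≤ μ {(p ^ n) • x} := by
  have hT : Measurable (fun x : UnitAddCircle => p • x) := (continuous_const_smul p).measurable
  induction n with
  | zero => simp
  | succ n ih =>
    refine ih.trans ?_
    have h1 : (p ^ (n + 1)) • x = p • ((p ^ n) • x) := by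
      rw [smul_smul, pow_succ, mul_comm]
    rw [h1]
    conv_rhs => rw [← h]
    rw [Measure.map_apply hT (measurableSet_singleton _)]
    refine measure_mono ?_
    rintro y rfl
    simp

theorem p_ATM : T_ATM := by
  intro p q μ hp hμ hmap hae x
  by_contra hx
  have hN : Nrm q x := by
    by_contra hn
    refine hx (measure_mono_null ?_ (ae_iff.1 hae))
    rintro y rfl
    exact hn
  have hninj : ¬ Function.Injective fun n : ℕ => (p ^ n) • x := by
    intro hinj
    have h1 : μ (⋃ n : ℕ, {(p ^ n) • x}) = ∑' n : ℕ, μ {(p ^ n) • x} := by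
      refine measure_iUnion ?_ fun n => measurableSet_singleton _
      intro i j hij
      simp only [Function.onFun, Set.disjoint_singleton]
      exact fun h => hij (hinj h)
    have h2 : (∑' _ : ℕ, μ {x}) ≤ ∑' n : ℕ, μ {(p ^ n) • x} :=
      ENNReal.tsum_le_tsum fun n => ATM_le p μ hmap x n
    rw [ENNReal.tsum_const_eq_top_of_ne_zero hx, ← h1] at h2
    exact absurd (le_antisymm le_top h2) (measure_ne_top μ _)
  have hex : ∃ i j : ℕ, i < j ∧ (p ^ i) • x = (p ^ j) • x := by
    simp only [Function.Injective, not_forall] at hninj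
    obtain ⟨i, j, h1, h2⟩ := hninj
    rcases lt_or_gt_of_ne h2 with h | h
    · exact ⟨i, j, h, h1⟩
    · exact ⟨j, i, h, h1.symm⟩
  obtain ⟨i, j, hij, he⟩ := hex
  set d : ℤ := (p : ℤ) ^ j - (p : ℤ) ^ i with hd
  have hd0 : d ≠ 0 := by
    have h1 : (p : ℤ) ^ i < (p : ℤ) ^ j := pow_lt_pow_right₀ (by exact_mod_cast hp) hij
    rw [hd]
    omega
  have hdx : d • x = 0 := by
    have h1 : ((p : ℤ) ^ j) • x = (p ^ j) • x := by
      rw [← natCast_zsmul]
      push_cast
      rfl
    have h2 : ((p : ℤ) ^ i) • x = (p ^ i) • x := by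
      rw [← natCast_zsmul]
      push_cast
      rfl
    rw [hd, sub_smul, h1, h2, he, sub_self]
  have hf : ∀ n : ℕ, (fourier d : C(UnitAddCircle, ℂ)) ((q ^ n) • x) = 1 := by
    intro n
    have h1 : d • ((q ^ n) • x) = 0 := by
      rw [smul_comm, hdx, smul_zero]
    rw [fourier_apply, h1]
    simp
  have hw : ∀ N : ℕ, 1 ≤ N → wav q d x N = 1 := by
    intro N hN1
    unfold wav
    rw [Finset.sum_congr rfl fun n _ => hf n]
    have h1 : (N : ℂ) ≠ 0 := by
      exact_mod_cast (by omega : N ≠ 0)
    simp [h1]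
  have h1 : Tendsto (wav q d x) atTop (𝓝 1) := by
    refine tendsto_const_nhds.congr' ?_
    filter_upwards [eventually_ge_atTop 1] with N hN1
    exact (hw N hN1).symm
  exact zero_ne_one (tendsto_nhds_unique (hN d hd0) h1)

end

end Pool.Agent.LYN
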