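import Pool.Agent.LYN.Basic

set_option autoImplicit false

/-!
# LYN: decomposition of a power of `q` (DEC)
-/

namespace Pool.Agent.LYN

/-- the part of `p` which is coprime to `w` -/
lemma DEC_split (p w : ℕ) (hp : p ≠ 0) :
    Nat.Coprime w (p / Nat.gcd p (w ^ p)) ∧
      Nat.Coprime (Nat.gcd p (w ^ p)) (p / Nat.gcd p (w ^ p)) := by
  set R := Nat.gcd p (w ^ p) with hR
  have hRp : R ∣ p := Nat.gcd_dvd_left _ _
  have hRw : R ∣ w ^ p := Nat.gcd_dvd_right _ _
  have hQR : p / R * R = p := Nat.div_mul_cancel hRp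
  have h1 : ∀ l : ℕ, l.Prime → l ∣ w → l ∣ p / R → False := by
    intro l hl hlw hlQ
    have ha : l ^ p.factorization l ∣ p := Nat.ordProj_dvd p l
    have hb : l ^ p.factorization l ∣ w ^ p := by
      refine (pow_dvd_pow_of_dvd hlw _).trans (pow_dvd_pow w ?_)
      exact (Nat.factorization_lt l hp).le
    have hc : l ^ p.factorization l ∣ R := Nat.dvd_gcd ha hb
    have hd : l ^ (p.factorization l + 1) ∣ p := by
      rw [pow_succ', ← hQR]
      conv_lhs => rw [hQR]
      exact Nat.mul_dvd_mul hlQ hc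
    exact Nat.pow_succ_factorization_not_dvd hp hl hd
  refine ⟨Nat.coprime_of_dvd fun l hl h2 h3 => h1 l hl h2 h3,
    Nat.coprime_of_dvd fun l hl h2 h3 => ?_⟩
  exact h1 l hl (hl.dvd_of_dvd_pow (h2.trans hRw)) h3

/-- decomposition of a power of `q` -/
theorem p_DEC : T_DEC := by
  intro p q hp hq hind
  have hp0 : p ≠ 0 := by omega
  have hq0 : q ≠ 0 := by omega
  have hne : p.primeFactors.Nonempty := by
    rw [Nat.nonempty_primeFactors]
    omega
  obtain ⟨l, hl, hmin⟩ := p.primeFactors.exists_min_image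
    (fun l => (q.factorization l : ℚ) / (p.factorization l : ℚ)) hne
  have hlp : l.Prime := Nat.prime_of_mem_primeFactors hl
  have hld : l ∣ p := Nat.dvd_of_mem_primeFactors hl
  have hpos : ∀ l' ∈ p.primeFactors, 0 < p.factorization l' := fun l' hl' =>
    (Nat.prime_of_mem_primeFactors hl').factorization_pos_of_dvd hp0
      (Nat.dvd_of_mem_primeFactors hl')
  set e := p.factorization l with he
  set v := q.factorization l with hv
  have he1 : 1 ≤ e := hpos l hl
  have hle : ∀ l', v * p.factorization l' ≤ e * q.factorization l' := by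
    intro l'
    by_cases hl' : l' ∈ p.primeFactors
    · have h1 := hmin l' hl'
      have h2 : (0 : ℚ) < (p.factorization l' : ℚ) := by exact_mod_cast hpos l' hl'
      have h3 : (0 : ℚ) < (p.factorization l : ℚ) := by exact_mod_cast hpos l hl
      rw [div_le_div_iff₀ h3 h2] at h1
      have h4 : q.factorization l * p.factorization l' ≤
          q.factorization l' * p.factorization l := by exact_mod_cast h1
      rw [← he, ← hv] at h4
      rw [mul_comm e]
      exact h4
    · have h1 : p.factorization l' = 0 := by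
        rw [← Finsupp.notMem_support_iff, Nat.support_factorization]
        exact hl'
      rw [h1, mul_zero]
      exact Nat.zero_le _
  have hdvd : p ^ v ∣ q ^ e := by
    rw [← Nat.factorization_le_iff_dvd (pow_ne_zero _ hp0) (pow_ne_zero _ hq0)]
    intro l'
    rw [Nat.factorization_pow, Nat.factorization_pow]
    simp only [Finsupp.smul_apply, smul_eq_mul]
    exact hle l'
  obtain ⟨w, hw⟩ := hdvd
  have hw0 : w ≠ 0 := by
    rintro rfl
    rw [mul_zero] at hw
    exact pow_ne_zero _ hq0 hw
  have hw1 : w ≠ 1 := by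
    rintro rfl
    rw [mul_one] at hw
    have := (hind v e hw.symm).2
    omega
  have hlw : ¬ l ∣ w := by
    intro h
    have h1 : l * p ^ v ∣ q ^ e := by
      rw [hw, mul_comm]
      exact Nat.mul_dvd_mul_left _ h
    rw [← Nat.factorization_le_iff_dvd (mul_ne_zero hlp.ne_zero (pow_ne_zero _ hp0))
      (pow_ne_zero _ hq0)] at h1
    have h2 := h1 l
    rw [Nat.factorization_mul hlp.ne_zero (pow_ne_zero _ hp0), Nat.factorization_pow,
      Nat.factorization_pow] at h2
    simp only [Finsupp.add_apply, Finsupp.smul_apply, smul_eq_mul,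
      hlp.factorization_self] at h2
    rw [← he, ← hv, mul_comm v e] at h2
    omega
  have hQR : p / Nat.gcd p (w ^ p) * Nat.gcd p (w ^ p) = p :=
    Nat.div_mul_cancel (Nat.gcd_dvd_left _ _)
  refine ⟨e, v, w, p / Nat.gcd p (w ^ p), Nat.gcd p (w ^ p), p, he1, hw, ?_⟩
  refine ⟨by omega, ?_, hQR.symm, (DEC_split p w hp0).1, (DEC_split p w hp0).2,
    Nat.gcd_dvd_right _ _⟩
  have h1 : l ∣ p / Nat.gcd p (w ^ p) := by
    have h2 : l ∣ p / Nat.gcd p (w ^ p) * Nat.gcd p (w ^ p) := by rw [hQR]; exact hld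
    refine (hlp.dvd_mul.1 h2).resolve_right fun h3 => ?_
    exact hlw (hlp.dvd_of_dvd_pow (h3.trans (Nat.gcd_dvd_right _ _)))
  have h2 : 0 < p / Nat.gcd p (w ^ p) := by
    rcases Nat.eq_zero_or_pos (p / Nat.gcd p (w ^ p)) with h3 | h3
    · rw [h3, zero_mul] at hQR
      omega
    · exact h3
  exact hlp.two_le.trans (Nat.le_of_dvd h2 h1)

end Pool.Agent.LYN
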