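import Pool.Agent.LYN.Basic

set_option autoImplicit false

/-!
# LYN: target DEL
-/

open MeasureTheory Filter Topology
open scoped ENNReal

namespace Pool.Agent.LYN

noncomputable section

lemma DEL_norm_sum (z : ℕ → ℂ) (hz : ∀ n, ‖z n‖ ≤ 1) (s : Finset ℕ) :
    ‖∑ n ∈ s, z n‖ ≤ s.card := by
  refine (norm_sum_le _ _).trans ?_
  refine (Finset.sum_le_card_nsmul s _ 1 fun n _ => hz n).trans ?_
  simp

/-- consecutive averages are close to each other -/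
lemma DEL_lip (z : ℕ → ℂ) (hz : ∀ n, ‖z n‖ ≤ 1) (N n : ℕ) (hN : 1 ≤ N) (hn : N ≤ n) :
    ‖(1 / (N : ℂ)) * ∑ k ∈ Finset.range N, z k‖ ≤
      ‖(1 / (n : ℂ)) * ∑ k ∈ Finset.range n, z k‖ + 2 * ((n : ℝ) - N) / N := by
  have hN0 : (0 : ℝ) < N := by exact_mod_cast hN
  have hn0 : (0 : ℝ) < n := by exact_mod_cast (lt_of_lt_of_le hN hn)
  have hNn : (N : ℝ) ≤ n := by exact_mod_cast hn
  have hNc : (N : ℂ) ≠ 0 := by exact_mod_cast hN0.ne'
  have hnc : (n : ℂ) ≠ 0 := by exact_mod_cast hn0.ne'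
  have hsp : ∑ k ∈ Finset.range n, z k =
      ∑ k ∈ Finset.range N, z k + ∑ k ∈ Finset.Ico N n, z k := by
    rw [Finset.sum_range_add_sum_Ico _ hn]
  set A := ∑ k ∈ Finset.range N, z k with hA
  set B := ∑ k ∈ Finset.Ico N n, z k with hB
  have hA1 : ‖A‖ ≤ N := by
    have := DEL_norm_sum z hz (Finset.range N)
    simpa using this
  have hB1 : ‖B‖ ≤ (n : ℝ) - N := by
    have := DEL_norm_sum z hz (Finset.Ico N n)
    rw [Nat.card_Ico, Nat.cast_sub hn] at this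
    exact this
  have hid : (1 / (N : ℂ)) * A = (1 / (n : ℂ)) * ∑ k ∈ Finset.range n, z k +
      (((n : ℂ) - N) / (N * n) * A - 1 / (n : ℂ) * B) := by
    rw [hsp]
    field_simp
    ring
  rw [hid]
  refine (norm_add_le _ _).trans ?_
  gcongr
  refine (norm_sub_le _ _).trans ?_
  have e1 : ‖((n : ℂ) - N) / (N * n) * A‖ ≤ ((n : ℝ) - N) / N := by
    rw [norm_mul, norm_div, norm_mul, Complex.norm_natCast, Complex.norm_natCast]
    have : ‖(n : ℂ) - N‖ = (n : ℝ) - N := by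
      rw [← Complex.ofReal_natCast n, ← Complex.ofReal_natCast N, ← Complex.ofReal_sub,
        Complex.norm_real, Real.norm_of_nonneg (by linarith)]
    rw [this]
    have h0 : 0 ≤ ((n : ℝ) - N) / (N * n) := div_nonneg (by linarith) (by positivity)
    calc ((n : ℝ) - N) / (N * n) * ‖A‖ ≤ ((n : ℝ) - N) / (N * n) * n :=
          mul_le_mul_of_nonneg_left (hA1.trans hNn) h0
      _ = ((n : ℝ) - N) / N := by field_simp
  have e2 : ‖1 / (n : ℂ) * B‖ ≤ ((n : ℝ) - N) / N := by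
    rw [norm_mul, norm_div, norm_one, Complex.norm_natCast]
    calc 1 / (n : ℝ) * ‖B‖ ≤ 1 / (N : ℝ) * ((n : ℝ) - N) := by
          apply mul_le_mul _ hB1 (norm_nonneg _) (by positivity)
          exact one_div_le_one_div_of_le hN0 hNn
      _ = ((n : ℝ) - N) / N := by ring
  calc _ ≤ ((n : ℝ) - N) / N + ((n : ℝ) - N) / N := add_le_add e1 e2
    _ = 2 * ((n : ℝ) - N) / N := by ring

theorem p_DEL : T_DEL := by
  intro z hz hs
  rw [Metric.tendsto_atTop]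
  intro ε hε
  obtain ⟨η, hη0, hη1, hηε⟩ : ∃ η : ℝ, 0 < η ∧ η ≤ 1 ∧ 3 * η ≤ ε := by
    refine ⟨min 1 (ε / 3), lt_min one_pos (by positivity), min_le_left _ _, ?_⟩
    have := min_le_right 1 (ε / 3)
    linarith
  obtain ⟨s, hsv⟩ := summable_iff_vanishing_norm.mp hs (η ^ 3 / 2) (by positivity)
  refine ⟨s.sup id + 1, fun N hN => ?_⟩
  rw [dist_zero_right]
  by_contra hcon
  push Not at hcon
  have hN1 : 1 ≤ N := by omega
  have hN0 : (0 : ℝ) < N := by exact_mod_cast hN1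
  set t := Finset.Icc N (N + ⌊η * N⌋₊) with ht
  have hdis : Disjoint t s := by
    rw [Finset.disjoint_left]
    intro a hat has
    have h1 : a ≤ s.sup id := Finset.le_sup (f := id) has
    have h2 := (Finset.mem_Icc.mp hat).1
    omega
  have hlt := hsv t hdis
  have hfl : (⌊η * N⌋₊ : ℝ) ≤ η * N := Nat.floor_le (by positivity)
  have hfl2 : η * N < (⌊η * N⌋₊ : ℝ) + 1 := Nat.lt_floor_add_one _
  have hterm : ∀ n ∈ t, η ^ 2 / (2 * N) ≤
      ‖(1 / (n : ℂ)) * ∑ k ∈ Finset.range n, z k‖ ^ 2 / n := by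
    intro n hn
    obtain ⟨h1, h2⟩ := Finset.mem_Icc.mp hn
    have h2' : (n : ℝ) ≤ N + ⌊η * N⌋₊ := by exact_mod_cast h2
    have h1' : (N : ℝ) ≤ n := by exact_mod_cast h1
    have hnN : (n : ℝ) - N ≤ η * N := by linarith
    have hl := DEL_lip z hz N n hN1 h1
    have h3 : 2 * ((n : ℝ) - N) / N ≤ 2 * η := by
      rw [div_le_iff₀ hN0]
      linarith
    have h4 : η ≤ ‖(1 / (n : ℂ)) * ∑ k ∈ Finset.range n, z k‖ := by linarith
    have h5 : (n : ℝ) ≤ 2 * N := by nlinarith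
    have hn0 : (0 : ℝ) < n := by linarith
    calc η ^ 2 / (2 * N) ≤ η ^ 2 / n := by
          apply div_le_div_of_nonneg_left (by positivity) hn0 h5
      _ ≤ _ := by gcongr
  have hsum := Finset.card_nsmul_le_sum t _ _ hterm
  have hcard : (t.card : ℝ) = ⌊η * N⌋₊ + 1 := by
    rw [ht, Nat.card_Icc]
    have : N + ⌊η * N⌋₊ + 1 - N = ⌊η * N⌋₊ + 1 := by omega
    rw [this]
    push_cast
    ring
  have hge : η ^ 3 / 2 ≤ ∑ n ∈ t, ‖(1 / (n : ℂ)) * ∑ k ∈ Finset.range n, z k‖ ^ 2 / n := by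
    refine le_trans ?_ hsum
    rw [nsmul_eq_mul, hcard]
    calc η ^ 3 / 2 = (η * N) * (η ^ 2 / (2 * N)) := by field_simp
      _ ≤ (⌊η * N⌋₊ + 1) * (η ^ 2 / (2 * N)) := by gcongr
  have habs : ∑ n ∈ t, ‖(1 / (n : ℂ)) * ∑ k ∈ Finset.range n, z k‖ ^ 2 / n ≤
      ‖∑ n ∈ t, ‖(1 / (n : ℂ)) * ∑ k ∈ Finset.range n, z k‖ ^ 2 / n‖ := Real.le_norm_self _
  linarith

end

end Pool.Agent.LYN
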