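import Pool.Agent.LYN.Targets2

set_option autoImplicit false

/-!
# LYN, part 2: second moment of a Fourier coefficient
-/

open MeasureTheory Filter Topology
open scoped ENNReal

namespace Pool.Agent.LYN

noncomputable section

lemma ETA_fourier_sub (b : ℤ) (x y : UnitAddCircle) :
    (fourier b : C(UnitAddCircle, ℂ)) (x - y) = (fourier b : C(UnitAddCircle, ℂ)) x *
      (starRingEnd ℂ) ((fourier b : C(UnitAddCircle, ℂ)) y) := by
  have h := fourier_add_pt b (x - y) y
  rw [sub_add_cancel] at h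
  rw [h, mul_assoc, Complex.mul_conj, Complex.normSq_eq_norm_sq, fourier_norm]
  simp

/-- second moment of the mean of a random function -/
lemma ETA_general {Ω Y : Type} [MeasurableSpace Ω] [MeasurableSpace Y] (P : Measure Ω)
    [IsProbabilityMeasure P] (ν : Measure Y) [IsProbabilityMeasure ν] (F : Ω → Y → ℂ)
    (hF : Measurable fun z : Ω × Y => F z.1 z.2) (hn : ∀ D y, ‖F D y‖ = 1) (K : ℝ)
    (B : Set (Y × Y)) (hB : MeasurableSet B) (hK : 0 ≤ K)
    (hgood : ∀ z : Y × Y, z ∉ B → ‖∫ D, F D z.1 * (starRingEnd ℂ) (F D z.2) ∂P‖ ≤ K) :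
    ∫ D, ‖∫ y, F D y ∂ν‖ ^ 2 ∂P ≤ K + (ν.prod ν).real B := by
  let G : Ω → Y × Y → ℂ := fun D z => F D z.1 * (starRingEnd ℂ) (F D z.2)
  have hGm : Measurable (Function.uncurry G) := by
    have g2 : Measurable fun w : Ω × (Y × Y) => (w.1, w.2.1) :=
      measurable_fst.prodMk (measurable_fst.comp measurable_snd)
    have g3 : Measurable fun w : Ω × (Y × Y) => (w.1, w.2.2) :=
      measurable_fst.prodMk (measurable_snd.comp measurable_snd)
    have h2 : Measurable fun w : Ω × (Y × Y) => F w.1 w.2.1 := hF.comp g2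
    have h3 : Measurable fun w : Ω × (Y × Y) => F w.1 w.2.2 := hF.comp g3
    exact h2.mul (Complex.continuous_conj.measurable.comp h3)
  have hGn : ∀ D z, ‖G D z‖ ≤ 1 := by
    intro D z
    change ‖F D z.1 * (starRingEnd ℂ) (F D z.2)‖ ≤ 1
    rw [norm_mul, RCLike.norm_conj, hn, hn, one_mul]
  have hGi : Integrable (Function.uncurry G) (P.prod (ν.prod ν)) :=
    Integrable.of_bound hGm.aestronglyMeasurable 1 (ae_of_all _ fun w => hGn w.1 w.2)
  have hsq : ∀ D, ((‖∫ y, F D y ∂ν‖ ^ 2 : ℝ) : ℂ) = ∫ z, G D z ∂(ν.prod ν) := by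
    intro D
    have h1 : ∫ z, G D z ∂(ν.prod ν) = (∫ y, F D y ∂ν) * ∫ y, (starRingEnd ℂ) (F D y) ∂ν :=
      integral_prod_mul (F D) fun y => (starRingEnd ℂ) (F D y)
    rw [h1, integral_conj, Complex.mul_conj, Complex.normSq_eq_norm_sq]
  have hmain : ((∫ D, ‖∫ y, F D y ∂ν‖ ^ 2 ∂P : ℝ) : ℂ) =
      ∫ z, ∫ D, G D z ∂P ∂(ν.prod ν) := by
    rw [← integral_integral_swap hGi, ← integral_complex_ofReal]
    exact integral_congr_ae (ae_of_all _ fun D => hsq D)
  have hle : ‖∫ z, ∫ D, G D z ∂P ∂(ν.prod ν)‖ ≤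
      ∫ z, (K + B.indicator (fun _ => (1 : ℝ)) z) ∂(ν.prod ν) := by
    refine norm_integral_le_of_norm_le ?_ (ae_of_all _ fun z => ?_)
    · exact (integrable_const K).add ((integrable_const (1 : ℝ)).indicator hB)
    · by_cases hz : z ∈ B
      · rw [Set.indicator_of_mem hz]
        have h1 : ‖∫ D, G D z ∂P‖ ≤ 1 := by
          refine (norm_integral_le_of_norm_le_const (C := 1)
            (ae_of_all _ fun D => hGn D z)).trans ?_
          simp
        linarith
      · rw [Set.indicator_of_notMem hz, add_zero]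
        exact hgood z hz
  have hval : ∫ z, (K + B.indicator (fun _ => (1 : ℝ)) z) ∂(ν.prod ν) =
      K + (ν.prod ν).real B := by
    rw [integral_add (integrable_const K) ((integrable_const (1 : ℝ)).indicator hB),
      integral_const, integral_indicator_const _ hB]
    simp
  calc ∫ D, ‖∫ y, F D y ∂ν‖ ^ 2 ∂P ≤ ‖((∫ D, ‖∫ y, F D y ∂ν‖ ^ 2 ∂P : ℝ) : ℂ)‖ := by
        rw [Complex.norm_real]
        exact le_abs_self _
    _ ≤ K + (ν.prod ν).real B := by
        rw [hmain, ← hval]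
        exact hle

lemma ETA_bad {Y : Type} [MeasurableSpace Y] (ν : Measure Y) (t : Y → ℕ) (M : ℕ) (β : ℝ≥0∞)
    (h : ∀ j, ν {y | t y = j} ≤ β) (x : Y) :
    ν {y | ¬ (t x + M ≤ t y ∨ t y + M ≤ t x)} ≤ (2 * M : ℕ) * β := by
  have h1 : {y | ¬ (t x + M ≤ t y ∨ t y + M ≤ t x)} ⊆
      ⋃ j ∈ Finset.Ico (t x + 1 - M) (t x + M), {y | t y = j} := by
    intro y hy
    have hy' : ¬ (t x + M ≤ t y ∨ t y + M ≤ t x) := hy
    push Not at hy'
    refine Set.mem_iUnion₂.2 ⟨t y, ?_, rfl⟩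
    rw [Finset.mem_Ico]
    omega
  refine (measure_mono h1).trans ((measure_biUnion_finset_le _ _).trans ?_)
  refine (Finset.sum_le_sum fun j _ => h j).trans ?_
  rw [Finset.sum_const, nsmul_eq_mul]
  refine mul_le_mul_left (Nat.cast_le.2 ?_) _
  rw [Nat.card_Ico]
  omega

theorem p_ETA (hFO2 : T_FO2) (hNM : T_NM) : T_ETA := by
  intro Y _ ν p S τ ε b k M L m β hp hν hS hτ hβ hfin hclk hτk hmL
  have hK0 : 0 ≤ Ps (ε k) p L m b + 4 * Real.pi * |(b : ℝ)| / (p : ℝ) ^ M := by
    have := Ps_nonneg (ε k) p L m b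
    positivity
  have hGC : Measurable fun z : Om × Y => GC p S τ z.1 z.2 :=
    meas_coe.comp (hNM Y p S τ hS hτ).ennreal_toReal
  have hFm : Measurable fun z : Om × Y => (fourier b : C(UnitAddCircle, ℂ)) (GC p S τ z.1 z.2) :=
    (fourier b : C(UnitAddCircle, ℂ)).continuous.measurable.comp hGC
  -- the bad set
  let B : Set Y := {y | ¬ Clk S τ k M y}
  let B₁ : Set (Y × Y) := B ×ˢ Set.univ
  let B₂ : Set (Y × Y) := Set.univ ×ˢ B
  let B₃ : Set (Y × Y) := {z | ¬ (τ k z.1 + M ≤ τ k z.2 ∨ τ k z.2 + M ≤ τ k z.1)}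
  have hB : MeasurableSet B := by
    have h1 : B = (⋂ t ∈ Finset.range M, {y | τ k (S^[t] y) + t = τ k y})ᶜ := by
      ext y
      simp only [B, Clk, Set.mem_compl_iff, Set.mem_iInter, Set.mem_ofPred_eq, Finset.mem_range]
    rw [h1]
    refine (Finset.measurableSet_biInter _ fun t _ => ?_).compl
    exact measurableSet_eq_fun (((hτ k).comp (hS.iterate t)).add_const t) (hτ k)
  have hB₃ : MeasurableSet B₃ := by
    have h1 : Measurable fun z : Y × Y => τ k z.1 := (hτ k).comp measurable_fst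
    have h2 : Measurable fun z : Y × Y => τ k z.2 := (hτ k).comp measurable_snd
    have h3 := measurableSet_le (h1.add_const M) h2
    have h4 := measurableSet_le (h2.add_const M) h1
    exact (h3.union h4).compl
  have hbad : (ν.prod ν) (B₁ ∪ B₂ ∪ B₃) ≤ ENNReal.ofReal (2 * (M + 1) * β) := by
    refine (measure_union_le _ _).trans ?_
    have h1 : (ν.prod ν) (B₁ ∪ B₂) ≤ ENNReal.ofReal β + ENNReal.ofReal β := by
      refine (measure_union_le _ _).trans (add_le_add ?_ ?_)
      · rw [Measure.prod_prod, measure_univ, mul_one]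
        exact hclk
      · rw [Measure.prod_prod, measure_univ, one_mul]
        exact hclk
    have h2 : (ν.prod ν) B₃ ≤ (2 * M : ℕ) * ENNReal.ofReal β := by
      rw [Measure.prod_apply hB₃]
      calc ∫⁻ x, ν (Prod.mk x ⁻¹' B₃) ∂ν ≤ ∫⁻ _, (2 * M : ℕ) * ENNReal.ofReal β ∂ν :=
            lintegral_mono fun x => ETA_bad ν (τ k) M _ hτk x
        _ = (2 * M : ℕ) * ENNReal.ofReal β := by rw [lintegral_const, measure_univ, mul_one]
    refine (add_le_add h1 h2).trans (le_of_eq ?_)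
    rw [← ENNReal.ofReal_natCast, ← ENNReal.ofReal_mul (by positivity),
      ← ENNReal.ofReal_add hβ hβ, ← ENNReal.ofReal_add (by positivity) (by positivity)]
    congr 1
    push_cast
    ring
  have hBm : MeasurableSet (B₁ ∪ B₂ ∪ B₃) :=
    ((hB.prod MeasurableSet.univ).union (MeasurableSet.univ.prod hB)).union hB₃
  have hreal : (ν.prod ν).real (B₁ ∪ B₂ ∪ B₃) ≤ 2 * (M + 1) * β :=
    ENNReal.toReal_le_of_le_ofReal (by positivity) hbad
  have hfinal := ETA_general (PP ε) ν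
    (fun D y => (fourier b : C(UnitAddCircle, ℂ)) (GC p S τ D y)) hFm
    (fun D y => fourier_norm b _) _ (B₁ ∪ B₂ ∪ B₃) hBm hK0 (fun z hz => by
      have h1 : Clk S τ k M z.1 := by
        by_contra h
        exact hz (Or.inl (Or.inl ⟨h, Set.mem_univ _⟩))
      have h2 : Clk S τ k M z.2 := by
        by_contra h
        exact hz (Or.inl (Or.inr ⟨Set.mem_univ _, h⟩))
      have h3 : τ k z.1 + M ≤ τ k z.2 ∨ τ k z.2 + M ≤ τ k z.1 := by
        by_contra h
        exact hz (Or.inr h)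
      have h4 := hFO2 Y p S τ ε z.1 z.2 b k M L m hp (hfin _) (hfin _) h1 h2 h3 hmL
      simp only [ETA_fourier_sub] at h4
      exact h4)
  unfold eta
  linarith

end

end Pool.Agent.LYN
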