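import Pool.Agent.LYN.Basic

set_option autoImplicit false

/-!
# LYN: the expectation of the random function
-/

open MeasureTheory Filter Topology
open scoped ENNReal

namespace Pool.Agent.LYN

noncomputable section

lemma NE_term {Y : Type} (p : ℕ) (S : Y → Y) (τ : ℕ → Y → ℕ) (ε : ℕ → unitInterval) (y : Y)
    (j : ℕ × ℕ) :
    ∫⁻ D, tm p S τ D y j ∂PP ε = ENNReal.ofReal (ε j.1) * ((p : ℝ≥0∞) ^ (j.2 + 1))⁻¹ := by
  have h1 : (fun D : Om => tm p S τ D y j) =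
      ({D : Om | D (j.1, τ j.1 (S^[j.2] y)) = true}).indicator
        fun _ => ((p : ℝ≥0∞) ^ (j.2 + 1))⁻¹ := by
    funext D
    unfold tm
    by_cases h : D (j.1, τ j.1 (S^[j.2] y)) = true
    · rw [if_pos h]
      exact (Set.indicator_of_mem (s := {D : Om | D (j.1, τ j.1 (S^[j.2] y)) = true}) h
        (fun _ => ((p : ℝ≥0∞) ^ (j.2 + 1))⁻¹)).symm
    · rw [if_neg h]
      exact (Set.indicator_of_notMem (s := {D : Om | D (j.1, τ j.1 (S^[j.2] y)) = true}) h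
        (fun _ => ((p : ℝ≥0∞) ^ (j.2 + 1))⁻¹)).symm
  have h2 : MeasurableSet {D : Om | D (j.1, τ j.1 (S^[j.2] y)) = true} :=
    measurableSet_eq_fun (measurable_pi_apply _) measurable_const
  rw [h1, lintegral_indicator_const h2, PP_digit, mul_comm]

lemma NE_geom (p : ℕ) (hp : 2 ≤ p) : ∑' t : ℕ, ((p : ℝ≥0∞) ^ (t + 1))⁻¹ ≤ 1 := by
  have h1 : ∀ t : ℕ, ((p : ℝ≥0∞) ^ (t + 1))⁻¹ ≤ (2⁻¹ : ℝ≥0∞) ^ (t + 1) := by
    intro t
    rw [← ENNReal.inv_pow, ENNReal.inv_le_inv]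
    have h2 : (2 : ℝ≥0∞) ≤ p := by exact_mod_cast hp
    exact pow_le_pow_left₀ zero_le h2 _
  refine (ENNReal.tsum_le_tsum h1).trans ?_
  rw [ENNReal.tsum_geometric_add_one, ENNReal.one_sub_inv_two, inv_inv]
  exact (ENNReal.inv_mul_cancel two_ne_zero ENNReal.ofNat_ne_top).le

theorem p_NE : T_NE := by
  intro Y p S τ ε y hp
  unfold GI
  rw [lintegral_tsum fun j => (meas_tm_left p S τ y j).aemeasurable]
  simp only [NE_term]
  rw [ENNReal.tsum_prod' (f := fun j : ℕ × ℕ =>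
    ENNReal.ofReal (ε j.1) * ((p : ℝ≥0∞) ^ (j.2 + 1))⁻¹)]
  refine ENNReal.tsum_le_tsum fun k => ?_
  simp only
  rw [ENNReal.tsum_mul_left]
  calc ENNReal.ofReal (ε k) * ∑' t : ℕ, ((p : ℝ≥0∞) ^ (t + 1))⁻¹
      ≤ ENNReal.ofReal (ε k) * 1 := by gcongr; exact NE_geom p hp
    _ = ENNReal.ofReal (ε k) := mul_one _

end

end Pool.Agent.LYN
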