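import Pool.Agent.LYN.Targets2
import Pool.Agent.LYN.P_NE

set_option autoImplicit false

/-!
# LYN, target FO2: expectation of a character at two points
-/

open MeasureTheory Filter Topology
open scoped ENNReal

namespace Pool.Agent.LYN

noncomputable section

variable {Y : Type}

/-- part of the series -/
def FO2_part (p : ℕ) (S : Y → Y) (τ : ℕ → Y → ℕ) (J : Set (ℕ × ℕ)) (D : Om) (y : Y) : ℝ≥0∞ :=
  ∑' j, J.indicator (tm p S τ D y) j

lemma FO2_union (p : ℕ) (S : Y → Y) (τ : ℕ → Y → ℕ) {J J' : Set (ℕ × ℕ)} (h : Disjoint J J')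
    (D : Om) (y : Y) :
    FO2_part p S τ (J ∪ J') D y = FO2_part p S τ J D y + FO2_part p S τ J' D y := by
  unfold FO2_part
  rw [← ENNReal.tsum_add, Set.indicator_union_of_disjoint h]

lemma FO2_compl (p : ℕ) (S : Y → Y) (τ : ℕ → Y → ℕ) (J : Set (ℕ × ℕ)) (D : Om) (y : Y) :
    GI p S τ D y = FO2_part p S τ J D y + FO2_part p S τ Jᶜ D y := by
  rw [← FO2_union p S τ disjoint_compl_right, Set.union_compl_self]
  unfold FO2_part GI
  rw [Set.indicator_univ]

lemma FO2_meas (p : ℕ) (S : Y → Y) (τ : ℕ → Y → ℕ) (J : Set (ℕ × ℕ)) (y : Y) :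
    Measurable fun D : Om => FO2_part p S τ J D y := by
  refine Measurable.tsum fun j => ?_
  by_cases hj : j ∈ J
  · simp only [Set.indicator_of_mem hj]
    exact meas_tm_left p S τ y j
  · simp only [Set.indicator_of_notMem hj]
    exact measurable_const

lemma FO2_inv (p : ℕ) (S : Y → Y) (τ : ℕ → Y → ℕ) (J : Set (ℕ × ℕ)) (y : Y) (i : ℕ × ℕ)
    (h : ∀ j ∈ J, (j.1, τ j.1 (S^[j.2] y)) ≠ i) (D : Om) (z : Bool) :
    FO2_part p S τ J (Function.update D i z) y = FO2_part p S τ J D y := by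
  unfold FO2_part
  refine tsum_congr fun j => ?_
  by_cases hj : j ∈ J
  · rw [Set.indicator_of_mem hj, Set.indicator_of_mem hj]
    unfold tm
    rw [Function.update_of_ne (h j hj)]
  · rw [Set.indicator_of_notMem hj, Set.indicator_of_notMem hj]

/-- the far terms of scale `k` -/
def FO2_far (k M : ℕ) : Set (ℕ × ℕ) := {j | j.1 = k ∧ M ≤ j.2}

lemma FO2_far_le (p : ℕ) (hp : 2 ≤ p) (S : Y → Y) (τ : ℕ → Y → ℕ) (k M : ℕ) (D : Om) (y : Y) :
    FO2_part p S τ (FO2_far k M) D y ≤ ((p : ℝ≥0∞) ^ M)⁻¹ := by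
  have h1 : ∀ j : ℕ × ℕ, (FO2_far k M).indicator (tm p S τ D y) j ≤
      if j.1 = k then (if M ≤ j.2 then ((p : ℝ≥0∞) ^ (j.2 + 1))⁻¹ else 0) else 0 := by
    intro j
    by_cases hj : j ∈ FO2_far k M
    · rw [Set.indicator_of_mem hj, if_pos hj.1, if_pos hj.2]
      exact tm_le p S τ D y j
    · rw [Set.indicator_of_notMem hj]
      exact zero_le
  unfold FO2_part
  refine (ENNReal.tsum_le_tsum h1).trans ?_
  rw [ENNReal.tsum_prod' (f := fun j : ℕ × ℕ =>
    if j.1 = k then (if M ≤ j.2 then ((p : ℝ≥0∞) ^ (j.2 + 1))⁻¹ else 0) else 0)]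
  rw [tsum_eq_single k (fun k' hk' => by simp [hk'])]
  simp only [if_true]
  have h2 : ∑' t : ℕ, (if M ≤ t then ((p : ℝ≥0∞) ^ (t + 1))⁻¹ else 0) =
      ∑' t : ℕ, ((p : ℝ≥0∞) ^ (t + M + 1))⁻¹ := by
    have e := Summable.sum_add_tsum_nat_add' (k := M)
      (f := fun t : ℕ => if M ≤ t then ((p : ℝ≥0∞) ^ (t + 1))⁻¹ else 0) ENNReal.summable
    have e2 : ∑ t ∈ Finset.range M, (if M ≤ t then ((p : ℝ≥0∞) ^ (t + 1))⁻¹ else 0) = 0 := by
      refine Finset.sum_eq_zero fun t ht => ?_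
      rw [if_neg (not_le.2 (Finset.mem_range.1 ht))]
    rw [e2, zero_add] at e
    rw [← e]
    refine tsum_congr fun t => ?_
    rw [if_pos (Nat.le_add_left M t)]
  rw [h2]
  have h3 : ∀ t : ℕ, ((p : ℝ≥0∞) ^ (t + M + 1))⁻¹ =
      ((p : ℝ≥0∞) ^ M)⁻¹ * ((p : ℝ≥0∞) ^ (t + 1))⁻¹ := by
    intro t
    rw [← ENNReal.mul_inv (Or.inr (ENNReal.pow_ne_top (ENNReal.natCast_ne_top p)))
      (Or.inl (ENNReal.pow_ne_top (ENNReal.natCast_ne_top p))), ← pow_add]
    congr 2
    omega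
  simp only [h3]
  rw [ENNReal.tsum_mul_left]
  calc ((p : ℝ≥0∞) ^ M)⁻¹ * ∑' t : ℕ, ((p : ℝ≥0∞) ^ (t + 1))⁻¹
      ≤ ((p : ℝ≥0∞) ^ M)⁻¹ * 1 := by gcongr; exact NE_geom p hp
    _ = ((p : ℝ≥0∞) ^ M)⁻¹ := mul_one _

/-- the window -/
def FO2_win (k m L : ℕ) : Finset (ℕ × ℕ) := (Finset.range L).image fun s => (k, m + s)

lemma FO2_win_sum (p : ℕ) (S : Y → Y) (τ : ℕ → Y → ℕ) (k m L : ℕ) (D : Om) (y : Y) :
    FO2_part p S τ (FO2_win k m L : Set (ℕ × ℕ)) D y =
      ∑ s ∈ Finset.range L, tm p S τ D y (k, m + s) := by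
  unfold FO2_part
  rw [tsum_eq_sum (s := FO2_win k m L) (fun j hj => Set.indicator_of_notMem (by simpa using hj) _)]
  rw [Finset.sum_congr rfl (g := tm p S τ D y) (fun j hj => Set.indicator_of_mem (by simpa using hj) _)]
  unfold FO2_win
  rw [Finset.sum_image]
  intro a _ b _ hab
  have := (Prod.ext_iff.1 hab).2
  simp only at this
  omega

lemma FO2_tm_toReal (p : ℕ) (S : Y → Y) (τ : ℕ → Y → ℕ) (D : Om) (y : Y) (j : ℕ × ℕ) :
    (tm p S τ D y j).toReal =
      if D (j.1, τ j.1 (S^[j.2] y)) then 1 / (p : ℝ) ^ (j.2 + 1) else 0 := by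
  unfold tm
  split_ifs
  · rw [ENNReal.toReal_inv, ENNReal.toReal_pow, ENNReal.toReal_natCast, one_div]
  · rfl

lemma FO2_win_toReal (p : ℕ) (hp : 2 ≤ p) (S : Y → Y) (τ : ℕ → Y → ℕ) (k m L : ℕ) (D : Om)
    (y : Y) : (FO2_part p S τ (FO2_win k m L : Set (ℕ × ℕ)) D y).toReal =
      ∑ s ∈ Finset.range L,
        if D (k, τ k (S^[m + s] y)) then 1 / (p : ℝ) ^ (m + s + 1) else 0 := by
  rw [FO2_win_sum, ENNReal.toReal_sum]
  · exact Finset.sum_congr rfl fun s _ => FO2_tm_toReal p S τ D y (k, m + s)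
  · intro s _
    refine ne_top_of_le_ne_top ?_ (tm_le p S τ D y (k, m + s))
    rw [Ne, ENNReal.inv_eq_top]
    exact pow_ne_zero _ (by exact_mod_cast (by omega : p ≠ 0))

lemma FO2_far_toReal (p : ℕ) (hp : 2 ≤ p) (S : Y → Y) (τ : ℕ → Y → ℕ) (k M : ℕ) (D : Om)
    (y : Y) : 0 ≤ (FO2_part p S τ (FO2_far k M) D y).toReal ∧
      (FO2_part p S τ (FO2_far k M) D y).toReal ≤ 1 / (p : ℝ) ^ M := by
  refine ⟨ENNReal.toReal_nonneg, ?_⟩
  have h1 : ((p : ℝ≥0∞) ^ M)⁻¹ ≠ ⊤ := by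
    rw [Ne, ENNReal.inv_eq_top]
    exact pow_ne_zero _ (by exact_mod_cast (by omega : p ≠ 0))
  have h2 := ENNReal.toReal_mono h1 (FO2_far_le p hp S τ k M D y)
  rwa [ENNReal.toReal_inv, ENNReal.toReal_pow, ENNReal.toReal_natCast, ← one_div] at h2

lemma FO2_char (p : ℕ) (S : Y → Y) (τ : ℕ → Y → ℕ) (D : Om) (y y' : Y) (b : ℤ) :
    (fourier b : C(UnitAddCircle, ℂ)) (GC p S τ D y - GC p S τ D y') =
      ee (b * (GR p S τ D y - GR p S τ D y')) := by
  unfold GC
  rw [← AddCircle.coe_sub, fourier_coe]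

/-- split of the sum at the first point -/
lemma FO2_split (p : ℕ) (S : Y → Y) (τ : ℕ → Y → ℕ) (k M L m : ℕ) (hmL : m + L ≤ M) (D : Om)
    (y : Y) (hy : GI p S τ D y ≠ ⊤) : GR p S τ D y =
      (FO2_part p S τ (FO2_win k m L : Set (ℕ × ℕ)) D y).toReal +
      (FO2_part p S τ (FO2_far k M) D y).toReal +
      (FO2_part p S τ ((FO2_win k m L : Set (ℕ × ℕ)) ∪ FO2_far k M)ᶜ D y).toReal := by
  have hdis : Disjoint (FO2_win k m L : Set (ℕ × ℕ)) (FO2_far k M) := by
    rw [Set.disjoint_left]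
    intro j hj hj'
    obtain ⟨s, hs, rfl⟩ := Finset.mem_image.1 (Finset.mem_coe.1 hj)
    have h1 := Finset.mem_range.1 hs
    have h2 : M ≤ m + s := hj'.2
    omega
  unfold GR
  rw [FO2_compl p S τ ((FO2_win k m L : Set (ℕ × ℕ)) ∪ FO2_far k M), FO2_union p S τ hdis] at hy ⊢
  have h1 := ENNReal.add_ne_top.1 hy
  have h2 := ENNReal.add_ne_top.1 h1.1
  rw [ENNReal.toReal_add h1.1 h1.2, ENNReal.toReal_add h2.1 h2.2]

lemma FO2_split' (p : ℕ) (S : Y → Y) (τ : ℕ → Y → ℕ) (k M : ℕ) (D : Om)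
    (y : Y) (hy : GI p S τ D y ≠ ⊤) : GR p S τ D y =
      (FO2_part p S τ (FO2_far k M) D y).toReal +
      (FO2_part p S τ (FO2_far k M)ᶜ D y).toReal := by
  unfold GR
  rw [FO2_compl p S τ (FO2_far k M)] at hy ⊢
  have h1 := ENNReal.add_ne_top.1 hy
  rw [ENNReal.toReal_add h1.1 h1.2]

theorem p_FO2 (hRES : T_RES) : T_FO2 := by
  intro Y p S τ ε y y' b k M L m hp hy hy' hc hc' hd hmL
  -- the clocks
  have hct : ∀ t < M, t ≤ τ k y := fun t ht => by have := hc t ht; omega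
  have hcv : ∀ t < M, τ k (S^[t] y) = τ k y - t := fun t ht => by have := hc t ht; omega
  have hcv' : ∀ t < M, τ k (S^[t] y') = τ k y' - t := fun t ht => by have := hc' t ht; omega
  have hct' : ∀ t < M, t ≤ τ k y' := fun t ht => by have := hc' t ht; omega
  -- the digits of the window
  let f : ℕ → ℕ × ℕ := fun s => (k, τ k y - (m + s))
  let W : Finset (ℕ × ℕ) := (Finset.range L).image f
  have hinj : Set.InjOn f (Finset.range L : Set ℕ) := by
    intro a ha c hc2 h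
    have h1 : τ k y - (m + a) = τ k y - (m + c) := (Prod.ext_iff.1 h).2
    have h2 := hct (m + a) (by have := Finset.mem_range.1 (Finset.mem_coe.1 ha); omega)
    have h3 := hct (m + c) (by have := Finset.mem_range.1 (Finset.mem_coe.1 hc2); omega)
    omega
  let J3 : Set (ℕ × ℕ) := ((FO2_win k m L : Set (ℕ × ℕ)) ∪ FO2_far k M)ᶜ
  have inv1 : ∀ i ∈ W, ∀ j ∈ J3, (j.1, τ j.1 (S^[j.2] y)) ≠ i := by
    intro i hi j hj he
    obtain ⟨s, hs, rfl⟩ := Finset.mem_image.1 hi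
    have hs' := Finset.mem_range.1 hs
    have h1 : j.1 = k := (Prod.ext_iff.1 he).1
    have h2 : τ j.1 (S^[j.2] y) = τ k y - (m + s) := (Prod.ext_iff.1 he).2
    have h3 : j ∉ FO2_far k M := fun h => hj (Or.inr h)
    have h4 : j.2 < M := by
      by_contra h
      exact h3 ⟨h1, not_lt.1 h⟩
    rw [h1, hcv j.2 h4] at h2
    have h5 := hct j.2 h4
    have h6 := hct (m + s) (by omega)
    refine hj (Or.inl (Finset.mem_coe.2 (Finset.mem_image.2 ⟨s, hs, ?_⟩)))
    refine Prod.ext h1.symm ?_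
    change m + s = j.2
    omega
  have inv2 : ∀ i ∈ W, ∀ j ∈ (FO2_far k M)ᶜ, (j.1, τ j.1 (S^[j.2] y')) ≠ i := by
    intro i hi j hj he
    obtain ⟨s, hs, rfl⟩ := Finset.mem_image.1 hi
    have hs' := Finset.mem_range.1 hs
    have h1 : j.1 = k := (Prod.ext_iff.1 he).1
    have h2 : τ j.1 (S^[j.2] y') = τ k y - (m + s) := (Prod.ext_iff.1 he).2
    have h4 : j.2 < M := by
      by_contra h
      exact hj ⟨h1, not_lt.1 h⟩
    rw [h1, hcv' j.2 h4] at h2
    have h5 := hct' j.2 h4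
    have h6 := hct (m + s) (by omega)
    omega
  let r : Om → ℝ := fun D => (FO2_part p S τ J3 D y).toReal -
    (FO2_part p S τ (FO2_far k M)ᶜ D y').toReal
  have hrm : Measurable r :=
    (FO2_meas p S τ J3 y).ennreal_toReal.sub (FO2_meas p S τ _ y').ennreal_toReal
  have hri : ∀ i ∈ W, ∀ D z, r (Function.update D i z) = r D := by
    intro i hi D z
    change (FO2_part p S τ J3 (Function.update D i z) y).toReal -
      (FO2_part p S τ (FO2_far k M)ᶜ (Function.update D i z) y').toReal = _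
    rw [FO2_inv p S τ J3 y i (inv1 i hi), FO2_inv p S τ _ y' i (inv2 i hi)]
  let H : Om → ℂ := fun D => ee (b * r D)
  have hHm : Measurable H := continuous_ee.measurable.comp (measurable_const.mul hrm)
  let h : ℕ × ℕ → Bool → ℂ := fun i z => if z then ee (b / (p : ℝ) ^ (τ k y - i.2 + 1)) else 1
  have hres := hRES ε W h H hHm (fun D => (norm_ee _).le) (fun i hi D z => by
    change ee (b * r (Function.update D i z)) = ee (b * r D)
    rw [hri i hi])
  -- the product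
  have hprod : ∀ D : Om, (∏ i ∈ W, h i (D i)) =
      ee (b * (FO2_part p S τ (FO2_win k m L : Set (ℕ × ℕ)) D y).toReal) := by
    intro D
    rw [FO2_win_toReal p hp, Finset.mul_sum, ee_sum, Finset.prod_image hinj]
    refine Finset.prod_congr rfl fun s hs => ?_
    have hs' := Finset.mem_range.1 hs
    have h1 := hct (m + s) (by omega)
    have h2 : τ k y - (τ k y - (m + s)) = m + s := by omega
    rw [hcv (m + s) (by omega)]
    change (if D (k, τ k y - (m + s)) = true then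
      ee (b / (p : ℝ) ^ (τ k y - (τ k y - (m + s)) + 1)) else 1) = _
    rw [h2]
    split_ifs
    · rw [mul_one_div]
    · rw [mul_zero, ee_zero]
  have hfac : ‖∏ i ∈ W, (((1 - (ε i.1 : ℝ) : ℝ) : ℂ) * h i false +
      ((ε i.1 : ℝ) : ℂ) * h i true)‖ = Ps (ε k) p L m b := by
    unfold Ps
    rw [Finset.prod_image hinj, norm_prod]
    refine Finset.prod_congr rfl fun s hs => ?_
    have hs' := Finset.mem_range.1 hs
    have h1 := hct (m + s) (by omega)
    have h2 : τ k y - (τ k y - (m + s)) = m + s := by omega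
    change ‖((1 - (ε k : ℝ) : ℝ) : ℂ) * 1 + ((ε k : ℝ) : ℂ) *
      ee (b / (p : ℝ) ^ (τ k y - (τ k y - (m + s)) + 1))‖ = _
    rw [h2, mul_one]
    rfl
  -- the two integrands
  let G : Om → ℂ := fun D => (∏ i ∈ W, h i (D i)) * H D
  let F : Om → ℂ := fun D =>
    (fourier b : C(UnitAddCircle, ℂ)) (GC p S τ D y - GC p S τ D y')
  have hGe : ∀ D, G D = ee (b * ((FO2_part p S τ (FO2_win k m L : Set (ℕ × ℕ)) D y).toReal +
      r D)) := by
    intro D
    change (∏ i ∈ W, h i (D i)) * ee (b * r D) = _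
    rw [hprod, ← ee_add, mul_add]
  have hGm : Measurable G := by
    have : G = fun D => ee (b * ((FO2_part p S τ (FO2_win k m L : Set (ℕ × ℕ)) D y).toReal +
      r D)) := funext hGe
    rw [this]
    exact continuous_ee.measurable.comp
      (measurable_const.mul ((FO2_meas p S τ _ y).ennreal_toReal.add hrm))
  have hFm : Measurable F := by
    have : F = fun D => ee (b * (GR p S τ D y - GR p S τ D y')) :=
      funext fun D => FO2_char p S τ D y y' b
    rw [this]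
    exact continuous_ee.measurable.comp
      (measurable_const.mul ((meas_GR_left p S τ y).sub (meas_GR_left p S τ y')))
  have hGn : ∀ D, ‖G D‖ ≤ 1 := fun D => by rw [hGe, norm_ee]
  have hFn : ∀ D, ‖F D‖ ≤ 1 := fun D => by
    change ‖(fourier b : C(UnitAddCircle, ℂ)) _‖ ≤ 1
    rw [fourier_norm]
  have hGi : Integrable G (PP ε) :=
    Integrable.of_bound hGm.aestronglyMeasurable 1 (Eventually.of_forall hGn)
  have hFi : Integrable F (PP ε) :=
    Integrable.of_bound hFm.aestronglyMeasurable 1 (Eventually.of_forall hFn)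
  have hdiff : ∀ᵐ D ∂PP ε, ‖F D - G D‖ ≤ 4 * Real.pi * |(b : ℝ)| / (p : ℝ) ^ M := by
    filter_upwards [hy, hy'] with D hD hD'
    have e1 : F D = ee (b * (GR p S τ D y - GR p S τ D y')) := FO2_char p S τ D y y' b
    rw [e1, hGe]
    refine (ee_lip _ _).trans ?_
    have e2 := FO2_split p S τ k M L m hmL D y hD
    have e3 := FO2_split' p S τ k M D y' hD'
    have f1 := FO2_far_toReal p hp S τ k M D y
    have f2 := FO2_far_toReal p hp S τ k M D y'
    have e4 : (b : ℝ) * (GR p S τ D y - GR p S τ D y') -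
        b * ((FO2_part p S τ (FO2_win k m L : Set (ℕ × ℕ)) D y).toReal + r D) =
        b * ((FO2_part p S τ (FO2_far k M) D y).toReal -
          (FO2_part p S τ (FO2_far k M) D y').toReal) := by
      rw [e2, e3]
      change _ - (b : ℝ) * (_ + ((FO2_part p S τ J3 D y).toReal -
        (FO2_part p S τ (FO2_far k M)ᶜ D y').toReal)) = _
      ring
    rw [e4, abs_mul]
    have e5 : |(FO2_part p S τ (FO2_far k M) D y).toReal -
        (FO2_part p S τ (FO2_far k M) D y').toReal| ≤ 2 * (1 / (p : ℝ) ^ M) := by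
      rw [abs_le]
      constructor <;> linarith
    calc 2 * Real.pi * (|(b : ℝ)| * |(FO2_part p S τ (FO2_far k M) D y).toReal -
        (FO2_part p S τ (FO2_far k M) D y').toReal|)
        ≤ 2 * Real.pi * (|(b : ℝ)| * (2 * (1 / (p : ℝ) ^ M))) := by
          have := Real.pi_pos
          gcongr
      _ = 4 * Real.pi * |(b : ℝ)| / (p : ℝ) ^ M := by ring
  have hsplit : ∫ D, F D ∂PP ε = ∫ D, G D ∂PP ε + ∫ D, (F D - G D) ∂PP ε := by
    rw [integral_sub hFi hGi]
    ring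
  have hG1 : ‖∫ D, G D ∂PP ε‖ ≤ Ps (ε k) p L m b := by
    have e1 : ∫ D, G D ∂PP ε = (∏ i ∈ W, (((1 - (ε i.1 : ℝ) : ℝ) : ℂ) * h i false +
      ((ε i.1 : ℝ) : ℂ) * h i true)) * ∫ D, H D ∂PP ε := hres
    rw [e1, norm_mul, hfac]
    have e2 : ‖∫ D, H D ∂PP ε‖ ≤ 1 := by
      have := norm_integral_le_of_norm_le_const (μ := PP ε) (f := H) (C := 1)
        (Eventually.of_forall fun D => (norm_ee _).le)
      simpa using this
    exact mul_le_of_le_one_right (Ps_nonneg _ _ _ _ _) e2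
  have hD1 : ‖∫ D, (F D - G D) ∂PP ε‖ ≤ 4 * Real.pi * |(b : ℝ)| / (p : ℝ) ^ M := by
    have := norm_integral_le_of_norm_le_const (μ := PP ε) (f := fun D => F D - G D)
      (C := 4 * Real.pi * |(b : ℝ)| / (p : ℝ) ^ M) hdiff
    simpa using this
  change ‖∫ D, F D ∂PP ε‖ ≤ _
  rw [hsplit]
  exact (norm_add_le _ _).trans (add_le_add hG1 hD1)

end

end Pool.Agent.LYN
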