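import Pool.Agent.LYN.Basic

set_option autoImplicit false

/-!
# LYN: sum over a geometric progression (target FSU)
-/

open MeasureTheory Filter Topology
open scoped ENNReal

namespace Pool.Agent.LYN

noncomputable section

lemma FSU_ps (ε : ℝ) (p Q R L : ℕ) (c : ℤ) (hp : p = Q * R) (hQ : 0 < Q) (hR : 0 < R) :
    Ps ε p L 0 ((R : ℤ) ^ L * c) = Gp ε p Q L c := by
  unfold Ps Gp
  rw [← Finset.prod_range_reflect]
  refine Finset.prod_congr rfl fun t ht => ?_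
  have htL : t < L := Finset.mem_range.mp ht
  congr 2
  have hQ' : (Q : ℝ) ≠ 0 := by positivity
  have hR' : (R : ℝ) ≠ 0 := by positivity
  have hp' : (p : ℝ) ≠ 0 := by rw [hp]; push_cast; positivity
  have hpL : (p : ℝ) ^ L = (Q : ℝ) ^ L * (R : ℝ) ^ L := by
    rw [hp]; push_cast; rw [mul_pow]
  have hs : 0 + (L - 1 - t) + 1 + t = L := by omega
  have hpp : (p : ℝ) ^ (0 + (L - 1 - t) + 1) * (p : ℝ) ^ t = (p : ℝ) ^ L := by
    rw [← pow_add, hs]
  rw [div_eq_div_iff (pow_ne_zero _ hp') (pow_ne_zero _ hQ')]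
  push_cast
  calc (R : ℝ) ^ L * (c : ℝ) * (Q : ℝ) ^ L = ((Q : ℝ) ^ L * (R : ℝ) ^ L) * c := by ring
    _ = ((p : ℝ) ^ (0 + (L - 1 - t) + 1) * (p : ℝ) ^ t) * c := by rw [hpp, hpL]
    _ = _ := by ring

lemma FSU_per (hPH : T_PH) (ε : ℝ) (p Q L : ℕ) (c z : ℤ) (hQ : 0 < Q) :
    Gp ε p Q L (c + (Q : ℤ) ^ L * z) = Gp ε p Q L c := by
  unfold Gp
  refine Finset.prod_congr rfl fun t _ => ?_
  have hQ' : (Q : ℝ) ≠ 0 := by positivity
  have h : (p : ℝ) ^ t * ((c + (Q : ℤ) ^ L * z : ℤ) : ℝ) / (Q : ℝ) ^ L =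
      (p : ℝ) ^ t * (c : ℝ) / (Q : ℝ) ^ L + (((p : ℤ) ^ t * z : ℤ) : ℝ) := by
    push_cast
    field_simp
  rw [h, hPH.2.1]

lemma FSU_mod (hPH : T_PH) (ε : ℝ) (p Q L : ℕ) (c : ℤ) (hQ : 0 < Q) :
    Gp ε p Q L c = Gp ε p Q L (((c % (Q : ℤ) ^ L).toNat : ℕ) : ℤ) := by
  have hpos : (0 : ℤ) < (Q : ℤ) ^ L := by positivity
  rw [Int.toNat_of_nonneg (Int.emod_nonneg _ hpos.ne')]
  conv_lhs => rw [← Int.emod_add_mul_ediv c ((Q : ℤ) ^ L)]
  exact FSU_per hPH ε p Q L _ _ hQ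

/-- sum over a geometric progression -/
theorem p_FSU (hMUL : T_MUL) (hGL : T_GL) (hPH : T_PH) : T_FSU := by
  intro p w Q R K a hS ha
  obtain ⟨C, hC, hM⟩ := hMUL w Q a hS.w2 hS.q2 hS.cop ha
  refine ⟨C, by exact_mod_cast hC, ?_⟩
  intro ε hε0 hε1 L N hN r hr
  have hQ : 0 < Q := by have := hS.q2; omega
  have hR : 0 < R := by
    rcases Nat.eq_zero_or_pos R with h | h
    · exfalso
      have h1 := hS.dvd
      rw [h] at h1
      have h2 : w ^ K = 0 := Nat.eq_zero_of_zero_dvd h1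
      have h3 : 0 < w ^ K := Nat.pow_pos (by have := hS.w2; omega)
      omega
    · exact h
  have hQL : (0 : ℤ) < (Q : ℤ) ^ L := by positivity
  have hQLr : (0 : ℝ) < (Q : ℝ) ^ L := by positivity
  -- the exact quotients
  have hdiv : ∀ j ∈ Finset.Ico (K * L) N, (R : ℤ) ^ L ∣ r - a * (w : ℤ) ^ j := by
    intro j hj
    have hj' : K * L ≤ j := (Finset.mem_Ico.mp hj).1
    refine Dvd.dvd.sub hr (Dvd.dvd.mul_left ?_ a)
    have h1 : R ^ L ∣ (w ^ K) ^ L := pow_dvd_pow_of_dvd hS.dvd L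
    have h2 : R ^ L ∣ w ^ j := by
      rw [← pow_mul] at h1
      exact h1.trans (pow_dvd_pow w hj')
    exact_mod_cast h2
  let cc : ℕ → ℤ := fun j => (r - a * (w : ℤ) ^ j) / (R : ℤ) ^ L
  have hcc : ∀ j ∈ Finset.Ico (K * L) N, r - a * (w : ℤ) ^ j = (R : ℤ) ^ L * cc j := by
    intro j hj
    exact (Int.mul_ediv_cancel' (hdiv j hj)).symm
  let f : ℕ → ℕ := fun j => (cc j % (Q : ℤ) ^ L).toNat
  have hfr : ∀ j ∈ Finset.Ico (K * L) N, f j ∈ Finset.range (Q ^ L) := by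
    intro j _
    rw [Finset.mem_range]
    have h1 := Int.emod_nonneg (cc j) hQL.ne'
    have h2 := Int.emod_lt_of_pos (cc j) hQL
    have h3 : ((f j : ℕ) : ℤ) = cc j % (Q : ℤ) ^ L := Int.toNat_of_nonneg h1
    have h4 : ((f j : ℕ) : ℤ) < ((Q ^ L : ℕ) : ℤ) := by
      rw [h3]; push_cast; exact h2
    exact_mod_cast h4
  have hterm : ∀ j ∈ Finset.Ico (K * L) N,
      Ps ε p L 0 (r - a * (w : ℤ) ^ j) = Gp ε p Q L ((f j : ℕ) : ℤ) := by
    intro j hj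
    rw [hcc j hj, FSU_ps ε p Q R L _ hS.fac hQ hR]
    exact FSU_mod hPH ε p Q L _ hQ
  rw [Finset.sum_congr rfl hterm]
  rw [← Finset.sum_fiberwise_of_maps_to hfr]
  have hcard : ∀ c ∈ Finset.range (Q ^ L),
      (((Finset.Ico (K * L) N).filter fun j => f j = c).card : ℝ) ≤ C * N / (Q : ℝ) ^ L := by
    intro c _
    have h1 := hM L N (r - (R : ℤ) ^ L * c) hN
    have hsub : ((Finset.Ico (K * L) N).filter fun j => f j = c) ⊆
        ((Finset.range N).filter fun j =>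
          (Q : ℤ) ^ L ∣ a * (w : ℤ) ^ j - (r - (R : ℤ) ^ L * c)) := by
      intro j hj
      obtain ⟨hj1, hj2⟩ := Finset.mem_filter.mp hj
      rw [Finset.mem_filter]
      refine ⟨Finset.mem_range.mpr (Finset.mem_Ico.mp hj1).2, ?_⟩
      have h2 := hcc j hj1
      have h3 : ((f j : ℕ) : ℤ) = cc j % (Q : ℤ) ^ L :=
        Int.toNat_of_nonneg (Int.emod_nonneg (cc j) hQL.ne')
      have h4 : a * (w : ℤ) ^ j - (r - (R : ℤ) ^ L * c) = (R : ℤ) ^ L * ((c : ℤ) - cc j) := by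
        linarith
      rw [h4, ← hj2, h3]
      refine Dvd.dvd.mul_left ?_ _
      have h5 := Int.emod_add_mul_ediv (cc j) ((Q : ℤ) ^ L)
      refine ⟨-(cc j / (Q : ℤ) ^ L), ?_⟩
      linarith
    have h2 := Finset.card_le_card hsub
    rw [le_div_iff₀ hQLr]
    have h3 : ((Finset.Ico (K * L) N).filter fun j => f j = c).card * Q ^ L ≤ C * N :=
      (Nat.mul_le_mul_right _ h2).trans h1
    exact_mod_cast h3
  have hQ' : (Q : ℝ) ≠ 0 := by positivity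
  calc ∑ c ∈ Finset.range (Q ^ L), ∑ j ∈ (Finset.Ico (K * L) N).filter (fun j => f j = c),
        Gp ε p Q L ((f j : ℕ) : ℤ)
      ≤ ∑ c ∈ Finset.range (Q ^ L), C * N / (Q : ℝ) ^ L * Gp ε p Q L ((1 * c : ℕ) : ℤ) := by
        refine Finset.sum_le_sum fun c hc => ?_
        have h1 : ∑ j ∈ (Finset.Ico (K * L) N).filter (fun j => f j = c),
            Gp ε p Q L ((f j : ℕ) : ℤ) =
            (((Finset.Ico (K * L) N).filter fun j => f j = c).card : ℝ) *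
              Gp ε p Q L ((1 * c : ℕ) : ℤ) := by
          rw [Finset.sum_congr rfl (g := fun _ => Gp ε p Q L ((1 * c : ℕ) : ℤ))
            (fun j hj => by rw [(Finset.mem_filter.mp hj).2, one_mul])]
          rw [Finset.sum_const, nsmul_eq_mul]
        rw [h1]
        exact mul_le_mul_of_nonneg_right (hcard c hc) (Gp_nonneg _ _ _ _ _)
    _ = C * N / (Q : ℝ) ^ L * ∑ c ∈ Finset.range (Q ^ L), Gp ε p Q L ((1 * c : ℕ) : ℤ) := by
        rw [Finset.mul_sum]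
    _ ≤ C * N / (Q : ℝ) ^ L * ((Q : ℝ) - ε / (8 * (Q : ℝ) ^ 2)) ^ L := by
        refine mul_le_mul_of_nonneg_left ?_ (by positivity)
        exact hGL ε p Q R hε0 hε1 hS.q2 hS.fac hS.cop' L 1 (Nat.coprime_one_left Q)
    _ = C * N * (1 - ε / (8 * (Q : ℝ) ^ 3)) ^ L := by
        have h1 : (1 - ε / (8 * (Q : ℝ) ^ 3)) = ((Q : ℝ) - ε / (8 * (Q : ℝ) ^ 2)) / Q := by
          field_simp
        rw [h1, div_pow]
        ring

end

end Pool.Agent.LYN
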