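import Pool.Agent.LYN.Basic

set_option autoImplicit false

/-!
# LYN: mean value of the products
-/

open MeasureTheory Filter Topology
open scoped ENNReal

namespace Pool.Agent.LYN

noncomputable section

lemma GL_split (f : ℕ → ℝ) (m n : ℕ) :
    ∑ c ∈ Finset.range (m * n), f c =
      ∑ c ∈ Finset.range m, ∑ d ∈ Finset.range n, f (m * d + c) := by
  rw [Finset.sum_comm]
  induction n with
  | zero => simp
  | succ n ih => rw [Nat.mul_succ, Finset.sum_range_add, ih, Finset.sum_range_succ]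

lemma GL_inner (g : ℕ → ℝ) (Q : ℕ) (hQ : 2 ≤ Q) (s : ℝ) (h1 : ∀ d, g d ≤ 1)
    (h2 : g 0 + g 1 ≤ 2 - s) : ∑ d ∈ Finset.range Q, g d ≤ Q - s := by
  obtain ⟨k, rfl⟩ := Nat.exists_eq_add_of_le hQ
  rw [Finset.sum_range_add]
  have h3 : ∑ x ∈ Finset.range k, g (2 + x) ≤ k := by
    calc ∑ x ∈ Finset.range k, g (2 + x) ≤ ∑ x ∈ Finset.range k, (1 : ℝ) :=
          Finset.sum_le_sum fun x _ => h1 _
      _ = k := by simp
  rw [Finset.sum_range_succ, Finset.sum_range_one]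
  push_cast
  linarith

/-- the first factor -/
lemma GL_succ (ε : ℝ) (p Q R : ℕ) (hQ : 2 ≤ Q) (hp : p = Q * R) (L : ℕ) (c : ℤ) :
    Gp ε p Q (L + 1) c = Gp ε p Q L (R * c) * ‖ph ε ((c : ℝ) / (Q : ℝ) ^ (L + 1))‖ := by
  have hQ0 : (Q : ℝ) ≠ 0 := by
    have : Q ≠ 0 := by omega
    exact_mod_cast this
  unfold Gp
  rw [Finset.prod_range_succ']
  congr 1
  · refine Finset.prod_congr rfl fun t _ => ?_
    congr 2
    rw [hp]
    push_cast
    rw [pow_succ ((Q : ℝ) * R) t, pow_succ (Q : ℝ) L]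
    field_simp
  · rw [pow_zero, one_mul]

/-- periodicity -/
lemma GL_per (hPH : T_PH) (ε : ℝ) (p Q : ℕ) (hQ : 2 ≤ Q) (L : ℕ) (c z : ℤ) :
    Gp ε p Q L ((Q : ℤ) ^ L * z + c) = Gp ε p Q L c := by
  have hQ0 : (Q : ℝ) ≠ 0 := by
    have : Q ≠ 0 := by omega
    exact_mod_cast this
  unfold Gp
  refine Finset.prod_congr rfl fun t _ => ?_
  have h1 : (p : ℝ) ^ t * (((Q : ℤ) ^ L * z + c : ℤ) : ℝ) / (Q : ℝ) ^ L =
      (p : ℝ) ^ t * (c : ℝ) / (Q : ℝ) ^ L + (((p : ℤ) ^ t * z : ℤ) : ℝ) := by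
    push_cast
    field_simp
    ring
  rw [h1, hPH.2.1]

theorem p_GL (hPH : T_PH) : T_GL := by
  intro ε p Q R hε0 hε1 hQ hp hRQ L
  have hQ0 : (Q : ℝ) ≠ 0 := by
    have : Q ≠ 0 := by omega
    exact_mod_cast this
  induction L with
  | zero =>
    intro U _
    simp [Gp]
  | succ L ih =>
    intro U hU
    have hin : ∀ x : ℝ, ∑ d ∈ Finset.range Q, ‖ph ε (x + (d : ℝ) * ((U : ℝ) / Q))‖ ≤
        (Q : ℝ) - ε / (8 * (Q : ℝ) ^ 2) := by
      intro x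
      refine GL_inner _ Q hQ _ (fun d => hPH.1 _ _ hε0 (by linarith)) ?_
      have h := hPH.2.2 ε x Q U hε0 hε1 hQ hU
      simpa using h
    have hs : 0 ≤ (Q : ℝ) - ε / (8 * (Q : ℝ) ^ 2) :=
      (Finset.sum_nonneg fun _ _ => norm_nonneg _).trans (hin 0)
    rw [pow_succ Q L, GL_split]
    have hterm : ∀ c ∈ Finset.range (Q ^ L),
        ∑ d ∈ Finset.range Q, Gp ε p Q (L + 1) ((U * (Q ^ L * d + c) : ℕ) : ℤ) ≤
          Gp ε p Q L ((R * U * c : ℕ) : ℤ) * ((Q : ℝ) - ε / (8 * (Q : ℝ) ^ 2)) := by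
      intro c _
      have h1 : ∀ d ∈ Finset.range Q, Gp ε p Q (L + 1) ((U * (Q ^ L * d + c) : ℕ) : ℤ) =
          Gp ε p Q L ((R * U * c : ℕ) : ℤ) *
            ‖ph ε ((U : ℝ) * c / (Q : ℝ) ^ (L + 1) + (d : ℝ) * ((U : ℝ) / Q))‖ := by
        intro d _
        rw [GL_succ ε p Q R hQ hp]
        congr 1
        · have h2 : (R : ℤ) * ((U * (Q ^ L * d + c) : ℕ) : ℤ) =
              (Q : ℤ) ^ L * (R * U * d : ℤ) + ((R * U * c : ℕ) : ℤ) := by
            push_cast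
            ring
          rw [h2, GL_per hPH ε p Q hQ]
        · congr 2
          push_cast
          rw [pow_succ (Q : ℝ) L]
          field_simp
          ring
      rw [Finset.sum_congr rfl h1, ← Finset.mul_sum]
      exact mul_le_mul_of_nonneg_left (hin _) (Gp_nonneg _ _ _ _ _)
    calc _ ≤ ∑ c ∈ Finset.range (Q ^ L),
          Gp ε p Q L ((R * U * c : ℕ) : ℤ) * ((Q : ℝ) - ε / (8 * (Q : ℝ) ^ 2)) :=
          Finset.sum_le_sum hterm
      _ = (∑ c ∈ Finset.range (Q ^ L), Gp ε p Q L ((R * U * c : ℕ) : ℤ)) *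
          ((Q : ℝ) - ε / (8 * (Q : ℝ) ^ 2)) := by rw [Finset.sum_mul]
      _ ≤ ((Q : ℝ) - ε / (8 * (Q : ℝ) ^ 2)) ^ L * ((Q : ℝ) - ε / (8 * (Q : ℝ) ^ 2)) :=
          mul_le_mul_of_nonneg_right (ih (R * U) (Nat.Coprime.mul_left hRQ hU)) hs
      _ = ((Q : ℝ) - ε / (8 * (Q : ℝ) ^ 2)) ^ (L + 1) :=
          (pow_succ _ L).symm

end

end Pool.Agent.LYN
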