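import Pool.Agent.LYN.Basic

set_option autoImplicit false

/-!
# LYN, target LTE: lifting the exponent
-/

namespace Pool.Agent.LYN

/-- lifting the exponent for a number which is one modulo `Q ^ 2` -/
theorem LTE_val {W : ℤ} {Q l : ℕ} (hW : (Q : ℤ) ^ 2 ∣ W - 1) (hl : l.Prime) (hlQ : l ∣ Q) (h : ℕ) :
    emultiplicity (l : ℤ) (W ^ h - 1) = emultiplicity (l : ℤ) (W - 1) + emultiplicity (l : ℤ) h := by
  have h1 : (l : ℤ) ^ 2 ∣ W - 1 :=
    (pow_dvd_pow_of_dvd (Int.natCast_dvd_natCast.2 hlQ) 2).trans hW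
  have h2 : (l : ℤ) ∣ W - 1 := (dvd_pow_self _ two_ne_zero).trans h1
  have h3 : ¬ (l : ℤ) ∣ W := by
    intro h3
    have h4 : (l : ℤ) ∣ 1 := by
      have := dvd_sub h3 h2
      rwa [sub_sub_cancel] at this
    have h5 := Int.natCast_dvd_natCast.1 (by simpa using h4 : (l : ℤ) ∣ ((1 : ℕ) : ℤ))
    exact hl.one_lt.ne' (Nat.dvd_one.1 h5)
  rcases hl.eq_two_or_odd' with rfl | hodd
  · have h4 : (4 : ℤ) ∣ W - 1 := by
      have : ((2 : ℕ) : ℤ) ^ 2 = 4 := by norm_num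
      rwa [this] at h1
    have := Int.two_pow_sub_pow' (x := W) (y := 1) h (by simpa using h4) (by exact_mod_cast h3)
    rw [one_pow] at this
    exact_mod_cast this
  · have := Int.emultiplicity_pow_sub_pow hl hodd (x := W) (y := 1) h2 h3 h
    rw [one_pow] at this
    rw [this]
    congr 1
    exact Int.natCast_emultiplicity l h |>.symm

theorem p_LTE : T_LTE := by
  intro w Q a hw hQ hco ha
  set φ := Nat.totient (Q ^ 2) with hφ
  have hφ0 : 0 < φ := Nat.totient_pos.2 (by positivity)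
  have hWQ : (Q : ℤ) ^ 2 ∣ (w : ℤ) ^ φ - 1 := by
    have h1 : w ^ φ ≡ 1 [MOD Q ^ 2] := Nat.ModEq.pow_totient (Nat.Coprime.pow_right 2 hco)
    have h2 := (Nat.modEq_iff_dvd.1 h1.symm)
    push_cast at h2
    exact h2
  have hW2 : 2 ≤ w ^ φ := hw.trans (Nat.le_self_pow hφ0.ne' w)
  refine ⟨a.natAbs * (w ^ φ - 1), Nat.mul_pos (Int.natAbs_pos.2 ha) (by omega), ?_⟩
  intro L h hh hd
  have hd2 : (Q : ℤ) ^ L ∣ a * (((w : ℤ) ^ φ) ^ h - 1) := by
    refine hd.trans (mul_dvd_mul_left a ?_)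
    rw [← pow_mul, mul_comm φ h, pow_mul]
    have := sub_dvd_pow_sub_pow ((w : ℤ) ^ h) 1 φ
    rwa [one_pow] at this
  have key : (Q ^ L) ∣ (a * (((w : ℤ) ^ φ - 1) * h)).natAbs := by
    rw [Nat.dvd_iff_prime_pow_dvd_dvd]
    intro l k hl hk
    rcases Nat.eq_zero_or_pos k with rfl | hk0
    · simp
    have hlQ : l ∣ Q := hl.dvd_of_dvd_pow ((dvd_pow_self l hk0.ne').trans hk)
    rw [← Int.natCast_dvd, Nat.cast_pow, pow_dvd_iff_le_emultiplicity]
    have h1 : (l : ℤ) ^ k ∣ a * (((w : ℤ) ^ φ) ^ h - 1) := by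
      refine dvd_trans ?_ hd2
      exact_mod_cast hk
    rw [pow_dvd_iff_le_emultiplicity, emultiplicity_mul (Nat.prime_iff_prime_int.1 hl),
      LTE_val hWQ hl hlQ] at h1
    rwa [emultiplicity_mul (Nat.prime_iff_prime_int.1 hl),
      emultiplicity_mul (Nat.prime_iff_prime_int.1 hl)]
  have hnat : (a * (((w : ℤ) ^ φ - 1) * h)).natAbs = a.natAbs * (w ^ φ - 1) * h := by
    rw [Int.natAbs_mul, Int.natAbs_mul, Int.natAbs_natCast, mul_assoc]
    congr 2
    have : (w : ℤ) ^ φ - 1 = ((w ^ φ - 1 : ℕ) : ℤ) := by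
      rw [Nat.cast_sub (by omega)]
      push_cast
      rfl
    rw [this, Int.natAbs_natCast]
  rw [hnat] at key
  exact Nat.le_of_dvd (Nat.mul_pos (Nat.mul_pos (Int.natAbs_pos.2 ha) (by omega)) (by omega)) key

end Pool.Agent.LYN
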