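import Pool.Agent.LYN.Basic

set_option autoImplicit false

/-!
# LYN: measurability of the set of normal points
-/

open MeasureTheory Filter Topology

namespace Pool.Agent.LYN

/-- the set of the points whose image is normal in every base multiplicatively independent of
`p` is measurable -/
theorem p_MSB : T_MSB := by
  intro α _ f p hf
  have h : {x : α | ∀ q : ℕ, 2 ≤ q →
      (∀ m n : ℕ, p ^ m = q ^ n → m = 0 ∧ n = 0) → Nrm q (f x)} =
      ⋂ q : ℕ, ⋂ (_ : 2 ≤ q), ⋂ (_ : ∀ m n : ℕ, p ^ m = q ^ n → m = 0 ∧ n = 0),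
        ⋂ a : ℤ, ⋂ (_ : a ≠ 0), {x : α | Tendsto (fun N => wav q a (f x) N) atTop (𝓝 0)} := by
    ext x
    simp only [Set.mem_iInter]
    rfl
  rw [h]
  refine MeasurableSet.iInter fun q => MeasurableSet.iInter fun _ => MeasurableSet.iInter fun _ =>
    MeasurableSet.iInter fun a => MeasurableSet.iInter fun _ => ?_
  exact measurableSet_tendsto (𝓝 (0 : ℂ)) (f := fun N x => wav q a (f x) N)
    fun N => (continuous_wav q a N).measurable.comp hf

end Pool.Agent.LYN
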