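import Pool.Agent.LYN.Basic

set_option autoImplicit false

/-!
# LYN: the multiples `a w^j` are spread over the classes modulo `Q^L`
-/

namespace Pool.Agent.LYN

/-- two elements of one class are far from each other -/
lemma MUL_gap {w Q : ℕ} {a : ℤ} (hc : Nat.Coprime w Q) {C : ℕ}
    (hC : ∀ L h : ℕ, 1 ≤ h → (Q : ℤ) ^ L ∣ a * ((w : ℤ) ^ h - 1) → Q ^ L ≤ C * h)
    {L j k : ℕ} {r : ℤ} (hjk : j < k) (hj : (Q : ℤ) ^ L ∣ a * (w : ℤ) ^ j - r)
    (hk : (Q : ℤ) ^ L ∣ a * (w : ℤ) ^ k - r) : Q ^ L ≤ C * (k - j) := by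
  refine hC L (k - j) (by omega) ?_
  have h1 : (Q : ℤ) ^ L ∣ (a * ((w : ℤ) ^ (k - j) - 1)) * (w : ℤ) ^ j := by
    have h2 := dvd_sub hk hj
    have h3 : a * (w : ℤ) ^ k - r - (a * (w : ℤ) ^ j - r) =
        (a * ((w : ℤ) ^ (k - j) - 1)) * (w : ℤ) ^ j := by
      have h4 : (w : ℤ) ^ k = (w : ℤ) ^ (k - j) * (w : ℤ) ^ j := by
        rw [← pow_add]
        congr 1
        omega
      rw [h4]
      ring
    rwa [h3] at h2
  have hcop : IsCoprime ((Q : ℤ) ^ L) ((w : ℤ) ^ j) := by
    apply IsCoprime.pow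
    exact (Nat.isCoprime_iff_coprime.mpr hc).symm
  exact hcop.dvd_of_dvd_mul_right h1

theorem p_MUL (hLTE : T_LTE) : T_MUL := by
  intro w Q a hw hQ hc ha
  obtain ⟨C, hC0, hC⟩ := hLTE w Q a hw hQ hc ha
  refine ⟨C + 1, by omega, ?_⟩
  intro L N r hN
  set M : ℕ := Q ^ L with hM
  have hM1 : 1 ≤ M := Nat.one_le_pow _ _ (by omega)
  set G : ℕ := (M + C - 1) / C with hG
  have hG1 : M ≤ C * G := by
    have h := Nat.lt_mul_div_succ (M + C - 1) hC0
    rw [← hG] at h
    have h2 : C * (G + 1) = C * G + C := by ring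
    omega
  have hGpos : 0 < G := by
    rcases Nat.eq_zero_or_pos G with h | h
    · rw [h] at hG1
      omega
    · exact h
  have hG2 : ∀ h : ℕ, M ≤ C * h → G ≤ h := by
    intro h hh
    have h1 : (M + C - 1) / C < h + 1 := by
      rw [Nat.div_lt_iff_lt_mul hC0]
      have h2 : (h + 1) * C = C * h + C := by ring
      omega
    omega
  set A := (Finset.range N).filter fun j => (Q : ℤ) ^ L ∣ a * (w : ℤ) ^ j - r with hA
  have hgap : ∀ j ∈ A, ∀ k ∈ A, j < k → G ≤ k - j := by
    intro j hj k hk hjk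
    rw [hA, Finset.mem_filter] at hj hk
    exact hG2 _ (MUL_gap hc hC hjk hj.2 hk.2)
  have hcard : A.card ≤ (N - 1) / G + 1 := by
    have h1 : A.card ≤ (Finset.range ((N - 1) / G + 1)).card := by
      apply Finset.card_le_card_of_injOn (fun j => j / G)
      · intro j hj
        have hj' : j ∈ A := hj
        rw [hA, Finset.mem_filter, Finset.mem_range] at hj'
        have h2 : j / G ≤ (N - 1) / G := Nat.div_le_div_right (by omega)
        simp only [Finset.coe_range, Set.mem_Iio]
        omega
      · intro j hj k hk hjk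
        have hjk' : j / G = k / G := hjk
        have hlt : ∀ x y : ℕ, x / G = y / G → x < y → y - x < G := by
          intro x y hxy hlt
          have h3 := Nat.div_add_mod x G
          have h4 := Nat.div_add_mod y G
          have h5 := Nat.mod_lt y hGpos
          rw [hxy] at h3
          omega
        rcases lt_trichotomy j k with h | h | h
        · have h6 := hgap j hj k hk h
          have h7 := hlt j k hjk' h
          omega
        · exact h
        · have h6 := hgap k hk j hj h
          have h7 := hlt k j hjk'.symm h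
          omega
    rwa [Finset.card_range] at h1
  calc A.card * M ≤ ((N - 1) / G + 1) * M := Nat.mul_le_mul_right _ hcard
    _ = (N - 1) / G * M + M := by ring
    _ ≤ (N - 1) / G * (C * G) + N := by
        exact Nat.add_le_add (Nat.mul_le_mul_left _ hG1) hN
    _ = C * ((N - 1) / G * G) + N := by ring
    _ ≤ C * N + N := by
        refine Nat.add_le_add_right (Nat.mul_le_mul_left _ ?_) _
        exact (Nat.div_mul_le_self _ _).trans (Nat.sub_le _ _)
    _ = (C + 1) * N := by ring

end Pool.Agent.LYN
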