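import Pool.Agent.LYN.Basic

set_option autoImplicit false

/-!
# LYN: NQ (equivariance of the random function)
-/

open MeasureTheory Filter Topology
open scoped ENNReal

namespace Pool.Agent.LYN

noncomputable section

variable {Y : Type}

lemma NQ_tm_zero (p : ℕ) (hp : 2 ≤ p) (S : Y → Y) (τ : ℕ → Y → ℕ) (D : Om) (y : Y) (k : ℕ) :
    (p : ℝ≥0∞) * tm p S τ D y (k, 0) = if D (k, τ k y) then 1 else 0 := by
  have h0 : (p : ℝ≥0∞) ≠ 0 := by
    have : p ≠ 0 := by omega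
    exact_mod_cast this
  have h1 : (p : ℝ≥0∞) ≠ ⊤ := ENNReal.natCast_ne_top p
  unfold tm
  simp only [Function.iterate_zero, id_eq, zero_add, pow_one]
  split_ifs
  · exact ENNReal.mul_inv_cancel h0 h1
  · exact mul_zero _

lemma NQ_tm_succ (p : ℕ) (hp : 2 ≤ p) (S : Y → Y) (τ : ℕ → Y → ℕ) (D : Om) (y : Y) (k t : ℕ) :
    (p : ℝ≥0∞) * tm p S τ D y (k, t + 1) = tm p S τ D (S y) (k, t) := by
  have h0 : (p : ℝ≥0∞) ≠ 0 := by
    have : p ≠ 0 := by omega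
    exact_mod_cast this
  have h1 : (p : ℝ≥0∞) ≠ ⊤ := ENNReal.natCast_ne_top p
  unfold tm
  simp only [Function.iterate_succ, Function.comp_apply]
  split_ifs
  · rw [pow_succ (p : ℝ≥0∞) (t + 1), ENNReal.mul_inv (Or.inr h1) (Or.inr h0), mul_comm, mul_assoc,
      ENNReal.inv_mul_cancel h0 h1, mul_one]
  · exact mul_zero _

lemma NQ_eq (p : ℕ) (hp : 2 ≤ p) (S : Y → Y) (τ : ℕ → Y → ℕ) (D : Om) (y : Y) :
    (p : ℝ≥0∞) * GI p S τ D y =
      (∑' k : ℕ, if D (k, τ k y) then (1 : ℝ≥0∞) else 0) + GI p S τ D (S y) := by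
  unfold GI
  have e1 : ∀ z : Y, ∑' j : ℕ × ℕ, tm p S τ D z j = ∑' k : ℕ, ∑' t : ℕ, tm p S τ D z (k, t) :=
    fun z => ENNReal.tsum_prod (f := fun k t => tm p S τ D z (k, t))
  rw [e1 y, e1 (S y), ← ENNReal.tsum_mul_left, ← ENNReal.tsum_add]
  refine tsum_congr fun k => ?_
  rw [← ENNReal.tsum_mul_left, tsum_eq_zero_add' ENNReal.summable, NQ_tm_zero p hp]
  congr 1
  exact tsum_congr fun t => NQ_tm_succ p hp S τ D y k t

lemma NQ_nat (s : ℕ → Prop) [DecidablePred s]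
    (h : (∑' k : ℕ, if s k then (1 : ℝ≥0∞) else 0) ≠ ⊤) :
    ∃ m : ℕ, (∑' k : ℕ, if s k then (1 : ℝ≥0∞) else 0) = m := by
  have hf := ENNReal.finite_const_le_of_tsum_ne_top h one_ne_zero
  refine ⟨hf.toFinset.card, ?_⟩
  rw [tsum_eq_sum (s := hf.toFinset)]
  · rw [Finset.card_eq_sum_ones, Nat.cast_sum]
    refine Finset.sum_congr rfl fun k hk => ?_
    have hk' : (1 : ℝ≥0∞) ≤ if s k then (1 : ℝ≥0∞) else 0 := by simpa using hk
    by_cases hs : s k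
    · simp [hs]
    · simp [hs] at hk'
  · intro k hk
    by_cases hs : s k
    · exfalso
      apply hk
      simp [hs]
    · simp [hs]

/-- equivariance -/
theorem p_NQ : T_NQ := by
  intro Y p S τ D y hp hfin
  have h0 : (p : ℝ≥0∞) ≠ ⊤ := ENNReal.natCast_ne_top p
  have hE := NQ_eq p hp S τ D y
  have hL : (p : ℝ≥0∞) * GI p S τ D y ≠ ⊤ := ENNReal.mul_ne_top h0 hfin
  have hR := hL
  rw [hE] at hR
  have hA := (ENNReal.add_ne_top.1 hR).1
  have hB := (ENNReal.add_ne_top.1 hR).2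
  refine ⟨hB, ?_⟩
  obtain ⟨m, hm⟩ := NQ_nat (fun k => D (k, τ k y) = true) hA
  refine ⟨m, ?_⟩
  have h2 := congrArg ENNReal.toReal hE
  rw [ENNReal.toReal_mul, ENNReal.toReal_add hA hB, hm] at h2
  simpa [GR] using h2

end

end Pool.Agent.LYN
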