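import Pool.Agent.LYN.Basic

set_option autoImplicit false

/-!
# LYN, target PAIR: the sum over pairs
-/

open MeasureTheory Filter Topology
open scoped ENNReal

namespace Pool.Agent.LYN

noncomputable section

lemma PAIR_shift (ε : ℝ) (p L m : ℕ) (hp : 0 < p) (b : ℤ) :
    Ps ε p L m ((p : ℤ) ^ m * b) = Ps ε p L 0 b := by
  unfold Ps
  refine Finset.prod_congr rfl fun s _ => ?_
  have hp' : (p : ℝ) ^ m ≠ 0 := pow_ne_zero _ (by exact_mod_cast hp.ne')
  have h : (((p : ℤ) ^ m * b : ℤ) : ℝ) / (p : ℝ) ^ (m + s + 1) =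
      (b : ℝ) / (p : ℝ) ^ (0 + s + 1) := by
    push_cast
    rw [Nat.zero_add, Nat.add_assoc, pow_add (p : ℝ) m, mul_div_mul_left _ _ hp']
  rw [h]

lemma PAIR_per (hper : ∀ (ε θ : ℝ) (n : ℤ), ph ε (θ + n) = ph ε θ) (ε : ℝ) (p L : ℕ)
    (hp : 0 < p) (b z : ℤ) : Ps ε p L 0 (b + (p : ℤ) ^ L * z) = Ps ε p L 0 b := by
  unfold Ps
  refine Finset.prod_congr rfl fun s hs => ?_
  have hs' : s < L := Finset.mem_range.1 hs
  have hp' : (p : ℝ) ^ (s + 1) ≠ 0 := pow_ne_zero _ (by exact_mod_cast hp.ne')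
  have h : ((b + (p : ℤ) ^ L * z : ℤ) : ℝ) / (p : ℝ) ^ (0 + s + 1) =
      (b : ℝ) / (p : ℝ) ^ (0 + s + 1) + (((p : ℤ) ^ (L - (s + 1)) * z : ℤ) : ℝ) := by
    have h1 : (p : ℝ) ^ L = (p : ℝ) ^ (s + 1) * (p : ℝ) ^ (L - (s + 1)) := by
      rw [← pow_add, Nat.add_sub_cancel' hs']
    push_cast
    rw [Nat.zero_add, h1, add_div]
    congr 1
    field_simp
  rw [h, hper]

lemma PAIR_le_one (hone : ∀ ε θ : ℝ, 0 ≤ ε → ε ≤ 1 → ‖ph ε θ‖ ≤ 1) (ε : ℝ) (h0 : 0 ≤ ε)
    (h1 : ε ≤ 1) (p L m : ℕ) (b : ℤ) : Ps ε p L m b ≤ 1 :=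
  Finset.prod_le_one (fun _ _ => norm_nonneg _) fun _ _ => hone _ _ h0 h1

/-- the number of indices in a window -/
lemma PAIR_ind (i : ℕ) (s : Finset ℕ) :
    ∑ j ∈ Finset.range i, (if j ∈ s then (1 : ℝ) else 0) ≤ s.card := by
  rw [Finset.sum_ite_mem, Finset.sum_const, nsmul_eq_mul, mul_one]
  exact_mod_cast Finset.card_le_card Finset.inter_subset_right

/-- the sum for one value of `i` -/
lemma PAIR_row (K L N i : ℕ) (X : ℝ) (f g : ℕ → ℝ)
    (hf1 : ∀ j, f j ≤ 1) (hg0 : ∀ j, 0 ≤ g j)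
    (hfg : ∀ j, j < i → K * L ≤ j → j + L ≤ i → f j ≤ g j)
    (hg : ∑ j ∈ Finset.Ico (K * L) N, g j ≤ X) (hi : i ≤ N) :
    ∑ j ∈ Finset.range i, f j ≤ (K * L : ℕ) + (L : ℝ) + X := by
  have h1 : ∀ j ∈ Finset.range i, f j ≤ (if j ∈ Finset.range (K * L) then (1 : ℝ) else 0) +
      (if j ∈ Finset.Ico (i - L) i then (1 : ℝ) else 0) +
      (if j ∈ Finset.Ico (K * L) N then g j else 0) := by
    intro j hj
    have hj' := Finset.mem_range.1 hj
    by_cases h2 : j < K * L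
    · rw [if_pos (Finset.mem_range.2 h2)]
      have h3 : (0 : ℝ) ≤ if j ∈ Finset.Ico (i - L) i then (1 : ℝ) else 0 := by
        split_ifs <;> norm_num
      have h4 : (0 : ℝ) ≤ if j ∈ Finset.Ico (K * L) N then g j else 0 := by
        split_ifs
        · exact hg0 j
        · exact le_rfl
      linarith [hf1 j]
    · rw [if_neg (fun h => h2 (Finset.mem_range.1 h)),
        if_pos (c := j ∈ Finset.Ico (K * L) N) (Finset.mem_Ico.2 ⟨not_lt.1 h2, lt_of_lt_of_le hj' hi⟩)]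
      by_cases h3 : j + L ≤ i
      · have h4 := hfg j hj' (not_lt.1 h2) h3
        have h5 : (0 : ℝ) ≤ if j ∈ Finset.Ico (i - L) i then (1 : ℝ) else 0 := by
          split_ifs <;> norm_num
        linarith
      · rw [if_pos (Finset.mem_Ico.2 ⟨by omega, hj'⟩)]
        linarith [hf1 j, hg0 j]
  refine (Finset.sum_le_sum h1).trans ?_
  rw [Finset.sum_add_distrib, Finset.sum_add_distrib]
  have h2 := PAIR_ind i (Finset.range (K * L))
  have h3 := PAIR_ind i (Finset.Ico (i - L) i)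
  rw [Finset.card_range] at h2
  rw [Nat.card_Ico] at h3
  have h4 : ((i - (i - L) : ℕ) : ℝ) ≤ L := by
    have : i - (i - L) ≤ L := by omega
    exact_mod_cast this
  have h5 : ∑ j ∈ Finset.range i, (if j ∈ Finset.Ico (K * L) N then g j else 0) ≤
      ∑ j ∈ Finset.Ico (K * L) N, g j := by
    rw [Finset.sum_ite_mem]
    exact Finset.sum_le_sum_of_subset_of_nonneg Finset.inter_subset_right fun j _ _ => hg0 j
  linarith

theorem p_PAIR (hF : T_FSU) (hP : T_PH) : T_PAIR := by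
  intro p v w Q R K a hS ha
  obtain ⟨hone, hper, -⟩ := hP
  obtain ⟨C0, hC0, hC⟩ := hF p w Q R K a hS ha
  have hQ2 : (2 : ℝ) ≤ Q := by exact_mod_cast hS.q2
  have hQ3 : (8 : ℝ) ≤ (Q : ℝ) ^ 3 := by
    have := pow_le_pow_left₀ (by norm_num) hQ2 3
    norm_num at this
    exact this
  have hR0 : 0 < R := by
    rcases Nat.eq_zero_or_pos R with h | h
    · have h1 := hS.cop'
      rw [h, Nat.coprime_zero_left] at h1
      have := hS.q2
      omega
    · exact h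
  have hp0 : 0 < p := by
    rw [hS.fac]
    exact Nat.mul_pos (by have := hS.q2; omega) hR0
  have hQp : Q ≤ p := by
    rw [hS.fac]
    exact Nat.le_mul_of_pos_right _ hR0
  set κ : ℝ := 1 / (8 * (Q : ℝ) ^ 3) with hκ
  have hκ0 : 0 < κ := by positivity
  have hκ1 : κ ≤ 1 := by
    rw [hκ, div_le_one (by positivity)]
    linarith
  refine ⟨C0 + K + 1, κ, by positivity, hκ0, hκ1, fun ε he0 he1 L N hL hN => ?_⟩
  have hQN : Q ^ L ≤ N := (Nat.pow_le_pow_left hQp L).trans hN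
  have hX0 : 0 ≤ (1 - κ * ε) ^ L := by
    apply pow_nonneg
    nlinarith
  have hκe : ε / (8 * (Q : ℝ) ^ 3) = κ * ε := by
    rw [hκ]
    ring
  -- one row
  have hrow : ∀ i ∈ Finset.range N, ∑ j ∈ Finset.range i,
      Ps ε p L (v * j) (a * (((p ^ v * w : ℕ) : ℤ) ^ i - ((p ^ v * w : ℕ) : ℤ) ^ j)) ≤
      (K * L : ℕ) + (L : ℝ) + C0 * N * (1 - κ * ε) ^ L := by
    intro i hi
    have hi' := Finset.mem_range.1 hi
    -- rewriting of the terms
    have hterm : ∀ j, j < i →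
        Ps ε p L (v * j) (a * (((p ^ v * w : ℕ) : ℤ) ^ i - ((p ^ v * w : ℕ) : ℤ) ^ j)) =
        Ps ε p L 0 (a * (w : ℤ) ^ i * (p : ℤ) ^ (v * (i - j)) - a * (w : ℤ) ^ j) := by
      intro j hj
      rw [← PAIR_shift ε p L (v * j) hp0]
      congr 1
      have h1 : (p : ℤ) ^ (v * i) = (p : ℤ) ^ (v * j) * (p : ℤ) ^ (v * (i - j)) := by
        rw [← pow_add, ← Nat.mul_add, Nat.add_sub_cancel' hj.le]
      push_cast
      rw [mul_pow, mul_pow, ← pow_mul, ← pow_mul, h1]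
      ring
    rcases Nat.eq_zero_or_pos v with hv | hv
    · -- no power of `p`
      by_cases hiK : K * L ≤ i
      · have hd : (R : ℤ) ^ L ∣ a * (w : ℤ) ^ i := by
          have h1 : R ^ L ∣ w ^ i := by
            have h2 : R ^ L ∣ (w ^ K) ^ L := pow_dvd_pow_of_dvd hS.dvd L
            rw [← pow_mul] at h2
            exact h2.trans (pow_dvd_pow w hiK)
          have h2 : ((R ^ L : ℕ) : ℤ) ∣ ((w ^ i : ℕ) : ℤ) := by exact_mod_cast h1
          push_cast at h2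
          exact h2.mul_left a
        have h3 := hC ε he0 he1 L N hQN (a * (w : ℤ) ^ i) hd
        rw [hκe] at h3
        refine PAIR_row K L N i _ _
          (fun j => Ps ε p L 0 (a * (w : ℤ) ^ i - a * (w : ℤ) ^ j)) ?_ ?_ ?_ h3 hi'.le
        · exact fun j => PAIR_le_one hone ε he0 (by linarith) p L _ _
        · exact fun j => Ps_nonneg _ _ _ _ _
        · intro j hj _ _
          rw [hterm j hj, hv, Nat.zero_mul, pow_zero, mul_one]
      · have h4 : ∑ j ∈ Finset.range i,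
            Ps ε p L (v * j) (a * (((p ^ v * w : ℕ) : ℤ) ^ i - ((p ^ v * w : ℕ) : ℤ) ^ j)) ≤
            ∑ j ∈ Finset.range i, (1 : ℝ) :=
          Finset.sum_le_sum fun j _ => PAIR_le_one hone ε he0 (by linarith) p L _ _
        have h5 : (i : ℝ) ≤ (K * L : ℕ) := by exact_mod_cast (not_le.1 hiK).le
        have h6 : 0 ≤ C0 * N * (1 - κ * ε) ^ L := by positivity
        rw [Finset.sum_const, Finset.card_range, nsmul_eq_mul, mul_one] at h4
        have h7 : (0 : ℝ) ≤ L := Nat.cast_nonneg _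
        linarith
    · have h3 := hC ε he0 he1 L N hQN 0 (dvd_zero _)
      rw [hκe] at h3
      refine PAIR_row K L N i _ _
        (fun j => Ps ε p L 0 (0 - a * (w : ℤ) ^ j)) ?_ ?_ ?_ h3 hi'.le
      · exact fun j => PAIR_le_one hone ε he0 (by linarith) p L _ _
      · exact fun j => Ps_nonneg _ _ _ _ _
      · intro j hj _ hjL
        rw [hterm j hj]
        have h4 : L ≤ v * (i - j) := by
          have h5 : L ≤ i - j := by omega
          exact h5.trans (Nat.le_mul_of_pos_left _ hv)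
        have h5 : a * (w : ℤ) ^ i * (p : ℤ) ^ (v * (i - j)) - a * (w : ℤ) ^ j =
            (0 - a * (w : ℤ) ^ j) +
              (p : ℤ) ^ L * (a * (w : ℤ) ^ i * (p : ℤ) ^ (v * (i - j) - L)) := by
          have h6 : (p : ℤ) ^ (v * (i - j)) =
              (p : ℤ) ^ L * (p : ℤ) ^ (v * (i - j) - L) := by
            rw [← pow_add, Nat.add_sub_cancel' h4]
          rw [h6]
          ring
        rw [h5, PAIR_per hper ε p L hp0]
  refine (Finset.sum_le_sum hrow).trans ?_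
  rw [Finset.sum_const, Finset.card_range, nsmul_eq_mul]
  have hN0 : (0 : ℝ) ≤ N := Nat.cast_nonneg _
  have hL0 : (0 : ℝ) ≤ L := Nat.cast_nonneg _
  have hK0 : (0 : ℝ) ≤ K := Nat.cast_nonneg _
  push_cast
  have e1 : (C0 + K + 1) * ((L : ℝ) * N + (N : ℝ) ^ 2 * (1 - κ * ε) ^ L) -
      N * (K * L + L + C0 * N * (1 - κ * ε) ^ L) =
      C0 * (L * N) + (K + 1) * ((N : ℝ) ^ 2 * (1 - κ * ε) ^ L) := by ring
  have e2 : 0 ≤ C0 * ((L : ℝ) * N) + (K + 1) * ((N : ℝ) ^ 2 * (1 - κ * ε) ^ L) := by positivity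
  linarith

end

end Pool.Agent.LYN
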