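import Pool.Agent.LYN.Basic

set_option autoImplicit false

/-!
# LYN: the characteristic function of a digit
-/

namespace Pool.Agent.LYN

noncomputable section

lemma PH_normSq_ee (x : ℝ) : (ee x).re ^ 2 + (ee x).im ^ 2 = 1 := by
  have h := norm_ee x
  have h2 : ‖ee x‖ ^ 2 = 1 := by rw [h]; norm_num
  rw [← Complex.normSq_eq_norm_sq, Complex.normSq_apply] at h2
  nlinarith [h2]

lemma PH_dist_sq (x : ℝ) : ‖1 - ee x‖ ^ 2 = 2 - 2 * (ee x).re := by
  rw [← Complex.normSq_eq_norm_sq, Complex.normSq_apply]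
  have h := PH_normSq_ee x
  simp only [Complex.sub_re, Complex.one_re, Complex.sub_im, Complex.one_im]
  nlinarith [h]

lemma PH_norm_sq (ε x : ℝ) : ‖ph ε x‖ ^ 2 = 1 - ε * (1 - ε) * ‖1 - ee x‖ ^ 2 := by
  rw [PH_dist_sq, ← Complex.normSq_eq_norm_sq, Complex.normSq_apply]
  have h := PH_normSq_ee x
  unfold ph
  simp only [Complex.add_re, Complex.add_im, Complex.mul_re, Complex.mul_im, Complex.ofReal_re,
    Complex.ofReal_im]
  have h2 : ε ^ 2 * ((ee x).re ^ 2 + (ee x).im ^ 2) = ε ^ 2 := by rw [h, mul_one]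
  nlinarith [h2]

lemma PH_bound (ε x : ℝ) (h0 : 0 ≤ ε) (h1 : ε ≤ 1 / 2) :
    ‖ph ε x‖ ≤ 1 - ε / 4 * ‖1 - ee x‖ ^ 2 := by
  have ht : ‖1 - ee x‖ ^ 2 ≤ 4 := by
    have h : ‖1 - ee x‖ ≤ 2 := by
      calc ‖1 - ee x‖ ≤ ‖(1 : ℂ)‖ + ‖ee x‖ := norm_sub_le _ _
        _ = 2 := by rw [norm_one, norm_ee]; norm_num
    nlinarith [norm_nonneg (1 - ee x)]
  have ht0 : 0 ≤ ‖1 - ee x‖ ^ 2 := sq_nonneg _
  have hn := PH_norm_sq ε x
  set t := ‖1 - ee x‖ ^ 2 with htdef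
  have hr : 0 ≤ 1 - ε / 4 * t := by nlinarith
  refine (pow_le_pow_iff_left₀ (norm_nonneg _) hr two_ne_zero).1 ?_
  rw [hn]
  have h2 : 0 ≤ ε * t := mul_nonneg h0 ht0
  nlinarith [mul_nonneg h2 (sub_nonneg.2 h1), mul_nonneg h2 h2]

lemma PH_root (Q U : ℕ) (hQ : 2 ≤ Q) (hU : Nat.Coprime U Q) :
    1 / (Q : ℝ) ≤ ‖1 - ee ((U : ℝ) / Q)‖ := by
  have hQ0 : (0 : ℝ) < Q := by
    have : 0 < Q := by omega
    exact_mod_cast this
  have hQc : (Q : ℂ) ≠ 0 := by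
    have : Q ≠ 0 := by omega
    exact_mod_cast this
  set z := ee ((U : ℝ) / Q) with hz
  have hz1 : z ≠ 1 := by
    intro h
    rw [hz] at h
    unfold ee at h
    rw [Complex.exp_eq_one_iff] at h
    obtain ⟨n, hn⟩ := h
    have hpi : (2 * (Real.pi : ℂ) * Complex.I) ≠ 0 := by
      simp [Real.pi_ne_zero, Complex.I_ne_zero]
    have h3 : ((((U : ℝ) / (Q : ℝ) : ℝ)) : ℂ) = n := by
      apply mul_left_cancel₀ hpi
      rw [hn]
      ring
    have h4 : (U : ℂ) = n * Q := by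
      push_cast at h3
      rw [div_eq_iff hQc] at h3
      exact h3
    have h5 : (U : ℤ) = n * Q := by exact_mod_cast h4
    have h6 : Q ∣ U := by
      have : (Q : ℤ) ∣ (U : ℤ) := ⟨n, by rw [h5]; ring⟩
      exact_mod_cast this
    have h7 : Q ∣ Nat.gcd U Q := Nat.dvd_gcd h6 (dvd_refl Q)
    rw [hU] at h7
    have := Nat.le_of_dvd one_pos h7
    omega
  have hzn : ‖z‖ = 1 := norm_ee _
  have hzQ : z ^ Q = 1 := by
    have h : ee (∑ _i ∈ Finset.range Q, (U : ℝ) / Q) = z ^ Q := by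
      rw [ee_sum]
      simp [hz]
    rw [← h]
    have h2 : (∑ _i ∈ Finset.range Q, (U : ℝ) / Q) = ((U : ℤ) : ℝ) := by
      rw [Finset.sum_const, Finset.card_range, nsmul_eq_mul]
      push_cast
      field_simp
    rw [h2, ee_int]
  have hgeo : ∑ j ∈ Finset.range Q, z ^ j = 0 := by
    have h := geom_sum_mul z Q
    rw [hzQ, sub_self] at h
    rcases mul_eq_zero.1 h with h | h
    · exact h
    · exact absurd (sub_eq_zero.1 h) hz1
  have hj : ∀ j : ℕ, ‖1 - z ^ j‖ ≤ j * ‖1 - z‖ := by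
    intro j
    induction j with
    | zero => simp
    | succ j ih =>
      have h : 1 - z ^ (j + 1) = (1 - z ^ j) + z ^ j * (1 - z) := by ring
      rw [h]
      calc ‖(1 - z ^ j) + z ^ j * (1 - z)‖ ≤ ‖1 - z ^ j‖ + ‖z ^ j * (1 - z)‖ := norm_add_le _ _
        _ ≤ j * ‖1 - z‖ + 1 * ‖1 - z‖ := by
            rw [norm_mul, norm_pow, hzn, one_pow]
            linarith [ih]
        _ = ((j + 1 : ℕ) : ℝ) * ‖1 - z‖ := by push_cast; ring
  have hsum : (Q : ℂ) = ∑ j ∈ Finset.range Q, (1 - z ^ j) := by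
    rw [Finset.sum_sub_distrib, hgeo]
    simp
  have h1 : (Q : ℝ) ≤ Q * (Q * ‖1 - z‖) := by
    calc (Q : ℝ) = ‖(Q : ℂ)‖ := by simp
      _ = ‖∑ j ∈ Finset.range Q, (1 - z ^ j)‖ := by rw [← hsum]
      _ ≤ ∑ j ∈ Finset.range Q, ‖1 - z ^ j‖ := norm_sum_le _ _
      _ ≤ ∑ _j ∈ Finset.range Q, (Q : ℝ) * ‖1 - z‖ := by
          refine Finset.sum_le_sum fun j hjQ => ?_
          refine (hj j).trans ?_
          have : (j : ℝ) ≤ Q := by
            have := (Finset.mem_range.1 hjQ).le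
            exact_mod_cast this
          exact mul_le_mul_of_nonneg_right this (norm_nonneg _)
      _ = Q * (Q * ‖1 - z‖) := by simp
  rw [div_le_iff₀ hQ0]
  have h2 : (Q : ℝ) * 1 ≤ Q * (Q * ‖1 - z‖) := by linarith
  have h3 := le_of_mul_le_mul_left h2 hQ0
  linarith

theorem p_PH : T_PH := by
  refine ⟨fun ε θ h0 h1 => ?_, fun ε θ n => ?_, fun ε x Q U h0 h1 hQ hU => ?_⟩
  · unfold ph
    calc ‖((1 - ε : ℝ) : ℂ) + (ε : ℂ) * ee θ‖ ≤ ‖((1 - ε : ℝ) : ℂ)‖ + ‖(ε : ℂ) * ee θ‖ :=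
          norm_add_le _ _
      _ = (1 - ε) + ε := by
          rw [norm_mul, norm_ee, mul_one, Complex.norm_real, Complex.norm_real,
            Real.norm_of_nonneg h0, Real.norm_of_nonneg (by linarith)]
      _ = 1 := by ring
  · unfold ph
    rw [ee_add_int]
  · have hA := PH_bound ε x h0 h1
    have hB := PH_bound ε (x + (U : ℝ) / Q) h0 h1
    have hR := PH_root Q U hQ hU
    have hQ0 : (0 : ℝ) < Q := by
      have : 0 < Q := by omega
      exact_mod_cast this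
    set z := ee ((U : ℝ) / Q) with hz
    set u := ee x with hu
    have hv : ee (x + (U : ℝ) / Q) = u * z := ee_add _ _
    rw [hv] at hB
    have h2 : ‖1 - z‖ ≤ ‖1 - u‖ + ‖1 - u * z‖ := by
      have h3 : ‖1 - z‖ = ‖u - u * z‖ := by
        have : u - u * z = u * (1 - z) := by ring
        rw [this, norm_mul, hu, norm_ee, one_mul]
      rw [h3]
      have h4 : u - u * z = (1 - u * z) - (1 - u) := by ring
      rw [h4]
      linarith [norm_sub_le (1 - u * z) (1 - u)]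
    have h5 : ‖1 - z‖ ^ 2 ≤ 2 * (‖1 - u‖ ^ 2 + ‖1 - u * z‖ ^ 2) := by
      nlinarith [norm_nonneg (1 - z), norm_nonneg (1 - u), norm_nonneg (1 - u * z),
        sq_nonneg (‖1 - u‖ - ‖1 - u * z‖)]
    have h6 : 1 / (Q : ℝ) ^ 2 ≤ ‖1 - z‖ ^ 2 := by
      have : 1 / (Q : ℝ) ^ 2 = (1 / (Q : ℝ)) ^ 2 := by
        rw [div_pow, one_pow]
      rw [this]
      exact pow_le_pow_left₀ (by positivity) hR 2
    have h7 : ε / (8 * (Q : ℝ) ^ 2) = ε / 8 * (1 / (Q : ℝ) ^ 2) := by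
      field_simp
    rw [h7]
    have h8 : ε / 8 * (1 / (Q : ℝ) ^ 2) ≤ ε / 8 * (2 * (‖1 - u‖ ^ 2 + ‖1 - u * z‖ ^ 2)) :=
      mul_le_mul_of_nonneg_left (h6.trans h5) (by positivity)
    linarith

end

end Pool.Agent.LYN
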