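import Pool.Agent.LYN.Basic

set_option autoImplicit false

/-!
# LYN: averages along powers
-/

open MeasureTheory Filter Topology
open scoped ENNReal

namespace Pool.Agent.LYN

noncomputable section

lemma POW_sum (f : ℕ → ℂ) (e N : ℕ) : ∑ n ∈ Finset.range (e * N), f n =
    ∑ u ∈ Finset.range e, ∑ n ∈ Finset.range N, f (e * n + u) := by
  rw [Finset.sum_comm]
  induction N with
  | zero => simp
  | succ N ih => rw [Nat.mul_succ, Finset.sum_range_add, ih, Finset.sum_range_succ]

theorem p_POW : T_POW := by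
  intro q e x hq he hN a ha
  have hq0 : (q : ℤ) ≠ 0 := by
    have : 0 < q := by omega
    exact_mod_cast this.ne'
  set f : ℕ → ℂ := fun n => (fourier a : C(UnitAddCircle, ℂ)) ((q ^ n) • x) with hf
  have hfn : ∀ n, ‖f n‖ = 1 := fun n => fourier_norm _ _
  have hfu : ∀ u n : ℕ, f (e * n + u) =
      (fourier (a * (q : ℤ) ^ u) : C(UnitAddCircle, ℂ)) (((q ^ e) ^ n) • x) := by
    intro u n
    rw [hf]
    simp only
    rw [fourier_nsmul, fourier_nsmul]
    congr 2
    push_cast
    ring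
  have hbound : ∀ M : ℕ, ‖wav q a x M‖ ≤
      (∑ u ∈ Finset.range e, ‖wav (q ^ e) (a * (q : ℤ) ^ u) x (M / e)‖) + (e : ℝ) / M := by
    intro M
    rcases Nat.eq_zero_or_pos M with rfl | hM
    · have h0 : wav q a x 0 = 0 := by simp [wav]
      rw [h0, norm_zero]
      positivity
    have hMr : (0 : ℝ) < M := by exact_mod_cast hM
    have hsplit : ∑ n ∈ Finset.range M, f n = ∑ n ∈ Finset.range (e * (M / e)), f n +
        ∑ n ∈ Finset.range (M % e), f (e * (M / e) + n) := by
      rw [← Finset.sum_range_add, Nat.div_add_mod]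
    have h1 : ‖∑ n ∈ Finset.range (M % e), f (e * (M / e) + n)‖ ≤ e := by
      refine (norm_sum_le _ _).trans ?_
      simp only [hfn, Finset.sum_const, Finset.card_range, nsmul_eq_mul, mul_one]
      exact_mod_cast (Nat.mod_lt M (by omega : 0 < e)).le
    have h2 : ‖∑ n ∈ Finset.range (e * (M / e)), f n‖ ≤
        ∑ u ∈ Finset.range e, ((M / e : ℕ) : ℝ) *
          ‖wav (q ^ e) (a * (q : ℤ) ^ u) x (M / e)‖ := by
      rw [POW_sum]
      refine (norm_sum_le _ _).trans (Finset.sum_le_sum fun u _ => ?_)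
      rcases Nat.eq_zero_or_pos (M / e) with h0 | h0
      · rw [h0]; simp
      have h0' : ((M / e : ℕ) : ℂ) ≠ 0 := by exact_mod_cast h0.ne'
      have h3 : ∑ n ∈ Finset.range (M / e), f (e * n + u) =
          ((M / e : ℕ) : ℂ) * wav (q ^ e) (a * (q : ℤ) ^ u) x (M / e) := by
        unfold wav
        rw [← mul_assoc, mul_one_div_cancel h0', one_mul]
        exact Finset.sum_congr rfl fun n _ => hfu u n
      rw [h3, norm_mul, Complex.norm_natCast]
    have h4 : ‖wav q a x M‖ = ‖∑ n ∈ Finset.range M, f n‖ / M := by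
      unfold wav
      rw [norm_mul, norm_div, norm_one, Complex.norm_natCast, one_div, inv_mul_eq_div]
    rw [h4, hsplit, div_le_iff₀ hMr, add_mul, div_mul_cancel₀ _ hMr.ne', Finset.sum_mul]
    refine (norm_add_le _ _).trans (add_le_add (h2.trans (Finset.sum_le_sum fun u _ => ?_)) h1)
    rw [mul_comm]
    have h5 : ((M / e : ℕ) : ℝ) ≤ M := by exact_mod_cast Nat.div_le_self M e
    exact mul_le_mul_of_nonneg_left h5 (norm_nonneg _)
  have hdiv : Tendsto (fun M : ℕ => M / e) atTop atTop :=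
    Filter.tendsto_atTop_atTop.2 fun b => ⟨b * e, fun M hM => (Nat.le_div_iff_mul_le (by omega)).2 hM⟩
  have hlim : Tendsto (fun M : ℕ =>
      (∑ u ∈ Finset.range e, ‖wav (q ^ e) (a * (q : ℤ) ^ u) x (M / e)‖) + (e : ℝ) / M)
      atTop (𝓝 0) := by
    have h6 : Tendsto (fun M : ℕ =>
        ∑ u ∈ Finset.range e, ‖wav (q ^ e) (a * (q : ℤ) ^ u) x (M / e)‖) atTop
        (𝓝 (∑ _u ∈ Finset.range e, (0 : ℝ))) := by
      refine tendsto_finset_sum _ fun u _ => ?_
      have h7 := (hN (a * (q : ℤ) ^ u) (mul_ne_zero ha (pow_ne_zero _ hq0))).comp hdiv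
      exact tendsto_zero_iff_norm_tendsto_zero.1 h7
    have h8 := h6.add (tendsto_const_div_atTop_nhds_zero_nat (e : ℝ))
    simpa using h8
  exact squeeze_zero_norm hbound hlim

end

end Pool.Agent.LYN
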