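import Pool.Agent.LYN.Basic

set_option autoImplicit false

/-!
# LYN: target `PTW` (almost every array of digits, for a fixed point)
-/

open MeasureTheory Filter Topology
open scoped ENNReal

namespace Pool.Agent.LYN

noncomputable section

lemma PTW_fin (hNE : T_NE) (Y : Type) (p : ℕ) (S : Y → Y) (τ : ℕ → Y → ℕ)
    (ε : ℕ → unitInterval) (y : Y) (δ : ℝ) (hp : 2 ≤ p) (hδ : 0 < δ)
    (hε : ∀ k, (ε k : ℝ) = δ / 2 ^ (k + 2)) : ∀ᵐ D ∂PP ε, GI p S τ D y ≠ ⊤ := by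
  have hs : Summable fun k : ℕ => (ε k : ℝ) := by
    have h : (fun k : ℕ => (ε k : ℝ)) = fun k : ℕ => δ / 4 * (1 / 2) ^ k := by
      funext k
      rw [hε, pow_add, div_pow, one_pow]
      field_simp
      norm_num
    rw [h]
    exact (summable_geometric_of_lt_one (by norm_num) (by norm_num)).mul_left _
  have h1 : ∫⁻ D, GI p S τ D y ∂PP ε ≠ ⊤ :=
    ne_top_of_le_ne_top hs.tsum_ofReal_ne_top (hNE Y p S τ ε y hp)
  exact (ae_lt_top (meas_GI_left p S τ y) h1).mono fun D h => h.ne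

lemma PTW_err (p q k M n N : ℕ) (hk : 2 * q ≤ p ^ (k + 1)) (hp : 1 ≤ p) (hM : (k + 1) * N ≤ M)
    (hn : n ≤ N) : (q : ℝ) ^ N / (p : ℝ) ^ M ≤ (1 / 2) ^ n := by
  have hp' : (1 : ℝ) ≤ p := by exact_mod_cast hp
  have h1 : (2 * (q : ℝ)) ^ N ≤ (p : ℝ) ^ M := by
    calc (2 * (q : ℝ)) ^ N ≤ ((p : ℝ) ^ (k + 1)) ^ N := by
          refine pow_le_pow_left₀ (by positivity) ?_ N
          exact_mod_cast hk
      _ = (p : ℝ) ^ ((k + 1) * N) := by rw [pow_mul]
      _ ≤ (p : ℝ) ^ M := pow_le_pow_right₀ hp' hM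
  rw [mul_pow] at h1
  calc (q : ℝ) ^ N / (p : ℝ) ^ M ≤ (1 / 2) ^ N := by
        rw [div_le_iff₀ (by positivity), div_pow, one_pow]
        rw [div_mul_eq_mul_div, one_mul, le_div_iff₀ (by positivity)]
        linarith
    _ ≤ (1 / 2) ^ n := pow_le_pow_of_le_one (by norm_num) (by norm_num) hn

lemma PTW_key (hSEC : T_SEC) (hDEL : T_DEL) (hSUM : T_SUM) (Y : Type) (p : ℕ) (S : Y → Y)
    (τ : ℕ → Y → ℕ) (ε : ℕ → unitInterval) (y : Y) (x : UnitAddCircle) (δ : ℝ) (hp : 2 ≤ p)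
    (hδ : 0 < δ) (hδ1 : δ ≤ 1) (hε : ∀ k, (ε k : ℝ) = δ / 2 ^ (k + 2))
    (hfin : ∀ᵐ D ∂PP ε, GI p S τ D y ≠ ⊤)
    (hclk : ∀ᶠ k in atTop, Clk S τ k ((k + 1) * p ^ 4 ^ (k + 1)) y)
    (v w Q R K : ℕ) (hstd : Std p w Q R K) (a : ℤ) (ha : a ≠ 0) :
    ∀ᵐ D ∂PP ε, Tendsto (wav (p ^ v * w) a (x + GC p S τ D y)) atTop (𝓝 0) := by
  obtain ⟨C, κ, hC, hκ, hκ1, hsec⟩ := hSEC p v w Q R K a hstd ha
  set q : ℕ := p ^ v * w with hq
  set B : ℕ → ℝ := fun N => ∫ D, ‖wav q a (x + GC p S τ D y) N‖ ^ 2 ∂PP ε with hB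
  have hB0 : ∀ N, 0 ≤ B N := fun N => integral_nonneg fun D => by positivity
  -- the threshold
  obtain ⟨k₀, hk₀⟩ := eventually_atTop.1 hclk
  obtain ⟨k₁, hk₁⟩ : ∃ k₁ : ℕ, k₀ ≤ k₁ ∧ v ≤ k₁ ∧ 2 * q ≤ k₁ :=
    ⟨k₀ + v + 2 * q, by omega, by omega, by omega⟩
  have hbd : ∀ n : ℕ, 4 ^ k₁ ≤ n → ∀ N : ℕ, p ^ n ≤ N → N < p ^ (n + 1) →
      B N ≤ (C + 2 * Real.pi * |(a : ℝ)|) *
        ((n : ℝ) / N + (1 - κ * δ / 4 / 2 ^ Nat.log 4 n) ^ n + (1 / 2) ^ n) := by
    intro n hn N hN1 hN2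
    have hn0 : n ≠ 0 := by
      have : 0 < 4 ^ k₁ := by positivity
      omega
    set k := Nat.log 4 n with hk
    have hk1 : k₁ ≤ k := (Nat.le_log_iff_pow_le (by norm_num) hn0).2 hn
    have hk2 : n < 4 ^ (k + 1) := Nat.lt_pow_succ_log_self (by norm_num) n
    have hnN : n ≤ N := (Nat.lt_pow_self (by omega)).le.trans hN1
    have hN3 : N ≤ p ^ 4 ^ (k + 1) :=
      hN2.le.trans (Nat.pow_le_pow_right (by omega) hk2)
    set M := (k + 1) * p ^ 4 ^ (k + 1) with hM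
    have hM1 : (k + 1) * N ≤ M := Nat.mul_le_mul_left _ hN3
    have hM2 : v * N + n ≤ M := by
      refine le_trans ?_ hM1
      calc v * N + n ≤ k * N + N := by
            refine Nat.add_le_add (Nat.mul_le_mul_right _ (by omega)) hnN
        _ = (k + 1) * N := by ring
    have hp2 : 2 * q ≤ p ^ (k + 1) := by
      refine le_trans (by omega : 2 * q ≤ k + 1) ?_
      exact (Nat.lt_pow_self (by omega)).le
    have hεk : (ε k : ℝ) ≤ 1 / 2 := by
      rw [hε]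
      rw [div_le_iff₀ (by positivity)]
      have : (2 : ℝ) ^ 1 ≤ 2 ^ (k + 2) := pow_le_pow_right₀ (by norm_num) (by omega)
      linarith
    have h1 := hsec Y S τ ε y x k M n N hp hεk hfin (hk₀ k (by omega)) (by omega) hN1 hM2
    have h2 : ((p : ℝ) ^ v * w) ^ N / (p : ℝ) ^ M ≤ (1 / 2) ^ n := by
      have := PTW_err p q k M n N hp2 (by omega) hM1 hnN
      rw [hq] at this
      push_cast at this
      exact this
    have h3 : 1 - κ * (ε k : ℝ) = 1 - κ * δ / 4 / 2 ^ k := by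
      rw [hε, pow_add]
      field_simp
      ring
    rw [h3] at h1
    have h4 : 0 ≤ (1 - κ * δ / 4 / 2 ^ k) ^ n := by
      refine pow_nonneg ?_ n
      rw [← h3]
      have : κ * (ε k : ℝ) ≤ 1 * 1 := mul_le_mul hκ1 (ε k).2.2 (ε k).2.1 (by norm_num)
      linarith
    have h5 : (0 : ℝ) ≤ (n : ℝ) / N := by positivity
    have h6 : (0 : ℝ) ≤ 2 * Real.pi * |(a : ℝ)| := by positivity
    have h7 : (0 : ℝ) ≤ (1 / 2) ^ n := by positivity
    calc B N ≤ C * ((n : ℝ) / N + (1 - κ * δ / 4 / 2 ^ k) ^ n) +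
          2 * Real.pi * |(a : ℝ)| * ((p : ℝ) ^ v * w) ^ N / (p : ℝ) ^ M := h1
      _ = C * ((n : ℝ) / N + (1 - κ * δ / 4 / 2 ^ k) ^ n) +
          2 * Real.pi * |(a : ℝ)| * (((p : ℝ) ^ v * w) ^ N / (p : ℝ) ^ M) := by ring
      _ ≤ C * ((n : ℝ) / N + (1 - κ * δ / 4 / 2 ^ k) ^ n) +
          2 * Real.pi * |(a : ℝ)| * (1 / 2) ^ n := by gcongr
      _ ≤ (C + 2 * Real.pi * |(a : ℝ)|) *
        ((n : ℝ) / N + (1 - κ * δ / 4 / 2 ^ k) ^ n + (1 / 2) ^ n) := by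
          nlinarith [mul_nonneg hC.le h7, mul_nonneg h6 h5, mul_nonneg h6 h4]
  have hsum : Summable fun N : ℕ => B N / N := by
    refine hSUM p (C + 2 * Real.pi * |(a : ℝ)|) (κ * δ / 4) B (4 ^ k₁) hp (by positivity)
      (by positivity) ?_ hB0 hbd
    have : κ * δ ≤ 1 * 1 := mul_le_mul hκ1 hδ1 hδ.le (by norm_num)
    linarith
  -- the series is finite almost everywhere
  have hmeas : ∀ N, Measurable fun D : Om => ‖wav q a (x + GC p S τ D y) N‖ ^ 2 / (N : ℝ) := by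
    intro N
    have h1 : Measurable fun D : Om => x + GC p S τ D y := (meas_GC_left p S τ y).const_add x
    have h2 : Measurable fun D : Om => wav q a (x + GC p S τ D y) N :=
      (continuous_wav q a N).measurable.comp h1
    exact (h2.norm.pow_const 2).div_const _
  have hI : ∫⁻ D, ∑' N : ℕ, ENNReal.ofReal (‖wav q a (x + GC p S τ D y) N‖ ^ 2 / (N : ℝ))
      ∂PP ε ≠ ⊤ := by
    rw [lintegral_tsum fun N => (hmeas N).ennreal_ofReal.aemeasurable]
    have h1 : ∀ N : ℕ, ∫⁻ D, ENNReal.ofReal (‖wav q a (x + GC p S τ D y) N‖ ^ 2 / (N : ℝ))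
        ∂PP ε = ENNReal.ofReal (B N / N) := by
      intro N
      rw [← ofReal_integral_eq_lintegral_ofReal]
      · rw [hB]
        dsimp only
        rw [integral_div]
      · refine Integrable.of_bound (hmeas N).aestronglyMeasurable 1 (ae_of_all _ fun D => ?_)
        have h2 := norm_wav_le q a (x + GC p S τ D y) N
        rw [Real.norm_eq_abs, abs_of_nonneg (by positivity)]
        rcases Nat.eq_zero_or_pos N with rfl | hN
        · simp
        · have hN' : (1 : ℝ) ≤ N := by exact_mod_cast hN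
          rw [div_le_one (by positivity)]
          have : ‖wav q a (x + GC p S τ D y) N‖ ^ 2 ≤ 1 := pow_le_one₀ (norm_nonneg _) h2
          linarith
      · exact ae_of_all _ fun D => by positivity
    rw [tsum_congr h1]
    exact hsum.tsum_ofReal_ne_top
  have hae : ∀ᵐ D ∂PP ε, ∑' N : ℕ,
      ENNReal.ofReal (‖wav q a (x + GC p S τ D y) N‖ ^ 2 / (N : ℝ)) < ⊤ :=
    ae_lt_top (Measurable.tsum fun N => (hmeas N).ennreal_ofReal) hI
  filter_upwards [hae] with D hD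
  have h1 := ENNReal.summable_toReal hD.ne
  have h2 : Summable fun N : ℕ => ‖wav q a (x + GC p S τ D y) N‖ ^ 2 / (N : ℝ) := by
    refine h1.congr fun N => ?_
    rw [ENNReal.toReal_ofReal (by positivity)]
  exact hDEL (fun n => (fourier a : C(UnitAddCircle, ℂ)) ((q ^ n) • (x + GC p S τ D y)))
    (fun n => (fourier_norm a _).le) h2

theorem p_PTW (hDEC : T_DEC) (hSEC : T_SEC) (hNE : T_NE) (hDEL : T_DEL) (hPOW : T_POW)
    (hSUM : T_SUM) : T_PTW := by
  intro Y p S τ ε y x δ hp hδ hδ1 hε hclk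
  have hfin := PTW_fin hNE Y p S τ ε y δ hp hδ hε
  rw [ae_all_iff]
  intro q
  by_cases hq : 2 ≤ q
  · by_cases hi : ∀ m n : ℕ, p ^ m = q ^ n → m = 0 ∧ n = 0
    · obtain ⟨e, v, w, Q, R, K, he, hqe, hstd⟩ := hDEC p q hp hq hi
      have key : ∀ᵐ D ∂PP ε, ∀ a : ℤ, a ≠ 0 →
          Tendsto (wav (p ^ v * w) a (x + GC p S τ D y)) atTop (𝓝 0) := by
        rw [ae_all_iff]
        intro a
        by_cases ha : a = 0
        · exact ae_of_all _ fun D h => absurd ha h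
        · filter_upwards [PTW_key hSEC hDEL hSUM Y p S τ ε y x δ hp hδ hδ1 hε hfin hclk v w Q R K
            hstd a ha] with D hD _
          exact hD
      filter_upwards [key] with D hD _ _
      refine hPOW q e _ hq he ?_
      rw [hqe]
      exact hD
    · exact ae_of_all _ fun D _ h => absurd h hi
  · exact ae_of_all _ fun D h => absurd h hq

end

end Pool.Agent.LYN
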