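import Pool.Agent.LYN.Targets2
import Pool.Agent.LYN.P_PTW

set_option autoImplicit false

/-!
# LYN: target `PT2` (almost every array of digits, all translates)
-/

open MeasureTheory Filter Topology
open scoped ENNReal

namespace Pool.Agent.LYN

noncomputable section

/-- the mean of the moduli of the Fourier coefficients -/
def PT2_Z {Y : Type} [MeasurableSpace Y] (ν : Measure Y) (p : ℕ) (S : Y → Y) (τ : ℕ → Y → ℕ)
    (q : ℕ) (a : ℤ) (N : ℕ) (D : Om) : ℝ :=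
  (1 / (N : ℝ) ^ 2) * ∑ i ∈ Finset.range N, ∑ j ∈ Finset.range N,
      ‖eta ν p S τ D (a * ((q : ℤ) ^ i - (q : ℤ) ^ j))‖

section

variable {Y : Type} [MeasurableSpace Y] (ν : Measure Y) [IsProbabilityMeasure ν] (p : ℕ)
  (S : Y → Y) (τ : ℕ → Y → ℕ)

lemma PT2_eta_meas (hNM : T_NM) (hS : Measurable S) (hτ : ∀ k, Measurable (τ k)) (b : ℤ) :
    Measurable fun D : Om => eta ν p S τ D b := by
  have hGI : Measurable (fun z : Om × Y => GI p S τ z.1 z.2) := hNM Y p S τ hS hτ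
  have hGC : Measurable (fun z : Om × Y => GC p S τ z.1 z.2) :=
    meas_coe.comp hGI.ennreal_toReal
  have hF : Measurable (fun z : Om × Y =>
      (fourier b : C(UnitAddCircle, ℂ)) (GC p S τ z.1 z.2)) :=
    (fourier b : C(UnitAddCircle, ℂ)).continuous.measurable.comp hGC
  exact (hF.stronglyMeasurable.integral_prod_right' (ν := ν)).measurable

lemma PT2_eta_le (D : Om) (b : ℤ) : ‖eta ν p S τ D b‖ ≤ 1 := by
  refine (norm_integral_le_integral_norm _).trans ?_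
  simp only [fourier_norm]
  simp

lemma PT2_Z_nonneg (q : ℕ) (a : ℤ) (N : ℕ) (D : Om) : 0 ≤ PT2_Z ν p S τ q a N D := by
  unfold PT2_Z
  refine mul_nonneg (by positivity) (Finset.sum_nonneg fun i _ => Finset.sum_nonneg fun j _ =>
    norm_nonneg _)

lemma PT2_Z_le (q : ℕ) (a : ℤ) (N : ℕ) (D : Om) : PT2_Z ν p S τ q a N D ≤ 1 := by
  unfold PT2_Z
  have h : ∑ i ∈ Finset.range N, ∑ j ∈ Finset.range N,
      ‖eta ν p S τ D (a * ((q : ℤ) ^ i - (q : ℤ) ^ j))‖ ≤ (N : ℝ) ^ 2 := by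
    calc ∑ i ∈ Finset.range N, ∑ j ∈ Finset.range N,
        ‖eta ν p S τ D (a * ((q : ℤ) ^ i - (q : ℤ) ^ j))‖
        ≤ ∑ i ∈ Finset.range N, ∑ j ∈ Finset.range N, (1 : ℝ) :=
          Finset.sum_le_sum fun i _ => Finset.sum_le_sum fun j _ => PT2_eta_le ν p S τ D _
      _ = (N : ℝ) ^ 2 := by simp [sq]
  rcases Nat.eq_zero_or_pos N with rfl | hN
  · simp
  · have hN' : (0 : ℝ) < N := by exact_mod_cast hN
    rw [one_div, inv_mul_le_iff₀ (by positivity), mul_one]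
    exact h

lemma PT2_Z_meas (hNM : T_NM) (hS : Measurable S) (hτ : ∀ k, Measurable (τ k)) (q : ℕ) (a : ℤ)
    (N : ℕ) : Measurable fun D : Om => PT2_Z ν p S τ q a N D := by
  unfold PT2_Z
  refine Measurable.const_mul (Finset.measurable_sum _ fun i _ =>
    Finset.measurable_sum _ fun j _ => ?_) _
  exact (PT2_eta_meas ν p S τ hNM hS hτ _).norm

end

lemma PT2_key (hSC2 : T_SC2) (hNM : T_NM) (hTRA : T_TRA) (hSU2 : T_SU2) (Y : Type)
    [MeasurableSpace Y] (ν : Measure Y) (p : ℕ) (S : Y → Y)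
    (τ : ℕ → Y → ℕ) (ε : ℕ → unitInterval) (δ : ℝ) (hp : 2 ≤ p)
    (hδ : 0 < δ) (hδ1 : δ ≤ 1) (hε : ∀ k, (ε k : ℝ) = δ / 2 ^ (k + 2))
    (hν : IsProbabilityMeasure ν) (hS : Measurable S) (hτ : ∀ k, Measurable (τ k))
    (hfin : ∀ y, ∀ᵐ D ∂PP ε, GI p S τ D y ≠ ⊤)
    (hclk : ∀ k, ν {y | ¬ Clk S τ k ((k + 1) * p ^ 4 ^ (k + 1)) y} ≤
      ENNReal.ofReal (1 / (64 ^ (k + 1) * ((k + 1) * p ^ 4 ^ (k + 1) + 1))))
    (hcol : ∀ k j, ν {y | τ k y = j} ≤
      ENNReal.ofReal (1 / (64 ^ (k + 1) * ((k + 1) * p ^ 4 ^ (k + 1) + 1))))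
    (v w Q R K : ℕ) (hstd : Std p w Q R K) (a : ℤ) (ha : a ≠ 0) :
    ∀ᵐ D ∂PP ε, ∀ x : UnitAddCircle, ∀ᵐ y ∂ν,
      Tendsto (wav (p ^ v * w) a (x + GC p S τ D y)) atTop (𝓝 0) := by
  obtain ⟨C, κ, hC, hκ, hκ1, hsec⟩ := hSC2 p v w Q R K a hstd ha
  set q : ℕ := p ^ v * w with hq
  set B : ℕ → ℝ := fun N => ∫ D, PT2_Z ν p S τ q a N D ∂PP ε with hB
  have hB0 : ∀ N, 0 ≤ B N := fun N => integral_nonneg fun D => PT2_Z_nonneg ν p S τ q a N D
  obtain ⟨k₁, hk₁⟩ : ∃ k₁ : ℕ, v ≤ k₁ ∧ 2 * q ≤ k₁ :=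
    ⟨v + 2 * q, by omega, by omega⟩
  have hbd : ∀ n : ℕ, 4 ^ k₁ ≤ n → 1 ≤ n → ∀ N : ℕ, p ^ n ≤ N → N < p ^ (n + 1) →
      B N ≤ Real.sqrt ((C + 4 * Real.pi * |(a : ℝ)| + 2) *
        ((n : ℝ) / N + (1 - κ * δ / 4 / 2 ^ Nat.log 4 n) ^ n + (1 / 2) ^ n +
          1 / (n : ℝ) ^ 3)) := by
    intro n hn hn1 N hN1 hN2
    have hn0 : n ≠ 0 := by omega
    set k := Nat.log 4 n with hk
    have hk1 : k₁ ≤ k := (Nat.le_log_iff_pow_le (by norm_num) hn0).2 hn
    have hk2 : n < 4 ^ (k + 1) := Nat.lt_pow_succ_log_self (by norm_num) n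
    have hnN : n ≤ N := (Nat.lt_pow_self (by omega)).le.trans hN1
    have hN3 : N ≤ p ^ 4 ^ (k + 1) :=
      hN2.le.trans (Nat.pow_le_pow_right (by omega) hk2)
    set M := (k + 1) * p ^ 4 ^ (k + 1) with hM
    have hM1 : (k + 1) * N ≤ M := Nat.mul_le_mul_left _ hN3
    have hM2 : v * N + n ≤ M := by
      refine le_trans ?_ hM1
      calc v * N + n ≤ k * N + N := by
            refine Nat.add_le_add (Nat.mul_le_mul_right _ (by omega)) hnN
        _ = (k + 1) * N := by ring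
    have hp2 : 2 * q ≤ p ^ (k + 1) := by
      refine le_trans (by omega : 2 * q ≤ k + 1) ?_
      exact (Nat.lt_pow_self (by omega)).le
    have hεk : (ε k : ℝ) ≤ 1 / 2 := by
      rw [hε]
      rw [div_le_iff₀ (by positivity)]
      have : (2 : ℝ) ^ 1 ≤ 2 ^ (k + 2) := pow_le_pow_right₀ (by norm_num) (by omega)
      linarith
    set β : ℝ := 1 / (64 ^ (k + 1) * ((k + 1) * p ^ 4 ^ (k + 1) + 1)) with hβ
    have hβ0 : 0 ≤ β := by positivity
    have h1 := hsec Y ν S τ ε k M n N β hp hεk hν hS hτ hβ0 hfin (hclk k) (hcol k) (by omega)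
      hN1 hM2
    have h2 : ((p : ℝ) ^ v * w) ^ N / (p : ℝ) ^ M ≤ (1 / 2) ^ n := by
      have := PTW_err p q k M n N hp2 (by omega) hM1 hnN
      rw [hq] at this
      push_cast at this
      exact this
    have h3 : 1 - κ * (ε k : ℝ) = 1 - κ * δ / 4 / 2 ^ k := by
      rw [hε, pow_add]
      field_simp
      ring
    rw [h3] at h1
    have h4 : 0 ≤ (1 - κ * δ / 4 / 2 ^ k) ^ n := by
      refine pow_nonneg ?_ n
      rw [← h3]
      have : κ * (ε k : ℝ) ≤ 1 * 1 := mul_le_mul hκ1 (ε k).2.2 (ε k).2.1 (by norm_num)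
      linarith
    have h5 : (0 : ℝ) ≤ (n : ℝ) / N := by positivity
    have h6 : (0 : ℝ) ≤ 4 * Real.pi * |(a : ℝ)| := by positivity
    have h7 : (0 : ℝ) ≤ (1 / 2) ^ n := by positivity
    have hnpos : (0 : ℝ) < n := by exact_mod_cast hn1
    have h8 : (0 : ℝ) ≤ 1 / (n : ℝ) ^ 3 := by positivity
    have h9 : 2 * ((M : ℝ) + 1) * β ≤ 2 * (1 / (n : ℝ) ^ 3) := by
      have e1 : 2 * ((M : ℝ) + 1) * β = 2 * (1 / 64 ^ (k + 1)) := by
        rw [hβ, hM]
        push_cast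
        field_simp
      rw [e1]
      have e2 : (n : ℝ) ^ 3 ≤ 64 ^ (k + 1) := by
        have : (n : ℝ) ≤ 4 ^ (k + 1) := by exact_mod_cast hk2.le
        calc (n : ℝ) ^ 3 ≤ (4 ^ (k + 1)) ^ 3 := pow_le_pow_left₀ hnpos.le this 3
          _ = 64 ^ (k + 1) := by
            rw [← pow_mul, mul_comm, pow_mul]
            norm_num
      have e3 : 1 / (64 : ℝ) ^ (k + 1) ≤ 1 / (n : ℝ) ^ 3 :=
        one_div_le_one_div_of_le (by positivity) e2
      linarith
    refine h1.trans (Real.sqrt_le_sqrt ?_)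
    calc C * ((n : ℝ) / N + (1 - κ * δ / 4 / 2 ^ k) ^ n) +
          4 * Real.pi * |(a : ℝ)| * ((p : ℝ) ^ v * w) ^ N / (p : ℝ) ^ M + 2 * (M + 1) * β
        = C * ((n : ℝ) / N + (1 - κ * δ / 4 / 2 ^ k) ^ n) +
          4 * Real.pi * |(a : ℝ)| * (((p : ℝ) ^ v * w) ^ N / (p : ℝ) ^ M) +
            2 * ((M : ℝ) + 1) * β := by ring
      _ ≤ C * ((n : ℝ) / N + (1 - κ * δ / 4 / 2 ^ k) ^ n) +
          4 * Real.pi * |(a : ℝ)| * (1 / 2) ^ n + 2 * (1 / (n : ℝ) ^ 3) := by gcongr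
      _ ≤ (C + 4 * Real.pi * |(a : ℝ)| + 2) *
        ((n : ℝ) / N + (1 - κ * δ / 4 / 2 ^ k) ^ n + (1 / 2) ^ n + 1 / (n : ℝ) ^ 3) := by
          nlinarith [mul_nonneg hC.le h7, mul_nonneg h6 h5, mul_nonneg h6 h4,
            mul_nonneg hC.le h8, mul_nonneg h6 h8]
  have hsum : Summable fun N : ℕ => B N / N := by
    refine hSU2 p (C + 4 * Real.pi * |(a : ℝ)| + 2) (κ * δ / 4) B (4 ^ k₁) hp (by positivity)
      (by positivity) ?_ hB0 hbd
    have : κ * δ ≤ 1 * 1 := mul_le_mul hκ1 hδ1 hδ.le (by norm_num)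
    linarith
  have hmeas : ∀ N, Measurable fun D : Om => PT2_Z ν p S τ q a N D / (N : ℝ) :=
    fun N => (PT2_Z_meas ν p S τ hNM hS hτ q a N).div_const _
  have hnn : ∀ (N : ℕ) (D : Om), 0 ≤ PT2_Z ν p S τ q a N D / (N : ℝ) := fun N D =>
    div_nonneg (PT2_Z_nonneg ν p S τ q a N D) (Nat.cast_nonneg N)
  have hI : ∫⁻ D, ∑' N : ℕ, ENNReal.ofReal (PT2_Z ν p S τ q a N D / (N : ℝ))
      ∂PP ε ≠ ⊤ := by
    rw [lintegral_tsum fun N => (hmeas N).ennreal_ofReal.aemeasurable]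
    have h1 : ∀ N : ℕ, ∫⁻ D, ENNReal.ofReal (PT2_Z ν p S τ q a N D / (N : ℝ))
        ∂PP ε = ENNReal.ofReal (B N / N) := by
      intro N
      rw [← ofReal_integral_eq_lintegral_ofReal]
      · rw [hB]
        dsimp only
        rw [integral_div]
      · refine Integrable.of_bound (hmeas N).aestronglyMeasurable 1 (ae_of_all _ fun D => ?_)
        have h2 := PT2_Z_le ν p S τ q a N D
        rw [Real.norm_eq_abs, abs_of_nonneg (hnn N D)]
        rcases Nat.eq_zero_or_pos N with rfl | hN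
        · simp
        · have hN' : (1 : ℝ) ≤ N := by exact_mod_cast hN
          rw [div_le_one (by positivity)]
          linarith
      · exact ae_of_all _ fun D => hnn N D
    rw [tsum_congr h1]
    exact hsum.tsum_ofReal_ne_top
  have hae : ∀ᵐ D ∂PP ε, ∑' N : ℕ,
      ENNReal.ofReal (PT2_Z ν p S τ q a N D / (N : ℝ)) < ⊤ :=
    ae_lt_top (Measurable.tsum fun N => (hmeas N).ennreal_ofReal) hI
  have hGI : Measurable (fun z : Om × Y => GI p S τ z.1 z.2) := hNM Y p S τ hS hτ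
  have hGC : Measurable (fun z : Om × Y => GC p S τ z.1 z.2) :=
    meas_coe.comp hGI.ennreal_toReal
  filter_upwards [hae] with D hD
  have h1 := ENNReal.summable_toReal hD.ne
  have h2 : Summable fun N : ℕ => PT2_Z ν p S τ q a N D / (N : ℝ) := by
    refine h1.congr fun N => ?_
    rw [ENNReal.toReal_ofReal (hnn N D)]
  exact hTRA Y ν (fun y => GC p S τ D y) q a hν (hGC.comp measurable_prodMk_left) h2

theorem p_PT2 (hDEC : T_DEC) (hSC2 : T_SC2) (hNE : T_NE) (hNM : T_NM) (hTRA : T_TRA)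
    (hPOW : T_POW) (hSU2 : T_SU2) : T_PT2 := by
  intro Y _ ν p S τ ε δ hp hδ hδ1 hε hν hS hτ hclk hcol
  have hfin : ∀ y, ∀ᵐ D ∂PP ε, GI p S τ D y ≠ ⊤ :=
    fun y => PTW_fin hNE Y p S τ ε y δ hp hδ hε
  have key : ∀ q : ℕ, ∀ᵐ D ∂PP ε, 2 ≤ q → (∀ m n : ℕ, p ^ m = q ^ n → m = 0 ∧ n = 0) →
      ∀ x : UnitAddCircle, ∀ᵐ y ∂ν, Nrm q (x + GC p S τ D y) := by
    intro q
    by_cases hq : 2 ≤ q
    · by_cases hi : ∀ m n : ℕ, p ^ m = q ^ n → m = 0 ∧ n = 0
      · obtain ⟨e, v, w, Q, R, K, he, hqe, hstd⟩ := hDEC p q hp hq hi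
        have h1 : ∀ᵐ D ∂PP ε, ∀ a : ℤ, a ≠ 0 → ∀ x : UnitAddCircle, ∀ᵐ y ∂ν,
            Tendsto (wav (p ^ v * w) a (x + GC p S τ D y)) atTop (𝓝 0) := by
          rw [ae_all_iff]
          intro a
          by_cases ha : a = 0
          · exact ae_of_all _ fun D h => absurd ha h
          · filter_upwards [PT2_key hSC2 hNM hTRA hSU2 Y ν p S τ ε δ hp hδ hδ1 hε hν hS hτ hfin
              hclk hcol v w Q R K hstd a ha] with D hD _
            exact hD
        filter_upwards [h1] with D hD _ _ x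
        have h2 : ∀ᵐ y ∂ν, ∀ a : ℤ, a ≠ 0 →
            Tendsto (wav (p ^ v * w) a (x + GC p S τ D y)) atTop (𝓝 0) := by
          rw [ae_all_iff]
          intro a
          by_cases ha : a = 0
          · exact ae_of_all _ fun y h => absurd ha h
          · filter_upwards [hD a ha x] with y hy _
            exact hy
        filter_upwards [h2] with y hy
        refine hPOW q e _ hq he ?_
        rw [hqe]
        exact hy
      · exact ae_of_all _ fun D _ h => absurd h hi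
    · exact ae_of_all _ fun D h => absurd h hq
  filter_upwards [ae_all_iff.2 key] with D hD x
  rw [ae_all_iff]
  intro q
  by_cases hq : 2 ≤ q
  · by_cases hi : ∀ m n : ℕ, p ^ m = q ^ n → m = 0 ∧ n = 0
    · filter_upwards [hD q hq hi x] with y hy _ _
      exact hy
    · exact ae_of_all _ fun y _ h => absurd h hi
  · exact ae_of_all _ fun y h => absurd h hq

end

end Pool.Agent.LYN
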