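import Pool.Agent.LYN.Basic

set_option autoImplicit false

/-!
# LYN, target RES: integration over finitely many digits (helper12)
-/

open MeasureTheory Filter Topology
open scoped ENNReal

namespace Pool.Agent.LYN

noncomputable section

/-- resampling one coordinate -/
def RES_up (i : ℕ × ℕ) (q : Om × Bool) : Om := Function.update q.1 i q.2

lemma RES_up_meas (i : ℕ × ℕ) : Measurable (RES_up i) := by
  rw [measurable_pi_iff]
  intro j
  by_cases hj : j = i
  · subst hj
    have : (fun q : Om × Bool => RES_up j q j) = fun q => q.2 := by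
      funext q
      simp [RES_up]
    rw [this]
    exact measurable_snd
  · have : (fun q : Om × Bool => RES_up i q j) = fun q => q.1 j := by
      funext q
      simp [RES_up, Function.update_of_ne hj]
    rw [this]
    exact (measurable_pi_apply j).comp measurable_fst

lemma RES_mp (ε : ℕ → unitInterval) (i : ℕ × ℕ) :
    MeasurePreserving (RES_up i) ((PP ε).prod (bern (ε i.1))) (PP ε) := by
  refine ⟨RES_up_meas i, ?_⟩
  refine Measure.eq_infinitePi _ ?_
  intro s t ht
  rw [Measure.map_apply (RES_up_meas i) (MeasurableSet.pi s.countable_toSet fun j hj => ht j)]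
  by_cases hi : i ∈ s
  · have hpre : RES_up i ⁻¹' (Set.pi s t) =
        (Set.pi (s.erase i : Finset (ℕ × ℕ)) t) ×ˢ (t i) := by
      ext q
      simp only [Set.mem_preimage, Set.mem_pi, Set.mem_prod, Finset.mem_coe, Finset.mem_erase]
      constructor
      · intro h
        refine ⟨fun j hj => ?_, ?_⟩
        · have := h j hj.2
          simpa [RES_up, Function.update_of_ne hj.1] using this
        · have := h i hi
          simpa [RES_up] using this
      · rintro ⟨h1, h2⟩ j hj
        by_cases hji : j = i
        · subst hji
          simpa [RES_up] using h2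
        · simpa [RES_up, Function.update_of_ne hji] using h1 j ⟨hji, hj⟩
    rw [hpre, Measure.prod_prod, PP, Measure.infinitePi_pi _ (fun j _ => ht j), mul_comm,
      Finset.mul_prod_erase s (fun j => bern (ε j.1) (t j)) hi]
  · have hpre : RES_up i ⁻¹' (Set.pi s t) = (Set.pi s t) ×ˢ Set.univ := by
      ext q
      simp only [Set.mem_preimage, Set.mem_pi, Set.mem_prod, Finset.mem_coe, Set.mem_univ,
        and_true]
      refine forall_congr' fun j => ?_
      refine imp_congr_right fun hj => ?_
      have hji : j ≠ i := fun h => hi (h ▸ hj)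
      simp [RES_up, Function.update_of_ne hji]
    rw [hpre, Measure.prod_prod, measure_univ, mul_one, PP,
      Measure.infinitePi_pi _ (fun j _ => ht j)]

/-- one coordinate -/
lemma RES_one (ε : ℕ → unitInterval) (i : ℕ × ℕ) (h : Bool → ℂ) (F : Om → ℂ)
    (hF : Measurable F) (hup : ∀ D z, F (Function.update D i z) = F D) :
    ∫ D, h (D i) * F D ∂PP ε =
      (((1 - (ε i.1 : ℝ) : ℝ) : ℂ) * h false + ((ε i.1 : ℝ) : ℂ) * h true) *
        ∫ D, F D ∂PP ε := by
  have hm : Measurable fun D : Om => h (D i) * F D :=
    ((measurable_of_countable h).comp (measurable_pi_apply i)).mul hF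
  have h1 : ∫ D, h (D i) * F D ∂PP ε =
      ∫ q, h (RES_up i q i) * F (RES_up i q) ∂((PP ε).prod (bern (ε i.1))) := by
    have hmp := RES_mp ε i
    conv_lhs => rw [← hmp.map_eq]
    rw [integral_map hmp.measurable.aemeasurable hm.aestronglyMeasurable]
  have h2 : (fun q : Om × Bool => h (RES_up i q i) * F (RES_up i q)) =
      fun q => F q.1 * h q.2 := by
    funext q
    have e1 : RES_up i q i = q.2 := by simp [RES_up]
    have e2 : F (RES_up i q) = F q.1 := hup q.1 q.2
    rw [e1, e2, mul_comm]
  rw [h1, h2, integral_prod_mul (fun D => F D) (fun z => h z), integral_bern, mul_comm]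

theorem p_RES : T_RES := by
  classical
  intro ε W h H hH _ hup
  have key : ∀ W : Finset (ℕ × ℕ), (∀ i ∈ W, ∀ D z, H (Function.update D i z) = H D) →
      ∫ D, (∏ i ∈ W, h i (D i)) * H D ∂PP ε =
      (∏ i ∈ W, (((1 - (ε i.1 : ℝ) : ℝ) : ℂ) * h i false + ((ε i.1 : ℝ) : ℂ) * h i true)) *
        ∫ D, H D ∂PP ε := by
    intro W
    induction W using Finset.induction_on with
    | empty => intro _; simp
    | insert i W hi ih =>
      intro hup
      have hm : Measurable fun D : Om => (∏ j ∈ W, h j (D j)) * H D := by
        refine Measurable.mul ?_ hH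
        refine Finset.measurable_prod _ fun j _ => ?_
        exact (measurable_of_countable (h j)).comp (measurable_pi_apply j)
      have hup' : ∀ (D : Om) (z : Bool), (∏ j ∈ W, h j (Function.update D i z j)) *
          H (Function.update D i z) = (∏ j ∈ W, h j (D j)) * H D := by
        intro D z
        rw [hup i (Finset.mem_insert_self i W) D z]
        congr 1
        refine Finset.prod_congr rfl fun j hj => ?_
        have hji : j ≠ i := fun e => hi (e ▸ hj)
        rw [Function.update_of_ne hji]
      have h3 := RES_one ε i (h i) (fun D => (∏ j ∈ W, h j (D j)) * H D) hm hup'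
      have h4 := ih fun j hj => hup j (Finset.mem_insert_of_mem hj)
      rw [h4] at h3
      rw [Finset.prod_insert hi, mul_assoc, ← h3]
      refine integral_congr_ae (Filter.Eventually.of_forall fun D => ?_)
      show (∏ j ∈ insert i W, h j (D j)) * H D = h i (D i) * ((∏ j ∈ W, h j (D j)) * H D)
      rw [Finset.prod_insert hi, mul_assoc]
  exact key W hup

end

end Pool.Agent.LYN
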