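import Pool.Agent.LYN.Basic

set_option autoImplicit false

/-!
# LYN: second moment of the averages
-/

open MeasureTheory Filter Topology
open scoped ENNReal

namespace Pool.Agent.LYN

noncomputable section

lemma SEC_double (g : ℕ → ℕ → ℝ) (hs : ∀ i j, g i j = g j i) (hd : ∀ i, g i i ≤ 1) (N : ℕ) :
    ∑ i ∈ Finset.range N, ∑ j ∈ Finset.range N, g i j ≤
      N + 2 * ∑ i ∈ Finset.range N, ∑ j ∈ Finset.range i, g i j := by
  induction N with
  | zero => simp
  | succ N ih =>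
    have h1 : ∑ i ∈ Finset.range (N + 1), ∑ j ∈ Finset.range (N + 1), g i j =
        ∑ i ∈ Finset.range N, ∑ j ∈ Finset.range N, g i j +
          2 * ∑ j ∈ Finset.range N, g N j + g N N := by
      rw [Finset.sum_range_succ, Finset.sum_range_succ]
      simp only [Finset.sum_range_succ, Finset.sum_add_distrib]
      have h2 : ∑ x ∈ Finset.range N, g x N = ∑ x ∈ Finset.range N, g N x :=
        Finset.sum_congr rfl fun x _ => hs x N
      rw [h2]
      ring
    rw [h1, Finset.sum_range_succ]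
    have h3 := hd N
    push_cast
    linarith

lemma SEC_pairs (N : ℕ) (c : ℝ) (hc : 0 ≤ c) :
    ∑ i ∈ Finset.range N, ∑ _j ∈ Finset.range i, c ≤ (N : ℝ) ^ 2 / 2 * c := by
  induction N with
  | zero => simp
  | succ N ih =>
    rw [Finset.sum_range_succ, Finset.sum_const, Finset.card_range, nsmul_eq_mul]
    push_cast
    nlinarith

theorem p_SEC (hP : T_PAIR) (hF : T_FOU) : T_SEC := by
  intro p v w Q R K a hstd ha
  obtain ⟨C, κ, hC, hκ, hκ1, hpair⟩ := hP p v w Q R K a hstd ha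
  refine ⟨2 * C + 1, κ, by positivity, hκ, hκ1, ?_⟩
  intro Y S τ ε y x k M L N hp hε hfin hclk hL hLN hM
  have hε0 : (0 : ℝ) ≤ ε k := (ε k).2.1
  have hN : 0 < N := lt_of_lt_of_le (pow_pos (by omega) L) hLN
  have hNr : (0 : ℝ) < N := by exact_mod_cast hN
  set q : ℕ := p ^ v * w with hq
  have hw2 := hstd.w2
  have hq1 : 1 ≤ q := Nat.mul_pos (pow_pos (by omega) v) (by omega)
  have hq1r : (1 : ℝ) ≤ q := by exact_mod_cast hq1
  set P := PP ε with hPdef
  set f : Om → UnitAddCircle := fun D => x + GC p S τ D y with hf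
  have hfm : Measurable f := (meas_GC_left p S τ y).const_add x
  have hfom : ∀ b : ℤ, Measurable fun D => (fourier b : C(UnitAddCircle, ℂ)) (f D) := fun b =>
    ((fourier b : C(UnitAddCircle, ℂ)).continuous.measurable).comp hfm
  have hint : ∀ b : ℤ, Integrable (fun D => (fourier b : C(UnitAddCircle, ℂ)) (f D)) P :=
    fun b => Integrable.of_bound (hfom b).aestronglyMeasurable 1
      (Eventually.of_forall fun D => (fourier_norm b _).le)
  set F : ℤ → ℂ := fun b => ∫ D, (fourier b : C(UnitAddCircle, ℂ)) (f D) ∂P with hFdef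
  have hF1 : ∀ b, ‖F b‖ ≤ 1 := by
    intro b
    refine (norm_integral_le_integral_norm _).trans ?_
    simp only [fourier_norm]
    simp
  have hFneg : ∀ b, ‖F (-b)‖ = ‖F b‖ := by
    intro b
    have h1 : F (-b) = (starRingEnd ℂ) (F b) := by
      simp only [hFdef]
      rw [← integral_conj]
      refine integral_congr_ae (Eventually.of_forall fun D => ?_)
      exact fourier_neg
    rw [h1, RCLike.norm_conj]
  -- the square
  have hsq : ∀ z : UnitAddCircle, ((‖wav q a z N‖ ^ 2 : ℝ) : ℂ) =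
      (1 / (N : ℂ)) ^ 2 * ∑ i ∈ Finset.range N, ∑ j ∈ Finset.range N,
        (fourier (a * (q : ℤ) ^ i - a * (q : ℤ) ^ j) : C(UnitAddCircle, ℂ)) z := by
    intro z
    have h1 : ((‖wav q a z N‖ ^ 2 : ℝ) : ℂ) = wav q a z N * (starRingEnd ℂ) (wav q a z N) := by
      rw [Complex.mul_conj, Complex.normSq_eq_norm_sq]
    rw [h1, wav_eq, map_mul, map_sum]
    have h2 : (starRingEnd ℂ) (1 / (N : ℂ)) = 1 / (N : ℂ) := by
      rw [map_div₀, map_one, Complex.conj_natCast]
    rw [h2]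
    have h3 : (∑ i ∈ Finset.range N, (fourier (a * (q : ℤ) ^ i) : C(UnitAddCircle, ℂ)) z) *
        ∑ j ∈ Finset.range N, (starRingEnd ℂ)
          ((fourier (a * (q : ℤ) ^ j) : C(UnitAddCircle, ℂ)) z) =
        ∑ i ∈ Finset.range N, ∑ j ∈ Finset.range N,
          (fourier (a * (q : ℤ) ^ i - a * (q : ℤ) ^ j) : C(UnitAddCircle, ℂ)) z := by
      rw [Finset.sum_mul_sum]
      refine Finset.sum_congr rfl fun i _ => Finset.sum_congr rfl fun j _ => ?_
      exact fourier_mul_conj _ _ _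
    rw [← h3]
    ring
  have hI : ((∫ D, ‖wav q a (f D) N‖ ^ 2 ∂P : ℝ) : ℂ) =
      (1 / (N : ℂ)) ^ 2 * ∑ i ∈ Finset.range N, ∑ j ∈ Finset.range N,
        F (a * (q : ℤ) ^ i - a * (q : ℤ) ^ j) := by
    rw [← integral_complex_ofReal]
    simp only [hsq]
    rw [integral_const_mul, integral_finsetSum _ fun i _ =>
      integrable_finsetSum _ fun j _ => hint _]
    congr 1
    refine Finset.sum_congr rfl fun i _ => ?_
    rw [integral_finsetSum _ fun j _ => hint _]
  have hI0 : 0 ≤ ∫ D, ‖wav q a (f D) N‖ ^ 2 ∂P := integral_nonneg fun D => by positivity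
  set g : ℕ → ℕ → ℝ := fun i j => ‖F (a * (q : ℤ) ^ i - a * (q : ℤ) ^ j)‖ with hg
  have hgs : ∀ i j, g i j = g j i := by
    intro i j
    simp only [hg]
    rw [← hFneg]
    congr 2
    ring
  have hgd : ∀ i, g i i ≤ 1 := fun i => hF1 _
  have hI1 : ∫ D, ‖wav q a (f D) N‖ ^ 2 ∂P ≤ (1 / (N : ℝ)) ^ 2 *
      ∑ i ∈ Finset.range N, ∑ j ∈ Finset.range N, g i j := by
    have h1 : ∫ D, ‖wav q a (f D) N‖ ^ 2 ∂P =
        ‖((∫ D, ‖wav q a (f D) N‖ ^ 2 ∂P : ℝ) : ℂ)‖ := by
      rw [Complex.norm_real, Real.norm_eq_abs, abs_of_nonneg hI0]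
    rw [h1, hI, norm_mul, norm_pow, norm_div, norm_one, Complex.norm_natCast]
    refine mul_le_mul_of_nonneg_left ?_ (by positivity)
    refine (norm_sum_le _ _).trans (Finset.sum_le_sum fun i _ => ?_)
    exact norm_sum_le _ _
  have hI2 := SEC_double g hgs hgd N
  set B : ℝ := 2 * Real.pi * (|(a : ℝ)| * (q : ℝ) ^ N) / (p : ℝ) ^ M with hB
  have hB0 : 0 ≤ B := by positivity
  have hgij : ∀ i ∈ Finset.range N, ∀ j ∈ Finset.range i, g i j ≤
      Ps (ε k) p L (v * j) (a * ((q : ℤ) ^ i - (q : ℤ) ^ j)) + B := by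
    intro i hi j hj
    rw [Finset.mem_range] at hi hj
    have h1 : v * j + L ≤ M := by
      have : v * j ≤ v * N := Nat.mul_le_mul_left v (by omega)
      omega
    have h2 := hF Y p S τ ε y x (a * ((q : ℤ) ^ i - (q : ℤ) ^ j)) k M L (v * j) hp hfin hclk h1
    have h3 : g i j = ‖∫ D, (fourier (a * ((q : ℤ) ^ i - (q : ℤ) ^ j)) : C(UnitAddCircle, ℂ))
        (x + GC p S τ D y) ∂PP ε‖ := by
      simp only [hg, hFdef, hf, mul_sub]
      rfl
    rw [h3]
    refine h2.trans (add_le_add le_rfl ?_)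
    rw [hB]
    refine div_le_div_of_nonneg_right ?_ (by positivity)
    refine mul_le_mul_of_nonneg_left ?_ (by positivity)
    push_cast
    rw [abs_mul]
    refine mul_le_mul_of_nonneg_left ?_ (abs_nonneg _)
    have h4 : (q : ℝ) ^ j ≤ (q : ℝ) ^ i := pow_le_pow_right₀ hq1r hj.le
    have h5 : (q : ℝ) ^ i ≤ (q : ℝ) ^ N := pow_le_pow_right₀ hq1r hi.le
    have h6 : 0 ≤ (q : ℝ) ^ j := by positivity
    rw [abs_of_nonneg (by linarith)]
    linarith
  have hI3 : ∑ i ∈ Finset.range N, ∑ j ∈ Finset.range i, g i j ≤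
      C * (L * N + (N : ℝ) ^ 2 * (1 - κ * ε k) ^ L) + (N : ℝ) ^ 2 / 2 * B := by
    calc ∑ i ∈ Finset.range N, ∑ j ∈ Finset.range i, g i j
        ≤ ∑ i ∈ Finset.range N, ∑ j ∈ Finset.range i,
          (Ps (ε k) p L (v * j) (a * ((q : ℤ) ^ i - (q : ℤ) ^ j)) + B) :=
          Finset.sum_le_sum fun i hi => Finset.sum_le_sum fun j hj => hgij i hi j hj
      _ = ∑ i ∈ Finset.range N, ∑ j ∈ Finset.range i,
            Ps (ε k) p L (v * j) (a * ((q : ℤ) ^ i - (q : ℤ) ^ j)) +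
          ∑ i ∈ Finset.range N, ∑ _j ∈ Finset.range i, B := by
          simp only [Finset.sum_add_distrib]
      _ ≤ _ := add_le_add (hpair (ε k) hε0 hε L N hL hLN) (SEC_pairs N B hB0)
  have hr0 : 0 ≤ (1 - κ * ε k : ℝ) := by nlinarith
  have hr1 : 0 ≤ (1 - κ * ε k : ℝ) ^ L := pow_nonneg hr0 L
  have hL1 : (1 : ℝ) ≤ L := by exact_mod_cast hL
  have hfinal : ∫ D, ‖wav q a (f D) N‖ ^ 2 ∂P ≤
      (2 * C + 1) * (L / N + (1 - κ * ε k) ^ L) + B := by
    calc ∫ D, ‖wav q a (f D) N‖ ^ 2 ∂P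
        ≤ (1 / (N : ℝ)) ^ 2 * (N + 2 * (C * (L * N + (N : ℝ) ^ 2 * (1 - κ * ε k) ^ L) +
          (N : ℝ) ^ 2 / 2 * B)) := by
          refine hI1.trans (mul_le_mul_of_nonneg_left ?_ (by positivity))
          linarith
      _ = 1 / N + 2 * C * (L / N + (1 - κ * ε k) ^ L) + B := by
          field_simp
          ring
      _ ≤ L / N + 2 * C * (L / N + (1 - κ * ε k) ^ L) + B := by
          have : 1 / (N : ℝ) ≤ L / N := div_le_div_of_nonneg_right hL1 hNr.le
          linarith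
      _ ≤ (2 * C + 1) * (L / N + (1 - κ * ε k) ^ L) + B := by
          linarith
  refine hfinal.trans (le_of_eq ?_)
  rw [hB, hq]
  push_cast
  ring

end

end Pool.Agent.LYN
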