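import Pool.Agent.LYN.Targets2
import Pool.Agent.LYN.P_SEC
import Pool.Agent.LYN.P_NM

set_option autoImplicit false

/-!
# LYN: first moment of the sum of the Fourier coefficients
-/

open MeasureTheory Filter Topology
open scoped ENNReal

namespace Pool.Agent.LYN

noncomputable section

/-- the mean of a bounded function is at most the root of the mean of its square -/
lemma SC2_jensen {Ω : Type} [MeasurableSpace Ω] (P : Measure Ω) [IsProbabilityMeasure P]
    (f : Ω → ℝ) (hf : Measurable f) (hb : ∀ D, |f D| ≤ 1) :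
    ∫ D, f D ∂P ≤ Real.sqrt (∫ D, f D ^ 2 ∂P) := by
  have hi : Integrable f P := Integrable.of_bound hf.aestronglyMeasurable 1
    (Eventually.of_forall fun D => by rw [Real.norm_eq_abs]; exact hb D)
  have hi2 : Integrable (fun D => f D ^ 2) P :=
    Integrable.of_bound (hf.pow_const 2).aestronglyMeasurable 1
      (Eventually.of_forall fun D => by
        rw [Real.norm_eq_abs, abs_pow]
        exact pow_le_one₀ (abs_nonneg _) (hb D))
  apply Real.le_sqrt_of_sq_le
  set m : ℝ := ∫ D, f D ∂P with hm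
  have h0 : 0 ≤ ∫ D, (f D - m) ^ 2 ∂P := integral_nonneg fun D => sq_nonneg _
  have h1 : ∫ D, (f D - m) ^ 2 ∂P = ∫ D, f D ^ 2 ∂P - m ^ 2 := by
    have h2 : (fun D => (f D - m) ^ 2) = fun D => (f D ^ 2 - 2 * m * f D) + m ^ 2 := by
      funext D
      ring
    have hi3 : Integrable (fun D => 2 * m * f D) P := hi.const_mul (2 * m)
    have hi4 : Integrable (fun D => f D ^ 2 - 2 * m * f D) P := hi2.sub hi3
    have h3 : ∫ D, (f D ^ 2 - 2 * m * f D) + m ^ 2 ∂P =
        ∫ D, (f D ^ 2 - 2 * m * f D) ∂P + ∫ _D, m ^ 2 ∂P :=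
      integral_add hi4 (integrable_const _)
    have h4 : ∫ D, (f D ^ 2 - 2 * m * f D) ∂P = ∫ D, f D ^ 2 ∂P - ∫ D, 2 * m * f D ∂P :=
      integral_sub hi2 hi3
    rw [h2, h3, h4, integral_const_mul, integral_const, ← hm]
    simp
    ring
  linarith

/-- the square of a double average is at most the average of the squares -/
lemma SC2_cs (N : ℕ) (x : ℕ → ℕ → ℝ) :
    ((1 / (N : ℝ) ^ 2) * ∑ i ∈ Finset.range N, ∑ j ∈ Finset.range N, x i j) ^ 2 ≤
      (1 / (N : ℝ) ^ 2) * ∑ i ∈ Finset.range N, ∑ j ∈ Finset.range N, x i j ^ 2 := by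
  rcases Nat.eq_zero_or_pos N with rfl | hN
  · simp
  have hNr : (0 : ℝ) < N := by exact_mod_cast hN
  have h1 : (∑ i ∈ Finset.range N, ∑ j ∈ Finset.range N, x i j) ^ 2 ≤
      (N : ℝ) ^ 2 * ∑ i ∈ Finset.range N, ∑ j ∈ Finset.range N, x i j ^ 2 := by
    rw [← Finset.sum_product', ← Finset.sum_product']
    have h2 := sq_sum_le_card_mul_sum_sq (s := Finset.range N ×ˢ Finset.range N)
      (f := fun z : ℕ × ℕ => x z.1 z.2)
    rw [Finset.card_product, Finset.card_range] at h2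
    refine h2.trans (le_of_eq ?_)
    push_cast
    ring
  rw [mul_pow]
  calc (1 / (N : ℝ) ^ 2) ^ 2 * (∑ i ∈ Finset.range N, ∑ j ∈ Finset.range N, x i j) ^ 2
      ≤ (1 / (N : ℝ) ^ 2) ^ 2 *
        ((N : ℝ) ^ 2 * ∑ i ∈ Finset.range N, ∑ j ∈ Finset.range N, x i j ^ 2) :=
        mul_le_mul_of_nonneg_left h1 (by positivity)
    _ = _ := by field_simp

/-- measurability of the Fourier coefficient in the array -/
lemma SC2_meas {Y : Type} [MeasurableSpace Y] (ν : Measure Y) [IsProbabilityMeasure ν] (p : ℕ)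
    (S : Y → Y) (τ : ℕ → Y → ℕ) (hS : Measurable S) (hτ : ∀ k, Measurable (τ k)) (b : ℤ) :
    Measurable fun D : Om => eta ν p S τ D b := by
  have h1 : Measurable fun z : Om × Y => GC p S τ z.1 z.2 :=
    meas_coe.comp (p_NM Y p S τ hS hτ).ennreal_toReal
  have h2 : StronglyMeasurable fun z : Om × Y =>
      (fourier b : C(UnitAddCircle, ℂ)) (GC p S τ z.1 z.2) :=
    (((fourier b : C(UnitAddCircle, ℂ)).continuous.measurable).comp h1).stronglyMeasurable
  exact (h2.integral_prod_right' (ν := ν)).measurable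

lemma SC2_norm {Y : Type} [MeasurableSpace Y] (ν : Measure Y) [IsProbabilityMeasure ν] (p : ℕ)
    (S : Y → Y) (τ : ℕ → Y → ℕ) (D : Om) (b : ℤ) : ‖eta ν p S τ D b‖ ≤ 1 := by
  refine (norm_integral_le_integral_norm _).trans ?_
  simp only [fourier_norm]
  simp

lemma SC2_neg {Y : Type} [MeasurableSpace Y] (ν : Measure Y) (p : ℕ)
    (S : Y → Y) (τ : ℕ → Y → ℕ) (D : Om) (b : ℤ) :
    ‖eta ν p S τ D (-b)‖ = ‖eta ν p S τ D b‖ := by
  have h1 : eta ν p S τ D (-b) = (starRingEnd ℂ) (eta ν p S τ D b) := by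
    unfold eta
    rw [← integral_conj]
    refine integral_congr_ae (Eventually.of_forall fun y => ?_)
    exact fourier_neg
  rw [h1, RCLike.norm_conj]

theorem p_SC2 (hP : T_PAIR) (hE : T_ETA) : T_SC2 := by
  intro p v w Q R K a hstd ha
  obtain ⟨C, κ, hC, hκ, hκ1, hpair⟩ := hP p v w Q R K a hstd ha
  refine ⟨2 * C + 1, κ, by positivity, hκ, hκ1, ?_⟩
  intro Y _ ν S τ ε k M L N β hp hε hν hS hτ hβ hfin hclk hread hL hLN hM
  have hε0 : (0 : ℝ) ≤ ε k := (ε k).2.1
  have hN : 0 < N := lt_of_lt_of_le (pow_pos (by omega) L) hLN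
  have hNr : (0 : ℝ) < N := by exact_mod_cast hN
  set q : ℕ := p ^ v * w with hq
  have hw2 := hstd.w2
  have hq1 : 1 ≤ q := Nat.mul_pos (pow_pos (by omega) v) (by omega)
  have hq1r : (1 : ℝ) ≤ q := by exact_mod_cast hq1
  set P := PP ε with hPdef
  set X : ℕ → ℕ → Om → ℝ := fun i j D =>
    ‖eta ν p S τ D (a * ((q : ℤ) ^ i - (q : ℤ) ^ j))‖ with hX
  have hXm : ∀ i j, Measurable (X i j) := fun i j => (SC2_meas ν p S τ hS hτ _).norm
  have hX0 : ∀ i j D, 0 ≤ X i j D := fun i j D => norm_nonneg _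
  have hX1 : ∀ i j D, X i j D ≤ 1 := fun i j D => SC2_norm ν p S τ D _
  have hX2 : ∀ i j, Integrable (fun D => X i j D ^ 2) P := fun i j =>
    Integrable.of_bound ((hXm i j).pow_const 2).aestronglyMeasurable 1
      (Eventually.of_forall fun D => by
        rw [Real.norm_eq_abs, abs_pow]
        refine pow_le_one₀ (abs_nonneg _) ?_
        rw [abs_of_nonneg (hX0 i j D)]
        exact hX1 i j D)
  set f : Om → ℝ := fun D =>
    (1 / (N : ℝ) ^ 2) * ∑ i ∈ Finset.range N, ∑ j ∈ Finset.range N, X i j D with hf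
  have hfm : Measurable f := by
    refine Measurable.const_mul ?_ _
    exact Finset.measurable_fun_sum _ fun i _ => Finset.measurable_fun_sum _ fun j _ => hXm i j
  have hf0 : ∀ D, 0 ≤ f D := fun D => mul_nonneg (by positivity)
    (Finset.sum_nonneg fun i _ => Finset.sum_nonneg fun j _ => hX0 i j D)
  have hf1 : ∀ D, |f D| ≤ 1 := by
    intro D
    rw [abs_of_nonneg (hf0 D)]
    have h1 : ∑ i ∈ Finset.range N, ∑ j ∈ Finset.range N, X i j D ≤
        ∑ _i ∈ Finset.range N, ∑ _j ∈ Finset.range N, (1 : ℝ) :=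
      Finset.sum_le_sum fun i _ => Finset.sum_le_sum fun j _ => hX1 i j D
    simp only [Finset.sum_const, Finset.card_range, nsmul_eq_mul, mul_one] at h1
    calc f D ≤ (1 / (N : ℝ) ^ 2) * ((N : ℝ) * N) := mul_le_mul_of_nonneg_left h1 (by positivity)
      _ = 1 := by field_simp
  refine (SC2_jensen P f hfm hf1).trans (Real.sqrt_le_sqrt ?_)
  -- second moments
  set g : ℕ → ℕ → ℝ := fun i j => ∫ D, X i j D ^ 2 ∂P with hg
  have hgs : ∀ i j, g i j = g j i := by
    intro i j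
    simp only [hg]
    refine integral_congr_ae (Eventually.of_forall fun D => ?_)
    simp only [hX]
    rw [← SC2_neg]
    congr 3
    ring
  have hgd : ∀ i, g i i ≤ 1 := by
    intro i
    calc g i i ≤ ∫ _D, (1 : ℝ) ∂P := integral_mono (hX2 i i) (integrable_const _)
          fun D => pow_le_one₀ (hX0 i i D) (hX1 i i D)
      _ = 1 := by simp
  have hI1 : ∫ D, f D ^ 2 ∂P ≤ (1 / (N : ℝ) ^ 2) *
      ∑ i ∈ Finset.range N, ∑ j ∈ Finset.range N, g i j := by
    have h1 : ∫ D, (1 / (N : ℝ) ^ 2) *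
        ∑ i ∈ Finset.range N, ∑ j ∈ Finset.range N, X i j D ^ 2 ∂P = (1 / (N : ℝ) ^ 2) *
      ∑ i ∈ Finset.range N, ∑ j ∈ Finset.range N, g i j := by
      rw [integral_const_mul, integral_finsetSum _ fun i _ =>
        integrable_finsetSum _ fun j _ => hX2 i j]
      congr 1
      refine Finset.sum_congr rfl fun i _ => ?_
      rw [integral_finsetSum _ fun j _ => hX2 i j]
    rw [← h1]
    refine integral_mono ?_ ?_ fun D => SC2_cs N fun i j => X i j D
    · refine Integrable.of_bound (hfm.pow_const 2).aestronglyMeasurable 1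
        (Eventually.of_forall fun D => ?_)
      rw [Real.norm_eq_abs, abs_pow]
      exact pow_le_one₀ (abs_nonneg _) (hf1 D)
    · exact (integrable_finsetSum _ fun i _ =>
        integrable_finsetSum _ fun j _ => hX2 i j).const_mul _
  have hI2 := SEC_double g hgs hgd N
  set B : ℝ := 4 * Real.pi * (|(a : ℝ)| * (q : ℝ) ^ N) / (p : ℝ) ^ M + 2 * (M + 1) * β with hB
  have hB0 : 0 ≤ B := by positivity
  have hgij : ∀ i ∈ Finset.range N, ∀ j ∈ Finset.range i, g i j ≤
      Ps (ε k) p L (v * j) (a * ((q : ℤ) ^ i - (q : ℤ) ^ j)) + B := by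
    intro i hi j hj
    rw [Finset.mem_range] at hi hj
    have h1 : v * j + L ≤ M := by
      have : v * j ≤ v * N := Nat.mul_le_mul_left v (by omega)
      omega
    have h2 := hE Y ν p S τ ε (a * ((q : ℤ) ^ i - (q : ℤ) ^ j)) k M L (v * j) β hp hν hS hτ hβ
      hfin hclk hread h1
    refine h2.trans ?_
    rw [hB, ← add_assoc]
    refine add_le_add (add_le_add le_rfl ?_) le_rfl
    refine div_le_div_of_nonneg_right ?_ (by positivity)
    refine mul_le_mul_of_nonneg_left ?_ (by positivity)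
    push_cast
    rw [abs_mul]
    refine mul_le_mul_of_nonneg_left ?_ (abs_nonneg _)
    have h4 : (q : ℝ) ^ j ≤ (q : ℝ) ^ i := pow_le_pow_right₀ hq1r hj.le
    have h5 : (q : ℝ) ^ i ≤ (q : ℝ) ^ N := pow_le_pow_right₀ hq1r hi.le
    have h6 : 0 ≤ (q : ℝ) ^ j := by positivity
    rw [abs_of_nonneg (by linarith)]
    linarith
  have hI3 : ∑ i ∈ Finset.range N, ∑ j ∈ Finset.range i, g i j ≤
      C * (L * N + (N : ℝ) ^ 2 * (1 - κ * ε k) ^ L) + (N : ℝ) ^ 2 / 2 * B := by
    calc ∑ i ∈ Finset.range N, ∑ j ∈ Finset.range i, g i j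
        ≤ ∑ i ∈ Finset.range N, ∑ j ∈ Finset.range i,
          (Ps (ε k) p L (v * j) (a * ((q : ℤ) ^ i - (q : ℤ) ^ j)) + B) :=
          Finset.sum_le_sum fun i hi => Finset.sum_le_sum fun j hj => hgij i hi j hj
      _ = ∑ i ∈ Finset.range N, ∑ j ∈ Finset.range i,
            Ps (ε k) p L (v * j) (a * ((q : ℤ) ^ i - (q : ℤ) ^ j)) +
          ∑ i ∈ Finset.range N, ∑ _j ∈ Finset.range i, B := by
          simp only [Finset.sum_add_distrib]
      _ ≤ _ := add_le_add (hpair (ε k) hε0 hε L N hL hLN) (SEC_pairs N B hB0)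
  have hr0 : 0 ≤ (1 - κ * ε k : ℝ) := by nlinarith
  have hr1 : 0 ≤ (1 - κ * ε k : ℝ) ^ L := pow_nonneg hr0 L
  have hL1 : (1 : ℝ) ≤ L := by exact_mod_cast hL
  have hfinal : ∫ D, f D ^ 2 ∂P ≤
      (2 * C + 1) * (L / N + (1 - κ * ε k) ^ L) + B := by
    calc ∫ D, f D ^ 2 ∂P
        ≤ (1 / (N : ℝ) ^ 2) * (N + 2 * (C * (L * N + (N : ℝ) ^ 2 * (1 - κ * ε k) ^ L) +
          (N : ℝ) ^ 2 / 2 * B)) := by
          refine hI1.trans (mul_le_mul_of_nonneg_left ?_ (by positivity))
          linarith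
      _ = 1 / N + 2 * C * (L / N + (1 - κ * ε k) ^ L) + B := by
          field_simp
          ring
      _ ≤ L / N + 2 * C * (L / N + (1 - κ * ε k) ^ L) + B := by
          have : 1 / (N : ℝ) ≤ L / N := div_le_div_of_nonneg_right hL1 hNr.le
          linarith
      _ ≤ (2 * C + 1) * (L / N + (1 - κ * ε k) ^ L) + B := by
          linarith
  refine hfinal.trans (le_of_eq ?_)
  rw [hB, hq]
  push_cast
  ring

end

end Pool.Agent.LYN
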