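import Pool.Agent.LYN.Basic

set_option autoImplicit false

/-!
# LYN: summation of the bounds (target `T_SUM`)
-/

open MeasureTheory Filter Topology
open scoped ENNReal

namespace Pool.Agent.LYN

noncomputable section

lemma SUM_u_le (κ : ℝ) (h0 : 0 < κ) (h1 : κ ≤ 1) (n : ℕ) (hn : 1 ≤ n) :
    (1 - κ / 2 ^ Nat.log 4 n) ^ n ≤ 24 / κ ^ 4 * (1 / (n : ℝ) ^ 2) := by
  set k := Nat.log 4 n with hk
  have hk4 : 4 ^ k ≤ n := Nat.pow_log_le_self 4 (by omega)
  have hk4' : (4 : ℝ) ^ k ≤ n := by exact_mod_cast hk4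
  have h2k : (0 : ℝ) < 2 ^ k := by positivity
  have h2k1 : (1 : ℝ) ≤ 2 ^ k := one_le_pow₀ (by norm_num)
  have hx0 : 0 ≤ κ / 2 ^ k := by positivity
  have hx1 : κ / 2 ^ k ≤ 1 := by
    rw [div_le_one h2k]
    linarith
  have hn' : (0 : ℝ) < n := by exact_mod_cast hn
  have e1 : (1 - κ / 2 ^ k) ^ n ≤ Real.exp (-(κ / 2 ^ k)) ^ n := by
    apply pow_le_pow_left₀ (by linarith)
    exact Real.one_sub_le_exp_neg _
  have e2 : Real.exp (-(κ / 2 ^ k)) ^ n = (Real.exp (n * (κ / 2 ^ k)))⁻¹ := by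
    rw [← Real.exp_nat_mul, ← Real.exp_neg]
    congr 1
    ring
  have e3 : ((n : ℝ) * (κ / 2 ^ k)) ^ 4 / (Nat.factorial 4 : ℝ) ≤ Real.exp (n * (κ / 2 ^ k)) :=
    Real.pow_div_factorial_le_exp _ (by positivity) 4
  have e4 : κ ^ 4 * (n : ℝ) ^ 2 / 24 ≤ Real.exp (n * (κ / 2 ^ k)) := by
    refine le_trans ?_ e3
    have h6 : ((n : ℝ) * (κ / 2 ^ k)) ^ 4 = κ ^ 4 * ((n : ℝ) ^ 4 / ((4 : ℝ) ^ k) ^ 2) := by
      have h4 : ((4 : ℝ) ^ k) ^ 2 = (2 ^ k) ^ 4 := by
        rw [show (4 : ℝ) = 2 ^ 2 by norm_num, ← pow_mul, ← pow_mul, ← pow_mul]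
        congr 1
        ring
      rw [h4, mul_pow, div_pow]
      ring
    rw [h6]
    have h5 : (n : ℝ) ^ 2 ≤ (n : ℝ) ^ 4 / ((4 : ℝ) ^ k) ^ 2 := by
      rw [le_div_iff₀ (by positivity)]
      have h7 : ((4 : ℝ) ^ k) ^ 2 ≤ (n : ℝ) ^ 2 := by gcongr
      calc (n : ℝ) ^ 2 * ((4 : ℝ) ^ k) ^ 2 ≤ (n : ℝ) ^ 2 * (n : ℝ) ^ 2 := by gcongr
        _ = (n : ℝ) ^ 4 := by ring
    have h8 : (Nat.factorial 4 : ℝ) = 24 := by norm_num [Nat.factorial]
    rw [h8]
    gcongr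
  calc (1 - κ / 2 ^ k) ^ n ≤ (Real.exp (n * (κ / 2 ^ k)))⁻¹ := e1.trans e2.le
    _ ≤ (κ ^ 4 * (n : ℝ) ^ 2 / 24)⁻¹ := by
        apply inv_anti₀ (by positivity) e4
    _ = 24 / κ ^ 4 * (1 / (n : ℝ) ^ 2) := by
        field_simp

lemma SUM_u_nonneg (κ : ℝ) (h0 : 0 < κ) (h1 : κ ≤ 1) (n : ℕ) :
    0 ≤ (1 - κ / 2 ^ Nat.log 4 n) ^ n := by
  apply pow_nonneg
  have h2k1 : (1 : ℝ) ≤ 2 ^ Nat.log 4 n := one_le_pow₀ (by norm_num)
  have hx1 : κ / 2 ^ Nat.log 4 n ≤ 1 := by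
    rw [div_le_one (by positivity)]
    linarith
  linarith

lemma SUM_u_summable (κ : ℝ) (h0 : 0 < κ) (h1 : κ ≤ 1) :
    Summable fun n : ℕ => (1 - κ / 2 ^ Nat.log 4 n) ^ n := by
  rw [← summable_nat_add_iff 1]
  have hs : Summable fun n : ℕ => 24 / κ ^ 4 * (1 / ((n + 1 : ℕ) : ℝ) ^ 2) := by
    apply Summable.mul_left
    exact (summable_nat_add_iff 1).mpr (Real.summable_one_div_nat_pow.mpr (by norm_num))
  exact Summable.of_nonneg_of_le (fun n => SUM_u_nonneg κ h0 h1 (n + 1))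
    (fun n => SUM_u_le κ h0 h1 (n + 1) (by omega)) hs

lemma SUM_half : Summable fun n : ℕ => ((1 : ℝ) / 2) ^ n :=
  summable_geometric_of_lt_one (by norm_num) (by norm_num)

lemma SUM_nhalf : Summable fun n : ℕ => (n : ℝ) * ((1 : ℝ) / 2) ^ n := by
  have h := summable_pow_mul_geometric_of_norm_lt_one 1 (r := (1 / 2 : ℝ)) (by norm_num)
  simpa using h

/-- summation of the bounds -/
theorem p_SUM : T_SUM := by
  intro p C κ B n₀ hp hC h0 h1 hB hb
  set w : ℕ → ℝ := fun n => (n : ℝ) * (1 / 2) ^ n + (1 - κ / 2 ^ Nat.log 4 n) ^ n + (1 / 2) ^ n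
    with hw
  have hw0 : ∀ n, 0 ≤ w n := fun n => by
    have := SUM_u_nonneg κ h0 h1 n
    simp only [hw]
    positivity
  have hws : Summable w := (SUM_nhalf.add (SUM_u_summable κ h0 h1)).add SUM_half
  set g : ℕ → ℝ := fun n => ((p : ℝ) - 1) * C * w n with hg
  have hgs : Summable g := hws.mul_left _
  have hp' : (2 : ℝ) ≤ p := by exact_mod_cast hp
  have hg0 : ∀ n, 0 ≤ g n := fun n => by
    have h3 : 0 ≤ (p : ℝ) - 1 := by linarith
    exact mul_nonneg (mul_nonneg h3 hC) (hw0 n)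
  set f : ℕ → ℝ := fun N => B N / N with hf
  have hf0 : ∀ N, 0 ≤ f N := fun N => div_nonneg (hB N) (Nat.cast_nonneg N)
  -- the sum over a block
  have hblock : ∀ n, n₀ ≤ n → ∑ N ∈ Finset.Ico (p ^ n) (p ^ (n + 1)), f N ≤ g n := by
    intro n hn
    have hpn : (0 : ℝ) < (p : ℝ) ^ n := by positivity
    have h4 : ∀ N ∈ Finset.Ico (p ^ n) (p ^ (n + 1)), f N ≤ C * w n / (p : ℝ) ^ n := by
      intro N hN
      rw [Finset.mem_Ico] at hN
      have hN1 : (p : ℝ) ^ n ≤ N := by exact_mod_cast hN.1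
      have hNp : (0 : ℝ) < N := lt_of_lt_of_le hpn hN1
      have h5 := hb n hn N hN.1 hN.2
      have h6 : (n : ℝ) / N ≤ (n : ℝ) * (1 / 2) ^ n := by
        rw [div_eq_mul_inv]
        have h7 : ((N : ℝ))⁻¹ ≤ (1 / 2) ^ n := by
          rw [one_div, inv_pow]
          apply inv_anti₀ (by positivity)
          exact le_trans (by gcongr) hN1
        gcongr
      have h8 : B N ≤ C * w n := by
        refine h5.trans ?_
        simp only [hw]
        gcongr
      calc f N = B N / N := rfl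
        _ ≤ (C * w n) / N := by gcongr
        _ ≤ C * w n / (p : ℝ) ^ n := by
            have := mul_nonneg hC (hw0 n)
            gcongr
    refine (Finset.sum_le_card_nsmul _ _ _ h4).trans ?_
    rw [Nat.card_Ico, nsmul_eq_mul, Nat.cast_sub (Nat.pow_le_pow_right (by omega) (by omega))]
    push_cast
    rw [pow_succ]
    apply le_of_eq
    simp only [hg]
    field_simp
  -- the sums over initial segments
  have hseg : ∀ m, ∑ N ∈ Finset.range (p ^ (n₀ + m)), f N ≤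
      ∑ N ∈ Finset.range (p ^ n₀), f N + ∑ j ∈ Finset.range m, g (n₀ + j) := by
    intro m
    induction m with
    | zero => simp
    | succ m ih =>
      have h9 : p ^ (n₀ + m) ≤ p ^ (n₀ + (m + 1)) := Nat.pow_le_pow_right (by omega) (by omega)
      rw [← Finset.sum_range_add_sum_Ico f h9, Finset.sum_range_succ]
      have := hblock (n₀ + m) (by omega)
      have h10 : n₀ + m + 1 = n₀ + (m + 1) := by ring
      rw [h10] at this
      linarith
  have hgs' : Summable fun j => g (n₀ + j) := by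
    have := (summable_nat_add_iff n₀).mpr hgs
    simpa [add_comm] using this
  refine summable_of_sum_range_le (c := ∑ N ∈ Finset.range (p ^ n₀), f N + ∑' j, g (n₀ + j)) hf0 ?_
  intro m
  have h11 : m ≤ p ^ (n₀ + m) := by
    calc m ≤ p ^ m := (Nat.lt_pow_self (by omega)).le
      _ ≤ p ^ (n₀ + m) := Nat.pow_le_pow_right (by omega) (by omega)
  calc ∑ N ∈ Finset.range m, f N ≤ ∑ N ∈ Finset.range (p ^ (n₀ + m)), f N := by
        apply Finset.sum_le_sum_of_subset_of_nonneg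
        · exact Finset.range_subset_range.mpr h11
        · intro i _ _
          exact hf0 i
    _ ≤ _ := hseg m
    _ ≤ _ := by
        gcongr
        exact hgs'.sum_le_tsum _ (fun i _ => hg0 _)

end

end Pool.Agent.LYN
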