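import Pool.Agent.LYN.Targets2
import Pool.Agent.LYN.P_SUM

set_option autoImplicit false

/-!
# LYN, part 2: summation of the bounds with square roots (target `T_SU2`)
-/

open MeasureTheory Filter Topology
open scoped ENNReal

namespace Pool.Agent.LYN

noncomputable section

lemma SU2_sqrt_add (a b : ℝ) (ha : 0 ≤ a) (hb : 0 ≤ b) :
    Real.sqrt (a + b) ≤ Real.sqrt a + Real.sqrt b := by
  rw [Real.sqrt_le_iff]
  refine ⟨by positivity, ?_⟩
  nlinarith [Real.sq_sqrt ha, Real.sq_sqrt hb, mul_nonneg (Real.sqrt_nonneg a) (Real.sqrt_nonneg b)]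

lemma SU2_u_le (κ : ℝ) (h0 : 0 < κ) (h1 : κ ≤ 1) (n : ℕ) (hn : 1 ≤ n) :
    (1 - κ / 2 ^ Nat.log 4 n) ^ n ≤ (201 / κ ^ 4 * (1 / (n : ℝ) ^ 2)) ^ 2 := by
  set k := Nat.log 4 n with hk
  have hk4 : 4 ^ k ≤ n := Nat.pow_log_le_self 4 (by omega)
  have hk4' : (4 : ℝ) ^ k ≤ n := by exact_mod_cast hk4
  have h2k : (0 : ℝ) < 2 ^ k := by positivity
  have h2k1 : (1 : ℝ) ≤ 2 ^ k := one_le_pow₀ (by norm_num)
  have hx0 : 0 ≤ κ / 2 ^ k := by positivity
  have hx1 : κ / 2 ^ k ≤ 1 := by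
    rw [div_le_one h2k]
    linarith
  have hn' : (0 : ℝ) < n := by exact_mod_cast hn
  have e1 : (1 - κ / 2 ^ k) ^ n ≤ Real.exp (-(κ / 2 ^ k)) ^ n := by
    apply pow_le_pow_left₀ (by linarith)
    exact Real.one_sub_le_exp_neg _
  have e2 : Real.exp (-(κ / 2 ^ k)) ^ n = (Real.exp (n * (κ / 2 ^ k)))⁻¹ := by
    rw [← Real.exp_nat_mul, ← Real.exp_neg]
    congr 1
    ring
  have e3 : ((n : ℝ) * (κ / 2 ^ k)) ^ 8 / (Nat.factorial 8 : ℝ) ≤ Real.exp (n * (κ / 2 ^ k)) :=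
    Real.pow_div_factorial_le_exp _ (by positivity) 8
  have e4 : κ ^ 8 * (n : ℝ) ^ 4 / 40320 ≤ Real.exp (n * (κ / 2 ^ k)) := by
    refine le_trans ?_ e3
    have h6 : ((n : ℝ) * (κ / 2 ^ k)) ^ 8 = κ ^ 8 * ((n : ℝ) ^ 8 / ((4 : ℝ) ^ k) ^ 4) := by
      have h4 : ((4 : ℝ) ^ k) ^ 4 = (2 ^ k) ^ 8 := by
        rw [show (4 : ℝ) = 2 ^ 2 by norm_num, ← pow_mul, ← pow_mul, ← pow_mul]
        congr 1
        ring
      rw [h4, mul_pow, div_pow]
      ring
    rw [h6]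
    have h5 : (n : ℝ) ^ 4 ≤ (n : ℝ) ^ 8 / ((4 : ℝ) ^ k) ^ 4 := by
      rw [le_div_iff₀ (by positivity)]
      have h7 : ((4 : ℝ) ^ k) ^ 4 ≤ (n : ℝ) ^ 4 := by gcongr
      calc (n : ℝ) ^ 4 * ((4 : ℝ) ^ k) ^ 4 ≤ (n : ℝ) ^ 4 * (n : ℝ) ^ 4 := by gcongr
        _ = (n : ℝ) ^ 8 := by ring
    have h8 : (Nat.factorial 8 : ℝ) = 40320 := by norm_num [Nat.factorial]
    rw [h8]
    gcongr
  calc (1 - κ / 2 ^ k) ^ n ≤ (Real.exp (n * (κ / 2 ^ k)))⁻¹ := e1.trans e2.le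
    _ ≤ (κ ^ 8 * (n : ℝ) ^ 4 / 40320)⁻¹ := by
        apply inv_anti₀ (by positivity) e4
    _ = 40320 / κ ^ 8 * (1 / (n : ℝ) ^ 4) := by
        field_simp
    _ ≤ 40401 / κ ^ 8 * (1 / (n : ℝ) ^ 4) := by
        gcongr
        norm_num
    _ = (201 / κ ^ 4 * (1 / (n : ℝ) ^ 2)) ^ 2 := by
        field_simp
        norm_num

lemma SU2_u_summable (κ : ℝ) (h0 : 0 < κ) (h1 : κ ≤ 1) :
    Summable fun n : ℕ => Real.sqrt ((1 - κ / 2 ^ Nat.log 4 n) ^ n) := by
  rw [← summable_nat_add_iff 1]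
  have hs : Summable fun n : ℕ => 201 / κ ^ 4 * (1 / ((n + 1 : ℕ) : ℝ) ^ 2) := by
    apply Summable.mul_left
    exact (summable_nat_add_iff 1).mpr (Real.summable_one_div_nat_pow.mpr (by norm_num))
  refine Summable.of_nonneg_of_le (fun n => Real.sqrt_nonneg _) (fun n => ?_) hs
  have h2 := SU2_u_le κ h0 h1 (n + 1) (by omega)
  rw [Real.sqrt_le_iff]
  exact ⟨by positivity, h2⟩

lemma SU2_half : Summable fun n : ℕ => Real.sqrt ((1 / 2 : ℝ) ^ n) := by
  have h1 : ∀ n : ℕ, Real.sqrt ((1 / 2 : ℝ) ^ n) = Real.sqrt (1 / 2) ^ n := by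
    intro n
    rw [Real.sqrt_eq_iff_mul_self_eq (by positivity) (by positivity), ← mul_pow,
      Real.mul_self_sqrt (by norm_num)]
  simp_rw [h1]
  refine summable_geometric_of_lt_one (by positivity) ?_
  rw [Real.sqrt_lt' (by norm_num)]
  norm_num

lemma SU2_nhalf : Summable fun n : ℕ => Real.sqrt ((n : ℝ) * (1 / 2 : ℝ) ^ n) := by
  have h1 : ∀ n : ℕ, Real.sqrt ((1 / 2 : ℝ) ^ n) = Real.sqrt (1 / 2) ^ n := by
    intro n
    rw [Real.sqrt_eq_iff_mul_self_eq (by positivity) (by positivity), ← mul_pow,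
      Real.mul_self_sqrt (by norm_num)]
  have h2 : ‖Real.sqrt (1 / 2)‖ < 1 := by
    rw [Real.norm_of_nonneg (by positivity), Real.sqrt_lt' (by norm_num)]
    norm_num
  have h3 := summable_pow_mul_geometric_of_norm_lt_one 1 h2
  simp only [pow_one] at h3
  refine Summable.of_nonneg_of_le (fun n => Real.sqrt_nonneg _) (fun n => ?_) h3
  rw [Real.sqrt_mul (by positivity), h1]
  gcongr
  rcases Nat.eq_zero_or_pos n with rfl | hn
  · simp
  · have hn' : (1 : ℝ) ≤ n := by exact_mod_cast hn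
    rw [Real.sqrt_le_iff]
    exact ⟨by positivity, by nlinarith⟩

lemma SU2_cube : Summable fun n : ℕ => Real.sqrt (1 / (n : ℝ) ^ 3) := by
  have h1 : ∀ n : ℕ, Real.sqrt (1 / (n : ℝ) ^ 3) = 1 / (n : ℝ) ^ (3 / 2 : ℝ) := by
    intro n
    have hn : (0 : ℝ) ≤ n := Nat.cast_nonneg n
    rw [Real.sqrt_eq_rpow, Real.div_rpow (by norm_num) (by positivity), Real.one_rpow,
      ← Real.rpow_natCast, ← Real.rpow_mul hn]
    norm_num
  simp_rw [h1]
  exact Real.summable_one_div_nat_rpow.mpr (by norm_num)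

/-- summation of the bounds, with square roots -/
theorem p_SU2 : T_SU2 := by
  intro p C κ B n₀' hp hC h0 h1 hB hb'
  set n₀ : ℕ := max n₀' 1 with hn₀
  have hb : ∀ n : ℕ, n₀ ≤ n → ∀ N : ℕ, p ^ n ≤ N → N < p ^ (n + 1) →
      B N ≤ Real.sqrt (C * ((n : ℝ) / N + (1 - κ / 2 ^ Nat.log 4 n) ^ n + (1 / 2) ^ n +
        1 / (n : ℝ) ^ 3)) := fun n hn => hb' n (le_trans (le_max_left _ _) hn)
    (le_trans (le_max_right _ _) hn)
  set w : ℕ → ℝ := fun n => Real.sqrt ((n : ℝ) * (1 / 2) ^ n) +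
    Real.sqrt ((1 - κ / 2 ^ Nat.log 4 n) ^ n) + Real.sqrt ((1 / 2) ^ n) +
    Real.sqrt (1 / (n : ℝ) ^ 3) with hw
  have hw0 : ∀ n, 0 ≤ w n := fun n => by
    simp only [hw]
    positivity
  have hws : Summable w := ((SU2_nhalf.add (SU2_u_summable κ h0 h1)).add SU2_half).add SU2_cube
  set g : ℕ → ℝ := fun n => ((p : ℝ) - 1) * Real.sqrt C * w n with hg
  have hgs : Summable g := hws.mul_left _
  have hp' : (2 : ℝ) ≤ p := by exact_mod_cast hp
  have hg0 : ∀ n, 0 ≤ g n := fun n => by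
    have h3 : 0 ≤ (p : ℝ) - 1 := by linarith
    exact mul_nonneg (mul_nonneg h3 (Real.sqrt_nonneg C)) (hw0 n)
  set f : ℕ → ℝ := fun N => B N / N with hf
  have hf0 : ∀ N, 0 ≤ f N := fun N => div_nonneg (hB N) (Nat.cast_nonneg N)
  -- the sum over a block
  have hblock : ∀ n, n₀ ≤ n → ∑ N ∈ Finset.Ico (p ^ n) (p ^ (n + 1)), f N ≤ g n := by
    intro n hn
    have hpn : (0 : ℝ) < (p : ℝ) ^ n := by positivity
    have h4 : ∀ N ∈ Finset.Ico (p ^ n) (p ^ (n + 1)), f N ≤ Real.sqrt C * w n / (p : ℝ) ^ n := by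
      intro N hN
      rw [Finset.mem_Ico] at hN
      have hN1 : (p : ℝ) ^ n ≤ N := by exact_mod_cast hN.1
      have hNp : (0 : ℝ) < N := lt_of_lt_of_le hpn hN1
      have h5 := hb n hn N hN.1 hN.2
      have h6 : (n : ℝ) / N ≤ (n : ℝ) * (1 / 2) ^ n := by
        rw [div_eq_mul_inv]
        have h7 : ((N : ℝ))⁻¹ ≤ (1 / 2) ^ n := by
          rw [one_div, inv_pow]
          apply inv_anti₀ (by positivity)
          exact le_trans (by gcongr) hN1
        gcongr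
      have hu := SUM_u_nonneg κ h0 h1 n
      have h8 : B N ≤ Real.sqrt C * w n := by
        refine h5.trans ?_
        rw [Real.sqrt_mul hC]
        refine mul_le_mul_of_nonneg_left ?_ (Real.sqrt_nonneg C)
        have a1 : (0 : ℝ) ≤ (n : ℝ) / N := by positivity
        have a2 : (0 : ℝ) ≤ (1 / 2 : ℝ) ^ n := by positivity
        have a3 : (0 : ℝ) ≤ 1 / (n : ℝ) ^ 3 := by positivity
        have b1 := SU2_sqrt_add ((n : ℝ) / N + (1 - κ / 2 ^ Nat.log 4 n) ^ n + (1 / 2) ^ n)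
          (1 / (n : ℝ) ^ 3) (by linarith) a3
        have b2 := SU2_sqrt_add ((n : ℝ) / N + (1 - κ / 2 ^ Nat.log 4 n) ^ n) ((1 / 2) ^ n)
          (by linarith) a2
        have b3 := SU2_sqrt_add ((n : ℝ) / N) ((1 - κ / 2 ^ Nat.log 4 n) ^ n) a1 hu
        have b4 := Real.sqrt_le_sqrt h6
        simp only [hw]
        linarith
      calc f N = B N / N := rfl
        _ ≤ (Real.sqrt C * w n) / N := by gcongr
        _ ≤ Real.sqrt C * w n / (p : ℝ) ^ n := by
            have := mul_nonneg (Real.sqrt_nonneg C) (hw0 n)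
            gcongr
    refine (Finset.sum_le_card_nsmul _ _ _ h4).trans ?_
    rw [Nat.card_Ico, nsmul_eq_mul, Nat.cast_sub (Nat.pow_le_pow_right (by omega) (by omega))]
    push_cast
    rw [pow_succ]
    apply le_of_eq
    simp only [hg]
    field_simp
  -- the sums over initial segments
  have hseg : ∀ m, ∑ N ∈ Finset.range (p ^ (n₀ + m)), f N ≤
      ∑ N ∈ Finset.range (p ^ n₀), f N + ∑ j ∈ Finset.range m, g (n₀ + j) := by
    intro m
    induction m with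
    | zero => simp
    | succ m ih =>
      have h9 : p ^ (n₀ + m) ≤ p ^ (n₀ + (m + 1)) := Nat.pow_le_pow_right (by omega) (by omega)
      rw [← Finset.sum_range_add_sum_Ico f h9, Finset.sum_range_succ]
      have := hblock (n₀ + m) (by omega)
      have h10 : n₀ + m + 1 = n₀ + (m + 1) := by ring
      rw [h10] at this
      linarith
  have hgs' : Summable fun j => g (n₀ + j) := by
    have := (summable_nat_add_iff n₀).mpr hgs
    simpa [add_comm] using this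
  refine summable_of_sum_range_le (c := ∑ N ∈ Finset.range (p ^ n₀), f N + ∑' j, g (n₀ + j)) hf0 ?_
  intro m
  have h11 : m ≤ p ^ (n₀ + m) := by
    calc m ≤ p ^ m := (Nat.lt_pow_self (by omega)).le
      _ ≤ p ^ (n₀ + m) := Nat.pow_le_pow_right (by omega) (by omega)
  calc ∑ N ∈ Finset.range m, f N ≤ ∑ N ∈ Finset.range (p ^ (n₀ + m)), f N := by
        apply Finset.sum_le_sum_of_subset_of_nonneg
        · exact Finset.range_subset_range.mpr h11
        · intro i _ _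
          exact hf0 i
    _ ≤ _ := hseg m
    _ ≤ _ := by
        gcongr
        exact hgs'.sum_le_tsum _ (fun i _ => hg0 _)

end

end Pool.Agent.LYN
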