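import Pool.Agent.LYN.Targets2

set_option autoImplicit false

/-!
# LYN: target `TRA` (all translates at once)
-/

open MeasureTheory Filter Topology
open scoped ENNReal

namespace Pool.Agent.LYN

noncomputable section

lemma TRA_sq (q : ℕ) (a : ℤ) (N : ℕ) (z : UnitAddCircle) : ((‖wav q a z N‖ ^ 2 : ℝ) : ℂ) =
    (1 / (N : ℂ)) ^ 2 * ∑ i ∈ Finset.range N, ∑ j ∈ Finset.range N,
      (fourier (a * ((q : ℤ) ^ i - (q : ℤ) ^ j)) : C(UnitAddCircle, ℂ)) z := by
  have h1 : ((‖wav q a z N‖ ^ 2 : ℝ) : ℂ) = wav q a z N * (starRingEnd ℂ) (wav q a z N) := by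
    rw [Complex.mul_conj, Complex.normSq_eq_norm_sq]
  rw [h1, wav_eq, map_mul, map_sum]
  have h2 : (starRingEnd ℂ) (1 / (N : ℂ)) = 1 / (N : ℂ) := by
    rw [map_div₀, map_one, Complex.conj_natCast]
  rw [h2]
  have h3 : (∑ i ∈ Finset.range N, (fourier (a * (q : ℤ) ^ i) : C(UnitAddCircle, ℂ)) z) *
      ∑ j ∈ Finset.range N, (starRingEnd ℂ)
        ((fourier (a * (q : ℤ) ^ j) : C(UnitAddCircle, ℂ)) z) =
      ∑ i ∈ Finset.range N, ∑ j ∈ Finset.range N,
        (fourier (a * ((q : ℤ) ^ i - (q : ℤ) ^ j)) : C(UnitAddCircle, ℂ)) z := by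
    rw [Finset.sum_mul_sum]
    refine Finset.sum_congr rfl fun i _ => Finset.sum_congr rfl fun j _ => ?_
    rw [mul_sub]
    exact fourier_mul_conj _ _ _
  rw [← h3]
  ring

theorem p_TRA (hDEL : T_DEL) : T_TRA := by
  intro Y _ ν h q a hν hm hsum x
  have hfm : Measurable fun y => x + h y := hm.const_add x
  have hfom : ∀ b : ℤ, Measurable fun y => (fourier b : C(UnitAddCircle, ℂ)) (x + h y) := fun b =>
    ((fourier b : C(UnitAddCircle, ℂ)).continuous.measurable).comp hfm
  have hint : ∀ b : ℤ, Integrable (fun y => (fourier b : C(UnitAddCircle, ℂ)) (x + h y)) ν :=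
    fun b => Integrable.of_bound (hfom b).aestronglyMeasurable 1
      (Eventually.of_forall fun D => (fourier_norm b _).le)
  have hF : ∀ b : ℤ, ‖∫ y, (fourier b : C(UnitAddCircle, ℂ)) (x + h y) ∂ν‖ =
      ‖∫ y, (fourier b : C(UnitAddCircle, ℂ)) (h y) ∂ν‖ := by
    intro b
    simp only [fourier_add_pt]
    rw [integral_const_mul, norm_mul, fourier_norm, one_mul]
  set B : ℕ → ℝ := fun N => ∫ y, ‖wav q a (x + h y) N‖ ^ 2 ∂ν with hB
  have hB0 : ∀ N, 0 ≤ B N := fun N => integral_nonneg fun D => by positivity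
  have hBle : ∀ N : ℕ, B N ≤ (1 / (N : ℝ) ^ 2) * ∑ i ∈ Finset.range N, ∑ j ∈ Finset.range N,
      ‖∫ y, (fourier (a * ((q : ℤ) ^ i - (q : ℤ) ^ j)) : C(UnitAddCircle, ℂ)) (h y) ∂ν‖ := by
    intro N
    have hI : ((B N : ℝ) : ℂ) =
        (1 / (N : ℂ)) ^ 2 * ∑ i ∈ Finset.range N, ∑ j ∈ Finset.range N,
          ∫ y, (fourier (a * ((q : ℤ) ^ i - (q : ℤ) ^ j)) : C(UnitAddCircle, ℂ)) (x + h y) ∂ν := by
      rw [hB]
      dsimp only
      rw [← integral_complex_ofReal]
      simp only [TRA_sq]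
      rw [integral_const_mul, integral_finsetSum _ fun i _ =>
        integrable_finsetSum _ fun j _ => hint _]
      congr 1
      refine Finset.sum_congr rfl fun i _ => ?_
      rw [integral_finsetSum _ fun j _ => hint _]
    have h1 : B N = ‖((B N : ℝ) : ℂ)‖ := by
      rw [Complex.norm_real, Real.norm_eq_abs, abs_of_nonneg (hB0 N)]
    rw [h1, hI, norm_mul, norm_pow, norm_div, norm_one, Complex.norm_natCast, div_pow, one_pow]
    refine mul_le_mul_of_nonneg_left ?_ (by positivity)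
    refine (norm_sum_le _ _).trans (Finset.sum_le_sum fun i _ => ?_)
    refine (norm_sum_le _ _).trans (Finset.sum_le_sum fun j _ => ?_)
    rw [hF]
  have hsB : Summable fun N : ℕ => B N / N :=
    Summable.of_nonneg_of_le (fun N => div_nonneg (hB0 N) (Nat.cast_nonneg N))
      (fun N => div_le_div_of_nonneg_right (hBle N) (Nat.cast_nonneg N)) hsum
  -- the series is finite almost everywhere
  have hmeas : ∀ N, Measurable fun y : Y => ‖wav q a (x + h y) N‖ ^ 2 / (N : ℝ) := by
    intro N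
    have h2 : Measurable fun y : Y => wav q a (x + h y) N :=
      (continuous_wav q a N).measurable.comp hfm
    exact (h2.norm.pow_const 2).div_const _
  have hI : ∫⁻ y, ∑' N : ℕ, ENNReal.ofReal (‖wav q a (x + h y) N‖ ^ 2 / (N : ℝ)) ∂ν ≠ ⊤ := by
    rw [lintegral_tsum fun N => (hmeas N).ennreal_ofReal.aemeasurable]
    have h1 : ∀ N : ℕ, ∫⁻ y, ENNReal.ofReal (‖wav q a (x + h y) N‖ ^ 2 / (N : ℝ)) ∂ν =
        ENNReal.ofReal (B N / N) := by
      intro N
      rw [← ofReal_integral_eq_lintegral_ofReal]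
      · rw [hB]
        dsimp only
        rw [integral_div]
      · refine Integrable.of_bound (hmeas N).aestronglyMeasurable 1 (ae_of_all _ fun D => ?_)
        have h2 := norm_wav_le q a (x + h D) N
        rw [Real.norm_eq_abs, abs_of_nonneg (by positivity)]
        rcases Nat.eq_zero_or_pos N with rfl | hN
        · simp
        · have hN' : (1 : ℝ) ≤ N := by exact_mod_cast hN
          rw [div_le_one (by positivity)]
          have : ‖wav q a (x + h D) N‖ ^ 2 ≤ 1 := pow_le_one₀ (norm_nonneg _) h2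
          linarith
      · exact ae_of_all _ fun D => by positivity
    rw [tsum_congr h1]
    exact hsB.tsum_ofReal_ne_top
  have hae : ∀ᵐ y ∂ν, ∑' N : ℕ,
      ENNReal.ofReal (‖wav q a (x + h y) N‖ ^ 2 / (N : ℝ)) < ⊤ :=
    ae_lt_top (Measurable.tsum fun N => (hmeas N).ennreal_ofReal) hI
  filter_upwards [hae] with y hD
  have h1 := ENNReal.summable_toReal hD.ne
  have h2 : Summable fun N : ℕ => ‖wav q a (x + h y) N‖ ^ 2 / (N : ℝ) := by
    refine h1.congr fun N => ?_
    rw [ENNReal.toReal_ofReal (by positivity)]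
  exact hDEL (fun n => (fourier a : C(UnitAddCircle, ℂ)) ((q ^ n) • (x + h y)))
    (fun n => (fourier_norm a _).le) h2

end

end Pool.Agent.LYN
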