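import Pool.Agent.LYN.Main2
import Pool.Agent.LYN.P_APR
import Pool.Agent.LYN.P_LTE
import Pool.Agent.LYN.P_MUL
import Pool.Agent.LYN.P_DEC
import Pool.Agent.LYN.P_PH
import Pool.Agent.LYN.P_GL
import Pool.Agent.LYN.P_FSU
import Pool.Agent.LYN.P_PAIR
import Pool.Agent.LYN.P_RES
import Pool.Agent.LYN.P_NM
import Pool.Agent.LYN.P_NQ
import Pool.Agent.LYN.P_NE
import Pool.Agent.LYN.P_DEL
import Pool.Agent.LYN.P_POW
import Pool.Agent.LYN.P_ATM
import Pool.Agent.LYN.P_MSB
import Pool.Agent.LYN.P_CK2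
import Pool.Agent.LYN.P_FO2
import Pool.Agent.LYN.P_ETA
import Pool.Agent.LYN.P_SC2
import Pool.Agent.LYN.P_SU2
import Pool.Agent.LYN.P_TRA
import Pool.Agent.LYN.P_PT2

set_option autoImplicit false

/-!
# LYN, part 2: a universal measure
-/

open MeasureTheory Filter Topology
open scoped ENNReal

namespace Pool.Agent.LYN

noncomputable section

theorem c_MUL : T_MUL := p_MUL p_LTE
theorem c_GL : T_GL := p_GL p_PH
theorem c_FSU : T_FSU := p_FSU c_MUL c_GL p_PH
theorem c_PAIR : T_PAIR := p_PAIR c_FSU p_PH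
theorem c_FO2 : T_FO2 := p_FO2 p_RES
theorem c_ETA : T_ETA := p_ETA c_FO2 p_NM
theorem c_SC2 : T_SC2 := p_SC2 c_PAIR c_ETA
theorem c_TRA : T_TRA := p_TRA p_DEL
theorem c_PT2 : T_PT2 := p_PT2 p_DEC c_SC2 p_NE p_NM c_TRA p_POW p_SU2

/-- convolution with the law of a universal function -/
theorem U_conv (p : ℕ) (hp : 2 ≤ p) (Y : Type) [MeasurableSpace Y]
    [MeasurableSpace.CountablySeparated Y] (ν : Measure Y) [IsProbabilityMeasure ν] (S : Y → Y)
    (hS : MeasurePreserving S ν ν) (hper : ∀ᵐ y ∂ν, ∀ n : ℕ, 0 < n → S^[n] y ≠ y)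
    (δ : ℝ) (hδ : 0 < δ) :
    ∃ g : Y → UnitAddCircle, Measurable g ∧ (∀ᵐ y ∂ν, g (S y) = p • g y) ∧
      IsProbabilityMeasure (ν.map g) ∧ (ν.map g).map (fun x => p • x) = ν.map g ∧
      NoAtoms (ν.map g) ∧ ∫ x, ‖x‖ ∂ν.map g ≤ δ ∧
      ∀ μ : Measure UnitAddCircle, IsProbabilityMeasure μ →
        NoAtoms (μ ∗ ν.map g) ∧
        (μ.map (fun x => p • x) = μ → (μ ∗ ν.map g).map (fun x => p • x) = μ ∗ ν.map g) ∧
        ∀ᵐ x ∂(μ ∗ ν.map g), AllNrm p x := by
  obtain ⟨g, hg, he, hgδ, hU⟩ := main2 p_NM p_NQ p_NE p_CK2 c_PT2 p hp Y ν S hS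
    (fun δ hδ => p_APR Y ν S hS hper δ hδ) δ hδ
  have hprob : IsProbabilityMeasure (ν.map g) := Measure.isProbabilityMeasure_map hg.aemeasurable
  have hMS : ∀ (α : Type) [MeasurableSpace α] (f : α → UnitAddCircle), Measurable f →
      MeasurableSet {x : α | AllNrm p (f x)} := fun α _ f hf => p_MSB α f p hf
  obtain ⟨h1, h2⟩ := M_law p_ATM p_MSB p hp Y ν S hS g hg (by
    filter_upwards [hU 0] with y hy
    rwa [zero_add] at hy)
  obtain ⟨h3, h4⟩ := h2 he
  have hna : NoAtoms (ν.map g) := ⟨h3⟩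
  refine ⟨g, hg, he, hprob, h4, hna, ?_, fun μ hμ => ⟨?_, ?_, ?_⟩⟩
  · rw [integral_map hg.aemeasurable continuous_norm.aestronglyMeasurable]
    exact hgδ
  · refine ⟨fun x => ?_⟩
    have hx : MeasurableSet ({x} : Set UnitAddCircle) := measurableSet_singleton x
    rw [Measure.conv, Measure.map_apply measurable_add hx,
      Measure.prod_apply (measurable_add hx)]
    refine (lintegral_congr fun y => ?_).trans lintegral_zero
    have : Prod.mk y ⁻¹' ((fun x : UnitAddCircle × UnitAddCircle => x.1 + x.2) ⁻¹' {x}) =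
        {x - y} := by
      ext z
      simp only [Set.mem_preimage, Set.mem_singleton_iff]
      constructor
      · intro h
        rw [← h]
        abel
      · intro h
        rw [h]
        abel
    rw [this]
    exact h3 _
  · intro hinv
    have h5 := Measure.map_conv_addMonoidHom (μ := μ) (ν := ν.map g)
      (nsmulAddMonoidHom p : UnitAddCircle →+ UnitAddCircle)
      (continuous_nsmul p).measurable
    change (μ ∗ ν.map g).map (fun x => p • x) =
      (μ.map (fun x => p • x)) ∗ ((ν.map g).map (fun x => p • x)) at h5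
    rw [h5, hinv, h4]
  · have hmeas : MeasurableSet {x : UnitAddCircle | AllNrm p x} := hMS _ id measurable_id
    unfold Measure.conv
    rw [ae_map_iff measurable_add.aemeasurable hmeas]
    have hset : MeasurableSet {z : UnitAddCircle × UnitAddCircle | AllNrm p (z.1 + z.2)} :=
      hMS _ _ measurable_add
    rw [Measure.ae_prod_iff_ae_ae hset]
    refine ae_of_all _ fun x => ?_
    exact (ae_map_iff hg.aemeasurable (hMS _ _ (measurable_const_add x))).2 (hU x)

end

end Pool.Agent.LYN
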