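import Pool.Agent.LYN.Basic

set_option autoImplicit false

/-!
# LYN: existence of clocks (target CLK)
-/

open MeasureTheory Filter Topology
open scoped ENNReal

namespace Pool.Agent.LYN

noncomputable section

lemma CLK_meas {Y : Type} [MeasurableSpace Y] {S : Y → Y} (hS : Measurable S) {A : Set Y}
    (hA : MeasurableSet A) (n : ℕ) : MeasurableSet {y | S^[n] y ∈ A} :=
  (hS.iterate n) hA

lemma CLK_ex {Y : Type} (S : Y → Y) (A : Set Y) (y : Y) :
    ∃ n, S^[n] y ∈ A ∨ ¬ ∃ m, S^[m] y ∈ A := by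
  by_cases h : ∃ m, S^[m] y ∈ A
  · obtain ⟨m, hm⟩ := h
    exact ⟨m, Or.inl hm⟩
  · exact ⟨0, Or.inr h⟩

open Classical in
/-- the first visit -/
def CLK_tau {Y : Type} (S : Y → Y) (A : Set Y) (y : Y) : ℕ := Nat.find (CLK_ex S A y)

open Classical in
lemma CLK_tau_meas {Y : Type} [MeasurableSpace Y] {S : Y → Y} (hS : Measurable S) {A : Set Y}
    (hA : MeasurableSet A) : Measurable (CLK_tau S A) := by
  refine measurable_find (CLK_ex S A) fun n => ?_
  have h : {y | S^[n] y ∈ A ∨ ¬ ∃ m, S^[m] y ∈ A} =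
      {y | S^[n] y ∈ A} ∪ (⋃ m, {y | S^[m] y ∈ A})ᶜ := by
    ext y
    simp
  rw [h]
  exact (CLK_meas hS hA n).union (MeasurableSet.iUnion fun m => CLK_meas hS hA m).compl

open Classical in
lemma CLK_tau_mem {Y : Type} {S : Y → Y} {A : Set Y} {y : Y} (h : ∃ m, S^[m] y ∈ A) :
    S^[CLK_tau S A y] y ∈ A := by
  rcases Nat.find_spec (CLK_ex S A y) with h1 | h1
  · exact h1
  · exact absurd h h1

open Classical in
lemma CLK_tau_le {Y : Type} {S : Y → Y} {A : Set Y} {y : Y} {n : ℕ} (h : S^[n] y ∈ A) :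
    CLK_tau S A y ≤ n := Nat.find_min' (CLK_ex S A y) (Or.inl h)

/-- the clock runs until the first visit -/
lemma CLK_run {Y : Type} {S : Y → Y} {A : Set Y} {y : Y} {M : ℕ} (h : ∃ m, S^[m] y ∈ A)
    (h' : ∀ n < M, S^[n] y ∉ A) (t : ℕ) (ht : t < M) :
    CLK_tau S A (S^[t] y) + t = CLK_tau S A y := by
  have h1 := CLK_tau_mem h
  have h2 : M ≤ CLK_tau S A y := by
    by_contra hlt
    exact h' _ (not_le.1 hlt) h1
  have h3 : S^[CLK_tau S A y - t] (S^[t] y) ∈ A := by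
    rw [← Function.iterate_add_apply, Nat.sub_add_cancel (ht.le.trans h2)]
    exact h1
  have h4 := CLK_tau_le h3
  have h5 := CLK_tau_mem ⟨_, h3⟩
  rw [← Function.iterate_add_apply] at h5
  have h6 := CLK_tau_le h5
  omega

/-- existence of clocks -/
theorem p_CLK : T_CLK := by
  intro Y _ ν S M _ hS hA
  have hex : ∀ k : ℕ, ∃ A, MeasurableSet A ∧ ν A < (2⁻¹ : ℝ≥0∞) ^ k / ((M k : ℝ≥0∞) + 1) ∧
      ∀ᵐ y ∂ν, ∃ n, S^[n] y ∈ A := by
    intro k
    refine hA _ (ENNReal.div_pos ?_ ?_)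
    · exact pow_ne_zero _ (ENNReal.inv_ne_zero.2 ENNReal.ofNat_ne_top)
    · exact ENNReal.add_ne_top.2 ⟨ENNReal.natCast_ne_top _, ENNReal.one_ne_top⟩
  choose A hA1 hA2 hA3 using hex
  refine ⟨fun k => CLK_tau S (A k), fun k => CLK_tau_meas hS.measurable (hA1 k), ?_⟩
  have hs : ∀ k, ν (⋃ n ∈ Finset.range (M k), {y | S^[n] y ∈ A k}) ≤ (2⁻¹ : ℝ≥0∞) ^ k := by
    intro k
    calc ν (⋃ n ∈ Finset.range (M k), {y | S^[n] y ∈ A k})
        ≤ ∑ n ∈ Finset.range (M k), ν {y | S^[n] y ∈ A k} := measure_biUnion_finset_le _ _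
      _ = ∑ n ∈ Finset.range (M k), ν (A k) := by
          refine Finset.sum_congr rfl fun n _ => ?_
          exact (hS.iterate n).measure_preimage (hA1 k).nullMeasurableSet
      _ = (M k : ℝ≥0∞) * ν (A k) := by simp
      _ ≤ ((M k : ℝ≥0∞) + 1) * ((2⁻¹ : ℝ≥0∞) ^ k / ((M k : ℝ≥0∞) + 1)) :=
          mul_le_mul' le_self_add (hA2 k).le
      _ = (2⁻¹ : ℝ≥0∞) ^ k := by
          refine ENNReal.mul_div_cancel ?_ ?_
          · simp
          · exact ENNReal.add_ne_top.2 ⟨ENNReal.natCast_ne_top _, ENNReal.one_ne_top⟩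
  have hsum : ∑' k, ν (⋃ n ∈ Finset.range (M k), {y | S^[n] y ∈ A k}) ≠ ∞ := by
    refine ne_top_of_le_ne_top ?_ (ENNReal.tsum_le_tsum hs)
    rw [ENNReal.tsum_geometric, ENNReal.one_sub_inv_two, inv_inv]
    exact ENNReal.ofNat_ne_top
  filter_upwards [ae_eventually_notMem hsum, ae_all_iff.2 hA3] with y h1 h2
  filter_upwards [h1] with k hk
  refine fun t ht => CLK_run (h2 k) (fun n hn hmem => hk ?_) t ht
  rw [Set.mem_iUnion₂]
  exact ⟨n, Finset.mem_range.2 hn, hmem⟩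

end

end Pool.Agent.LYN
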