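import Pool.Agent.LYN.Basic

set_option autoImplicit false

/-!
# LYN: expectation of a character
-/

open MeasureTheory Filter Topology
open scoped ENNReal

namespace Pool.Agent.LYN

noncomputable section

variable {Y : Type}

/-- the window -/
def FOU_win (k L m : ℕ) : Finset (ℕ × ℕ) := (Finset.range L).image fun s => (k, m + s)

lemma FOU_mem_win (k L m : ℕ) (j : ℕ × ℕ) :
    j ∈ FOU_win k L m ↔ ∃ s < L, (k, m + s) = j := by
  unfold FOU_win
  rw [Finset.mem_image]
  simp only [Finset.mem_range]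

/-- the part of the series outside the window and before `M` -/
def FOU_rest (p : ℕ) (S : Y → Y) (τ : ℕ → Y → ℕ) (k M L m : ℕ) (D : Om) (y : Y) : ℝ≥0∞ :=
  ∑' j : ℕ × ℕ, if j ∈ FOU_win k L m ∨ (j.1 = k ∧ M ≤ j.2) then 0 else tm p S τ D y j

/-- the part of the series after `M` -/
def FOU_far (p : ℕ) (S : Y → Y) (τ : ℕ → Y → ℕ) (k M : ℕ) (D : Om) (y : Y) : ℝ≥0∞ :=
  ∑' j : ℕ × ℕ, if j.1 = k ∧ M ≤ j.2 then tm p S τ D y j else 0

lemma FOU_split (p : ℕ) (S : Y → Y) (τ : ℕ → Y → ℕ) (k M L m : ℕ) (D : Om) (y : Y)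
    (hL : m + L ≤ M) :
    GI p S τ D y = (∑ s ∈ Finset.range L, tm p S τ D y (k, m + s)) +
      FOU_rest p S τ k M L m D y + FOU_far p S τ k M D y := by
  have h1 : ∑ s ∈ Finset.range L, tm p S τ D y (k, m + s) =
      ∑' j : ℕ × ℕ, if j ∈ FOU_win k L m then tm p S τ D y j else 0 := by
    rw [tsum_eq_sum (s := FOU_win k L m)]
    · unfold FOU_win
      rw [Finset.sum_image]
      · refine Finset.sum_congr rfl fun s hs => ?_
        rw [if_pos]
        exact Finset.mem_image_of_mem _ hs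
      · intro s _ s' _ h
        have h' : m + s = m + s' := (Prod.ext_iff.1 h).2
        omega
    · intro j hj
      rw [if_neg hj]
  rw [h1]
  unfold FOU_rest FOU_far GI
  rw [← ENNReal.tsum_add, ← ENNReal.tsum_add]
  refine tsum_congr fun j => ?_
  by_cases hw : j ∈ FOU_win k L m
  · have hf : ¬ (j.1 = k ∧ M ≤ j.2) := by
      rintro ⟨_, h⟩
      obtain ⟨s, hs, rfl⟩ := (FOU_mem_win k L m j).1 hw
      simp only at h
      omega
    rw [if_pos hw, if_pos (Or.inl hw), if_neg hf, add_zero, add_zero]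
  · by_cases hf : j.1 = k ∧ M ≤ j.2
    · rw [if_neg hw, if_pos (Or.inr hf), if_pos hf, add_zero, zero_add]
    · rw [if_neg hw, if_neg (by tauto), if_neg hf, zero_add, add_zero]

lemma FOU_geo (p : ℕ) (hp : 2 ≤ p) : ∑' t : ℕ, ((p : ℝ≥0∞) ^ (t + 1))⁻¹ ≤ 1 := by
  have h1 : ∀ t : ℕ, ((p : ℝ≥0∞) ^ (t + 1))⁻¹ ≤ (2⁻¹ : ℝ≥0∞) ^ (t + 1) := by
    intro t
    rw [← ENNReal.inv_pow]
    refine ENNReal.inv_le_inv.2 ?_
    exact pow_le_pow_left' (by exact_mod_cast hp) _
  calc ∑' t : ℕ, ((p : ℝ≥0∞) ^ (t + 1))⁻¹ ≤ ∑' t : ℕ, (2⁻¹ : ℝ≥0∞) ^ (t + 1) :=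
        ENNReal.tsum_le_tsum h1
    _ = 2⁻¹ * (1 - 2⁻¹)⁻¹ := ENNReal.tsum_geometric_add_one _
    _ = 1 := by
      rw [ENNReal.one_sub_inv_two, inv_inv]
      exact ENNReal.inv_mul_cancel (by norm_num) (by norm_num)

lemma FOU_far_le (p : ℕ) (S : Y → Y) (τ : ℕ → Y → ℕ) (k M : ℕ) (D : Om) (y : Y) (hp : 2 ≤ p) :
    FOU_far p S τ k M D y ≤ ((p : ℝ≥0∞) ^ M)⁻¹ := by
  have h1 : FOU_far p S τ k M D y ≤
      ∑' a : ℕ, ∑' t : ℕ, (if a = k then (if M ≤ t then ((p : ℝ≥0∞) ^ (t + 1))⁻¹ else 0)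
        else 0) := by
    rw [← ENNReal.tsum_prod
      (f := fun a t : ℕ => if a = k then (if M ≤ t then ((p : ℝ≥0∞) ^ (t + 1))⁻¹ else 0) else 0)]
    unfold FOU_far
    refine ENNReal.tsum_le_tsum fun j => ?_
    by_cases h1 : j.1 = k
    · by_cases h2 : M ≤ j.2
      · rw [if_pos ⟨h1, h2⟩, if_pos h1, if_pos h2]
        exact tm_le p S τ D y j
      · rw [if_neg (by tauto)]
        exact zero_le
    · rw [if_neg (by tauto)]
      exact zero_le
  have h2 : ∑' a : ℕ, ∑' t : ℕ, (if a = k then (if M ≤ t then ((p : ℝ≥0∞) ^ (t + 1))⁻¹ else 0)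
      else 0) = ∑' t : ℕ, (if M ≤ t then ((p : ℝ≥0∞) ^ (t + 1))⁻¹ else 0) := by
    rw [tsum_eq_single k]
    · simp only [if_true]
    · intro a ha
      simp only [if_neg ha, tsum_zero]
  have h3 : ∑' t : ℕ, (if M ≤ t then ((p : ℝ≥0∞) ^ (t + 1))⁻¹ else 0) =
      ∑' t : ℕ, ((p : ℝ≥0∞) ^ M)⁻¹ * ((p : ℝ≥0∞) ^ (t + 1))⁻¹ := by
    rw [← (ENNReal.summable.sum_add_tsum_nat_add' (k := M)
      (f := fun t : ℕ => (if M ≤ t then ((p : ℝ≥0∞) ^ (t + 1))⁻¹ else 0)))]
    rw [Finset.sum_eq_zero, zero_add]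
    · refine tsum_congr fun t => ?_
      rw [if_pos (by omega), ← ENNReal.mul_inv, ← pow_add]
      · congr 2
        ring
      · left
        exact pow_ne_zero _ (by
          have : p ≠ 0 := by omega
          exact_mod_cast this)
      · left
        exact ENNReal.pow_ne_top (ENNReal.natCast_ne_top p)
    · intro t ht
      rw [if_neg (by
        have := Finset.mem_range.1 ht
        omega)]
  calc FOU_far p S τ k M D y ≤ _ := h1
    _ = _ := h2
    _ = _ := h3
    _ = ((p : ℝ≥0∞) ^ M)⁻¹ * ∑' t : ℕ, ((p : ℝ≥0∞) ^ (t + 1))⁻¹ := ENNReal.tsum_mul_left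
    _ ≤ ((p : ℝ≥0∞) ^ M)⁻¹ * 1 := by gcongr; exact FOU_geo p hp
    _ = _ := mul_one _

lemma FOU_meas_rest (p : ℕ) (S : Y → Y) (τ : ℕ → Y → ℕ) (k M L m : ℕ) (y : Y) :
    Measurable fun D : Om => FOU_rest p S τ k M L m D y := by
  unfold FOU_rest
  refine Measurable.tsum fun j => ?_
  by_cases h : j ∈ FOU_win k L m ∨ (j.1 = k ∧ M ≤ j.2)
  · simp only [if_pos h]
    exact measurable_const
  · simp only [if_neg h]
    exact meas_tm_left p S τ y j

lemma FOU_rest_upd (p : ℕ) (S : Y → Y) (τ : ℕ → Y → ℕ) (k M L m : ℕ) (y : Y)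
    (hclk : Clk S τ k M y) (hL : m + L ≤ M) (s : ℕ) (hs : s < L) (D : Om) (z : Bool) :
    FOU_rest p S τ k M L m (Function.update D (k, τ k (S^[m + s] y)) z) y =
      FOU_rest p S τ k M L m D y := by
  unfold FOU_rest
  refine tsum_congr fun j => ?_
  by_cases h : j ∈ FOU_win k L m ∨ (j.1 = k ∧ M ≤ j.2)
  · rw [if_pos h, if_pos h]
  · rw [if_neg h, if_neg h]
    unfold tm
    have hne : (j.1, τ j.1 (S^[j.2] y)) ≠ (k, τ k (S^[m + s] y)) := by
      intro he
      have h1 : j.1 = k := (Prod.ext_iff.1 he).1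
      have h2 : τ j.1 (S^[j.2] y) = τ k (S^[m + s] y) := (Prod.ext_iff.1 he).2
      rw [h1] at h2
      apply h
      by_cases hM : M ≤ j.2
      · exact Or.inr ⟨h1, hM⟩
      · left
        rw [FOU_mem_win]
        have h3 := hclk j.2 (by omega)
        have h4 := hclk (m + s) (by omega)
        refine ⟨s, hs, Prod.ext h1.symm ?_⟩
        simp only
        omega
    rw [Function.update_of_ne hne]

lemma FOU_tm_real (p : ℕ) (S : Y → Y) (τ : ℕ → Y → ℕ) (D : Om) (y : Y) (k t : ℕ) :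
    (tm p S τ D y (k, t)).toReal =
      if D (k, τ k (S^[t] y)) then 1 / (p : ℝ) ^ (t + 1) else 0 := by
  unfold tm
  by_cases h : D (k, τ k (S^[t] y)) = true
  · simp only [h, if_true]
    rw [ENNReal.toReal_inv, ENNReal.toReal_pow, ENNReal.toReal_natCast, one_div]
  · simp only [h]
    simp

theorem p_FOU (hRES : T_RES) : T_FOU := by
  intro Y p S τ ε y x b k M L m hp hfin hclk hL
  classical
  have hp0 : (0 : ℝ) < p := by
    have : 0 < p := by omega
    exact_mod_cast this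
  -- the indices of the digits of the window
  have hinj : ∀ s ∈ Finset.range L, ∀ s' ∈ Finset.range L,
      ((k, τ k (S^[m + s] y)) : ℕ × ℕ) = (k, τ k (S^[m + s'] y)) → s = s' := by
    intro s hs s' hs' he
    have h2 : τ k (S^[m + s] y) = τ k (S^[m + s'] y) := (Prod.ext_iff.1 he).2
    have hs1 := Finset.mem_range.1 hs
    have hs2 := Finset.mem_range.1 hs'
    have h3 := hclk (m + s) (by omega)
    have h4 := hclk (m + s') (by omega)
    omega
  obtain ⟨W, hW⟩ : ∃ W : Finset (ℕ × ℕ), W = (Finset.range L).image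
      fun s => ((k, τ k (S^[m + s] y)) : ℕ × ℕ) := ⟨_, rfl⟩
  obtain ⟨h, hh⟩ : ∃ h : ℕ × ℕ → Bool → ℂ, ∀ i z, h i z =
      if z then ee ((b : ℝ) / (p : ℝ) ^ (τ k y - i.2 + 1)) else 1 := ⟨_, fun i z => rfl⟩
  have hhs : ∀ s ∈ Finset.range L, ∀ z, h (k, τ k (S^[m + s] y)) z =
      if z then ee ((b : ℝ) / (p : ℝ) ^ (m + s + 1)) else 1 := by
    intro s hs z
    have hs1 := Finset.mem_range.1 hs
    have h3 := hclk (m + s) (by omega)
    rw [hh]
    have h4 : τ k y - (k, τ k (S^[m + s] y)).2 + 1 = m + s + 1 := by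
      simp only
      omega
    rw [h4]
  obtain ⟨H, hH⟩ : ∃ H : Om → ℂ, ∀ D, H D = (fourier b : C(UnitAddCircle, ℂ)) x *
      ee (b * (FOU_rest p S τ k M L m D y).toReal) := ⟨_, fun D => rfl⟩
  have hHm : Measurable H := by
    have : H = fun D => (fourier b : C(UnitAddCircle, ℂ)) x *
      ee (b * (FOU_rest p S τ k M L m D y).toReal) := funext hH
    rw [this]
    refine measurable_const.mul ?_
    exact continuous_ee.measurable.comp
      (measurable_const.mul (FOU_meas_rest p S τ k M L m y).ennreal_toReal)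
  have hHn : ∀ D, ‖H D‖ = 1 := by
    intro D
    rw [hH, norm_mul, fourier_norm, norm_ee, one_mul]
  have key := hRES ε W h H hHm (fun D => (hHn D).le) (by
    intro i hi D z
    rw [hW, Finset.mem_image] at hi
    obtain ⟨s, hs, rfl⟩ := hi
    rw [hH, hH, FOU_rest_upd p S τ k M L m y hclk hL s (Finset.mem_range.1 hs)])
  -- the product over the window
  have hprod : ∀ D : Om, ∏ i ∈ W, h i (D i) =
      ee (b * (∑ s ∈ Finset.range L, tm p S τ D y (k, m + s)).toReal) := by
    intro D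
    rw [hW, Finset.prod_image (fun s hs s' hs' he => hinj s hs s' hs' he)]
    rw [ENNReal.toReal_sum (fun s _ => ?_), Finset.mul_sum, ee_sum]
    · refine Finset.prod_congr rfl fun s hs => ?_
      rw [hhs s hs, FOU_tm_real]
      by_cases hD : D (k, τ k (S^[m + s] y)) = true
      · rw [if_pos hD, if_pos hD]
        congr 1
        ring
      · rw [if_neg hD, if_neg hD, mul_zero, ee_zero]
    · refine ne_top_of_le_ne_top ?_ (tm_le p S τ D y _)
      rw [ENNReal.inv_ne_top]
      exact pow_ne_zero _ (by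
        have : p ≠ 0 := by omega
        exact_mod_cast this)
  have hfac : ‖∏ i ∈ W, (((1 - (ε i.1 : ℝ) : ℝ) : ℂ) * h i false +
      ((ε i.1 : ℝ) : ℂ) * h i true)‖ = Ps (ε k) p L m b := by
    rw [hW, Finset.prod_image (fun s hs s' hs' he => hinj s hs s' hs' he), norm_prod]
    unfold Ps
    refine Finset.prod_congr rfl fun s hs => ?_
    rw [hhs s hs, hhs s hs]
    unfold ph
    simp
  have hmeasprod : Measurable fun D : Om => ∏ i ∈ W, h i (D i) := by
    refine Finset.measurable_prod _ fun i _ => ?_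
    exact (measurable_of_finite (h i)).comp (measurable_pi_apply i)
  have hprodn : ∀ D : Om, ‖∏ i ∈ W, h i (D i)‖ = 1 := by
    intro D
    rw [hprod, norm_ee]
  have hG1int : Integrable (fun D : Om => (∏ i ∈ W, h i (D i)) * H D) (PP ε) := by
    refine Integrable.of_bound (hmeasprod.mul hHm).aestronglyMeasurable 1
      (Filter.Eventually.of_forall fun D => ?_)
    rw [norm_mul, hprodn, hHn, one_mul]
  have hFm : Measurable fun D : Om => (fourier b : C(UnitAddCircle, ℂ)) (x + GC p S τ D y) := by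
    refine (map_continuous (fourier b : C(UnitAddCircle, ℂ))).measurable.comp ?_
    exact (meas_GC_left p S τ y).const_add x
  have hFint : Integrable
      (fun D : Om => (fourier b : C(UnitAddCircle, ℂ)) (x + GC p S τ D y)) (PP ε) := by
    refine Integrable.of_bound hFm.aestronglyMeasurable 1
      (Filter.Eventually.of_forall fun D => ?_)
    exact (fourier_norm b _).le
  have hdiff : ∀ᵐ D ∂PP ε, ‖(fourier b : C(UnitAddCircle, ℂ)) (x + GC p S τ D y) -
      (∏ i ∈ W, h i (D i)) * H D‖ ≤ 2 * Real.pi * |(b : ℝ)| / (p : ℝ) ^ M := by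
    filter_upwards [hfin] with D hD
    have hsp := FOU_split p S τ k M L m D y hL
    have hne : (∑ s ∈ Finset.range L, tm p S τ D y (k, m + s)) +
      FOU_rest p S τ k M L m D y + FOU_far p S τ k M D y ≠ ⊤ := by
      rw [← hsp]
      exact hD
    have hf : FOU_far p S τ k M D y ≠ ⊤ := fun h0 => hne (by rw [h0]; simp)
    have hr : FOU_rest p S τ k M L m D y ≠ ⊤ := fun h0 => hne (by rw [h0]; simp)
    have ha : ∑ s ∈ Finset.range L, tm p S τ D y (k, m + s) ≠ ⊤ :=
      fun h0 => hne (by rw [h0]; simp)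
    have hGR : GR p S τ D y = (∑ s ∈ Finset.range L, tm p S τ D y (k, m + s)).toReal +
        (FOU_rest p S τ k M L m D y).toReal + (FOU_far p S τ k M D y).toReal := by
      unfold GR
      rw [hsp, ENNReal.toReal_add (ENNReal.add_ne_top.2 ⟨ha, hr⟩) hf, ENNReal.toReal_add ha hr]
    have hfar : (FOU_far p S τ k M D y).toReal ≤ 1 / (p : ℝ) ^ M := by
      have h1 := ENNReal.toReal_mono (by
        rw [ENNReal.inv_ne_top]
        exact pow_ne_zero _ (by
          have : p ≠ 0 := by omega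
          exact_mod_cast this)) (FOU_far_le p S τ k M D y hp)
      rw [ENNReal.toReal_inv, ENNReal.toReal_pow, ENNReal.toReal_natCast] at h1
      rwa [one_div]
    have hfar0 : 0 ≤ (FOU_far p S τ k M D y).toReal := ENNReal.toReal_nonneg
    have hF : (fourier b : C(UnitAddCircle, ℂ)) (x + GC p S τ D y) =
        (fourier b : C(UnitAddCircle, ℂ)) x * ee (b * GR p S τ D y) := by
      rw [fourier_add_pt]
      unfold GC
      rw [fourier_coe]
    have hG : (∏ i ∈ W, h i (D i)) * H D = (fourier b : C(UnitAddCircle, ℂ)) x *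
        ee (b * ((∑ s ∈ Finset.range L, tm p S τ D y (k, m + s)).toReal +
          (FOU_rest p S τ k M L m D y).toReal)) := by
      rw [hprod, hH, mul_add, ee_add]
      ring
    rw [hF, hG, ← mul_sub, norm_mul, fourier_norm, one_mul]
    refine (ee_lip _ _).trans ?_
    have h5 : (b : ℝ) * GR p S τ D y -
        b * ((∑ s ∈ Finset.range L, tm p S τ D y (k, m + s)).toReal +
          (FOU_rest p S τ k M L m D y).toReal) = b * (FOU_far p S τ k M D y).toReal := by
      rw [hGR]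
      ring
    rw [h5, abs_mul, abs_of_nonneg hfar0]
    calc 2 * Real.pi * (|(b : ℝ)| * (FOU_far p S τ k M D y).toReal) ≤
        2 * Real.pi * (|(b : ℝ)| * (1 / (p : ℝ) ^ M)) := by
          have : 0 ≤ |(b : ℝ)| := abs_nonneg _
          have := Real.pi_pos
          gcongr
      _ = 2 * Real.pi * |(b : ℝ)| / (p : ℝ) ^ M := by ring
  have hsub : ∫ D, (fourier b : C(UnitAddCircle, ℂ)) (x + GC p S τ D y) ∂PP ε =
      ∫ D, (∏ i ∈ W, h i (D i)) * H D ∂PP ε +
        ∫ D, ((fourier b : C(UnitAddCircle, ℂ)) (x + GC p S τ D y) -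
          (∏ i ∈ W, h i (D i)) * H D) ∂PP ε := by
    rw [integral_sub hFint hG1int]
    ring
  rw [hsub]
  refine (norm_add_le _ _).trans (add_le_add ?_ ?_)
  · rw [key, norm_mul, hfac]
    have h6 : ‖∫ D, H D ∂PP ε‖ ≤ 1 := by
      refine (norm_integral_le_of_norm_le_const (C := 1)
        (Filter.Eventually.of_forall fun D => (hHn D).le)).trans ?_
      simp
    calc Ps (ε k) p L m b * ‖∫ D, H D ∂PP ε‖ ≤ Ps (ε k) p L m b * 1 :=
          mul_le_mul_of_nonneg_left h6 (Ps_nonneg _ _ _ _ _)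
      _ = _ := mul_one _
  · refine (norm_integral_le_of_norm_le_const hdiff).trans ?_
    simp

end

end Pool.Agent.LYN
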