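import Pool.Agent.LYN.Main
import Pool.Agent.LYN.All2
import Pool.Agent.LYN.P_FOU
import Pool.Agent.LYN.P_SEC
import Pool.Agent.LYN.P_SUM
import Pool.Agent.LYN.P_CLK
import Pool.Agent.LYN.P_PTW

set_option autoImplicit false

/-!
# LYN, part 1: almost every perturbation
-/

open MeasureTheory Filter Topology
open scoped ENNReal

namespace Pool.Agent.LYN

noncomputable section

theorem c_FOU : T_FOU := p_FOU p_RES
theorem c_SEC : T_SEC := p_SEC c_PAIR c_FOU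
theorem c_PTW : T_PTW := p_PTW p_DEC c_SEC p_NE p_DEL p_POW p_SUM

/-- almost every perturbation, for aperiodic systems -/
theorem U_prev (p : ℕ) (hp : 2 ≤ p) (Y : Type) [MeasurableSpace Y]
    [MeasurableSpace.CountablySeparated Y] (ν : Measure Y) [IsProbabilityMeasure ν] (S : Y → Y)
    (hS : MeasurePreserving S ν ν) (hper : ∀ᵐ y ∂ν, ∀ n : ℕ, 0 < n → S^[n] y ≠ y)
    (δ : ℝ) (hδ : 0 < δ) :
    ∃ (Ω : Type) (_ : MeasurableSpace Ω) (P : Measure Ω) (g : Ω → Y → UnitAddCircle),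
      IsProbabilityMeasure P ∧ Measurable (fun z : Ω × Y => g z.1 z.2) ∧
      (∀ ω, (∀ᵐ y ∂ν, g ω (S y) = p • g ω y) ∧ ∫ y, ‖g ω y‖ ∂ν ≤ δ) ∧
      ∀ f : Y → UnitAddCircle, Measurable f → ∀ᵐ ω ∂P,
        (∀ᵐ x ∂ν.map (fun y => f y + g ω y), AllNrm p x) ∧
        ((∀ᵐ y ∂ν, f (S y) = p • f y) →
          (∀ x, ν.map (fun y => f y + g ω y) {x} = 0) ∧
          (ν.map (fun y => f y + g ω y)).map (fun x => p • x) =
            ν.map (fun y => f y + g ω y)) :=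
  main p_NM p_NQ p_NE p_CLK c_PTW p_ATM p_MSB p hp Y ν S hS
    (fun δ hδ => p_APR Y ν S hS hper δ hδ) δ hδ

end

end Pool.Agent.LYN
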