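import Pool.Agent.LYN.Basic

set_option autoImplicit false

/-!
# LYN, part 3 (Host's criterion with finite windows): base `p` intervals
-/

open MeasureTheory Filter Topology
open scoped ENNReal

namespace Pool.Agent.LYN

noncomputable section

/-- the image in the circle of the interval `[u / p ^ m, (u + 1) / p ^ m)` -/
def arc (p m u : ℕ) : Set UnitAddCircle :=
  (fun t : ℝ => (t : UnitAddCircle)) '' Set.Ico ((u : ℝ) / (p : ℝ) ^ m) (((u : ℝ) + 1) / (p : ℝ) ^ m)

/-- the representative in `[0, 1)` -/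
def rp (x : UnitAddCircle) : ℝ := ((AddCircle.equivIco (1 : ℝ) 0 x : Set.Ico (0 : ℝ) (0 + 1)) : ℝ)

/-- the index of the interval of order `m` containing `x` -/
def ix (p m : ℕ) (x : UnitAddCircle) : ℕ := ⌊(p : ℝ) ^ m * rp x⌋₊

lemma rp_nonneg (x : UnitAddCircle) : 0 ≤ rp x := (AddCircle.equivIco (1 : ℝ) 0 x).2.1

lemma rp_lt (x : UnitAddCircle) : rp x < 1 := by
  have h : rp x < 0 + 1 := (AddCircle.equivIco (1 : ℝ) 0 x).2.2
  linarith

lemma rp_coe (x : UnitAddCircle) : ((rp x : ℝ) : UnitAddCircle) = x :=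
  AddCircle.coe_equivIco

lemma meas_rp : Measurable rp :=
  measurable_subtype_coe.comp (AddCircle.measurableEquivIco (1 : ℝ) 0).measurable

lemma meas_ix (p m : ℕ) : Measurable (ix p m) :=
  Nat.measurable_floor.comp (measurable_const.mul meas_rp)

lemma ix_lt (p m : ℕ) (hp : 1 ≤ p) (x : UnitAddCircle) : ix p m x < p ^ m := by
  have hp' : (0 : ℝ) < (p : ℝ) ^ m := by
    have : (0 : ℝ) < p := by exact_mod_cast hp
    positivity
  unfold ix
  rw [Nat.floor_lt (mul_nonneg hp'.le (rp_nonneg x))]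
  push_cast
  calc (p : ℝ) ^ m * rp x < (p : ℝ) ^ m * 1 := mul_lt_mul_of_pos_left (rp_lt x) hp'
    _ = _ := mul_one _

lemma mem_arc (p m u : ℕ) (hp : 1 ≤ p) (x : UnitAddCircle) :
    x ∈ arc p m u ↔ ix p m x = u % p ^ m := by
  have hpp : 0 < p ^ m := by positivity
  have hp' : (0 : ℝ) < (p : ℝ) ^ m := by
    have : (0 : ℝ) < p := by exact_mod_cast hp
    positivity
  constructor
  · rintro ⟨t, ⟨ht1, ht2⟩, rfl⟩
    rw [div_le_iff₀ hp'] at ht1
    rw [lt_div_iff₀ hp'] at ht2
    have ht0 : 0 ≤ t := by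
      by_contra hc
      have h1 : t * (p : ℝ) ^ m < 0 := mul_neg_of_neg_of_pos (not_le.1 hc) hp'
      have h2 : (0 : ℝ) ≤ u := Nat.cast_nonneg u
      linarith
    -- the integer part
    obtain ⟨k, hk⟩ : ∃ k : ℤ, t - rp (t : UnitAddCircle) = k := by
      have h1 : ((t - rp (t : UnitAddCircle) : ℝ) : UnitAddCircle) = 0 := by
        rw [AddCircle.coe_sub, rp_coe, sub_self]
      rw [AddCircle.coe_eq_zero_iff] at h1
      obtain ⟨k, hk⟩ := h1
      refine ⟨k, ?_⟩
      rw [← hk]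
      simp
    have hr0 := rp_nonneg (t : UnitAddCircle)
    have hr1 := rp_lt (t : UnitAddCircle)
    have hk0 : 0 ≤ k := by
      have h1 : (-1 : ℝ) < k := by rw [← hk]; linarith
      have h2 : (-1 : ℤ) < k := by exact_mod_cast h1
      omega
    obtain ⟨l, rfl⟩ := Int.eq_ofNat_of_zero_le hk0
    have hk' : t = rp (t : UnitAddCircle) + l := by
      have : ((l : ℤ) : ℝ) = l := by simp
      rw [this] at hk
      linarith
    have hi := ix_lt p m hp (t : UnitAddCircle)
    -- the floor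
    have hfl : ix p m (t : UnitAddCircle) + l * p ^ m = u := by
      have h1 : ix p m (t : UnitAddCircle) ≤ (p : ℝ) ^ m * rp (t : UnitAddCircle) :=
        Nat.floor_le (mul_nonneg hp'.le hr0)
      have h2 : (p : ℝ) ^ m * rp (t : UnitAddCircle) < ix p m (t : UnitAddCircle) + 1 :=
        Nat.lt_floor_add_one _
      have h3 : t * (p : ℝ) ^ m = (p : ℝ) ^ m * rp (t : UnitAddCircle) + l * (p : ℝ) ^ m := by
        conv_lhs => rw [hk']
        ring
      have h4 : ((ix p m (t : UnitAddCircle) + l * p ^ m : ℕ) : ℝ) < (u : ℝ) + 1 := by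
        push_cast
        linarith
      have h5 : (u : ℝ) < ((ix p m (t : UnitAddCircle) + l * p ^ m : ℕ) : ℝ) + 1 := by
        push_cast
        linarith
      have h6 : ix p m (t : UnitAddCircle) + l * p ^ m < u + 1 := by exact_mod_cast h4
      have h7 : u < ix p m (t : UnitAddCircle) + l * p ^ m + 1 := by exact_mod_cast h5
      omega
    rw [← hfl, Nat.add_mul_mod_self_right, Nat.mod_eq_of_lt hi]
  · intro h
    refine ⟨rp x + (u / p ^ m : ℕ), ⟨?_, ?_⟩, ?_⟩
    · rw [div_le_iff₀ hp']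
      have h1 : ((ix p m x : ℕ) : ℝ) ≤ (p : ℝ) ^ m * rp x :=
        Nat.floor_le (mul_nonneg hp'.le (rp_nonneg x))
      have h2 : u = u % p ^ m + p ^ m * (u / p ^ m) := (Nat.mod_add_div u (p ^ m)).symm
      have h3 : (u : ℝ) = ix p m x + (p : ℝ) ^ m * ((u / p ^ m : ℕ) : ℝ) := by
        conv_lhs => rw [h2, ← h]
        push_cast
        rfl
      rw [h3]
      linarith
    · rw [lt_div_iff₀ hp']
      have h1 : (p : ℝ) ^ m * rp x < ((ix p m x : ℕ) : ℝ) + 1 := Nat.lt_floor_add_one _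
      have h2 : u = u % p ^ m + p ^ m * (u / p ^ m) := (Nat.mod_add_div u (p ^ m)).symm
      have h3 : (u : ℝ) = ix p m x + (p : ℝ) ^ m * ((u / p ^ m : ℕ) : ℝ) := by
        conv_lhs => rw [h2, ← h]
        push_cast
        rfl
      rw [h3]
      linarith
    · show ((rp x + ((u / p ^ m : ℕ) : ℝ) : ℝ) : UnitAddCircle) = x
      rw [AddCircle.coe_add, rp_coe]
      have : ∀ l : ℕ, (((l : ℝ)) : UnitAddCircle) = 0 := by
        intro l
        rw [AddCircle.coe_eq_zero_iff]
        exact ⟨l, by simp⟩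
      rw [this, add_zero]

lemma meas_arc (p m u : ℕ) (hp : 1 ≤ p) : MeasurableSet (arc p m u) := by
  have : arc p m u = ix p m ⁻¹' {u % p ^ m} := by
    ext x
    rw [mem_arc p m u hp x]
    rfl
  rw [this]
  exact meas_ix p m (measurableSet_singleton _)

/-- `x` is close to the left end point of its interval -/
lemma ix_near (p m : ℕ) (hp : 1 ≤ p) (x : UnitAddCircle) : ∃ s : ℝ, |s| ≤ 1 / (p : ℝ) ^ m ∧
    x = ((((ix p m x : ℕ) : ℝ) / (p : ℝ) ^ m : ℝ) : UnitAddCircle) + (s : UnitAddCircle) := by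
  have hp' : (0 : ℝ) < (p : ℝ) ^ m := by
    have : (0 : ℝ) < p := by exact_mod_cast hp
    positivity
  have h1 : ((ix p m x : ℕ) : ℝ) ≤ (p : ℝ) ^ m * rp x :=
    Nat.floor_le (mul_nonneg hp'.le (rp_nonneg x))
  have h2 : (p : ℝ) ^ m * rp x < ((ix p m x : ℕ) : ℝ) + 1 := Nat.lt_floor_add_one _
  refine ⟨rp x - ((ix p m x : ℕ) : ℝ) / (p : ℝ) ^ m, ?_, ?_⟩
  · have h3 : 0 ≤ rp x - ((ix p m x : ℕ) : ℝ) / (p : ℝ) ^ m := by
      rw [sub_nonneg, div_le_iff₀ hp']
      linarith
    rw [abs_of_nonneg h3, sub_le_iff_le_add, ← add_div, le_div_iff₀ hp']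
    linarith
  · rw [← AddCircle.coe_add]
    have : ((ix p m x : ℕ) : ℝ) / (p : ℝ) ^ m + (rp x - ((ix p m x : ℕ) : ℝ) / (p : ℝ) ^ m) =
        rp x := by ring
    rw [this, rp_coe]

lemma ix_rep (p m : ℕ) (hp : 1 ≤ p) (G : ℕ → ℝ) (x : UnitAddCircle) : G (ix p m x) =
      ∑ u ∈ Finset.range (p ^ m), (arc p m u).indicator (fun _ => G u) x := by
  rw [Finset.sum_eq_single (ix p m x)]
  · rw [Set.indicator_of_mem]
    rw [mem_arc p m _ hp, Nat.mod_eq_of_lt (ix_lt p m hp x)]
  · intro u hu hne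
    rw [Set.indicator_of_notMem]
    rw [mem_arc p m _ hp, Nat.mod_eq_of_lt (Finset.mem_range.1 hu)]
    exact fun h => hne h.symm
  · intro hx
    exact absurd (Finset.mem_range.2 (ix_lt p m hp x)) hx

lemma integrable_ix (μ : Measure UnitAddCircle) [IsProbabilityMeasure μ] (p m : ℕ) (hp : 1 ≤ p)
    (G : ℕ → ℝ) : Integrable (fun x => G (ix p m x)) μ := by
  simp only [ix_rep p m hp G]
  exact integrable_finsetSum _ fun u _ => (integrable_const (G u)).indicator (meas_arc p m u hp)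

/-- integrals of functions of the index -/
lemma int_ix (μ : Measure UnitAddCircle) [IsProbabilityMeasure μ] (p m : ℕ) (hp : 1 ≤ p)
    (G : ℕ → ℝ) : ∫ x, G (ix p m x) ∂μ =
      ∑ u ∈ Finset.range (p ^ m), μ.real (arc p m u) * G u := by
  simp only [ix_rep p m hp G]
  rw [integral_finsetSum _ fun u _ => (integrable_const (G u)).indicator (meas_arc p m u hp)]
  refine Finset.sum_congr rfl fun u _ => ?_
  rw [integral_indicator_const _ (meas_arc p m u hp), smul_eq_mul]

/-- sums of periodic functions over shifted periods -/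
lemma sum_shift (P : ℕ) (F : ℕ → ℝ) (hF : ∀ u, F (u + P) = F u) (c : ℕ) :
    ∑ u ∈ Finset.range P, F (u + c) = ∑ u ∈ Finset.range P, F u := by
  induction c with
  | zero => simp
  | succ c ih =>
    rw [← ih]
    have h1 : ∑ u ∈ Finset.range P, F (u + (c + 1)) + F c =
        ∑ u ∈ Finset.range P, F (u + c) + F (P + c) := by
      have h2 := Finset.sum_range_succ (fun u => F (u + c)) P
      have h3 := Finset.sum_range_succ' (fun u => F (u + c)) P
      rw [h2] at h3
      rw [zero_add] at h3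
      rw [h3]
      congr 1
      refine Finset.sum_congr rfl fun u _ => ?_
      congr 1
      ring
    have h4 : F (P + c) = F c := by rw [add_comm, hF]
    linarith

lemma arc_per (p m u : ℕ) (hp : 1 ≤ p) : arc p m (u + p ^ m) = arc p m u := by
  ext x
  rw [mem_arc p m _ hp, mem_arc p m _ hp, Nat.add_mod_right]

end

end Pool.Agent.LYN
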