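import Pool.Agent.LYN.A_FOX
import Pool.Agent.LYN.A_PTW
import Pool.Agent.LYN.All1
import Pool.Agent.LYN.Host2

set_option autoImplicit false

/-!
# LYN, part 4: realization
-/

open MeasureTheory Filter Topology
open scoped ENNReal

namespace Pool.Agent.LYN

noncomputable section

theorem realize (p r : ℕ) (hp : 2 ≤ p) (hr : 2 * r ≤ p) (Y : Type) [MeasurableSpace Y]
    [MeasurableSpace.CountablySeparated Y] (ν : Measure Y) [IsProbabilityMeasure ν] (S : Y → Y)
    (hS : MeasurePreserving S ν ν) (hper : ∀ᵐ y ∂ν, ∀ n : ℕ, 0 < n → S^[n] y ≠ y)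
    (α : Y → ℕ) (hα : Measurable α) (hαr : ∀ y, α y < r) (Y₀ : Set Y)
    (hY₀m : MeasurableSet Y₀) (hY₀ : ∀ᵐ y ∂ν, y ∈ Y₀)
    (hgen : ∀ y ∈ Y₀, ∀ y' ∈ Y₀, (∀ t, α (S^[t] y) = α (S^[t] y')) → y = y') :
    ∃ φ : Y → UnitAddCircle, Measurable φ ∧ (∀ y, φ (S y) = p • φ y) ∧
      (∃ Y₁ ⊆ Y₀, MeasurableSet Y₁ ∧ (∀ᵐ y ∂ν, y ∈ Y₁) ∧ Set.InjOn φ Y₁) ∧
      (∀ x, ν.map φ {x} = 0) ∧ (ν.map φ).map (fun x => p • x) = ν.map φ ∧
      ∀ᵐ x ∂ν.map φ, AllNrm p x := by
  let ε : ℕ → unitInterval := fun k => ⟨1 / 2 ^ (k + 2), by positivity, by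
    rw [div_le_one (by positivity)]
    exact one_le_pow₀ (by norm_num)⟩
  have hε : ∀ k, (ε k : ℝ) = 1 / 2 ^ (k + 2) := fun k => rfl
  have hεs : Summable fun k => (ε k : ℝ) := by
    have h1 : (fun k : ℕ => (ε k : ℝ)) = fun k : ℕ => 1 / 4 * (1 / 2) ^ k := by
      funext k
      rw [hε, pow_add, div_pow, one_pow]
      field_simp
      norm_num
    rw [h1]
    exact (summable_geometric_of_lt_one (by norm_num) (by norm_num)).mul_left _
  obtain ⟨τ, hτm, hτ⟩ := p_CLK Y ν S (fun k => (k + 1) * p ^ 4 ^ (k + 1)) inferInstance hS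
    (fun δ hδ => p_APR Y ν S hS hper δ hδ)
  have hXm : Measurable fun z : Om × Y => XC p α S τ z.1 z.2 :=
    XC_meas p α S τ hα hS.measurable hτm
  have hset : MeasurableSet {z : Om × Y | AllNrm p (XC p α S τ z.1 z.2)} :=
    p_MSB (Om × Y) _ p hXm
  have h1 : ∀ᵐ y ∂ν, ∀ᵐ D ∂PP ε, AllNrm p (XC p α S τ D y) := by
    filter_upwards [hτ] with y hy
    exact ptwA p_DEC c_PAIR p_DEL p_POW p_SUM Om (PP ε) (fun D => XC p α S τ D y)
      (XC_meas_left p α S τ y) p (fun k => (ε k : ℝ)) 1 hp one_pos le_rfl hε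
      (hy.mono fun k hk => fox p_RES p_PH p r hp hr α hαr S τ ε hεs y k _ hk)
  have h2 : ∀ᵐ D ∂PP ε, ∀ᵐ y ∂ν, AllNrm p (XC p α S τ D y) :=
    (Measure.ae_ae_comm hset).2 h1
  obtain ⟨D, hD⟩ := h2.exists
  set φ : Y → UnitAddCircle := XC p α S τ D with hφ
  have hφm : Measurable φ := hXm.comp measurable_prodMk_left
  have hdg : ∀ y t, dg α S τ D y t < p := fun y t => (dg_lt α S τ D y t r hαr).trans_le hr
  have heq : ∀ y, φ (S y) = p • φ y := by
    intro y
    simp only [hφ]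
    unfold XC XR'
    rw [Dg_nsmul p hp _ (hdg y)]
    rfl
  have heqn : ∀ n y, φ (S^[n] y) = (p ^ n) • φ y := by
    intro n
    induction n with
    | zero => simp
    | succ n ih =>
      intro y
      rw [Function.iterate_succ_apply', heq, ih, pow_succ, mul_comm, mul_smul]
  obtain ⟨h3, h4⟩ := M_law p_ATM p_MSB p hp Y ν S hS φ hφm hD
  obtain ⟨h5, h6⟩ := h4 (ae_of_all _ heq)
  refine ⟨φ, hφm, heq, ⟨Y₀ ∩ ⋂ n : ℕ, {y | (p ^ n) • φ y ≠ 0}, Set.inter_subset_left, ?_, ?_,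
    ?_⟩, h5, h6, h3⟩
  · refine hY₀m.inter (MeasurableSet.iInter fun n => ?_)
    have hm : Measurable fun y => (p ^ n) • φ y := (continuous_nsmul (p ^ n)).measurable.comp hφm
    exact (hm (measurableSet_singleton 0)).compl
  · have h7 : ∀ᵐ y ∂ν, ∀ n : ℕ, (p ^ n) • φ y ≠ 0 := by
      rw [ae_all_iff]
      intro n
      have h8 : ν {y | φ y = 0} = 0 := by
        have h9 := h5 0
        rw [Measure.map_apply hφm (measurableSet_singleton 0)] at h9
        exact h9
      have h9 : ν (S^[n] ⁻¹' {y | φ y = 0}) = 0 := by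
        rw [(hS.iterate n).measure_preimage (s := {y | φ y = 0})
          (hφm (measurableSet_singleton 0)).nullMeasurableSet]
        exact h8
      filter_upwards [measure_eq_zero_iff_ae_notMem.1 h9] with y hy h10
      apply hy
      show φ (S^[n] y) = 0
      rw [heqn]
      exact h10
    filter_upwards [hY₀, h7] with y hy hy'
    exact ⟨hy, Set.mem_iInter.2 hy'⟩
  · rintro y ⟨hy, hy0⟩ y' ⟨hy', -⟩ he
    refine hgen y hy y' hy' fun t => ?_
    have h7 : dg α S τ D y = dg α S τ D y' :=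
      Dg_inj p hp _ _ (hdg y) (hdg y') (fun n => Set.mem_iInter.1 hy0 n) he
    have h8 := congrFun h7 t
    unfold dg at h8
    have h9 := Bool.toNat_le (bb τ D (S^[t] y))
    have h10 := Bool.toNat_le (bb τ D (S^[t] y'))
    omega

/-! ### Invariant measures on the circle -/

lemma rp_real (t : ℝ) : rp (t : UnitAddCircle) = Int.fract t := by
  unfold rp
  have h := AddCircle.coe_equivIco_mk_apply (1 : ℝ) t
  rw [div_one, mul_one] at h
  exact h

lemma rp_step (r : ℕ) (x : UnitAddCircle) : (r : ℝ) * rp x = ix r 1 x + rp (r • x) := by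
  have h1 : r • x = (((r : ℝ) * rp x : ℝ) : UnitAddCircle) := by
    rw [← nsmul_eq_mul, AddCircle.coe_nsmul, rp_coe]
  rw [h1, rp_real]
  unfold ix
  rw [pow_one]
  have h2 : (0 : ℝ) ≤ (r : ℝ) * rp x := mul_nonneg (Nat.cast_nonneg _) (rp_nonneg x)
  have h3 : ((⌊(r : ℝ) * rp x⌋₊ : ℕ) : ℝ) = ((⌊(r : ℝ) * rp x⌋ : ℤ) : ℝ) := by
    rw [natCast_floor_eq_intCast_floor h2]
  rw [h3, Int.floor_add_fract]

lemma rp_iter (r : ℕ) (x x' : UnitAddCircle)
    (h : ∀ t, ix r 1 ((fun y : UnitAddCircle => r • y)^[t] x) =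
      ix r 1 ((fun y : UnitAddCircle => r • y)^[t] x')) (n : ℕ) :
    |rp x - rp x'| * (r : ℝ) ^ n ≤ 1 := by
  induction n generalizing x x' with
  | zero =>
    rw [pow_zero, mul_one, abs_le]
    have h1 := rp_nonneg x
    have h2 := rp_lt x
    have h3 := rp_nonneg x'
    have h4 := rp_lt x'
    constructor <;> linarith
  | succ n ih =>
    have h1 := ih (r • x) (r • x') fun t => by
      have := h (t + 1)
      rwa [Function.iterate_succ_apply, Function.iterate_succ_apply] at this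
    have h2 := rp_step r x
    have h3 := rp_step r x'
    have h4 := h 0
    simp only [Function.iterate_zero, id] at h4
    have h5 : (r : ℝ) * (rp x - rp x') = rp (r • x) - rp (r • x') := by
      rw [mul_sub, h2, h3, h4]
      ring
    have h6 : (0 : ℝ) ≤ r := Nat.cast_nonneg r
    rw [← h5, abs_mul, abs_of_nonneg h6] at h1
    calc |rp x - rp x'| * (r : ℝ) ^ (n + 1) = (r : ℝ) * |rp x - rp x'| * (r : ℝ) ^ n := by ring
      _ ≤ 1 := h1

/-- every continuous `×r`-invariant measure is isomorphic to a good one for `×p`, `2 r ≤ p` -/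
theorem realizeT (p r : ℕ) (hr2 : 2 ≤ r) (hr : 2 * r ≤ p) (μ₀ : Measure UnitAddCircle)
    [IsProbabilityMeasure μ₀] (h0 : ∀ x, μ₀ {x} = 0)
    (hinv : μ₀.map (fun x : UnitAddCircle => r • x) = μ₀) :
    ∃ φ : UnitAddCircle → UnitAddCircle, Measurable φ ∧ (∀ y, φ (r • y) = p • φ y) ∧
      (∃ Y₁, MeasurableSet Y₁ ∧ (∀ᵐ y ∂μ₀, y ∈ Y₁) ∧ Set.InjOn φ Y₁) ∧
      (∀ x, μ₀.map φ {x} = 0) ∧ (μ₀.map φ).map (fun x => p • x) = μ₀.map φ ∧
      ∀ᵐ x ∂μ₀.map φ, AllNrm p x := by
  have hmp : MeasurePreserving (fun x : UnitAddCircle => r • x) μ₀ μ₀ :=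
    ⟨(continuous_nsmul r).measurable, hinv⟩
  have hit : ∀ (n : ℕ) (y : UnitAddCircle),
      (fun x : UnitAddCircle => r • x)^[n] y = (r ^ n) • y := by
    intro n y
    induction n with
    | zero => simp
    | succ n ih => rw [Function.iterate_succ_apply', ih, pow_succ, mul_comm, mul_smul]
  have hper : ∀ᵐ y ∂μ₀, ∀ n : ℕ, 0 < n → (fun x : UnitAddCircle => r • x)^[n] y ≠ y := by
    rw [ae_all_iff]
    intro n
    by_cases hn : 0 < n
    · have h1 : 0 < r ^ n - 1 := by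
        have : 1 < r ^ n := Nat.one_lt_pow hn.ne' (by omega)
        omega
      have h2 : {y : UnitAddCircle | (r ^ n - 1) • y = 0}.Finite :=
        AddCircle.finite_torsion (1 : ℝ) h1
      have h3 : μ₀ {y : UnitAddCircle | (r ^ n - 1) • y = 0} = 0 := by
        have : NullSingletonClass μ₀ := ⟨h0⟩
        exact h2.measure_zero μ₀
      filter_upwards [measure_eq_zero_iff_ae_notMem.1 h3] with y hy _ h4
      apply hy
      rw [hit] at h4
      have h5 : (r ^ n - 1) • y + y = y := by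
        calc (r ^ n - 1) • y + y = (r ^ n - 1 + 1) • y := by rw [add_smul, one_smul]
          _ = (r ^ n) • y := by
            congr 1
            omega
          _ = y := h4
      show (r ^ n - 1) • y = 0
      simpa using h5
    · exact ae_of_all _ fun y h => absurd h hn
  obtain ⟨φ, h1, h2, ⟨Y₁, -, h3, h4, h5⟩, h6⟩ := realize p r (by omega) hr UnitAddCircle μ₀
    (fun x => r • x) hmp hper (ix r 1) (meas_ix r 1) (fun y => by
      have := ix_lt r 1 (by omega) y
      rwa [pow_one] at this) Set.univ MeasurableSet.univ (ae_of_all _ fun _ => Set.mem_univ _)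
    (fun y _ y' _ h => by
      have h7 := rp_iter r y y' h
      have h8 : rp y = rp y' := by
        by_contra hne
        have h9 : 0 < |rp y - rp y'| := abs_pos.2 (sub_ne_zero.2 hne)
        have hr1 : (1 : ℝ) < r := by exact_mod_cast (by omega : 1 < r)
        obtain ⟨n, hn⟩ := pow_unbounded_of_one_lt (1 / |rp y - rp y'|) hr1
        rw [div_lt_iff₀ h9] at hn
        have := h7 n
        rw [mul_comm] at this
        linarith
      rw [← rp_coe y, ← rp_coe y', h8])
  exact ⟨φ, h1, h2, ⟨Y₁, h3, h4, h5⟩, h6⟩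

end

end Pool.Agent.LYN
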