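import Pool.Agent.LYN.Basic

set_option autoImplicit false

/-!
# LYN, part 4: exclusive or with independent digits
-/

open MeasureTheory Filter Topology
open scoped ENNReal

namespace Pool.Agent.LYN

noncomputable section

lemma XR_prod_meas (u : ℕ → Bool → ℂ) (z : ℕ → Om → Bool) (c : ℕ → ℕ × ℕ) (H : Om → ℂ)
    (hz : ∀ s, Measurable (z s)) (hH : Measurable H) (L : ℕ) :
    Measurable fun D : Om => (∏ s ∈ Finset.range L, u s (xor (D (c s)) (z s D))) * H D := by
  refine Measurable.mul ?_ hH
  refine Finset.measurable_prod _ fun s _ => ?_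
  have h1 : Measurable fun D : Om => (D (c s), z s D) := (measurable_pi_apply _).prodMk (hz s)
  exact (measurable_of_countable fun p : Bool × Bool => u s (xor p.1 p.2)).comp h1

lemma XR_prod_norm (u : ℕ → Bool → ℂ) (z : ℕ → Om → Bool) (c : ℕ → ℕ × ℕ) (H : Om → ℂ) (C : ℝ)
    (hu : ∀ s β, ‖u s β‖ ≤ 1) (hH : ∀ D, ‖H D‖ ≤ C) (L : ℕ) (D : Om) :
    ‖(∏ s ∈ Finset.range L, u s (xor (D (c s)) (z s D))) * H D‖ ≤ C := by
  rw [norm_mul, norm_prod]
  have h1 : ∏ s ∈ Finset.range L, ‖u s (xor (D (c s)) (z s D))‖ ≤ 1 :=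
    Finset.prod_le_one (fun _ _ => norm_nonneg _) fun s _ => hu s _
  have h2 : 0 ≤ ∏ s ∈ Finset.range L, ‖u s (xor (D (c s)) (z s D))‖ :=
    Finset.prod_nonneg fun _ _ => norm_nonneg _
  calc _ ≤ 1 * ‖H D‖ := mul_le_mul_of_nonneg_right h1 (norm_nonneg _)
    _ = ‖H D‖ := one_mul _
    _ ≤ C := hH D

/-- expectation of a product of functions of `D (c s) xor z s` -/
theorem XR (hRES : T_RES) (ε : ℕ → unitInterval) (k : ℕ) (c : ℕ → ℕ × ℕ) (hck : ∀ s, (c s).1 = k)
    (u : ℕ → Bool → ℂ) (z : ℕ → Om → Bool) (ρ : ℕ → ℝ) (hu : ∀ s β, ‖u s β‖ ≤ 1)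
    (hz : ∀ s, Measurable (z s)) (hρ0 : ∀ s, 0 ≤ ρ s) (hρ1 : ∀ s, ρ s ≤ 1)
    (hρ : ∀ s β, ‖((1 - (ε k : ℝ) : ℝ) : ℂ) * u s β + ((ε k : ℝ) : ℂ) * u s (!β)‖ ≤ ρ s) :
    ∀ L : ℕ, (∀ s < L, ∀ s' < L, s ≠ s' → c s ≠ c s') →
    (∀ s < L, ∀ s' < L, ∀ (D : Om) (b : Bool), z s (Function.update D (c s') b) = z s D) →
    ∀ (H : Om → ℂ) (C : ℝ), Measurable H → (∀ D, ‖H D‖ ≤ C) → 0 ≤ C → C ≤ 1 →
    (∀ s < L, ∀ (D : Om) (b : Bool), H (Function.update D (c s) b) = H D) →
    ‖∫ D, (∏ s ∈ Finset.range L, u s (xor (D (c s)) (z s D))) * H D ∂PP ε‖ ≤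
      C * ∏ s ∈ Finset.range L, ρ s := by
  intro L
  induction L with
  | zero =>
    intro _ _ H C _ hH _ _ _
    simp only [Finset.range_zero, Finset.prod_empty, one_mul, mul_one]
    refine (norm_integral_le_of_norm_le_const (C := C) (ae_of_all _ hH)).trans ?_
    simp
  | succ L ih =>
    intro hc hzi H C hHm hH hC0 hC1 hHi
    set G : Om → ℂ := fun D =>
      (∏ s ∈ Finset.range L, u s (xor (D (c s)) (z s D))) * H D with hG
    have hGm : Measurable G := XR_prod_meas u z c H hz hHm L
    have hGn : ∀ D, ‖G D‖ ≤ C := XR_prod_norm u z c H C hu hH L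
    have hGi : ∀ (D : Om) (b : Bool), G (Function.update D (c L) b) = G D := by
      intro D b
      simp only [hG]
      rw [hHi L (Nat.lt_succ_self L)]
      congr 1
      refine Finset.prod_congr rfl fun s hs => ?_
      have hs' := Finset.mem_range.1 hs
      rw [hzi s (by omega) L (by omega), Function.update_of_ne (hc s (by omega) L (by omega)
        (by omega))]
    set F : Bool → Om → ℂ := fun β D => (if z L D = β then 1 else 0) * G D with hF
    have hFm : ∀ β, Measurable (F β) := by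
      intro β
      refine Measurable.mul ?_ hGm
      refine Measurable.ite ?_ measurable_const measurable_const
      exact measurableSet_eq_fun (hz L) measurable_const
    have hFn : ∀ β D, ‖F β D‖ ≤ 1 := by
      intro β D
      simp only [hF]
      split_ifs
      · rw [one_mul]
        exact (hGn D).trans hC1
      · simp
    have hFi : ∀ β, ∀ i ∈ ({c L} : Finset (ℕ × ℕ)), ∀ (D : Om) (b : Bool),
        F β (Function.update D i b) = F β D := by
      intro β i hi D b
      rw [Finset.mem_singleton] at hi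
      subst hi
      simp only [hF]
      rw [hGi, hzi L (Nat.lt_succ_self L) L (Nat.lt_succ_self L)]
    have hres := fun β : Bool => hRES ε {c L} (fun _ b => u L (xor b β)) (F β) (hFm β) (hFn β)
      (hFi β)
    simp only [Finset.prod_singleton, hck] at hres
    have hint : ∀ β : Bool, Integrable (fun D : Om => u L (xor (D (c L)) β) * F β D) (PP ε) := by
      intro β
      refine Integrable.of_bound (C := 1) ?_ (ae_of_all _ fun D => ?_)
      · refine Measurable.aestronglyMeasurable (Measurable.mul ?_ (hFm β))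
        exact (measurable_of_countable fun b : Bool => u L (xor b β)).comp (measurable_pi_apply _)
      · rw [norm_mul]
        exact mul_le_one₀ (hu _ _) (norm_nonneg _) (hFn β D)
    have hFint : ∀ β : Bool, Integrable (F β) (PP ε) := fun β =>
      Integrable.of_bound (hFm β).aestronglyMeasurable 1 (ae_of_all _ (hFn β))
    have hdec : ∀ D : Om, (∏ s ∈ Finset.range (L + 1), u s (xor (D (c s)) (z s D))) * H D =
        u L (xor (D (c L)) false) * F false D + u L (xor (D (c L)) true) * F true D := by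
      intro D
      rw [Finset.prod_range_succ]
      simp only [hF, hG]
      cases z L D <;> simp <;> ring
    have hv : ∀ D : Om, (((1 - (ε k : ℝ) : ℝ) : ℂ) * u L false + ((ε k : ℝ) : ℂ) * u L true) *
          F false D +
        (((1 - (ε k : ℝ) : ℝ) : ℂ) * u L true + ((ε k : ℝ) : ℂ) * u L false) * F true D =
        (∏ s ∈ Finset.range L, u s (xor (D (c s)) (z s D))) *
          (H D * (((1 - (ε k : ℝ) : ℝ) : ℂ) * u L (z L D) +
            ((ε k : ℝ) : ℂ) * u L (!(z L D)))) := by
      intro D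
      simp only [hF, hG]
      cases z L D <;> simp <;> ring
    have hI : ∫ D, (∏ s ∈ Finset.range (L + 1), u s (xor (D (c s)) (z s D))) * H D ∂PP ε =
        ∫ D, (∏ s ∈ Finset.range L, u s (xor (D (c s)) (z s D))) *
          (H D * (((1 - (ε k : ℝ) : ℝ) : ℂ) * u L (z L D) +
            ((ε k : ℝ) : ℂ) * u L (!(z L D)))) ∂PP ε := by
      simp only [hdec, ← hv]
      rw [integral_add (hint false) (hint true), hres false, hres true,
        integral_add ((hFint false).const_mul _) ((hFint true).const_mul _),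
        integral_const_mul, integral_const_mul]
      simp
    rw [hI, Finset.prod_range_succ]
    have hvm : Measurable fun D : Om => (((1 - (ε k : ℝ) : ℝ) : ℂ) * u L (z L D) +
            ((ε k : ℝ) : ℂ) * u L (!(z L D))) :=
      (measurable_of_countable fun b : Bool => (((1 - (ε k : ℝ) : ℝ) : ℂ) * u L b +
            ((ε k : ℝ) : ℂ) * u L (!b))).comp (hz L)
    have h1 := ih (fun s hs s' hs' => hc s (by omega) s' (by omega))
      (fun s hs s' hs' => hzi s (by omega) s' (by omega))
      (fun D => H D * (((1 - (ε k : ℝ) : ℝ) : ℂ) * u L (z L D) +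
            ((ε k : ℝ) : ℂ) * u L (!(z L D)))) (C * ρ L) (hHm.mul hvm)
      (fun D => by
        rw [norm_mul]
        exact mul_le_mul (hH D) (hρ L _) (norm_nonneg _) hC0)
      (mul_nonneg hC0 (hρ0 L)) (mul_le_one₀ hC1 (hρ0 L) (hρ1 L))
      (fun s hs D b => by
        rw [hHi s (by omega), hzi L (Nat.lt_succ_self L) s (by omega)])
    refine h1.trans (le_of_eq ?_)
    ring

end

end Pool.Agent.LYN
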