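import Pool.Agent.LYN.Targets

set_option autoImplicit false

/-!
# LYN: elementary facts used in several targets
-/

open MeasureTheory Filter Topology
open scoped ENNReal

namespace Pool.Agent.LYN

noncomputable section

/-! ### Exponentials -/

lemma ee_add (x y : ℝ) : ee (x + y) = ee x * ee y := by
  unfold ee
  rw [← Complex.exp_add]
  congr 1
  push_cast
  ring

lemma ee_zero : ee 0 = 1 := by simp [ee]

lemma ee_int (n : ℤ) : ee n = 1 := by
  unfold ee
  have : 2 * (Real.pi : ℂ) * Complex.I * ((n : ℝ) : ℂ) = n * (2 * Real.pi * Complex.I) := by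
    push_cast
    ring
  rw [this]
  exact Complex.exp_int_mul_two_pi_mul_I n

lemma ee_add_int (x : ℝ) (n : ℤ) : ee (x + n) = ee x := by rw [ee_add, ee_int, mul_one]

lemma norm_ee (x : ℝ) : ‖ee x‖ = 1 := by
  unfold ee
  have : 2 * (Real.pi : ℂ) * Complex.I * (x : ℂ) = ((2 * Real.pi * x : ℝ) : ℂ) * Complex.I := by
    push_cast
    ring
  rw [this]
  exact Complex.norm_exp_ofReal_mul_I _

lemma ee_sum {ι : Type} (s : Finset ι) (f : ι → ℝ) : ee (∑ i ∈ s, f i) = ∏ i ∈ s, ee (f i) := by
  classical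
  induction s using Finset.induction_on with
  | empty => simp [ee_zero]
  | insert a s ha ih => rw [Finset.sum_insert ha, Finset.prod_insert ha, ee_add, ih]

lemma continuous_ee : Continuous ee := by
  unfold ee
  fun_prop

/-- `e` is Lipschitz -/
lemma ee_lip (x y : ℝ) : ‖ee x - ee y‖ ≤ 2 * Real.pi * |x - y| := by
  have h : ee x - ee y = ee y * (ee (x - y) - 1) := by
    rw [mul_sub, ← ee_add, mul_one]
    congr 2
    ring
  rw [h, norm_mul, norm_ee, one_mul]
  have h2 : ee (x - y) = Complex.exp (Complex.I * ((2 * Real.pi * (x - y) : ℝ) : ℂ)) := by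
    unfold ee
    congr 1
    push_cast
    ring
  rw [h2]
  refine (Real.norm_exp_I_mul_ofReal_sub_one_le).trans ?_
  rw [Real.norm_eq_abs, abs_mul, abs_of_pos Real.two_pi_pos]

lemma fourier_coe (b : ℤ) (g : ℝ) :
    (fourier b : C(UnitAddCircle, ℂ)) (g : UnitAddCircle) = ee (b * g) := by
  rw [fourier_coe_apply]
  unfold ee
  congr 1
  push_cast
  ring

lemma fourier_norm (b : ℤ) (x : UnitAddCircle) : ‖(fourier b : C(UnitAddCircle, ℂ)) x‖ = 1 := by
  rw [fourier_apply]
  exact Circle.norm_coe _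

lemma fourier_add_pt (b : ℤ) (x y : UnitAddCircle) :
    (fourier b : C(UnitAddCircle, ℂ)) (x + y) =
      (fourier b : C(UnitAddCircle, ℂ)) x * (fourier b : C(UnitAddCircle, ℂ)) y := by
  simp only [fourier_apply, smul_add, AddCircle.toCircle_add, Circle.coe_mul]

lemma fourier_nsmul (b : ℤ) (n : ℕ) (x : UnitAddCircle) :
    (fourier b : C(UnitAddCircle, ℂ)) (n • x) =
      (fourier (b * n) : C(UnitAddCircle, ℂ)) x := by
  simp only [fourier_apply]
  rw [mul_smul, natCast_zsmul]

/-- `e(b x) * conj e(c x) = e((b - c) x)` -/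
lemma fourier_mul_conj (b c : ℤ) (x : UnitAddCircle) :
    (fourier b : C(UnitAddCircle, ℂ)) x * (starRingEnd ℂ) ((fourier c : C(UnitAddCircle, ℂ)) x) =
      (fourier (b - c) : C(UnitAddCircle, ℂ)) x := by
  rw [← fourier_neg, sub_eq_add_neg, fourier_add]

/-! ### Averages -/

lemma wav_eq (q : ℕ) (a : ℤ) (x : UnitAddCircle) (N : ℕ) :
    wav q a x N = (1 / (N : ℂ)) * ∑ n ∈ Finset.range N,
      (fourier (a * (q : ℤ) ^ n) : C(UnitAddCircle, ℂ)) x := by
  unfold wav
  congr 1
  refine Finset.sum_congr rfl fun n _ => ?_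
  rw [fourier_nsmul]
  push_cast
  rfl

lemma norm_wav_le (q : ℕ) (a : ℤ) (x : UnitAddCircle) (N : ℕ) : ‖wav q a x N‖ ≤ 1 := by
  unfold wav
  rw [norm_mul, norm_div, norm_one, Complex.norm_natCast]
  have h : ‖∑ n ∈ Finset.range N, (fourier a : C(UnitAddCircle, ℂ)) ((q ^ n) • x)‖ ≤ N := by
    refine (norm_sum_le _ _).trans ?_
    simp
  rcases Nat.eq_zero_or_pos N with rfl | hN
  · simp
  · have hN' : (0 : ℝ) < N := by exact_mod_cast hN
    calc 1 / (N : ℝ) * ‖∑ n ∈ Finset.range N, (fourier a : C(UnitAddCircle, ℂ)) ((q ^ n) • x)‖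
        ≤ 1 / (N : ℝ) * N := by gcongr
      _ = 1 := by field_simp

lemma continuous_wav (q : ℕ) (a : ℤ) (N : ℕ) : Continuous fun x => wav q a x N := by
  unfold wav
  fun_prop

/-! ### The characteristic function of a digit -/

lemma continuous_ph (ε : ℝ) : Continuous (ph ε) := by
  unfold ph
  exact continuous_const.add (continuous_const.mul continuous_ee)

lemma Ps_nonneg (ε : ℝ) (p L m : ℕ) (b : ℤ) : 0 ≤ Ps ε p L m b :=
  Finset.prod_nonneg fun _ _ => norm_nonneg _

lemma Gp_nonneg (ε : ℝ) (p Q L : ℕ) (c : ℤ) : 0 ≤ Gp ε p Q L c :=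
  Finset.prod_nonneg fun _ _ => norm_nonneg _

/-! ### The random function -/

variable {Y : Type}

lemma meas_tm_left (p : ℕ) (S : Y → Y) (τ : ℕ → Y → ℕ) (y : Y) (j : ℕ × ℕ) :
    Measurable fun D : Om => tm p S τ D y j := by
  unfold tm
  refine Measurable.ite ?_ measurable_const measurable_const
  exact measurableSet_eq_fun (measurable_pi_apply _) measurable_const

lemma meas_GI_left (p : ℕ) (S : Y → Y) (τ : ℕ → Y → ℕ) (y : Y) :
    Measurable fun D : Om => GI p S τ D y :=
  Measurable.tsum fun j => meas_tm_left p S τ y j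

lemma meas_GR_left (p : ℕ) (S : Y → Y) (τ : ℕ → Y → ℕ) (y : Y) :
    Measurable fun D : Om => GR p S τ D y := (meas_GI_left p S τ y).ennreal_toReal

lemma meas_coe : Measurable fun r : ℝ => (r : UnitAddCircle) :=
  (AddCircle.continuous_mk' 1).measurable

lemma meas_GC_left (p : ℕ) (S : Y → Y) (τ : ℕ → Y → ℕ) (y : Y) :
    Measurable fun D : Om => GC p S τ D y := meas_coe.comp (meas_GR_left p S τ y)

lemma tm_le (p : ℕ) (S : Y → Y) (τ : ℕ → Y → ℕ) (D : Om) (y : Y) (j : ℕ × ℕ) :
    tm p S τ D y j ≤ ((p : ℝ≥0∞) ^ (j.2 + 1))⁻¹ := by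
  unfold tm
  split_ifs
  · exact le_rfl
  · exact zero_le

/-- integration against the law of a digit -/
lemma integral_bern (ε : unitInterval) (h : Bool → ℂ) :
    ∫ z, h z ∂bern ε = ((1 - (ε : ℝ) : ℝ) : ℂ) * h false + ((ε : ℝ) : ℂ) * h true := by
  have h0 := ε.2.1
  have h1 := ε.2.2
  have hi : ∀ (μ : Measure Bool) [IsFiniteMeasure μ], Integrable h μ := fun μ _ =>
    Integrable.of_finite
  have hf : IsFiniteMeasure (ENNReal.ofReal (1 - (ε : ℝ)) • Measure.dirac false) :=
    Measure.smul_finite _ ENNReal.ofReal_ne_top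
  have hf' : IsFiniteMeasure (ENNReal.ofReal (ε : ℝ) • Measure.dirac true) :=
    Measure.smul_finite _ ENNReal.ofReal_ne_top
  unfold bern
  rw [integral_add_measure (hi _) (hi _), integral_smul_measure, integral_smul_measure,
    integral_dirac, integral_dirac, ENNReal.toReal_ofReal (by linarith), ENNReal.toReal_ofReal h0,
    Complex.real_smul, Complex.real_smul]

/-- the probability of a digit `1` -/
lemma PP_digit (ε : ℕ → unitInterval) (i : ℕ × ℕ) :
    PP ε {D | D i = true} = ENNReal.ofReal (ε i.1) := by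
  have h : MeasurePreserving (fun D : Om => D i) (PP ε) (bern (ε i.1)) :=
    measurePreserving_eval_infinitePi _ i
  have h2 := h.measure_preimage (s := {true}) (measurableSet_singleton _).nullMeasurableSet
  have h3 : (fun D : Om => D i) ⁻¹' {true} = {D | D i = true} := rfl
  rw [← h3, h2, bern]
  simp

end

end Pool.Agent.LYN
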