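import Mathlib

set_option autoImplicit false

/-!
# LYN: normality in base `q` for invariant measures (definitions)
-/

open MeasureTheory Filter Topology
open scoped ENNReal

namespace Pool.Agent.LYN

noncomputable section

/-! ### Exponentials -/

/-- `e(θ) = exp(2πiθ)` -/
def ee (θ : ℝ) : ℂ := Complex.exp (2 * Real.pi * Complex.I * θ)

/-- characteristic function of a random digit: `1 - ε + ε e(θ)` -/
def ph (ε θ : ℝ) : ℂ := (1 - ε : ℝ) + (ε : ℝ) * ee θ

/-- `∏_{s < L} |φ(b / p^(m+s+1))|` -/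
def Ps (ε : ℝ) (p L m : ℕ) (b : ℤ) : ℝ :=
  ∏ s ∈ Finset.range L, ‖ph ε ((b : ℝ) / (p : ℝ) ^ (m + s + 1))‖

/-- `∏_{t < L} |φ(p^t c / Q^L)|` -/
def Gp (ε : ℝ) (p Q L : ℕ) (c : ℤ) : ℝ :=
  ∏ t ∈ Finset.range L, ‖ph ε ((p : ℝ) ^ t * (c : ℝ) / (Q : ℝ) ^ L)‖

/-! ### Averages -/

/-- the averages of `e(a q^n x)` -/
def wav (q : ℕ) (a : ℤ) (x : UnitAddCircle) (N : ℕ) : ℂ :=
  (1 / (N : ℂ)) * ∑ n ∈ Finset.range N, (fourier a : C(UnitAddCircle, ℂ)) ((q ^ n) • x)

/-- normality in base `q` -/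
def Nrm (q : ℕ) (x : UnitAddCircle) : Prop :=
  ∀ a : ℤ, a ≠ 0 → Tendsto (wav q a x) atTop (𝓝 0)

/-- `p = Q R` with `Q ≥ 2` coprime to `w` and to `R`, and `R` divides `w ^ K` -/
structure Std (p w Q R K : ℕ) : Prop where
  w2 : 2 ≤ w
  q2 : 2 ≤ Q
  fac : p = Q * R
  cop : Nat.Coprime w Q
  cop' : Nat.Coprime R Q
  dvd : R ∣ w ^ K

/-! ### Random digits -/

/-- the law of a digit, equal to `1` with probability `ε` -/
def bern (ε : unitInterval) : Measure Bool :=
  ENNReal.ofReal (1 - ε) • Measure.dirac false + ENNReal.ofReal ε • Measure.dirac true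

instance (ε : unitInterval) : IsProbabilityMeasure (bern ε) where
  measure_univ := by
    have h0 := ε.2.1
    have h1 := ε.2.2
    simp only [bern, Measure.coe_add, Measure.coe_smul, Pi.add_apply, Pi.smul_apply,
      measure_univ, smul_eq_mul, mul_one]
    rw [← ENNReal.ofReal_add (by linarith) h0]
    simp

/-- the array of digits -/
abbrev Om : Type := ℕ × ℕ → Bool

/-- the law of the array: independent digits, the digits with first index `k` are `1` with
probability `ε k` -/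
def PP (ε : ℕ → unitInterval) : Measure Om := Measure.infinitePi fun i => bern (ε i.1)

instance (ε : ℕ → unitInterval) : IsProbabilityMeasure (PP ε) :=
  inferInstanceAs (IsProbabilityMeasure (Measure.infinitePi fun i : ℕ × ℕ => bern (ε i.1)))

variable {Y : Type}

/-- one term of the series -/
def tm (p : ℕ) (S : Y → Y) (τ : ℕ → Y → ℕ) (D : Om) (y : Y) (j : ℕ × ℕ) : ℝ≥0∞ :=
  if D (j.1, τ j.1 (S^[j.2] y)) then ((p : ℝ≥0∞) ^ (j.2 + 1))⁻¹ else 0

/-- the random function, with values in `[0, ∞]` -/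
def GI (p : ℕ) (S : Y → Y) (τ : ℕ → Y → ℕ) (D : Om) (y : Y) : ℝ≥0∞ := ∑' j, tm p S τ D y j

/-- the random function, with values in `ℝ` -/
def GR (p : ℕ) (S : Y → Y) (τ : ℕ → Y → ℕ) (D : Om) (y : Y) : ℝ := (GI p S τ D y).toReal

/-- the random function, with values in the circle -/
def GC (p : ℕ) (S : Y → Y) (τ : ℕ → Y → ℕ) (D : Om) (y : Y) : UnitAddCircle :=
  ((GR p S τ D y : ℝ) : UnitAddCircle)

/-- the clock number `k` runs without failure for `M` steps at `y` -/
def Clk (S : Y → Y) (τ : ℕ → Y → ℕ) (k M : ℕ) (y : Y) : Prop :=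
  ∀ t < M, τ k (S^[t] y) + t = τ k y

end

end Pool.Agent.LYN
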