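import Pool.Agent.LYN.Host1
import Pool.Agent.LYN.Host2

set_option autoImplicit false

/-!
# LYN, part 3 (Host's criterion with finite windows): the weighted second moment
-/

open MeasureTheory Filter Topology
open scoped ENNReal

namespace Pool.Agent.LYN

noncomputable section

/-- the measure of the union of the translates of an interval -/
def Sw (μ : Measure UnitAddCircle) (p n W u : ℕ) : ℝ :=
  ∑ c ∈ Finset.range (p ^ n), μ.real (arc p (n + W) (u + c * p ^ W))

/-- the inverse of the conditional probability of the first `n` digits given the next `W` digits -/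
def rho (μ : Measure UnitAddCircle) (p n W : ℕ) (x : UnitAddCircle) : ℝ :=
  Sw μ p n W (ix p (n + W) x) / μ.real (arc p (n + W) (ix p (n + W) x))

lemma Sw_nonneg (μ : Measure UnitAddCircle) (p n W u : ℕ) : 0 ≤ Sw μ p n W u :=
  Finset.sum_nonneg fun _ _ => measureReal_nonneg

lemma rho_nonneg (μ : Measure UnitAddCircle) (p n W : ℕ) (x : UnitAddCircle) :
    0 ≤ rho μ p n W x := div_nonneg (Sw_nonneg _ _ _ _ _) measureReal_nonneg

lemma integrable_rho (μ : Measure UnitAddCircle) [IsProbabilityMeasure μ] (p n W : ℕ)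
    (hp : 1 ≤ p) : Integrable (rho μ p n W) μ :=
  integrable_ix μ p (n + W) hp fun u => Sw μ p n W u / μ.real (arc p (n + W) u)

lemma integrable_wr (μ : Measure UnitAddCircle) [IsProbabilityMeasure μ] (p n W q N : ℕ) (a : ℤ)
    (hp : 1 ≤ p) : Integrable (fun x => ‖wav q a x N‖ ^ 2 * rho μ p n W x) μ := by
  refine (integrable_rho μ p n W hp).mono ?_ (ae_of_all _ fun x => ?_)
  · exact ((continuous_wav q a N).norm.pow 2).aestronglyMeasurable.mul
      (integrable_rho μ p n W hp).1
  · have h1 := norm_wav_le q a x N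
    have h2 : ‖wav q a x N‖ ^ 2 ≤ 1 := pow_le_one₀ (norm_nonneg _) h1
    rw [norm_mul, norm_pow, norm_norm]
    calc ‖wav q a x N‖ ^ 2 * ‖rho μ p n W x‖ ≤ 1 * ‖rho μ p n W x‖ := by gcongr
      _ = _ := one_mul _

theorem H_est (hMUL : T_MUL) (p q : ℕ) (a : ℤ) (hp : 2 ≤ p) (hq : 2 ≤ q)
    (hpq : Nat.Coprime q p) (ha : a ≠ 0) (K : ℕ) (hK : q ^ p ≤ p ^ K) : ∃ C : ℝ, 0 < C ∧
    ∀ (μ : Measure UnitAddCircle) [IsProbabilityMeasure μ] (n N : ℕ), p ^ n ≤ N →
      N < p ^ (n + 1) → ∫ x, ‖wav q a x N‖ ^ 2 * rho μ p n (K * p ^ n) x ∂μ ≤ C := by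
  obtain ⟨C, hC0, hC⟩ := H_cos hMUL p q a hp hq hpq ha
  refine ⟨C + 4 * Real.pi * |(a : ℝ)|, by positivity, fun μ _ n N hN1 hN2 => ?_⟩
  have hp1 : 1 ≤ p := by omega
  set W : ℕ := K * p ^ n with hW
  set m : ℕ := n + W with hm
  set P : ℕ := p ^ m with hP
  have hp0 : (0 : ℝ) < p := by exact_mod_cast (by omega : 0 < p)
  have hpm : (0 : ℝ) < (p : ℝ) ^ m := by positivity
  have hPr : (P : ℝ) = (p : ℝ) ^ m := by
    rw [hP]
    push_cast
    rfl
  set e : ℝ := 4 * Real.pi * |(a : ℝ)| * (q : ℝ) ^ N * (1 / (p : ℝ) ^ m) with he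
  have he0 : 0 ≤ e := by positivity
  set g : ℕ → ℝ := fun u =>
    ‖wav q a ((((u : ℝ) / (p : ℝ) ^ m : ℝ)) : UnitAddCircle) N‖ ^ 2 + e with hg
  have hg0 : ∀ u, 0 ≤ g u := fun u => by
    have := he0
    simp only [hg]
    positivity
  have hgp : ∀ u, g (u + P) = g u := by
    intro u
    simp only [hg]
    congr 4
    have h1 : ((u + P : ℕ) : ℝ) / (p : ℝ) ^ m = (u : ℝ) / (p : ℝ) ^ m + 1 := by
      push_cast
      rw [hPr, add_div, div_self hpm.ne']
    rw [h1, AddCircle.coe_add]
    have h2 : ((1 : ℝ) : UnitAddCircle) = 0 := AddCircle.coe_period 1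
    rw [h2, add_zero]
  -- pointwise bound
  have hpt : ∀ x, ‖wav q a x N‖ ^ 2 ≤ g (ix p m x) := by
    intro x
    obtain ⟨s, hs, hx⟩ := ix_near p m hp1 x
    have h1 := H_lip q a (by omega) ((((ix p m x : ℕ) : ℝ) / (p : ℝ) ^ m : ℝ) : UnitAddCircle) s N
    rw [← hx] at h1
    refine h1.trans ?_
    simp only [hg, he]
    gcongr
  have hstep1 : ∫ x, ‖wav q a x N‖ ^ 2 * rho μ p n W x ∂μ ≤
      ∑ u ∈ Finset.range P, g u * Sw μ p n W u := by
    calc ∫ x, ‖wav q a x N‖ ^ 2 * rho μ p n W x ∂μ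
        ≤ ∫ x, g (ix p m x) * (Sw μ p n W (ix p m x) / μ.real (arc p m (ix p m x))) ∂μ := by
          refine integral_mono (integrable_wr μ p n W q N a hp1)
            (integrable_ix μ p m hp1 fun u => g u * (Sw μ p n W u / μ.real (arc p m u)))
            fun x => ?_
          exact mul_le_mul_of_nonneg_right (hpt x) (rho_nonneg μ p n W x)
      _ = ∑ u ∈ Finset.range P, μ.real (arc p m u) *
            (g u * (Sw μ p n W u / μ.real (arc p m u))) :=
          int_ix μ p m hp1 fun u => g u * (Sw μ p n W u / μ.real (arc p m u))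
      _ ≤ ∑ u ∈ Finset.range P, g u * Sw μ p n W u := by
          refine Finset.sum_le_sum fun u _ => ?_
          rcases eq_or_ne (μ.real (arc p m u)) 0 with h0 | h0
          · rw [h0, zero_mul]
            exact mul_nonneg (hg0 u) (Sw_nonneg _ _ _ _ _)
          · refine le_of_eq ?_
            field_simp
  have hsum1 : ∑ u ∈ Finset.range P, μ.real (arc p m u) = 1 := by
    have h1 := int_ix μ p m hp1 fun _ => 1
    simp only [integral_const, smul_eq_mul, mul_one] at h1
    rw [← h1, probReal_univ]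
  have hstep2 : ∑ u ∈ Finset.range P, g u * Sw μ p n W u =
      ∑ u ∈ Finset.range P, μ.real (arc p m u) *
        ∑ c ∈ Finset.range (p ^ n), g (u + (P - c * p ^ W)) := by
    calc ∑ u ∈ Finset.range P, g u * Sw μ p n W u
        = ∑ u ∈ Finset.range P, ∑ c ∈ Finset.range (p ^ n),
            g u * μ.real (arc p m (u + c * p ^ W)) := by
          refine Finset.sum_congr rfl fun u _ => ?_
          unfold Sw
          rw [Finset.mul_sum]
      _ = ∑ c ∈ Finset.range (p ^ n), ∑ u ∈ Finset.range P,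
            g u * μ.real (arc p m (u + c * p ^ W)) := Finset.sum_comm
      _ = ∑ c ∈ Finset.range (p ^ n), ∑ u ∈ Finset.range P,
            μ.real (arc p m u) * g (u + (P - c * p ^ W)) := by
          refine Finset.sum_congr rfl fun c hc => ?_
          have hcP : c * p ^ W ≤ P := by
            rw [hP, hm, pow_add]
            exact Nat.mul_le_mul_right _ (Finset.mem_range.1 hc).le
          have h1 := sum_shift P
            (fun v => μ.real (arc p m v) * g (v + (P - c * p ^ W))) (fun v => by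
              have h2 : v + P + (P - c * p ^ W) = v + (P - c * p ^ W) + P := by ring
              rw [h2, hgp, hP, arc_per p m v hp1]) (c * p ^ W)
          rw [← h1]
          refine Finset.sum_congr rfl fun u _ => ?_
          have h2 : u + c * p ^ W + (P - c * p ^ W) = u + P := by omega
          rw [h2, hgp, mul_comm]
      _ = ∑ u ∈ Finset.range P, ∑ c ∈ Finset.range (p ^ n),
            μ.real (arc p m u) * g (u + (P - c * p ^ W)) := Finset.sum_comm
      _ = _ := by
          refine Finset.sum_congr rfl fun u _ => ?_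
          rw [Finset.mul_sum]
  have hinner : ∀ u, ∑ c ∈ Finset.range (p ^ n), g (u + (P - c * p ^ W)) ≤
      C + 4 * Real.pi * |(a : ℝ)| := by
    intro u
    have h1 : ∀ c ∈ Finset.range (p ^ n), g (u + (P - c * p ^ W)) =
        ‖wav q a ((((u : ℝ) / (p : ℝ) ^ m : ℝ) : UnitAddCircle) -
          (((c : ℝ) / (p : ℝ) ^ n : ℝ) : UnitAddCircle)) N‖ ^ 2 + e := by
      intro c hc
      have hcP : c * p ^ W ≤ P := by
        rw [hP, hm, pow_add]
        exact Nat.mul_le_mul_right _ (Finset.mem_range.1 hc).le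
      simp only [hg]
      congr 4
      have h2 : ((u + (P - c * p ^ W) : ℕ) : ℝ) / (p : ℝ) ^ m =
          (u : ℝ) / (p : ℝ) ^ m - (c : ℝ) / (p : ℝ) ^ n + 1 := by
        rw [Nat.cast_add, Nat.cast_sub hcP]
        push_cast
        rw [hPr]
        have h3 : (p : ℝ) ^ m = (p : ℝ) ^ n * (p : ℝ) ^ W := by rw [hm, pow_add]
        rw [h3]
        field_simp
        ring
      rw [h2, AddCircle.coe_add, AddCircle.coe_sub]
      have h3 : ((1 : ℝ) : UnitAddCircle) = 0 := AddCircle.coe_period 1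
      rw [h3, add_zero]
    rw [Finset.sum_congr rfl h1, Finset.sum_add_distrib, Finset.sum_const, Finset.card_range,
      nsmul_eq_mul]
    refine add_le_add (hC _ n N hN1) ?_
    -- the error
    have h4 : (q : ℝ) ^ N ≤ (p : ℝ) ^ W := by
      have h5 : q ^ N ≤ p ^ W := by
        calc q ^ N ≤ q ^ (p ^ (n + 1)) := Nat.pow_le_pow_right (by omega) hN2.le
          _ = (q ^ p) ^ (p ^ n) := by rw [← pow_mul, pow_succ, mul_comm p]
          _ ≤ (p ^ K) ^ (p ^ n) := Nat.pow_le_pow_left hK _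
          _ = p ^ W := by rw [← pow_mul]
      exact_mod_cast h5
    have h6 : ((p ^ n : ℕ) : ℝ) * e = 4 * Real.pi * |(a : ℝ)| * ((q : ℝ) ^ N / (p : ℝ) ^ W) := by
      rw [he]
      push_cast
      have h3 : (p : ℝ) ^ m = (p : ℝ) ^ n * (p : ℝ) ^ W := by rw [hm, pow_add]
      rw [h3]
      field_simp
    rw [h6]
    have h7 : (q : ℝ) ^ N / (p : ℝ) ^ W ≤ 1 := by
      rw [div_le_one (by positivity)]
      exact h4
    have h8 : 0 ≤ 4 * Real.pi * |(a : ℝ)| := by positivity
    calc 4 * Real.pi * |(a : ℝ)| * ((q : ℝ) ^ N / (p : ℝ) ^ W) ≤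
        4 * Real.pi * |(a : ℝ)| * 1 := mul_le_mul_of_nonneg_left h7 h8
      _ = _ := mul_one _
  refine hstep1.trans ?_
  rw [hstep2]
  calc ∑ u ∈ Finset.range P, μ.real (arc p m u) *
        ∑ c ∈ Finset.range (p ^ n), g (u + (P - c * p ^ W))
      ≤ ∑ u ∈ Finset.range P, μ.real (arc p m u) * (C + 4 * Real.pi * |(a : ℝ)|) :=
        Finset.sum_le_sum fun u _ => mul_le_mul_of_nonneg_left (hinner u) measureReal_nonneg
    _ = _ := by rw [← Finset.sum_mul, hsum1, one_mul]

end

end Pool.Agent.LYN
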