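import Pool.Agent.LYN.Host3

set_option autoImplicit false

/-!
# LYN, part 3 (Host's criterion with finite windows): the theorem
-/

open MeasureTheory Filter Topology
open scoped ENNReal

namespace Pool.Agent.LYN

noncomputable section

/-- summation over blocks -/
lemma H_blk (p : ℕ) (hp : 2 ≤ p) (w : ℕ → ℝ) (hw0 : ∀ n, 0 ≤ w n) (hw : Summable w) :
    Summable fun N : ℕ => w (Nat.log p N) / N := by
  have hf0 : ∀ N : ℕ, 0 ≤ w (Nat.log p N) / (N : ℝ) := fun N =>
    div_nonneg (hw0 _) (Nat.cast_nonneg _)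
  have hblock : ∀ k : ℕ, ∑ N ∈ Finset.range (p ^ k), w (Nat.log p N) / (N : ℝ) ≤
      ∑ n ∈ Finset.range k, (p : ℝ) * w n := by
    intro k
    induction k with
    | zero => simp
    | succ k ih =>
      have hle : p ^ k ≤ p ^ (k + 1) := Nat.pow_le_pow_right (by omega) (by omega)
      rw [← Finset.sum_range_add_sum_Ico _ hle, Finset.sum_range_succ]
      refine add_le_add ih ?_
      have h1 : ∀ N ∈ Finset.Ico (p ^ k) (p ^ (k + 1)), w (Nat.log p N) / (N : ℝ) ≤
          w k / (p : ℝ) ^ k := by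
        intro N hN
        rw [Finset.mem_Ico] at hN
        have h2 : Nat.log p N = k := Nat.log_eq_of_pow_le_of_lt_pow hN.1 hN.2
        rw [h2]
        have h3 : (p : ℝ) ^ k ≤ N := by exact_mod_cast hN.1
        have h4 : (0 : ℝ) < (p : ℝ) ^ k := by
          have : (0 : ℝ) < p := by exact_mod_cast (by omega : 0 < p)
          positivity
        exact div_le_div_of_nonneg_left (hw0 k) h4 h3
      refine (Finset.sum_le_sum h1).trans ?_
      rw [Finset.sum_const, Nat.card_Ico, nsmul_eq_mul]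
      have h4 : (0 : ℝ) < (p : ℝ) ^ k := by
        have : (0 : ℝ) < p := by exact_mod_cast (by omega : 0 < p)
        positivity
      have h5 : ((p ^ (k + 1) - p ^ k : ℕ) : ℝ) ≤ (p : ℝ) * (p : ℝ) ^ k := by
        have : p ^ (k + 1) - p ^ k ≤ p * p ^ k := by
          rw [pow_succ, mul_comm]
          exact Nat.sub_le _ _
        exact_mod_cast this
      calc ((p ^ (k + 1) - p ^ k : ℕ) : ℝ) * (w k / (p : ℝ) ^ k) ≤
          ((p : ℝ) * (p : ℝ) ^ k) * (w k / (p : ℝ) ^ k) :=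
            mul_le_mul_of_nonneg_right h5 (div_nonneg (hw0 k) h4.le)
        _ = (p : ℝ) * w k := by field_simp
  refine summable_of_sum_range_le (c := ∑' n, (p : ℝ) * w n) hf0 fun k => ?_
  have h1 : k ≤ p ^ k := (Nat.lt_pow_self (by omega)).le
  calc ∑ N ∈ Finset.range k, w (Nat.log p N) / (N : ℝ) ≤
      ∑ N ∈ Finset.range (p ^ k), w (Nat.log p N) / (N : ℝ) :=
        Finset.sum_le_sum_of_subset_of_nonneg (Finset.range_mono h1) fun N _ _ => hf0 N
    _ ≤ ∑ n ∈ Finset.range k, (p : ℝ) * w n := hblock k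
    _ ≤ ∑' n, (p : ℝ) * w n :=
        (hw.mul_left _).sum_le_tsum _ fun n _ => mul_nonneg (Nat.cast_nonneg _) (hw0 n)

/-- almost every point lies in intervals of positive measure -/
lemma H_pos (μ : Measure UnitAddCircle) [IsProbabilityMeasure μ] (p : ℕ) (hp : 1 ≤ p) :
    ∀ᵐ x ∂μ, ∀ m, 0 < μ.real (arc p m (ix p m x)) := by
  rw [ae_all_iff]
  intro m
  have h1 : ∀ᵐ x ∂μ, ∀ u : ℕ, μ.real (arc p m u) = 0 → x ∉ arc p m u := by
    rw [ae_all_iff]
    intro u
    by_cases h : μ.real (arc p m u) = 0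
    · have h2 : μ (arc p m u) = 0 := by
        rwa [measureReal_eq_zero_iff] at h
      filter_upwards [measure_eq_zero_iff_ae_notMem.1 h2] with x hx _
      exact hx
    · exact ae_of_all _ fun x h' => absurd h' h
  filter_upwards [h1] with x hx
  have h3 : x ∈ arc p m (ix p m x) := by
    rw [mem_arc p m _ hp, Nat.mod_eq_of_lt (ix_lt p m hp x)]
  exact lt_of_le_of_ne measureReal_nonneg fun h => hx _ h.symm h3

theorem host (hMUL : T_MUL) (hDEL : T_DEL) (p q : ℕ) (hp : 2 ≤ p) (hq : 2 ≤ q)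
    (hpq : Nat.Coprime q p) (K : ℕ) (hK : q ^ p ≤ p ^ K) (w : ℕ → ℝ) (hw0 : ∀ n, 0 ≤ w n)
    (hw : Summable w) (μ : Measure UnitAddCircle) [IsProbabilityMeasure μ]
    (h : ∀ᵐ x ∂μ, ∃ C : ℝ, ∀ n u : ℕ, x ∈ arc p (n + K * p ^ n) u →
      μ.real (arc p (n + K * p ^ n) u) ≤ C * w n * Sw μ p n (K * p ^ n) u) :
    ∀ᵐ x ∂μ, Nrm q x := by
  have hp1 : 1 ≤ p := by omega
  unfold Nrm
  rw [ae_all_iff]
  intro a
  by_cases ha : a = 0
  · exact ae_of_all _ fun x h => absurd ha h
  obtain ⟨C, hC0, hC⟩ := H_est hMUL p q a hp hq hpq ha K hK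
  set n : ℕ → ℕ := fun N => Nat.log p N with hn
  set f : ℕ → UnitAddCircle → ℝ := fun N x =>
    w (n N) * (‖wav q a x N‖ ^ 2 * rho μ p (n N) (K * p ^ n N) x) / N with hf
  have hf0 : ∀ N x, 0 ≤ f N x := fun N x => by
    refine div_nonneg (mul_nonneg (hw0 _) (mul_nonneg (by positivity) (rho_nonneg _ _ _ _ _))) ?_
    exact Nat.cast_nonneg _
  have hfi : ∀ N, Integrable (f N) μ := fun N =>
    ((integrable_wr μ p (n N) (K * p ^ n N) q N a hp1).const_mul _).div_const _
  have hfm : ∀ N, Measurable (f N) := by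
    intro N
    refine Measurable.div_const (Measurable.const_mul (Measurable.mul ?_ ?_) _) _
    · exact ((continuous_wav q a N).norm.pow 2).measurable
    · exact (measurable_of_countable
        (fun u => Sw μ p (n N) (K * p ^ n N) u / μ.real (arc p (n N + K * p ^ n N) u))).comp
          (meas_ix p _)
  have hfb : ∀ N, ∫ x, f N x ∂μ ≤ C * (w (n N) / N) := by
    intro N
    rcases Nat.eq_zero_or_pos N with rfl | hN
    · simp [hf]
    have hN1 : p ^ n N ≤ N := Nat.pow_log_le_self p hN.ne'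
    have hN2 : N < p ^ (n N + 1) := Nat.lt_pow_succ_log_self (by omega) N
    have h1 := hC μ (n N) N hN1 hN2
    have hNr : (0 : ℝ) < N := by exact_mod_cast hN
    calc ∫ x, f N x ∂μ = w (n N) *
          (∫ x, ‖wav q a x N‖ ^ 2 * rho μ p (n N) (K * p ^ n N) x ∂μ) / N := by
          simp only [hf]
          rw [integral_div, integral_const_mul]
      _ ≤ w (n N) * C / N := by
          refine div_le_div_of_nonneg_right ?_ hNr.le
          exact mul_le_mul_of_nonneg_left h1 (hw0 _)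
      _ = _ := by ring
  have hI : ∫⁻ x, ∑' N : ℕ, ENNReal.ofReal (f N x) ∂μ ≠ ⊤ := by
    rw [lintegral_tsum fun N => (hfm N).ennreal_ofReal.aemeasurable]
    have h1 : ∀ N, ∫⁻ x, ENNReal.ofReal (f N x) ∂μ ≤ ENNReal.ofReal (C * (w (n N) / N)) := by
      intro N
      rw [← ofReal_integral_eq_lintegral_ofReal (hfi N) (ae_of_all _ (hf0 N))]
      exact ENNReal.ofReal_le_ofReal (hfb N)
    have h2 : Summable fun N : ℕ => C * (w (n N) / N) :=
      (H_blk p hp w hw0 hw).mul_left C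
    exact ne_top_of_le_ne_top h2.tsum_ofReal_ne_top (ENNReal.tsum_le_tsum h1)
  have hae : ∀ᵐ x ∂μ, ∑' N : ℕ, ENNReal.ofReal (f N x) < ⊤ :=
    ae_lt_top (Measurable.tsum fun N => (hfm N).ennreal_ofReal) hI
  filter_upwards [hae, h, H_pos μ p hp1] with x hx hCx hpos _
  obtain ⟨D, hD⟩ := hCx
  have h1 := ENNReal.summable_toReal hx.ne
  have h2 : Summable fun N : ℕ => f N x := by
    refine h1.congr fun N => ?_
    rw [ENNReal.toReal_ofReal (hf0 N x)]
  -- the weights are large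
  have hwt : ∀ k, 1 ≤ D * (w k * rho μ p k (K * p ^ k) x) := by
    intro k
    have hm : x ∈ arc p (k + K * p ^ k) (ix p (k + K * p ^ k) x) := by
      rw [mem_arc p _ _ hp1, Nat.mod_eq_of_lt (ix_lt p _ hp1 x)]
    have h3 := hD k _ hm
    have h4 := hpos (k + K * p ^ k)
    unfold rho
    rw [← mul_div_assoc, ← mul_div_assoc, le_div_iff₀ h4, one_mul]
    calc _ ≤ _ := h3
      _ = _ := by ring
  have h5 : Summable fun N : ℕ => ‖wav q a x N‖ ^ 2 / (N : ℝ) := by
    refine Summable.of_nonneg_of_le (fun N => by positivity) (fun N => ?_) (h2.mul_left D)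
    have h6 : D * f N x = (‖wav q a x N‖ ^ 2 / (N : ℝ)) *
        (D * (w (n N) * rho μ p (n N) (K * p ^ n N) x)) := by
      simp only [hf]
      ring
    rw [h6]
    have h7 : (0 : ℝ) ≤ ‖wav q a x N‖ ^ 2 / (N : ℝ) := by positivity
    calc ‖wav q a x N‖ ^ 2 / (N : ℝ) = ‖wav q a x N‖ ^ 2 / (N : ℝ) * 1 := (mul_one _).symm
      _ ≤ _ := mul_le_mul_of_nonneg_left (hwt (n N)) h7
  exact hDEL (fun k => (fourier a : C(UnitAddCircle, ℂ)) ((q ^ k) • x))
    (fun k => (fourier_norm a _).le) h5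

end

end Pool.Agent.LYN
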