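import Pool.Agent.LYN.Basic

set_option autoImplicit false

/-!
# LYN: assembly
-/

open MeasureTheory Filter Topology
open scoped ENNReal ProbabilityTheory

namespace Pool.Agent.LYN

noncomputable section

/-- the conclusion at a point -/
def AllNrm (p : ℕ) (x : UnitAddCircle) : Prop :=
  ∀ q : ℕ, 2 ≤ q → (∀ m n : ℕ, p ^ m = q ^ n → m = 0 ∧ n = 0) → Nrm q x

lemma M_norm_coe (r : ℝ) : ‖(r : UnitAddCircle)‖ ≤ |r| := by
  exact QuotientAddGroup.norm_mk_le_norm (S := AddSubgroup.zmultiples (1 : ℝ)) (m := r)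

lemma M_indep (p : ℕ) (hp : 2 ≤ p) : ∀ m n : ℕ, p ^ m = (p + 1) ^ n → m = 0 ∧ n = 0 := by
  intro m n h
  have hc : Nat.Coprime (p ^ m) ((p + 1) ^ n) :=
    Nat.Coprime.pow m n (Nat.coprime_self_add_right.2 (Nat.coprime_one_right p))
  rw [← h, Nat.coprime_self] at hc
  refine ⟨?_, ?_⟩
  · rcases Nat.pow_eq_one.1 hc with h1 | h1
    · omega
    · exact h1
  · rw [h] at hc
    rcases Nat.pow_eq_one.1 hc with h1 | h1
    · omega
    · exact h1

lemma M_law (hATM : T_ATM) (hMSB : T_MSB) (p : ℕ) (hp : 2 ≤ p) (Y : Type) [MeasurableSpace Y]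
    (ν : Measure Y) [IsProbabilityMeasure ν] (S : Y → Y) (hS : MeasurePreserving S ν ν)
    (h : Y → UnitAddCircle) (hm : Measurable h) (hn : ∀ᵐ y ∂ν, AllNrm p (h y)) :
    (∀ᵐ x ∂ν.map h, AllNrm p x) ∧ ((∀ᵐ y ∂ν, h (S y) = p • h y) →
      (∀ x, ν.map h {x} = 0) ∧ (ν.map h).map (fun x => p • x) = ν.map h) := by
  have h1 : ∀ᵐ x ∂ν.map h, AllNrm p x :=
    (ae_map_iff hm.aemeasurable (hMSB UnitAddCircle id p measurable_id)).2 hn
  refine ⟨h1, fun he => ?_⟩
  have hp' : Measurable fun x : UnitAddCircle => p • x := (continuous_nsmul p).measurable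
  have hinv : (ν.map h).map (fun x => p • x) = ν.map h := by
    rw [Measure.map_map hp' hm]
    calc ν.map ((fun x => p • x) ∘ h) = ν.map (h ∘ S) := by
          refine Measure.map_congr ?_
          filter_upwards [he] with y hy
          exact hy.symm
      _ = (ν.map S).map h := (Measure.map_map hm hS.measurable).symm
      _ = ν.map h := by rw [hS.map_eq]
  have hprob : IsProbabilityMeasure (ν.map h) := Measure.isProbabilityMeasure_map hm.aemeasurable
  refine ⟨hATM p (p + 1) (ν.map h) hp hprob hinv ?_, hinv⟩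
  filter_upwards [h1] with x hx
  exact hx (p + 1) (by omega) (M_indep p hp)

theorem main (hNM : T_NM) (hNQ : T_NQ) (hNE : T_NE) (hCLK : T_CLK) (hPTW : T_PTW) (hATM : T_ATM)
    (hMSB : T_MSB) (p : ℕ) (hp : 2 ≤ p) (Y : Type) [MeasurableSpace Y] (ν : Measure Y)
    [IsProbabilityMeasure ν] (S : Y → Y) (hS : MeasurePreserving S ν ν)
    (hA : ∀ δ : ℝ≥0∞, 0 < δ → ∃ A, MeasurableSet A ∧ ν A < δ ∧ ∀ᵐ y ∂ν, ∃ n, S^[n] y ∈ A)
    (δ : ℝ) (hδ : 0 < δ) :
    ∃ (Ω : Type) (_ : MeasurableSpace Ω) (P : Measure Ω) (g : Ω → Y → UnitAddCircle),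
      IsProbabilityMeasure P ∧ Measurable (fun z : Ω × Y => g z.1 z.2) ∧
      (∀ ω, (∀ᵐ y ∂ν, g ω (S y) = p • g ω y) ∧ ∫ y, ‖g ω y‖ ∂ν ≤ δ) ∧
      ∀ f : Y → UnitAddCircle, Measurable f → ∀ᵐ ω ∂P,
        (∀ᵐ x ∂ν.map (fun y => f y + g ω y), AllNrm p x) ∧
        ((∀ᵐ y ∂ν, f (S y) = p • f y) →
          (∀ x, ν.map (fun y => f y + g ω y) {x} = 0) ∧
          (ν.map (fun y => f y + g ω y)).map (fun x => p • x) =
            ν.map (fun y => f y + g ω y)) := by
  -- parameters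
  set δ' : ℝ := min δ 1 with hδ'
  have hδ'0 : 0 < δ' := lt_min hδ one_pos
  have hδ'1 : δ' ≤ 1 := min_le_right _ _
  let ε : ℕ → unitInterval := fun k => ⟨δ' / 2 ^ (k + 2), by positivity, by
    rw [div_le_one (by positivity)]
    exact hδ'1.trans (one_le_pow₀ (by norm_num))⟩
  have hε : ∀ k, (ε k : ℝ) = δ' / 2 ^ (k + 2) := fun k => rfl
  obtain ⟨τ, hτm, hτ⟩ := hCLK Y ν S (fun k => (k + 1) * p ^ 4 ^ (k + 1)) inferInstance hS hA
  have hGI : Measurable (fun z : Om × Y => GI p S τ z.1 z.2) := hNM Y p S τ hS.measurable hτm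
  have hGR : Measurable (fun z : Om × Y => GR p S τ z.1 z.2) := hGI.ennreal_toReal
  have hGC : Measurable (fun z : Om × Y => GC p S τ z.1 z.2) := meas_coe.comp hGR
  -- the mean
  have hsum : ∑' k, ENNReal.ofReal (ε k) = ENNReal.ofReal (δ' / 2) := by
    have h1 : (fun k : ℕ => (ε k : ℝ)) = fun k : ℕ => δ' / 4 * (1 / 2) ^ k := by
      funext k
      rw [hε, pow_add, div_pow, one_pow]
      field_simp
      norm_num
    have h2 : Summable fun k : ℕ => (ε k : ℝ) := by
      rw [h1]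
      exact (summable_geometric_of_lt_one (by norm_num) (by norm_num)).mul_left _
    rw [← ENNReal.ofReal_tsum_of_nonneg (fun k => (ε k).2.1) h2, h1, tsum_mul_left,
      tsum_geometric_of_lt_one (by norm_num) (by norm_num)]
    congr 1
    norm_num
    ring
  have hmean : ∫⁻ D, ∫⁻ y, GI p S τ D y ∂ν ∂PP ε ≤ ENNReal.ofReal (δ' / 2) := by
    rw [lintegral_lintegral_swap hGI.aemeasurable]
    calc ∫⁻ y, ∫⁻ D, GI p S τ D y ∂PP ε ∂ν ≤ ∫⁻ _, ENNReal.ofReal (δ' / 2) ∂ν :=
          lintegral_mono fun y => (hNE Y p S τ ε y hp).trans hsum.le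
      _ = ENNReal.ofReal (δ' / 2) := by simp
  have hFm : Measurable fun D : Om => ∫⁻ y, GI p S τ D y ∂ν := hGI.lintegral_prod_right'
  let B : Set Om := {D | ∫⁻ y, GI p S τ D y ∂ν ≤ ENNReal.ofReal δ'}
  have hBm : MeasurableSet B := measurableSet_le hFm measurable_const
  have hB0 : PP ε B ≠ 0 := by
    intro h0
    have h1 : PP ε Bᶜ = 1 := by
      rw [prob_compl_eq_one_iff hBm]
      exact h0
    have h2 := mul_meas_ge_le_lintegral (μ := PP ε) hFm (ENNReal.ofReal δ')
    have h3 : PP ε {D | ENNReal.ofReal δ' ≤ ∫⁻ y, GI p S τ D y ∂ν} = 1 := by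
      refine le_antisymm prob_le_one (h1.symm.le.trans (measure_mono fun D hD => ?_))
      have hD' : ¬ (∫⁻ y, GI p S τ D y ∂ν ≤ ENNReal.ofReal δ') := hD
      exact (not_le.1 hD').le
    rw [h3, mul_one] at h2
    have h4 := h2.trans hmean
    rw [ENNReal.ofReal_le_ofReal_iff (by positivity)] at h4
    linarith
  have hPB : IsProbabilityMeasure (PP ε)[|B] := ProbabilityTheory.cond_isProbabilityMeasure hB0
  classical
  refine ⟨Om, inferInstance, (PP ε)[|B], fun D y => if D ∈ B then GC p S τ D y else 0, hPB, ?_,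
    fun D => ?_, fun f hf => ?_⟩
  · refine Measurable.ite ?_ hGC measurable_const
    exact hBm.preimage measurable_fst
  · by_cases hD : D ∈ B
    · simp only [hD, if_true]
      have hfin : ∫⁻ y, GI p S τ D y ∂ν ≠ ⊤ := ne_top_of_le_ne_top ENNReal.ofReal_ne_top hD
      have hGD : Measurable fun y => GI p S τ D y := hGI.comp measurable_prodMk_left
      have hae : ∀ᵐ y ∂ν, GI p S τ D y < ⊤ := ae_lt_top hGD hfin
      refine ⟨?_, ?_⟩
      · filter_upwards [hae] with y hy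
        obtain ⟨-, m, hm⟩ := hNQ Y p S τ D y hp hy.ne
        unfold GC
        rw [← AddCircle.coe_nsmul, nsmul_eq_mul, hm, AddCircle.coe_add]
        have : ((m : ℝ) : UnitAddCircle) = 0 := by
          rw [AddCircle.coe_eq_zero_iff]
          exact ⟨m, by simp⟩
        rw [this, zero_add]
      · have h1 : ∀ y, ‖GC p S τ D y‖ ≤ GR p S τ D y := fun y => by
          refine (M_norm_coe _).trans ?_
          exact (abs_of_nonneg (ENNReal.toReal_nonneg (a := GI p S τ D y))).le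
        have hint : Integrable (fun y => GR p S τ D y) ν :=
          integrable_toReal_of_lintegral_ne_top hGD.aemeasurable hfin
        calc ∫ y, ‖GC p S τ D y‖ ∂ν ≤ ∫ y, GR p S τ D y ∂ν := by
              refine integral_mono_of_nonneg (ae_of_all _ fun y => norm_nonneg _) hint
                (ae_of_all _ h1)
          _ = (∫⁻ y, GI p S τ D y ∂ν).toReal := integral_toReal hGD.aemeasurable hae
          _ ≤ (ENNReal.ofReal δ').toReal := ENNReal.toReal_mono ENNReal.ofReal_ne_top hD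
          _ = δ' := ENNReal.toReal_ofReal hδ'0.le
          _ ≤ δ := min_le_left _ _
    · simp only [hD, if_false]
      refine ⟨ae_of_all _ fun y => by simp, ?_⟩
      simp [hδ.le]
  · -- normality for almost all arrays
    have hset : MeasurableSet {z : Om × Y | AllNrm p (f z.2 + GC p S τ z.1 z.2)} :=
      hMSB (Om × Y) (fun z => f z.2 + GC p S τ z.1 z.2) p ((hf.comp measurable_snd).add hGC)
    have h1 : ∀ᵐ y ∂ν, ∀ᵐ D ∂PP ε, AllNrm p (f y + GC p S τ D y) := by
      filter_upwards [hτ] with y hy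
      exact hPTW Y p S τ ε y (f y) δ' hp hδ'0 hδ'1 hε hy
    have h2 : ∀ᵐ D ∂PP ε, ∀ᵐ y ∂ν, AllNrm p (f y + GC p S τ D y) :=
      (Measure.ae_ae_comm hset).2 h1
    have h3 : ∀ᵐ D ∂(PP ε)[|B], ∀ᵐ y ∂ν, AllNrm p (f y + GC p S τ D y) :=
      ProbabilityTheory.cond_absolutelyContinuous.ae_le h2
    filter_upwards [h3, ProbabilityTheory.ae_cond_mem hBm] with D hD hDB
    simp only [hDB, if_true]
    have hmeas : Measurable fun y => f y + GC p S τ D y :=
      hf.add (hGC.comp measurable_prodMk_left)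
    obtain ⟨h4, h5⟩ := M_law hATM hMSB p hp Y ν S hS _ hmeas hD
    refine ⟨h4, fun he => h5 ?_⟩
    have hfin : ∫⁻ y, GI p S τ D y ∂ν ≠ ⊤ := ne_top_of_le_ne_top ENNReal.ofReal_ne_top hDB
    have hGD : Measurable fun y => GI p S τ D y := hGI.comp measurable_prodMk_left
    filter_upwards [he, ae_lt_top hGD hfin] with y hy hy2
    obtain ⟨-, m, hm⟩ := hNQ Y p S τ D y hp hy2.ne
    rw [hy, smul_add]
    congr 1
    unfold GC
    rw [← AddCircle.coe_nsmul, nsmul_eq_mul, hm, AddCircle.coe_add]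
    have : ((m : ℝ) : UnitAddCircle) = 0 := by
      rw [AddCircle.coe_eq_zero_iff]
      exact ⟨m, by simp⟩
    rw [this, zero_add]

end

end Pool.Agent.LYN
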