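import Pool.Agent.LYN.Targets2
import Pool.Agent.LYN.Main

set_option autoImplicit false

/-!
# LYN, part 2: assembly
-/

open MeasureTheory Filter Topology
open scoped ENNReal

namespace Pool.Agent.LYN

noncomputable section

theorem main2 (hNM : T_NM) (hNQ : T_NQ) (hNE : T_NE) (hCK2 : T_CK2) (hPT2 : T_PT2)
    (p : ℕ) (hp : 2 ≤ p) (Y : Type) [MeasurableSpace Y] (ν : Measure Y)
    [IsProbabilityMeasure ν] (S : Y → Y) (hS : MeasurePreserving S ν ν)
    (hA : ∀ δ : ℝ≥0∞, 0 < δ → ∃ A, MeasurableSet A ∧ ν A < δ ∧ ∀ᵐ y ∂ν, ∃ n, S^[n] y ∈ A)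
    (δ : ℝ) (hδ : 0 < δ) :
    ∃ g : Y → UnitAddCircle, Measurable g ∧ (∀ᵐ y ∂ν, g (S y) = p • g y) ∧
      ∫ y, ‖g y‖ ∂ν ≤ δ ∧ ∀ x : UnitAddCircle, ∀ᵐ y ∂ν, AllNrm p (x + g y) := by
  -- parameters
  set δ' : ℝ := min δ 1 with hδ'
  have hδ'0 : 0 < δ' := lt_min hδ one_pos
  have hδ'1 : δ' ≤ 1 := min_le_right _ _
  let ε : ℕ → unitInterval := fun k => ⟨δ' / 2 ^ (k + 2), by positivity, by
    rw [div_le_one (by positivity)]
    exact hδ'1.trans (one_le_pow₀ (by norm_num))⟩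
  have hε : ∀ k, (ε k : ℝ) = δ' / 2 ^ (k + 2) := fun k => rfl
  obtain ⟨τ, hτm, hτ⟩ := hCK2 Y ν S (fun k => (k + 1) * p ^ 4 ^ (k + 1))
    (fun k => ENNReal.ofReal (1 / (64 ^ (k + 1) * ((k + 1) * p ^ 4 ^ (k + 1) + 1))))
    inferInstance hS (fun k => ENNReal.ofReal_pos.2 (by positivity)) hA
  have hGI : Measurable (fun z : Om × Y => GI p S τ z.1 z.2) := hNM Y p S τ hS.measurable hτm
  have hGR : Measurable (fun z : Om × Y => GR p S τ z.1 z.2) := hGI.ennreal_toReal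
  have hGC : Measurable (fun z : Om × Y => GC p S τ z.1 z.2) := meas_coe.comp hGR
  -- the mean
  have hsum : ∑' k, ENNReal.ofReal (ε k) = ENNReal.ofReal (δ' / 2) := by
    have h1 : (fun k : ℕ => (ε k : ℝ)) = fun k : ℕ => δ' / 4 * (1 / 2) ^ k := by
      funext k
      rw [hε, pow_add, div_pow, one_pow]
      field_simp
      norm_num
    have h2 : Summable fun k : ℕ => (ε k : ℝ) := by
      rw [h1]
      exact (summable_geometric_of_lt_one (by norm_num) (by norm_num)).mul_left _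
    rw [← ENNReal.ofReal_tsum_of_nonneg (fun k => (ε k).2.1) h2, h1, tsum_mul_left,
      tsum_geometric_of_lt_one (by norm_num) (by norm_num)]
    congr 1
    norm_num
    ring
  have hmean : ∫⁻ D, ∫⁻ y, GI p S τ D y ∂ν ∂PP ε ≤ ENNReal.ofReal (δ' / 2) := by
    rw [lintegral_lintegral_swap hGI.aemeasurable]
    calc ∫⁻ y, ∫⁻ D, GI p S τ D y ∂PP ε ∂ν ≤ ∫⁻ _, ENNReal.ofReal (δ' / 2) ∂ν :=
          lintegral_mono fun y => (hNE Y p S τ ε y hp).trans hsum.le
      _ = ENNReal.ofReal (δ' / 2) := by simp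
  have hFm : Measurable fun D : Om => ∫⁻ y, GI p S τ D y ∂ν := hGI.lintegral_prod_right'
  let B : Set Om := {D | ∫⁻ y, GI p S τ D y ∂ν ≤ ENNReal.ofReal δ'}
  have hBm : MeasurableSet B := measurableSet_le hFm measurable_const
  have hB0 : PP ε B ≠ 0 := by
    intro h0
    have h1 : PP ε Bᶜ = 1 := by
      rw [prob_compl_eq_one_iff hBm]
      exact h0
    have h2 := mul_meas_ge_le_lintegral (μ := PP ε) hFm (ENNReal.ofReal δ')
    have h3 : PP ε {D | ENNReal.ofReal δ' ≤ ∫⁻ y, GI p S τ D y ∂ν} = 1 := by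
      refine le_antisymm prob_le_one (h1.symm.le.trans (measure_mono fun D hD => ?_))
      have hD' : ¬ (∫⁻ y, GI p S τ D y ∂ν ≤ ENNReal.ofReal δ') := hD
      exact (not_le.1 hD').le
    rw [h3, mul_one] at h2
    have h4 := h2.trans hmean
    rw [ENNReal.ofReal_le_ofReal_iff (by positivity)] at h4
    linarith
  -- the array
  have hall := hPT2 Y ν p S τ ε δ' hp hδ'0 hδ'1 hε inferInstance hS.measurable hτm
    (fun k => (hτ k).1) (fun k j => (hτ k).2 j)
  obtain ⟨D, hDB, hD⟩ : ∃ D, D ∈ B ∧ ∀ x : UnitAddCircle, ∀ᵐ y ∂ν, ∀ q : ℕ, 2 ≤ q →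
      (∀ m n : ℕ, p ^ m = q ^ n → m = 0 ∧ n = 0) → Nrm q (x + GC p S τ D y) := by
    by_contra hno
    refine hB0 (measure_mono_null (fun D hD => ?_) (ae_iff.1 hall))
    intro h
    exact hno ⟨D, hD, h⟩
  have hfin : ∫⁻ y, GI p S τ D y ∂ν ≠ ⊤ := ne_top_of_le_ne_top ENNReal.ofReal_ne_top hDB
  have hGD : Measurable fun y => GI p S τ D y := hGI.comp measurable_prodMk_left
  have hae : ∀ᵐ y ∂ν, GI p S τ D y < ⊤ := ae_lt_top hGD hfin
  refine ⟨GC p S τ D, hGC.comp measurable_prodMk_left, ?_, ?_, hD⟩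
  · filter_upwards [hae] with y hy
    obtain ⟨-, m, hm⟩ := hNQ Y p S τ D y hp hy.ne
    unfold GC
    rw [← AddCircle.coe_nsmul, nsmul_eq_mul, hm, AddCircle.coe_add]
    have : ((m : ℝ) : UnitAddCircle) = 0 := by
      rw [AddCircle.coe_eq_zero_iff]
      exact ⟨m, by simp⟩
    rw [this, zero_add]
  · have h1 : ∀ y, ‖GC p S τ D y‖ ≤ GR p S τ D y := fun y => by
      refine (M_norm_coe _).trans ?_
      exact (abs_of_nonneg (ENNReal.toReal_nonneg (a := GI p S τ D y))).le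
    have hint : Integrable (fun y => GR p S τ D y) ν :=
      integrable_toReal_of_lintegral_ne_top hGD.aemeasurable hfin
    calc ∫ y, ‖GC p S τ D y‖ ∂ν ≤ ∫ y, GR p S τ D y ∂ν := by
          refine integral_mono_of_nonneg (ae_of_all _ fun y => norm_nonneg _) hint
            (ae_of_all _ h1)
      _ = (∫⁻ y, GI p S τ D y ∂ν).toReal := integral_toReal hGD.aemeasurable hae
      _ ≤ (ENNReal.ofReal δ').toReal := ENNReal.toReal_mono ENNReal.ofReal_ne_top hDB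
      _ = δ' := ENNReal.toReal_ofReal hδ'0.le
      _ ≤ δ := min_le_left _ _

end

end Pool.Agent.LYN
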