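import Pool.Agent.LYN.Targets2
import Pool.Agent.LYN.P_CLK

set_option autoImplicit false

/-!
# LYN: clocks with bounds (target CK2)
-/

open MeasureTheory Filter Topology
open scoped ENNReal

namespace Pool.Agent.LYN

noncomputable section

/-- clocks with bounds -/
theorem p_CK2 : T_CK2 := by
  intro Y _ ν S M β _ hS hβ hA
  have hex : ∀ k : ℕ, ∃ A, MeasurableSet A ∧ ν A < β k / ((M k : ℝ≥0∞) + 1) ∧
      ∀ᵐ y ∂ν, ∃ n, S^[n] y ∈ A := by
    intro k
    refine hA _ (ENNReal.div_pos (hβ k).ne' ?_)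
    exact ENNReal.add_ne_top.2 ⟨ENNReal.natCast_ne_top _, ENNReal.one_ne_top⟩
  choose A hA1 hA2 hA3 using hex
  have hcan : ∀ k, ((M k : ℝ≥0∞) + 1) * (β k / ((M k : ℝ≥0∞) + 1)) = β k := fun k => by
    refine ENNReal.mul_div_cancel ?_ ?_
    · simp
    · exact ENNReal.add_ne_top.2 ⟨ENNReal.natCast_ne_top _, ENNReal.one_ne_top⟩
  have hpre : ∀ k n, ν {y | S^[n] y ∈ A k} = ν (A k) := fun k n =>
    (hS.iterate n).measure_preimage (hA1 k).nullMeasurableSet
  refine ⟨fun k => CLK_tau S (A k), fun k => CLK_tau_meas hS.measurable (hA1 k), fun k => ⟨?_, ?_⟩⟩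
  · have h1 : ν {y | ¬ Clk S (fun k => CLK_tau S (A k)) k (M k) y} ≤
        ν (⋃ n ∈ Finset.range (M k), {y | S^[n] y ∈ A k}) := by
      refine measure_mono_ae ?_
      filter_upwards [hA3 k] with y hy hn
      by_contra hnot
      refine hn fun t ht => CLK_run hy (fun n hn' hmem => hnot ?_) t ht
      have : y ∈ ⋃ n ∈ Finset.range (M k), {y | S^[n] y ∈ A k} := by
        rw [Set.mem_iUnion₂]
        exact ⟨n, Finset.mem_range.2 hn', hmem⟩
      exact this
    calc ν {y | ¬ Clk S (fun k => CLK_tau S (A k)) k (M k) y}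
        ≤ ν (⋃ n ∈ Finset.range (M k), {y | S^[n] y ∈ A k}) := h1
      _ ≤ ∑ n ∈ Finset.range (M k), ν {y | S^[n] y ∈ A k} := measure_biUnion_finset_le _ _
      _ = ∑ n ∈ Finset.range (M k), ν (A k) := Finset.sum_congr rfl fun n _ => hpre k n
      _ = (M k : ℝ≥0∞) * ν (A k) := by simp
      _ ≤ ((M k : ℝ≥0∞) + 1) * (β k / ((M k : ℝ≥0∞) + 1)) :=
          mul_le_mul' le_self_add (hA2 k).le
      _ = β k := hcan k
  · intro j
    have h1 : ν {y | CLK_tau S (A k) y = j} ≤ ν {y | S^[j] y ∈ A k} := by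
      refine measure_mono_ae ?_
      filter_upwards [hA3 k] with y hy hj
      have h2 := CLK_tau_mem hy
      have h3 : CLK_tau S (A k) y = j := hj
      rw [h3] at h2
      exact h2
    calc ν {y | CLK_tau S (A k) y = j} ≤ ν {y | S^[j] y ∈ A k} := h1
      _ = ν (A k) := hpre k j
      _ ≤ 1 * (β k / ((M k : ℝ≥0∞) + 1)) := by rw [one_mul]; exact (hA2 k).le
      _ ≤ ((M k : ℝ≥0∞) + 1) * (β k / ((M k : ℝ≥0∞) + 1)) := mul_le_mul' le_add_self le_rfl
      _ = β k := hcan k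

end

end Pool.Agent.LYN
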