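import Pool.Agent.LYN.Defs

set_option autoImplicit false

/-!
# LYN: targets (statements only; proofs in `Blueprint.md`)
-/

open MeasureTheory Filter Topology
open scoped ENNReal

namespace Pool.Agent.LYN

noncomputable section

/-! ### A. Arithmetic -/

/-- lifting the exponent -/
def T_LTE : Prop := ∀ (w Q : ℕ) (a : ℤ), 2 ≤ w → 2 ≤ Q → Nat.Coprime w Q → a ≠ 0 →
  ∃ C : ℕ, 0 < C ∧ ∀ L h : ℕ, 1 ≤ h → (Q : ℤ) ^ L ∣ a * ((w : ℤ) ^ h - 1) → Q ^ L ≤ C * h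

/-- the multiples `a w^j` are spread over the classes modulo `Q^L` -/
def T_MUL : Prop := ∀ (w Q : ℕ) (a : ℤ), 2 ≤ w → 2 ≤ Q → Nat.Coprime w Q → a ≠ 0 →
  ∃ C : ℕ, 0 < C ∧ ∀ (L N : ℕ) (r : ℤ), Q ^ L ≤ N →
    ((Finset.range N).filter fun j => (Q : ℤ) ^ L ∣ a * (w : ℤ) ^ j - r).card * Q ^ L ≤ C * N

/-- decomposition of a power of `q` -/
def T_DEC : Prop := ∀ p q : ℕ, 2 ≤ p → 2 ≤ q → (∀ m n : ℕ, p ^ m = q ^ n → m = 0 ∧ n = 0) →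
  ∃ e v w Q R K : ℕ, 1 ≤ e ∧ q ^ e = p ^ v * w ∧ Std p w Q R K

/-! ### B. Characteristic functions -/

/-- elementary properties of the characteristic function of a digit -/
def T_PH : Prop := (∀ ε θ : ℝ, 0 ≤ ε → ε ≤ 1 → ‖ph ε θ‖ ≤ 1) ∧
  (∀ (ε θ : ℝ) (n : ℤ), ph ε (θ + n) = ph ε θ) ∧
  ∀ (ε x : ℝ) (Q U : ℕ), 0 ≤ ε → ε ≤ 1 / 2 → 2 ≤ Q → Nat.Coprime U Q →
    ‖ph ε x‖ + ‖ph ε (x + (U : ℝ) / Q)‖ ≤ 2 - ε / (8 * (Q : ℝ) ^ 2)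

/-- mean value of the products -/
def T_GL : Prop := ∀ (ε : ℝ) (p Q R : ℕ), 0 ≤ ε → ε ≤ 1 / 2 → 2 ≤ Q → p = Q * R →
  Nat.Coprime R Q → ∀ L U : ℕ, Nat.Coprime U Q →
    ∑ c ∈ Finset.range (Q ^ L), Gp ε p Q L ((U * c : ℕ) : ℤ) ≤
      ((Q : ℝ) - ε / (8 * (Q : ℝ) ^ 2)) ^ L

/-- sum over a geometric progression -/
def T_FSU : Prop := ∀ (p w Q R K : ℕ) (a : ℤ), Std p w Q R K → a ≠ 0 → ∃ C : ℝ, 0 < C ∧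
  ∀ ε : ℝ, 0 ≤ ε → ε ≤ 1 / 2 → ∀ L N : ℕ, Q ^ L ≤ N → ∀ r : ℤ, (R : ℤ) ^ L ∣ r →
    ∑ j ∈ Finset.Ico (K * L) N, Ps ε p L 0 (r - a * (w : ℤ) ^ j) ≤
      C * N * (1 - ε / (8 * (Q : ℝ) ^ 3)) ^ L

/-- sum over pairs -/
def T_PAIR : Prop := ∀ (p v w Q R K : ℕ) (a : ℤ), Std p w Q R K → a ≠ 0 →
  ∃ C κ : ℝ, 0 < C ∧ 0 < κ ∧ κ ≤ 1 ∧ ∀ ε : ℝ, 0 ≤ ε → ε ≤ 1 / 2 → ∀ L N : ℕ, 1 ≤ L → p ^ L ≤ N →
    ∑ i ∈ Finset.range N, ∑ j ∈ Finset.range i,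
      Ps ε p L (v * j) (a * (((p ^ v * w : ℕ) : ℤ) ^ i - ((p ^ v * w : ℕ) : ℤ) ^ j)) ≤
      C * (L * N + (N : ℝ) ^ 2 * (1 - κ * ε) ^ L)

/-! ### C. Random digits -/

/-- integration over finitely many digits -/
def T_RES : Prop := ∀ (ε : ℕ → unitInterval) (W : Finset (ℕ × ℕ)) (h : ℕ × ℕ → Bool → ℂ)
  (H : Om → ℂ), Measurable H → (∀ D, ‖H D‖ ≤ 1) →
  (∀ i ∈ W, ∀ D z, H (Function.update D i z) = H D) →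
  ∫ D, (∏ i ∈ W, h i (D i)) * H D ∂PP ε =
    (∏ i ∈ W, ((1 - (ε i.1 : ℝ) : ℝ) * h i false + ((ε i.1 : ℝ) : ℂ) * h i true)) *
      ∫ D, H D ∂PP ε

/-- measurability -/
def T_NM : Prop := ∀ (Y : Type) [MeasurableSpace Y] (p : ℕ) (S : Y → Y) (τ : ℕ → Y → ℕ),
  Measurable S → (∀ k, Measurable (τ k)) →
  Measurable (fun z : Om × Y => GI p S τ z.1 z.2)

/-- equivariance -/
def T_NQ : Prop := ∀ (Y : Type) (p : ℕ) (S : Y → Y) (τ : ℕ → Y → ℕ) (D : Om) (y : Y), 2 ≤ p →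
  GI p S τ D y ≠ ⊤ → GI p S τ D (S y) ≠ ⊤ ∧ ∃ m : ℕ, p * GR p S τ D y = m + GR p S τ D (S y)

/-- expectation -/
def T_NE : Prop := ∀ (Y : Type) (p : ℕ) (S : Y → Y) (τ : ℕ → Y → ℕ) (ε : ℕ → unitInterval)
  (y : Y), 2 ≤ p → ∫⁻ D, GI p S τ D y ∂PP ε ≤ ∑' k, ENNReal.ofReal (ε k)

/-- expectation of a character -/
def T_FOU : Prop := ∀ (Y : Type) (p : ℕ) (S : Y → Y) (τ : ℕ → Y → ℕ) (ε : ℕ → unitInterval)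
  (y : Y) (x : UnitAddCircle) (b : ℤ) (k M L m : ℕ), 2 ≤ p →
  (∀ᵐ D ∂PP ε, GI p S τ D y ≠ ⊤) → Clk S τ k M y → m + L ≤ M →
  ‖∫ D, (fourier b : C(UnitAddCircle, ℂ)) (x + GC p S τ D y) ∂PP ε‖ ≤
    Ps (ε k) p L m b + 2 * Real.pi * |(b : ℝ)| / (p : ℝ) ^ M

/-- second moment of the averages -/
def T_SEC : Prop := ∀ (p v w Q R K : ℕ) (a : ℤ), Std p w Q R K → a ≠ 0 →
  ∃ C κ : ℝ, 0 < C ∧ 0 < κ ∧ κ ≤ 1 ∧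
  ∀ (Y : Type) (S : Y → Y) (τ : ℕ → Y → ℕ) (ε : ℕ → unitInterval)
  (y : Y) (x : UnitAddCircle) (k M L N : ℕ), 2 ≤ p → (ε k : ℝ) ≤ 1 / 2 →
  (∀ᵐ D ∂PP ε, GI p S τ D y ≠ ⊤) → Clk S τ k M y → 1 ≤ L → p ^ L ≤ N → v * N + L ≤ M →
  ∫ D, ‖wav (p ^ v * w) a (x + GC p S τ D y) N‖ ^ 2 ∂PP ε ≤
    C * (L / N + (1 - κ * ε k) ^ L) + 2 * Real.pi * |(a : ℝ)| * (p ^ v * w : ℝ) ^ N / (p : ℝ) ^ M

/-! ### D. Deterministic facts on averages -/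

/-- summability implies convergence to zero -/
def T_DEL : Prop := ∀ z : ℕ → ℂ, (∀ n, ‖z n‖ ≤ 1) →
  Summable (fun N : ℕ => ‖(1 / (N : ℂ)) * ∑ n ∈ Finset.range N, z n‖ ^ 2 / N) →
  Tendsto (fun N : ℕ => (1 / (N : ℂ)) * ∑ n ∈ Finset.range N, z n) atTop (𝓝 0)

/-- normality in base `q^e` implies normality in base `q` -/
def T_POW : Prop := ∀ (q e : ℕ) (x : UnitAddCircle), 2 ≤ q → 1 ≤ e → Nrm (q ^ e) x → Nrm q x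

/-- summation of the bounds -/
def T_SUM : Prop := ∀ (p : ℕ) (C κ : ℝ) (B : ℕ → ℝ) (n₀ : ℕ), 2 ≤ p → 0 ≤ C → 0 < κ → κ ≤ 1 →
  (∀ N, 0 ≤ B N) →
  (∀ n ≥ n₀, ∀ N, p ^ n ≤ N → N < p ^ (n + 1) →
    B N ≤ C * ((n : ℝ) / N + (1 - κ / 2 ^ Nat.log 4 n) ^ n + (1 / 2) ^ n)) →
  Summable fun N : ℕ => B N / N

/-- normal points are not atoms of invariant measures -/
def T_ATM : Prop := ∀ (p q : ℕ) (μ : Measure UnitAddCircle), 2 ≤ p → IsProbabilityMeasure μ →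
  μ.map (fun x : UnitAddCircle => p • x) = μ → (∀ᵐ x ∂μ, Nrm q x) → ∀ x, μ {x} = 0

/-! ### E. Clocks -/

/-- existence of clocks -/
def T_CLK : Prop := ∀ (Y : Type) [MeasurableSpace Y] (ν : Measure Y) (S : Y → Y) (M : ℕ → ℕ),
  IsProbabilityMeasure ν → MeasurePreserving S ν ν →
  (∀ δ : ℝ≥0∞, 0 < δ → ∃ A, MeasurableSet A ∧ ν A < δ ∧ ∀ᵐ y ∂ν, ∃ n, S^[n] y ∈ A) →
  ∃ τ : ℕ → Y → ℕ, (∀ k, Measurable (τ k)) ∧ ∀ᵐ y ∂ν, ∀ᶠ k in atTop, Clk S τ k (M k) y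

/-- almost every point is normal, for fixed `y` -/
def T_PTW : Prop := ∀ (Y : Type) (p : ℕ) (S : Y → Y) (τ : ℕ → Y → ℕ) (ε : ℕ → unitInterval)
  (y : Y) (x : UnitAddCircle) (δ : ℝ), 2 ≤ p → 0 < δ → δ ≤ 1 →
  (∀ k, (ε k : ℝ) = δ / 2 ^ (k + 2)) →
  (∀ᶠ k in atTop, Clk S τ k ((k + 1) * p ^ 4 ^ (k + 1)) y) →
  ∀ᵐ D ∂PP ε, ∀ q : ℕ, 2 ≤ q → (∀ m n : ℕ, p ^ m = q ^ n → m = 0 ∧ n = 0) →
    Nrm q (x + GC p S τ D y)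

/-- the set of normal points is measurable -/
def T_MSB : Prop := ∀ (α : Type) [MeasurableSpace α] (f : α → UnitAddCircle) (p : ℕ),
  Measurable f → MeasurableSet {x : α | ∀ q : ℕ, 2 ≤ q →
    (∀ m n : ℕ, p ^ m = q ^ n → m = 0 ∧ n = 0) → Nrm q (f x)}

end

end Pool.Agent.LYN
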