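import Pool.Agent.LYN.Basic

set_option autoImplicit false

/-!
# LYN, part 2: all translates at once, targets (statements only; proofs in `Blueprint2.md`)
-/

open MeasureTheory Filter Topology
open scoped ENNReal

namespace Pool.Agent.LYN

noncomputable section

/-- the Fourier coefficients of the law of the random function -/
def eta {Y : Type} [MeasurableSpace Y] (ν : Measure Y) (p : ℕ) (S : Y → Y) (τ : ℕ → Y → ℕ) (D : Om)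
    (b : ℤ) : ℂ := ∫ y, (fourier b : C(UnitAddCircle, ℂ)) (GC p S τ D y) ∂ν

/-- expectation of a character at two points with disjoint clock readings -/
def T_FO2 : Prop := ∀ (Y : Type) (p : ℕ) (S : Y → Y) (τ : ℕ → Y → ℕ) (ε : ℕ → unitInterval)
  (y y' : Y) (b : ℤ) (k M L m : ℕ), 2 ≤ p →
  (∀ᵐ D ∂PP ε, GI p S τ D y ≠ ⊤) → (∀ᵐ D ∂PP ε, GI p S τ D y' ≠ ⊤) →
  Clk S τ k M y → Clk S τ k M y' → (τ k y + M ≤ τ k y' ∨ τ k y' + M ≤ τ k y) → m + L ≤ M →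
  ‖∫ D, (fourier b : C(UnitAddCircle, ℂ)) (GC p S τ D y - GC p S τ D y') ∂PP ε‖ ≤
    Ps (ε k) p L m b + 4 * Real.pi * |(b : ℝ)| / (p : ℝ) ^ M

/-- clocks with bounds -/
def T_CK2 : Prop := ∀ (Y : Type) [MeasurableSpace Y] (ν : Measure Y) (S : Y → Y) (M : ℕ → ℕ)
  (β : ℕ → ℝ≥0∞), IsProbabilityMeasure ν → MeasurePreserving S ν ν → (∀ k, 0 < β k) →
  (∀ δ : ℝ≥0∞, 0 < δ → ∃ A, MeasurableSet A ∧ ν A < δ ∧ ∀ᵐ y ∂ν, ∃ n, S^[n] y ∈ A) →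
  ∃ τ : ℕ → Y → ℕ, (∀ k, Measurable (τ k)) ∧ ∀ k, ν {y | ¬ Clk S τ k (M k) y} ≤ β k ∧
    ∀ j, ν {y | τ k y = j} ≤ β k

/-- second moment of a Fourier coefficient -/
def T_ETA : Prop := ∀ (Y : Type) [MeasurableSpace Y] (ν : Measure Y) (p : ℕ) (S : Y → Y)
  (τ : ℕ → Y → ℕ) (ε : ℕ → unitInterval) (b : ℤ) (k M L m : ℕ) (β : ℝ), 2 ≤ p →
  IsProbabilityMeasure ν → Measurable S → (∀ k, Measurable (τ k)) → 0 ≤ β →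
  (∀ y, ∀ᵐ D ∂PP ε, GI p S τ D y ≠ ⊤) → ν {y | ¬ Clk S τ k M y} ≤ ENNReal.ofReal β →
  (∀ j, ν {y | τ k y = j} ≤ ENNReal.ofReal β) → m + L ≤ M →
  ∫ D, ‖eta ν p S τ D b‖ ^ 2 ∂PP ε ≤
    Ps (ε k) p L m b + 4 * Real.pi * |(b : ℝ)| / (p : ℝ) ^ M + 2 * (M + 1) * β

/-- first moment of the sum of the Fourier coefficients -/
def T_SC2 : Prop := ∀ (p v w Q R K : ℕ) (a : ℤ), Std p w Q R K → a ≠ 0 →
  ∃ C κ : ℝ, 0 < C ∧ 0 < κ ∧ κ ≤ 1 ∧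
  ∀ (Y : Type) [MeasurableSpace Y] (ν : Measure Y) (S : Y → Y) (τ : ℕ → Y → ℕ)
  (ε : ℕ → unitInterval) (k M L N : ℕ) (β : ℝ), 2 ≤ p → (ε k : ℝ) ≤ 1 / 2 →
  IsProbabilityMeasure ν → Measurable S → (∀ k, Measurable (τ k)) → 0 ≤ β →
  (∀ y, ∀ᵐ D ∂PP ε, GI p S τ D y ≠ ⊤) → ν {y | ¬ Clk S τ k M y} ≤ ENNReal.ofReal β →
  (∀ j, ν {y | τ k y = j} ≤ ENNReal.ofReal β) → 1 ≤ L → p ^ L ≤ N → v * N + L ≤ M →
  ∫ D, (1 / (N : ℝ) ^ 2) * ∑ i ∈ Finset.range N, ∑ j ∈ Finset.range N,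
      ‖eta ν p S τ D (a * (((p ^ v * w : ℕ) : ℤ) ^ i - ((p ^ v * w : ℕ) : ℤ) ^ j))‖ ∂PP ε ≤
    Real.sqrt (C * (L / N + (1 - κ * ε k) ^ L) +
      4 * Real.pi * |(a : ℝ)| * (p ^ v * w : ℝ) ^ N / (p : ℝ) ^ M + 2 * (M + 1) * β)

/-- summation of the bounds, with square roots -/
def T_SU2 : Prop := ∀ (p : ℕ) (C κ : ℝ) (B : ℕ → ℝ) (n₀ : ℕ), 2 ≤ p → 0 ≤ C → 0 < κ → κ ≤ 1 →
  (∀ N, 0 ≤ B N) →
  (∀ n : ℕ, n₀ ≤ n → 1 ≤ n → ∀ N : ℕ, p ^ n ≤ N → N < p ^ (n + 1) →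
    B N ≤ Real.sqrt (C * ((n : ℝ) / N + (1 - κ / 2 ^ Nat.log 4 n) ^ n + (1 / 2) ^ n +
      1 / (n : ℝ) ^ 3))) →
  Summable fun N : ℕ => B N / N

/-- from summability of the sums of Fourier coefficients to all translates -/
def T_TRA : Prop := ∀ (Y : Type) [MeasurableSpace Y] (ν : Measure Y) (h : Y → UnitAddCircle)
  (q : ℕ) (a : ℤ), IsProbabilityMeasure ν → Measurable h →
  Summable (fun N : ℕ => ((1 / (N : ℝ) ^ 2) * ∑ i ∈ Finset.range N, ∑ j ∈ Finset.range N,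
      ‖∫ y, (fourier (a * ((q : ℤ) ^ i - (q : ℤ) ^ j)) : C(UnitAddCircle, ℂ)) (h y) ∂ν‖) / N) →
  ∀ x : UnitAddCircle, ∀ᵐ y ∂ν, Tendsto (wav q a (x + h y)) atTop (𝓝 0)

/-- for almost every array all translates are normal almost everywhere -/
def T_PT2 : Prop := ∀ (Y : Type) [MeasurableSpace Y] (ν : Measure Y) (p : ℕ) (S : Y → Y)
  (τ : ℕ → Y → ℕ) (ε : ℕ → unitInterval) (δ : ℝ), 2 ≤ p → 0 < δ → δ ≤ 1 →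
  (∀ k, (ε k : ℝ) = δ / 2 ^ (k + 2)) → IsProbabilityMeasure ν → Measurable S →
  (∀ k, Measurable (τ k)) →
  (∀ k, ν {y | ¬ Clk S τ k ((k + 1) * p ^ 4 ^ (k + 1)) y} ≤
    ENNReal.ofReal (1 / (64 ^ (k + 1) * ((k + 1) * p ^ 4 ^ (k + 1) + 1)))) →
  (∀ k j, ν {y | τ k y = j} ≤
    ENNReal.ofReal (1 / (64 ^ (k + 1) * ((k + 1) * p ^ 4 ^ (k + 1) + 1)))) →
  ∀ᵐ D ∂PP ε, ∀ x : UnitAddCircle, ∀ᵐ y ∂ν, ∀ q : ℕ, 2 ≤ q →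
    (∀ m n : ℕ, p ^ m = q ^ n → m = 0 ∧ n = 0) → Nrm q (x + GC p S τ D y)

end

end Pool.Agent.LYN
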